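import Pool.Agent.ZC.Line

/-!
Module Group (project ZC, helper83).  From the generic case to all pairs.
PROOF.  Work in M = Cycles a b / ratZero (or with congruences), e(P) = [P,Q] - [0,Q].  e(0) = 0 and
e(U)+e(V) = e(U+V) if U,V != 0, U != +-V (add_left_generic).  Pt a is infinite (k algebraically closed: every x
has a y) and {T | 2T = V} is finite (<= 4 elements: differences are 2-torsion, y = 0, x in {0,1,a}).
(1) e(R)+e(-R)=0 for all R != 0: choose P with (P,R) and (P+R,-R) generic (P not in {0,R,-R,-2R}; P+R != 0,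
P+R != +-R): e(P)+e(R)=e(P+R), e(P+R)+e(-R)=e(P).
(2) any U,V != 0: choose W (avoiding finitely many values) with (V+W,-W), (U,V+W), (U+V+W,-W) generic
or trivial: e(V+W)+e(-W)=e(V), e(U)+e(V+W)=e(U+V+W), e(U+V+W)+e(-W)=e(U+V).  Conditions: W != 0,
V+W != 0, V+W != -W (2W != -V), V+W != W (V != 0); U != 0, V+W != +-U; U+V+W != 0, U+V+W != -W
(2W != -(U+V)), and U+V+W = W only if U+V=0, in which case use (1) directly (V = -U).
U = 0 or V = 0: trivial.
-/

namespace ZC

open Polynomial WeierstrassCurve
open scoped Classical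

variable {k : Type} [Field k] [IsAlgClosed k] [CharZero k]

/-- additivity from generic additivity, abstract version -/
theorem group_additive {G M : Type*} [AddCommGroup G] [AddCommGroup M] (hG : Infinite G)
    (h2 : ∀ V : G, {T : G | T + T = V}.Finite) (e : G → M) (he0 : e 0 = 0)
    (he : ∀ U V : G, U ≠ 0 → V ≠ 0 → U ≠ V → U ≠ -V → e (U + V) = e U + e V) (U V : G) :
    e (U + V) = e U + e V := by
  have key : ∀ S : Set G, S.Finite → ∃ P : G, P ∉ S := fun S hS => hS.infinite_compl.nonempty
  have hneg : ∀ R : G, R ≠ 0 → e R + e (-R) = 0 := by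
    intro R hR
    obtain ⟨P, hP⟩ := key {0, R, -R, -R - R} (Set.toFinite _)
    simp only [Set.mem_insert_iff, Set.mem_singleton_iff, not_or] at hP
    obtain ⟨hP0, hPR, hPR', hP2⟩ := hP
    have h3 := he P R hP0 hR hPR hPR'
    have h4 := he (P + R) (-R) (fun h => hPR' (eq_neg_of_add_eq_zero_left h))
      (neg_ne_zero.2 hR) (fun h => hP2 (by rw [← h]; abel))
      (fun h => hP0 (by rw [neg_neg] at h; simpa using h))
    rw [add_neg_cancel_right, h3] at h4
    have h5 : e P + (e R + e (-R)) = e P + 0 := by rw [← add_assoc, ← h4, add_zero]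
    exact add_left_cancel h5
  by_cases hU : U = 0
  · rw [hU, he0, zero_add, zero_add]
  by_cases hV : V = 0
  · rw [hV, he0, add_zero, add_zero]
  by_cases hUV : U + V = 0
  · have h3 : V = -U := eq_neg_of_add_eq_zero_right hUV
    rw [hUV, he0, h3, hneg U hU]
  obtain ⟨W, hW⟩ := key ({0, -V, U - V, -U - V} ∪ ({T : G | T + T = -V} ∪
    {T : G | T + T = -(U + V)})) ((Set.toFinite _).union ((h2 _).union (h2 _)))
  simp only [Set.mem_union, Set.mem_insert_iff, Set.mem_singleton_iff, Set.mem_setOf_eq,
    not_or] at hW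
  obtain ⟨⟨hW0, hW1, hW2, hW3⟩, hW4, hW5⟩ := hW
  have a1 := he (V + W) (-W) (fun h => hW1 (eq_neg_of_add_eq_zero_right h))
    (neg_ne_zero.2 hW0)
    (fun h => hW4 (by
      have h6 : W + W = (V + W) - V + W := by abel
      rw [h6, h]; abel))
    (fun h => hV (by rw [neg_neg] at h; simpa using h))
  have a2 := he U (V + W) hU (fun h => hW1 (eq_neg_of_add_eq_zero_right h))
    (fun h => hW2 (by rw [h]; abel)) (fun h => hW3 (by rw [h]; abel))
  have a3 := he (U + (V + W)) (-W)
    (fun h => hW3 (by
      have h6 : W = (U + (V + W)) - U - V := by abel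
      rw [h6, h]; abel))
    (neg_ne_zero.2 hW0)
    (fun h => hW5 (by
      have h6 : W + W = (U + (V + W)) - (U + V) + W := by abel
      rw [h6, h]; abel))
    (fun h => hUV (by
      rw [neg_neg] at h
      have h6 : U + V = (U + (V + W)) - W := by abel
      rw [h6, h]; abel))
  rw [add_neg_cancel_right] at a1
  have h7 : U + (V + W) + -W = U + V := by abel
  rw [h7, a2] at a3
  rw [a3, a1, add_assoc]

theorem infinite_Pt {a : k} (ha0 : a ≠ 0) (ha1 : a ≠ 1) : Infinite (Pt a) := by
  have hk : Infinite k := inferInstance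
  have h : ∀ x : k, ∃ y : k, y ^ 2 = x * (x - 1) * (x - a) := fun x => by
    obtain ⟨y, hy⟩ := IsAlgClosed.exists_pow_nat_eq (x * (x - 1) * (x - a)) (n := 2) (by norm_num)
    exact ⟨y, hy⟩
  choose y hy using h
  let f : k → Pt a := fun x => Affine.Point.some x (y x)
    ((leg_nonsingular a x (y x) two_ne_zero ha0 ha1).2 (hy x))
  refine Infinite.of_injective f fun x x' hx => ?_
  have h1 : xc (f x) = xc (f x') := by rw [hx]
  exact h1

theorem finite_halves {a : k} (V : Pt a) : {T : Pt a | T + T = V}.Finite := by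
  have h0 : {T : Pt a | T + T = 0}.Finite := by
    let f : Pt a → Option k := fun T => match T with
      | .zero => none
      | .some x _ _ => some x
    have hy : ∀ (x y : k) (h : (leg a).toAffine.Nonsingular x y),
        (Affine.Point.some x y h : Pt a) + Affine.Point.some x y h = 0 →
        y = 0 ∧ x * (x - 1) * (x - a) = 0 := by
      intro x y h h1
      have h2 : (Affine.Point.some x y h : Pt a) = -Affine.Point.some x y h :=
        eq_neg_of_add_eq_zero_left h1
      rw [Affine.Point.neg_some] at h2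
      have h3 : yc (Affine.Point.some x y h : Pt a) =
          yc (Affine.Point.some x ((leg a).toAffine.negY x y)
            ((Affine.nonsingular_neg x y).2 h) : Pt a) := congrArg yc h2
      have h4 : y = (leg a).toAffine.negY x y := h3
      rw [Affine.negY] at h4
      simp only [leg] at h4
      have h5 : y = 0 := by
        have h6 : (2 : k) * y = 0 := by linear_combination h4
        rcases mul_eq_zero.1 h6 with h7 | h7
        · exact absurd h7 two_ne_zero
        · exact h7
      refine ⟨h5, ?_⟩
      have h8 := (leg_equation a x y).1 h.1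
      rw [← h8, h5]; ring
    refine Set.Finite.of_injOn (f := f) (t := {none, some 0, some 1, some a}) ?_ ?_
      (Set.toFinite _)
    · rintro (_ | ⟨x, y, h⟩) hT
      · exact Or.inl rfl
      · obtain ⟨-, h1⟩ := hy x y h hT
        change some x ∈ _
        simp only [Set.mem_insert_iff, Set.mem_singleton_iff, Option.some.injEq, reduceCtorEq,
          false_or]
        rcases mul_eq_zero.1 h1 with h2 | h2
        · rcases mul_eq_zero.1 h2 with h3 | h3
          · exact Or.inl h3
          · exact Or.inr (Or.inl (by linear_combination h3))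
        · exact Or.inr (Or.inr (by linear_combination h2))
    · rintro (_ | ⟨x, y, h⟩) hT (_ | ⟨x', y', h'⟩) hT' hf
      · rfl
      · exact absurd hf (by simp [f])
      · exact absurd hf (by simp [f])
      · obtain ⟨h1, -⟩ := hy x y h hT
        obtain ⟨h2, -⟩ := hy x' y' h' hT'
        have h3 : x = x' := Option.some.inj hf
        subst h3 h1 h2
        rfl
  by_cases hV : ∃ T₀ : Pt a, T₀ + T₀ = V
  · obtain ⟨T₀, hT₀⟩ := hV
    refine (h0.image (fun T => T + T₀)).subset fun T hT => ⟨T - T₀, ?_, by simp⟩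
    have h1 : T + T = V := hT
    change T - T₀ + (T - T₀) = 0
    have h2 : T - T₀ + (T - T₀) = (T + T) - (T₀ + T₀) := by abel
    rw [h2, h1, hT₀, sub_self]
  · refine Set.finite_empty.subset fun T hT => ?_
    exact (hV ⟨T, hT⟩).elim

theorem add_left {a b : k} (ha0 : a ≠ 0) (ha1 : a ≠ 1) (hb0 : b ≠ 0) (hb1 : b ≠ 1)
    (P P' : Pt a) (Q : Pt b) :
    Finsupp.single (P + P', Q) 1 + Finsupp.single ((0 : Pt a), Q) 1 - Finsupp.single (P, Q) 1
      - Finsupp.single (P', Q) 1 ∈ ratZero a b := by
  let mk := QuotientAddGroup.mk' (ratZero a b)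
  let g : Pt a → Cycles a b := fun P => Finsupp.single (P, Q) 1 - Finsupp.single ((0 : Pt a), Q) 1
  let e : Pt a → Cycles a b ⧸ ratZero a b := fun P => mk (g P)
  have hg : ∀ U V : Pt a, Finsupp.single (U + V, Q) 1 + Finsupp.single ((0 : Pt a), Q) 1 -
      Finsupp.single (U, Q) 1 - Finsupp.single (V, Q) 1 = g (U + V) - (g U + g V) := by
    intro U V
    simp only [g]
    abel
  have hiff : ∀ U V : Pt a, Finsupp.single (U + V, Q) 1 + Finsupp.single ((0 : Pt a), Q) 1 -
      Finsupp.single (U, Q) 1 - Finsupp.single (V, Q) 1 ∈ ratZero a b ↔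
      e (U + V) = e U + e V := by
    intro U V
    rw [hg, ← QuotientAddGroup.eq_zero_iff]
    change mk (g (U + V) - (g U + g V)) = 0 ↔ mk (g (U + V)) = mk (g U) + mk (g V)
    rw [map_sub, map_add, sub_eq_zero]
  rw [hiff]
  refine group_additive (infinite_Pt ha0 ha1) finite_halves e ?_ ?_ P P'
  · change mk (g 0) = 0
    have : g 0 = 0 := sub_self _
    rw [this, map_zero]
  · intro U V hU hV hne hne'
    exact (hiff U V).1 (add_left_generic ha0 ha1 hb0 hb1 U V Q hU hV hne hne')

end ZC
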