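import Pool.Agent.ZC.Defs

/-!
# Zero-cycles on a product of elliptic curves

`ι` is a finite type, `X` is the product of the Legendre curves `E_{a i}`, `i : ι`.  A morphism from a
smooth projective curve with function field `K` to `X` is a family of points of `E_{a i}` over `K`.
-/

namespace ZC

open Polynomial WeierstrassCurve
open scoped Classical

/-- The zero-cycles on the product of the curves `E_{a i}`. -/
abbrev CyclesN {k : Type} [Field k] {ι : Type} (a : ι → k) : Type := (∀ i, Pt (a i)) →₀ ℤ

/-- The zero-cycle `c` on the product is the image of the divisor of a function `f ≠ 0` on a curve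
`C` under a morphism `x` from `C` to the product. -/
def IsPrincipalN {k : Type} [Field k] {ι : Type} (a : ι → k) (c : CyclesN a) : Prop :=
  ∃ (K : Type) (_ : Field K) (_ : Algebra k K), IsFunctionField k K ∧
    ∃ (x : ∀ i, Pt (algebraMap k K (a i))) (f : K), f ≠ 0 ∧
      ∀ p : ∀ i, Pt (a i), c p =
        ∑ᶠ (w : Place k K) (_ : ∀ i, SpecializesTo w (x i) (p i)), w.ord f

/-- The zero-cycles on the product of the curves `E_{a i}` rationally equivalent to zero. -/
noncomputable def ratZeroN {k : Type} [Field k] {ι : Type} (a : ι → k) :
    AddSubgroup (CyclesN a) :=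
  AddSubgroup.closure {c | IsPrincipalN a c}

end ZC
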