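import Pool.Agent.ZC.Basic

/-! Calculus of residues at a place (helper83). -/

namespace ZC

open Polynomial WeierstrassCurve
open scoped Classical

variable {k K : Type} [Field k] [Field K] [Algebra k K]

/-- `F` has the value `c` at the place `w`. -/
def Res (w : Place k K) (F : K) (c : k) : Prop := w.v (F - algebraMap k K c) < 1

theorem Place.v_const_le (w : Place k K) (c : k) : w.v (algebraMap k K c) ≤ 1 := by
  by_cases hc : c = 0
  · simp [hc]
  · exact (w.triv c hc).le

theorem Res.le_one {w : Place k K} {F : K} {c : k} (h : Res w F c) : w.v F ≤ 1 := by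
  have : F = (F - algebraMap k K c) + algebraMap k K c := by ring
  rw [this]
  exact (w.v.map_add _ _).trans (max_le h.le (w.v_const_le c))

theorem Res.const (w : Place k K) (c : k) : Res w (algebraMap k K c) c := by
  simp [Res]

theorem Res.natCast (w : Place k K) (n : ℕ) : Res w (n : K) (n : k) := by
  simp [Res]

theorem Res.zero (w : Place k K) : Res w 0 0 := by simp [Res]

theorem Res.one (w : Place k K) : Res w 1 1 := by simp [Res]

theorem Res.ofNat (w : Place k K) (n : ℕ) [n.AtLeastTwo] :
    Res w (OfNat.ofNat n : K) (OfNat.ofNat n : k) := by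
  rw [Res, map_ofNat, sub_self, map_zero]
  exact zero_lt_one

theorem Res.add {w : Place k K} {F G : K} {c d : k} (h : Res w F c) (h' : Res w G d) :
    Res w (F + G) (c + d) := by
  have : F + G - algebraMap k K (c + d) = (F - algebraMap k K c) + (G - algebraMap k K d) := by
    rw [map_add]; ring
  rw [Res, this]
  exact (w.v.map_add _ _).trans_lt (max_lt h h')

theorem Res.neg {w : Place k K} {F : K} {c : k} (h : Res w F c) : Res w (-F) (-c) := by
  have : -F - algebraMap k K (-c) = -(F - algebraMap k K c) := by
    rw [map_neg]; ring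
  rw [Res, this, Valuation.map_neg]
  exact h

theorem Res.sub {w : Place k K} {F G : K} {c d : k} (h : Res w F c) (h' : Res w G d) :
    Res w (F - G) (c - d) := by
  rw [sub_eq_add_neg, sub_eq_add_neg]
  exact h.add h'.neg

theorem Res.mul {w : Place k K} {F G : K} {c d : k} (h : Res w F c) (h' : Res w G d) :
    Res w (F * G) (c * d) := by
  have : F * G - algebraMap k K (c * d) =
      (F - algebraMap k K c) * G + algebraMap k K c * (G - algebraMap k K d) := by
    rw [map_mul]; ring
  rw [Res, this]
  refine (w.v.map_add _ _).trans_lt (max_lt ?_ ?_)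
  · rw [map_mul]
    have h1 : w.v (F - algebraMap k K c) < 1 := h
    exact (mul_le_mul_right h'.le_one _).trans_lt (by simpa using h1)
  · rw [map_mul]
    have h1 : w.v (G - algebraMap k K d) < 1 := h'
    exact (mul_le_mul_left (w.v_const_le c) _).trans_lt (by simpa using h1)

theorem Res.pow {w : Place k K} {F : K} {c : k} (h : Res w F c) (n : ℕ) :
    Res w (F ^ n) (c ^ n) := by
  induction n with
  | zero => simpa using Res.one w
  | succ n ih => rw [pow_succ, pow_succ]; exact ih.mul h

theorem Res.v_eq_one {w : Place k K} {F : K} {c : k} (h : Res w F c) (hc : c ≠ 0) :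
    w.v F = 1 := by
  have : F = (F - algebraMap k K c) + algebraMap k K c := by ring
  have h1 : w.v (F - algebraMap k K c) < w.v (algebraMap k K c) := by
    rw [w.triv c hc]; exact h
  rw [this, Valuation.map_add_eq_of_lt_right _ h1, w.triv c hc]

theorem Res.inv {w : Place k K} {F : K} {c : k} (h : Res w F c) (hc : c ≠ 0) :
    Res w F⁻¹ c⁻¹ := by
  have hF1 := h.v_eq_one hc
  have hF : F ≠ 0 := by
    intro h0; rw [h0, map_zero] at hF1; exact zero_ne_one hF1
  have hc' : algebraMap k K c ≠ 0 := by simpa using hc
  have : F⁻¹ - algebraMap k K c⁻¹ = -(F - algebraMap k K c) * (F * algebraMap k K c)⁻¹ := by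
    rw [map_inv₀]; field_simp; ring
  have h1 : w.v (F - algebraMap k K c) < 1 := h
  rw [Res, this, map_mul, Valuation.map_neg, map_inv₀, map_mul, hF1, w.triv c hc]
  simpa using h1

theorem Res.div {w : Place k K} {F G : K} {c d : k} (h : Res w F c) (h' : Res w G d)
    (hd : d ≠ 0) : Res w (F / G) (c / d) := by
  rw [div_eq_mul_inv, div_eq_mul_inv]
  exact h.mul (h'.inv hd)

theorem Res.unique {w : Place k K} {F : K} {c d : k} (h : Res w F c) (h' : Res w F d) :
    c = d := by
  by_contra hne
  have h1 : Res w (F - F) (c - d) := h.sub h'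
  have h2 := h1.v_eq_one (sub_ne_zero.2 hne)
  simp at h2

theorem Res.congr {w : Place k K} {F : K} {c d : k} (h : Res w F c) (e : c = d) : Res w F d :=
  e ▸ h

theorem Res.congr' {w : Place k K} {F G : K} {c : k} (h : Res w F c) (e : F = G) : Res w G c :=
  e ▸ h

/-- poles -/
theorem Place.v_add_pole {w : Place k K} {F : K} {G : K} (hF : 1 < w.v F) (hG : w.v G ≤ 1) :
    w.v (G + F) = w.v F :=
  Valuation.map_add_eq_of_lt_right _ (hG.trans_lt hF)

theorem SpecializesTo.unique {w : Place k K} {a : k} {P : Pt (algebraMap k K a)} {p p' : Pt a}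
    (h : SpecializesTo w P p) (h' : SpecializesTo w P p') : p = p' := by
  rcases P with _ | ⟨X, Y, hP⟩ <;> rcases p with _ | ⟨x, y, hp⟩ <;>
    rcases p' with _ | ⟨x', y', hp'⟩
  · rfl
  · exact h'.elim
  · exact h.elim
  · exact h.elim
  · rfl
  · exact absurd (Res.le_one (w := w) (F := X) (c := x') h'.1) (not_le.2 h)
  · exact absurd (Res.le_one (w := w) (F := X) (c := x) h.1) (not_le.2 h')
  · have e1 : x = x' := Res.unique (w := w) (F := X) h.1 h'.1
    have e2 : y = y' := Res.unique (w := w) (F := Y) h.2 h'.2
    subst e1; subst e2; rfl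

end ZC
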