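import Pool.Agent.ZC.Swap
import Pool.Agent.ZC.ResAux

/-!
Module IsoU (project ZC, helper83): isomorphisms between Legendre curves.
PROOF.  (x,y) -> (u^2 x + r, u^3 y) from E_{c'} to E_c, over every field K containing k.
 c' = 1 - c: u^2 = -1, r = 1 (X = 1 - x, Y = u^3 y);  c' = 1/c: u^2 = c, r = 0 (X = c x).
General lemma: if 3r - (1+c) = -u^2 (1+c'), 3r^2 - 2r(1+c) + c = u^4 c', r(r-1)(r-c) = 0 and u != 0, the map is well defined
(nonsingular points: leg_nonsingular of Basic.lean), additive (Affine.Point.add_some cases, slope' = u * slope) and injective.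
Corr: map K, base = the same map, odd clear, spec by the Res calculus of ResAux.lean (compare Landen.lean).
-/

namespace ZC

open Polynomial WeierstrassCurve
open scoped Classical

variable {k : Type} [Field k] [IsAlgClosed k] [CharZero k]

/-- the data of an isomorphism `E_{c'} → E_c` -/
private structure IsoData {F : Type*} [Field F] (c' c u r : F) : Prop where
  h2 : (2 : F) ≠ 0
  c0 : c ≠ 0
  c1 : c ≠ 1
  u0 : u ≠ 0
  e1 : 3 * r - (1 + c) = -u ^ 2 * (1 + c')
  e2 : 3 * r ^ 2 - 2 * r * (1 + c) + c = u ^ 4 * c'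
  e3 : r * (r - 1) * (r - c) = 0

private theorem IsoData.nonsing {F : Type*} [Field F] {c' c u r : F} (H : IsoData c' c u r)
    {x y : F} (h : (leg c').toAffine.Nonsingular x y) :
    (leg c).toAffine.Nonsingular (u ^ 2 * x + r) (u ^ 3 * y) := by
  rw [leg_nonsingular c _ _ H.h2 H.c0 H.c1]
  have he : y ^ 2 = x * (x - 1) * (x - c') := (leg_equation c' x y).1 h.1
  have e1 := H.e1
  have e2 := H.e2
  have e3 := H.e3
  linear_combination u ^ 6 * he - u ^ 4 * x ^ 2 * e1 - u ^ 2 * x * e2 - e3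

private noncomputable def isoMap {F : Type*} [Field F] {c' c u r : F} (H : IsoData c' c u r) :
    Pt c' → Pt c
  | .zero => .zero
  | .some x y h => .some (u ^ 2 * x + r) (u ^ 3 * y) (H.nonsing h)

private theorem isoMap_zero {F : Type*} [Field F] {c' c u r : F} (H : IsoData c' c u r) :
    isoMap H 0 = 0 := rfl

private theorem isoMap_some {F : Type*} [Field F] {c' c u r : F} (H : IsoData c' c u r)
    {x y : F} (h : (leg c').toAffine.Nonsingular x y) :
    isoMap H (.some x y h) = .some (u ^ 2 * x + r) (u ^ 3 * y) (H.nonsing h) := rfl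

private theorem iso_negY {F : Type*} [Field F] (c x y : F) :
    (leg c).toAffine.negY x y = -y := by
  simp [Affine.negY, leg]

private theorem isoMap_inj {F : Type*} [Field F] {c' c u r : F} (H : IsoData c' c u r) :
    Function.Injective (isoMap H) := by
  rintro (_ | ⟨x, y, h⟩) (_ | ⟨x', y', h'⟩) e
  · rfl
  · exact (Affine.Point.some_ne_zero _ e.symm).elim
  · exact (Affine.Point.some_ne_zero _ e).elim
  · rw [isoMap_some, isoMap_some, Affine.Point.some.injEq] at e
    obtain ⟨e1, e2⟩ := e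
    have h1 : x = x' := by
      have : u ^ 2 * (x - x') = 0 := by linear_combination e1
      rcases mul_eq_zero.1 this with h0 | h0
      · exact absurd h0 (pow_ne_zero _ H.u0)
      · exact sub_eq_zero.1 h0
    have h2 : y = y' := by
      have : u ^ 3 * (y - y') = 0 := by linear_combination e2
      rcases mul_eq_zero.1 this with h0 | h0
      · exact absurd h0 (pow_ne_zero _ H.u0)
      · exact sub_eq_zero.1 h0
    subst h1; subst h2; rfl

private theorem isoMap_neg {F : Type*} [Field F] {c' c u r : F} (H : IsoData c' c u r)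
    (p : Pt c') : isoMap H (-p) = -isoMap H p := by
  rcases p with _ | ⟨x, y, h⟩
  · rfl
  · rw [Affine.Point.neg_some, isoMap_some, isoMap_some, Affine.Point.neg_some,
      Affine.Point.some.injEq]
    refine ⟨rfl, ?_⟩
    rw [iso_negY, iso_negY]
    ring

private theorem iso_slope {F : Type*} [Field F] {c' c u r : F} (H : IsoData c' c u r)
    {x₁ x₂ y₁ y₂ : F} (hxy : ¬(x₁ = x₂ ∧ y₁ = -y₂))
    (h₁ : (leg c').toAffine.Equation x₁ y₁) (h₂ : (leg c').toAffine.Equation x₂ y₂) :
    (leg c).toAffine.slope (u ^ 2 * x₁ + r) (u ^ 2 * x₂ + r) (u ^ 3 * y₁) (u ^ 3 * y₂)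
      = u * (leg c').toAffine.slope x₁ x₂ y₁ y₂ := by
  have hu := H.u0
  by_cases hx : x₁ = x₂
  · subst hx
    have hy : y₁ ≠ -y₂ := fun h => hxy ⟨rfl, h⟩
    have hyy : y₁ = y₂ := by
      have q1 := (leg_equation c' x₁ y₁).1 h₁
      have q2 := (leg_equation c' x₁ y₂).1 h₂
      have q3 : (y₁ - y₂) * (y₁ + y₂) = 0 := by linear_combination q1 - q2
      rcases mul_eq_zero.1 q3 with h | h
      · exact sub_eq_zero.1 h
      · exact absurd (eq_neg_of_add_eq_zero_left h) hy
    subst hyy
    have hy0 : y₁ ≠ 0 := by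
      rintro rfl
      exact hy (by simp)
    have hy2 : y₁ ≠ (leg c').toAffine.negY x₁ y₁ := by rw [iso_negY]; exact hy
    have hY2 : u ^ 3 * y₁ ≠ (leg c).toAffine.negY (u ^ 2 * x₁ + r) (u ^ 3 * y₁) := by
      rw [iso_negY]
      intro h
      have h3 : u ^ 3 * (2 * y₁) = 0 := by linear_combination h
      rcases mul_eq_zero.1 h3 with h4 | h4
      · exact pow_ne_zero _ hu h4
      · rcases mul_eq_zero.1 h4 with h5 | h5
        · exact H.h2 h5
        · exact hy0 h5
    rw [Affine.slope_of_Y_ne rfl hY2, Affine.slope_of_Y_ne rfl hy2, iso_negY, iso_negY]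
    have e1 := H.e1
    have e2 := H.e2
    have h2 := H.h2
    have d1 : y₁ - -y₁ ≠ 0 := by
      intro h
      have : (2 : F) * y₁ = 0 := by linear_combination h
      rcases mul_eq_zero.1 this with h5 | h5
      · exact h2 h5
      · exact hy0 h5
    have d2 : u ^ 3 * y₁ - -(u ^ 3 * y₁) ≠ 0 := by
      intro h
      have h3 : u ^ 3 * (y₁ - -y₁) = 0 := by linear_combination h
      rcases mul_eq_zero.1 h3 with h4 | h4
      · exact pow_ne_zero _ hu h4
      · exact d1 h4
    simp only [leg]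
    rw [mul_div_assoc', div_eq_div_iff d2 d1]
    linear_combination (2 * y₁ * 2 * u ^ 2 * x₁) * e1 + (2 * y₁) * e2
  · have hX : u ^ 2 * x₁ + r ≠ u ^ 2 * x₂ + r := by
      intro h
      have h3 : u ^ 2 * (x₁ - x₂) = 0 := by linear_combination h
      rcases mul_eq_zero.1 h3 with h4 | h4
      · exact pow_ne_zero _ hu h4
      · exact hx (sub_eq_zero.1 h4)
    rw [Affine.slope_of_X_ne hX, Affine.slope_of_X_ne hx]
    have d1 : x₁ - x₂ ≠ 0 := sub_ne_zero.2 hx
    have d2 : u ^ 2 * x₁ + r - (u ^ 2 * x₂ + r) ≠ 0 := sub_ne_zero.2 hX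
    rw [mul_div_assoc', div_eq_div_iff d2 d1]
    ring

private theorem isoMap_add {F : Type*} [Field F] {c' c u r : F} (H : IsoData c' c u r)
    (P Q : Pt c') : isoMap H (P + Q) = isoMap H P + isoMap H Q := by
  rcases P with _ | ⟨x₁, y₁, h₁⟩
  · change isoMap H (0 + Q) = 0 + isoMap H Q
    rw [zero_add, zero_add]
  rcases Q with _ | ⟨x₂, y₂, h₂⟩
  · change isoMap H (Affine.Point.some x₁ y₁ h₁ + 0) = isoMap H (Affine.Point.some x₁ y₁ h₁) + 0
    rw [add_zero, add_zero]
  by_cases hxy : x₁ = x₂ ∧ y₁ = -y₂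
  · obtain ⟨hx, hy⟩ := hxy
    rw [Affine.Point.add_of_Y_eq hx (by rw [iso_negY]; exact hy), isoMap_some, isoMap_some,
      Affine.Point.add_of_Y_eq (by rw [hx]) (by rw [iso_negY, hy]; ring)]
    rfl
  · have hxy' : ¬(x₁ = x₂ ∧ y₁ = (leg c').toAffine.negY x₂ y₂) := by rwa [iso_negY]
    have hXY' : ¬(u ^ 2 * x₁ + r = u ^ 2 * x₂ + r ∧
        u ^ 3 * y₁ = (leg c).toAffine.negY (u ^ 2 * x₂ + r) (u ^ 3 * y₂)) := by
      rw [iso_negY]
      rintro ⟨q1, q2⟩
      apply hxy
      constructor
      · have h3 : u ^ 2 * (x₁ - x₂) = 0 := by linear_combination q1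
        rcases mul_eq_zero.1 h3 with h4 | h4
        · exact absurd h4 (pow_ne_zero _ H.u0)
        · exact sub_eq_zero.1 h4
      · have h3 : u ^ 3 * (y₁ + y₂) = 0 := by linear_combination q2
        rcases mul_eq_zero.1 h3 with h4 | h4
        · exact absurd h4 (pow_ne_zero _ H.u0)
        · exact eq_neg_of_add_eq_zero_left h4
    rw [Affine.Point.add_some hxy', isoMap_some, isoMap_some, isoMap_some,
      Affine.Point.add_some hXY', Affine.Point.some.injEq]
    have hs := iso_slope H hxy h₁.1 h₂.1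
    rw [hs]
    set ℓ := (leg c').toAffine.slope x₁ x₂ y₁ y₂ with hℓ
    have e1 := H.e1
    have hX : u ^ 2 * (leg c').toAffine.addX x₁ x₂ ℓ + r
        = (leg c).toAffine.addX (u ^ 2 * x₁ + r) (u ^ 2 * x₂ + r) (u * ℓ) := by
      simp only [Affine.addX, leg]
      linear_combination e1
    refine ⟨hX, ?_⟩
    have hY1 : ∀ (a z₁ z₂ w l : F), (leg a).toAffine.addY z₁ z₂ w l
        = -(l * ((leg a).toAffine.addX z₁ z₂ l - z₁) + w) := by
      intro a z₁ z₂ w l
      rw [Affine.addY, iso_negY, Affine.negAddY]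
    rw [hY1, hY1, ← hX]
    ring

omit [IsAlgClosed k] [CharZero k] in
private theorem IsoData.map {c' c u r : k} (H : IsoData c' c u r) (K : Type) [Field K]
    [Algebra k K] : IsoData (algebraMap k K c') (algebraMap k K c) (algebraMap k K u)
      (algebraMap k K r) where
  h2 := by
    rw [← map_ofNat (algebraMap k K) 2]
    simpa using H.h2
  c0 := by simpa using H.c0
  c1 := by
    intro h1
    exact H.c1 ((algebraMap k K).injective (by rw [h1, map_one]))
  u0 := by simpa using H.u0
  e1 := by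
    have := congrArg (algebraMap k K) H.e1
    simp only [map_sub, map_mul, map_add, map_one, map_neg, map_pow, map_ofNat] at this
    exact this
  e2 := by
    have := congrArg (algebraMap k K) H.e2
    simp only [map_sub, map_mul, map_add, map_one, map_pow, map_ofNat] at this
    exact this
  e3 := by
    have := congrArg (algebraMap k K) H.e3
    simpa using this

omit [IsAlgClosed k] [CharZero k] in
private theorem isoMap_spec {c' c u r : k} (H : IsoData c' c u r) (K : Type) [Field K]
    [Algebra k K] (w : Place k K) (P : Pt (algebraMap k K c')) (p : Pt c')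
    (h : SpecializesTo w P p) : SpecializesTo w (isoMap (H.map K) P) (isoMap H p) := by
  rcases P with _ | ⟨X, Y, hP⟩ <;> rcases p with _ | ⟨x, y, hp⟩
  · exact trivial
  · exact h.elim
  · have hX1 : 1 < w.v X := h
    rw [isoMap_some]
    change 1 < w.v (algebraMap k K u ^ 2 * X + algebraMap k K r)
    have hu : w.v (algebraMap k K u) = 1 := w.triv u H.u0
    have e1 : w.v (algebraMap k K u ^ 2 * X) = w.v X := by
      rw [map_mul, map_pow, hu, one_pow, one_mul]
    rw [add_comm, Place.v_add_pole (by rw [e1]; exact hX1) (w.v_const_le r), e1]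
    exact hX1
  · have hXx : Res w X x := h.1
    have hYy : Res w Y y := h.2
    rw [isoMap_some, isoMap_some]
    have hU : Res w (algebraMap k K u) u := Res.const w u
    have hR : Res w (algebraMap k K r) r := Res.const w r
    refine ⟨?_, ?_⟩
    · change Res w (algebraMap k K u ^ 2 * X + algebraMap k K r) (u ^ 2 * x + r)
      exact ((hU.pow 2).mul hXx).add hR
    · change Res w (algebraMap k K u ^ 3 * Y) (u ^ 3 * y)
      exact (hU.pow 3).mul hYy

omit [IsAlgClosed k] [CharZero k] in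
private theorem exists_corr_of_data {c' c u r : k} (H : IsoData c' c u r) :
    ∃ Θ : Corr c' c, (∀ P Q, Θ.base (P + Q) = Θ.base P + Θ.base Q) ∧
      Function.Injective Θ.base :=
  ⟨⟨fun K _ _ => isoMap (H.map K), isoMap H, isoMap_neg H,
    fun K _ _ w P p h => isoMap_spec H K w P p h⟩, isoMap_add H, isoMap_inj H⟩

theorem exists_iso_one {c : k} (hc0 : c ≠ 0) (hc1 : c ≠ 1) :
    ∃ Θ : Corr (1 - c) c, (∀ P Q, Θ.base (P + Q) = Θ.base P + Θ.base Q) ∧
      Function.Injective Θ.base := by
  obtain ⟨u, hu⟩ := IsAlgClosed.exists_pow_nat_eq (-1 : k) (n := 2) (by norm_num)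
  refine exists_corr_of_data (u := u) (r := 1) ⟨two_ne_zero, hc0, hc1, ?_, ?_, ?_, ?_⟩
  · rintro rfl
    norm_num at hu
  · rw [hu]; ring
  · have : u ^ 4 = 1 := by
      calc u ^ 4 = (u ^ 2) ^ 2 := by ring
        _ = 1 := by rw [hu]; ring
    rw [this]; ring
  · ring

theorem exists_iso_inv {c : k} (hc0 : c ≠ 0) (hc1 : c ≠ 1) :
    ∃ Θ : Corr c⁻¹ c, (∀ P Q, Θ.base (P + Q) = Θ.base P + Θ.base Q) ∧
      Function.Injective Θ.base := by
  obtain ⟨u, hu⟩ := IsAlgClosed.exists_pow_nat_eq c (n := 2) (by norm_num)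
  refine exists_corr_of_data (u := u) (r := 0) ⟨two_ne_zero, hc0, hc1, ?_, ?_, ?_, ?_⟩
  · rintro rfl
    apply hc0
    rw [← hu]; ring
  · rw [hu]; field_simp; ring
  · have : u ^ 4 = c ^ 2 := by
      calc u ^ 4 = (u ^ 2) ^ 2 := by ring
        _ = c ^ 2 := by rw [hu]
    rw [this]; field_simp; ring
  · ring

/-- `exists_iso_inv` with the formula for the `x`-coordinate -/
theorem exists_iso_inv_x {c : k} (hc0 : c ≠ 0) (hc1 : c ≠ 1) :
    ∃ Θ : Corr c⁻¹ c, (∀ P Q, Θ.base (P + Q) = Θ.base P + Θ.base Q) ∧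
      Function.Injective Θ.base ∧ ∀ p : Pt c⁻¹, p ≠ 0 → Θ.base p ≠ 0 ∧ xc (Θ.base p) = c * xc p := by
  obtain ⟨u, hu⟩ := IsAlgClosed.exists_pow_nat_eq c (n := 2) (by norm_num)
  have H : IsoData c⁻¹ c u 0 := by
    refine ⟨two_ne_zero, hc0, hc1, ?_, ?_, ?_, ?_⟩
    · rintro rfl
      apply hc0
      rw [← hu]; ring
    · rw [hu]; field_simp; ring
    · have : u ^ 4 = c ^ 2 := by
        calc u ^ 4 = (u ^ 2) ^ 2 := by ring
          _ = c ^ 2 := by rw [hu]
      rw [this]; field_simp; ring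
    · ring
  refine ⟨⟨fun K _ _ => isoMap (H.map K), isoMap H, isoMap_neg H,
    fun K _ _ w P p h => isoMap_spec H K w P p h⟩, isoMap_add H, isoMap_inj H, ?_⟩
  intro p hp
  rcases p with _ | ⟨x, y, h⟩
  · exact absurd rfl hp
  · change isoMap H (.some x y h) ≠ 0 ∧ xc (isoMap H (.some x y h)) = c * x
    rw [isoMap_some]
    refine ⟨Affine.Point.some_ne_zero _, ?_⟩
    change u ^ 2 * x + 0 = c * x
    rw [hu, add_zero]

end ZC
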