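import Pool.Agent.ZC.Arith

/-!
Module Vadic2 (project ZC, helper83).  k any field of characteristic 0 with a nonarchimedean absolute value v, v p < 1,
p >= 3 prime (so v n = 1 for p not dividing n), v a <= 1.
FORMULAS on E_a: P=(x1,y1), Q=(x2,y2), x1 != x2:  x(P+Q) = ((y1-y2)/(x1-x2))^2 + (1+a) - x1 - x2,
x(P-Q) = ((y1+y2)/(x1-x2))^2 + (1+a) - x1 - x2,  x(P+Q) x(P-Q) = ((x1 x2 - a)/(x1 - x2))^2 (use
y_i^2 = x_i(x_i-1)(x_i-a)).  x(2P) = (x^2-a)^2/(4x(x-1)(x-a)) (y != 0).
sub_large: v(y_i)^2 = R^3, so v x(P+-Q) <= R and the product is (R^2/R)^2 = R^2, so both are = R.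
mult_estimate: R point with r = v(x(R)) > 1.  Then for 1 <= j < p: jR != 0 and x(jR) = x(R) u_j / j^2 with
v(u_j - 1) <= 1/r.  Proof: j = 1; j = 2 from the doubling formula (y != 0 since v x > 1 = max v(0,1,a)):
x(2R) = (x/4) (1 - a/x^2)^2/((1-1/x)(1-a/x)).  Step (2 <= j, j+1 <= p-1): x1 - x_j = x1 (j^2-u_j)/j^2,
j^2 - u_j = (j^2-1)(1 - (u_j-1)/(j^2-1)), v(j^2-1) = 1, so x1 != x_j, (j+1)R != 0 and
x_{j+1} x_{j-1} = ((x1 x_j - a)/(x1-x_j))^2 gives the claim; the set {u : v(u-1) <= 1/r} is closed under products and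
inverses.
p-step: v(x1 - x_{p-1}) = v(x1) v((p^2-2p) - (u-1)) where x_{p-1} = x1 u/(p-1)^2; so
 <= r max(v p, 1/r), and if x1 != x_{p-1}: x_p x_{p-2} = ((x1 x_{p-1}-a)/(x1-x_{p-1}))^2 (for p = 3: x_{p-2} = x1, R itself).
torsion_bound: Suppose v(x W) v(p) > 1.  The nonzero multiples of W are finitely many points; let V be one with v(x V) =: M
maximal, so M v(p) > 1.  Apply the estimate with r = M: v(u-1) <= 1/M < v p, so v(x1 - x_{p-1}) = M v(p) != 0, so pV != 0
and v(x(pV)) = (M^2/(M v p))^2/M = M/(v p)^2 > M, contradiction to maximality.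
-/

namespace ZC

open Polynomial WeierstrassCurve
open scoped Classical

section algebra

variable {k : Type} [Field k] {a : k}

/-- a nonzero point is affine -/
private theorem vd_cases (P : Pt a) (h : P ≠ 0) :
    ∃ (x y : k) (hn : (leg a).toAffine.Nonsingular x y), P = Affine.Point.some x y hn := by
  rcases P with _ | ⟨x, y, hn⟩
  · exact absurd rfl h
  · exact ⟨x, y, hn, rfl⟩

private theorem vd_eq {x y : k} (hn : (leg a).toAffine.Nonsingular x y) :
    y ^ 2 = x * (x - 1) * (x - a) := (leg_equation a x y).1 hn.1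

private theorem vd_xc_neg (P : Pt a) : xc (-P) = xc P := by
  rcases P with _ | ⟨x, y, hn⟩
  · rfl
  · rfl

private theorem vd_yc_neg (P : Pt a) : yc (-P) = - yc P := by
  rcases P with _ | ⟨x, y, hn⟩
  · show (0 : k) = -0
    rw [neg_zero]
  · show (leg a).toAffine.negY x y = - y
    rw [Affine.negY]
    show -y - 0 * x - 0 = -y
    ring

private theorem vd_curve (P : Pt a) (h : P ≠ 0) :
    yc P ^ 2 = xc P * (xc P - 1) * (xc P - a) := by
  obtain ⟨x, y, hn, rfl⟩ := vd_cases P h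
  exact vd_eq hn

private theorem vd_x_eq (P Q : Pt a) (hP : P ≠ 0) (hQ : Q ≠ 0) (h : xc P = xc Q) :
    P = Q ∨ P = -Q := by
  obtain ⟨x, y, hn, rfl⟩ := vd_cases P hP
  obtain ⟨x', y', hn', rfl⟩ := vd_cases Q hQ
  exact Affine.Point.X_eq_iff.1 h

private theorem vd_add (P Q : Pt a) (hP : P ≠ 0) (hQ : Q ≠ 0) (h : xc P ≠ xc Q) :
    xc (P + Q) = ((yc P - yc Q) / (xc P - xc Q)) ^ 2 + (1 + a) - xc P - xc Q := by
  obtain ⟨x, y, hn, rfl⟩ := vd_cases P hP
  obtain ⟨x', y', hn', rfl⟩ := vd_cases Q hQ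
  have h' : x ≠ x' := h
  rw [Affine.Point.add_of_X_ne h']
  show (leg a).toAffine.addX x x' ((leg a).toAffine.slope x x' y y') = _
  rw [Affine.slope_of_X_ne h', Affine.addX]
  show ((y - y') / (x - x')) ^ 2 + 0 * ((y - y') / (x - x')) - (-(1 + a)) - x - x' =
    ((y - y') / (x - x')) ^ 2 + (1 + a) - x - x'
  ring

private theorem vd_neg_ne (P : Pt a) (h : P ≠ 0) : -P ≠ 0 := neg_ne_zero.2 h

private theorem vd_sub (P Q : Pt a) (hP : P ≠ 0) (hQ : Q ≠ 0) (h : xc P ≠ xc Q) :
    xc (P - Q) = ((yc P + yc Q) / (xc P - xc Q)) ^ 2 + (1 + a) - xc P - xc Q := by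
  rw [sub_eq_add_neg, vd_add P (-Q) hP (vd_neg_ne Q hQ) (by rwa [vd_xc_neg]), vd_xc_neg,
    vd_yc_neg, sub_neg_eq_add]

private theorem vd_prod (P Q : Pt a) (hP : P ≠ 0) (hQ : Q ≠ 0) (h : xc P ≠ xc Q) :
    xc (P + Q) * xc (P - Q) = ((xc P * xc Q - a) / (xc P - xc Q)) ^ 2 := by
  rw [vd_add P Q hP hQ h, vd_sub P Q hP hQ h]
  have h1 := vd_curve P hP
  have h2 := vd_curve Q hQ
  have h3 : xc P - xc Q ≠ 0 := sub_ne_zero.2 h
  generalize xc P = x at *
  generalize xc Q = x' at *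
  generalize yc P = y at *
  generalize yc Q = y' at *
  field_simp
  have e1 : (y - y') ^ 2 * (y + y') ^ 2 = (y ^ 2 - y' ^ 2) ^ 2 := by ring
  have e2 : (y - y') ^ 2 + (y + y') ^ 2 = 2 * (y ^ 2 + y' ^ 2) := by ring
  have e3 : ∀ s : k, ((y - y') ^ 2 + s) * ((y + y') ^ 2 + s) =
      (y ^ 2 - y' ^ 2) ^ 2 + s * (2 * (y ^ 2 + y' ^ 2)) + s ^ 2 := by
    intro s
    ring
  have e4 := e3 ((x - x') ^ 2 * (1 + a) - (x - x') ^ 2 * x - (x - x') ^ 2 * x')
  rw [h1, h2] at e4
  have e5 : ((y - y') ^ 2 + (x - x') ^ 2 * (1 + a) - x * (x - x') ^ 2 - (x - x') ^ 2 * x') *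
      ((y + y') ^ 2 + (x - x') ^ 2 * (1 + a) - x * (x - x') ^ 2 - (x - x') ^ 2 * x') =
      (x * x' - a) ^ 2 * (x - x') ^ 2 := by
    linear_combination e4
  linear_combination e5

private theorem vd_dbl (P : Pt a) (hP : P ≠ 0) (h2 : (2 : k) ≠ 0) (hy : yc P ≠ 0) :
    P + P ≠ 0 ∧ xc (P + P) = (xc P ^ 2 - a) ^ 2 / (4 * yc P ^ 2) := by
  obtain ⟨x, y, hn, rfl⟩ := vd_cases P hP
  have hy' : y ≠ 0 := hy
  have hne : y ≠ (leg a).toAffine.negY x y := by
    rw [Affine.negY]
    show y ≠ -y - 0 * x - 0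
    intro h
    have : 2 * y = 0 := by linear_combination h
    exact (mul_ne_zero h2 hy') this
  constructor
  · rw [Affine.Point.add_self_of_Y_ne hne]
    exact Affine.Point.some_ne_zero _
  · rw [Affine.Point.add_self_of_Y_ne hne]
    show (leg a).toAffine.addX x x ((leg a).toAffine.slope x x y y) =
      (x ^ 2 - a) ^ 2 / (4 * y ^ 2)
    rw [Affine.slope_of_Y_ne rfl hne, Affine.addX, Affine.negY]
    show ((3 * x ^ 2 + 2 * (-(1 + a)) * x + a - 0 * y) / (y - (-y - 0 * x - 0))) ^ 2 +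
      0 * ((3 * x ^ 2 + 2 * (-(1 + a)) * x + a - 0 * y) / (y - (-y - 0 * x - 0))) -
        (-(1 + a)) - x - x = (x ^ 2 - a) ^ 2 / (4 * y ^ 2)
    have e1 : y - (-y - 0 * x - 0) = 2 * y := by ring
    have h1 := vd_eq hn
    rw [e1]
    have h4 : (4 : k) ≠ 0 := by
      have : (4 : k) = 2 * 2 := by norm_num
      rw [this]
      exact mul_ne_zero h2 h2
    have key : (3 * x ^ 2 + 2 * (-(1 + a)) * x + a - 0 * y) ^ 2 =
        (x ^ 2 - a) ^ 2 + 4 * y ^ 2 * (2 * x - 1 - a) := by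
      linear_combination (-4 * (2 * x - a - 1)) * h1
    have hden : (2 * y) ^ 2 = 4 * y ^ 2 := by ring
    have h5 : 4 * y ^ 2 ≠ 0 := mul_ne_zero h4 (pow_ne_zero 2 hy')
    rw [div_pow, key, hden, add_div, mul_div_cancel_left₀ _ h5]
    ring

end algebra

section valuation

variable {k : Type} [Field k] {v : AbsoluteValue k ℝ}

private theorem vd_add_of_lt (hv : IsNonarchimedean v) {x y : k} (h : v y < v x) :
    v (x + y) = v x := by
  apply le_antisymm
  · exact (hv x y).trans (max_le le_rfl h.le)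
  · by_contra hc
    push Not at hc
    have h1 := hv (x + y) (-y)
    rw [add_neg_cancel_right, map_neg_eq_map] at h1
    exact absurd h1 (not_le.2 (max_lt hc h))

private theorem vd_sub_of_lt (hv : IsNonarchimedean v) {x y : k} (h : v y < v x) :
    v (x - y) = v x := by
  rw [sub_eq_add_neg]
  exact vd_add_of_lt hv (by rwa [map_neg_eq_map])

private theorem vd_sub_le (hv : IsNonarchimedean v) (x y : k) : v (x - y) ≤ max (v x) (v y) := by
  have := hv x (-y)
  rwa [map_neg_eq_map, ← sub_eq_add_neg] at this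

private theorem vd_one (hv : IsNonarchimedean v) {u : k} (h : v (u - 1) < 1) : v u = 1 := by
  have h1 := vd_add_of_lt hv (x := 1) (y := u - 1) (by rwa [map_one])
  rw [add_sub_cancel, map_one] at h1
  exact h1

private theorem vd_nat_le (hv : IsNonarchimedean v) (n : ℕ) : v (n : k) ≤ 1 := by
  induction n with
  | zero => simp
  | succ n ih =>
    rw [Nat.cast_succ]
    exact (hv _ _).trans (max_le ih (by rw [map_one]))

private theorem vd_int_le (hv : IsNonarchimedean v) (n : ℤ) : v (n : k) ≤ 1 := by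
  rcases Int.eq_nat_or_neg n with ⟨m, rfl | rfl⟩
  · rw [Int.cast_natCast]
    exact vd_nat_le hv m
  · rw [Int.cast_neg, Int.cast_natCast, map_neg_eq_map]
    exact vd_nat_le hv m

private theorem vd_nat {p : ℕ} (H : IsPAdic v p) (n : ℕ) (hn : ¬ p ∣ n) : v (n : k) = 1 := by
  apply le_antisymm (vd_nat_le H.nonarch n)
  have hc : Nat.Coprime n p := ((Nat.Prime.coprime_iff_not_dvd H.prime).2 hn).symm
  have hb := Nat.gcd_eq_gcd_ab n p
  rw [hc.gcd_eq_one] at hb
  have hk : (1 : k) = (n : k) * ((n.gcdA p : ℤ) : k) + (p : k) * ((n.gcdB p : ℤ) : k) := by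
    have := congrArg (fun z : ℤ => (z : k)) hb
    push_cast at this
    exact this
  by_contra hlt
  push Not at hlt
  have h1 : v ((n : k) * ((n.gcdA p : ℤ) : k)) < 1 := by
    rw [map_mul]
    calc v (n : k) * v ((n.gcdA p : ℤ) : k) ≤ v (n : k) * 1 :=
          mul_le_mul_of_nonneg_left (vd_int_le H.nonarch _) (AbsoluteValue.nonneg _ _)
      _ < 1 := by rwa [mul_one]
  have h2 : v ((p : k) * ((n.gcdB p : ℤ) : k)) < 1 := by
    rw [map_mul]
    calc v (p : k) * v ((n.gcdB p : ℤ) : k) ≤ v (p : k) * 1 :=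
          mul_le_mul_of_nonneg_left (vd_int_le H.nonarch _) (AbsoluteValue.nonneg _ _)
      _ < 1 := by rw [mul_one]; exact H.lt
  have h3 := H.nonarch ((n : k) * ((n.gcdA p : ℤ) : k)) ((p : k) * ((n.gcdB p : ℤ) : k))
  rw [← hk, map_one] at h3
  exact absurd h3 (not_le.2 (max_lt h1 h2))

/-- the group of `u` with `v (u - 1) ≤ ρ` -/
private theorem vd_g_mul (hv : IsNonarchimedean v) {ρ : ℝ} (hρ : ρ ≤ 1) {u w : k}
    (hu : v (u - 1) ≤ ρ) (hw : v (w - 1) ≤ ρ) : v (u * w - 1) ≤ ρ := by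
  have e : u * w - 1 = (u - 1) * (w - 1) + ((u - 1) + (w - 1)) := by ring
  rw [e]
  refine (hv _ _).trans (max_le ?_ ((hv _ _).trans (max_le hu hw)))
  rw [map_mul]
  calc v (u - 1) * v (w - 1) ≤ v (u - 1) * 1 :=
        mul_le_mul_of_nonneg_left (hw.trans hρ) (AbsoluteValue.nonneg _ _)
    _ ≤ ρ := by rwa [mul_one]

private theorem vd_g_inv (hv : IsNonarchimedean v) {ρ : ℝ} (hρ : ρ < 1) {u : k}
    (hu : v (u - 1) ≤ ρ) : v (u⁻¹ - 1) ≤ ρ := by
  have h1 : v u = 1 := vd_one hv (hu.trans_lt hρ)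
  have h0 : u ≠ 0 := by
    intro h
    rw [h, map_zero] at h1
    exact zero_ne_one h1
  have e : u⁻¹ - 1 = -(u - 1) * u⁻¹ := by
    field_simp
    ring
  rw [e, map_mul, map_neg_eq_map, map_inv₀, h1, inv_one, mul_one]
  exact hu

end valuation

section main

variable {k : Type} [Field k] [CharZero k] {v : AbsoluteValue k ℝ} {p : ℕ} {a : k}

private theorem vd_ne_zero_of_lt (R : Pt a) (hR : 1 < v (xc R)) : R ≠ 0 := by
  rintro rfl
  have : xc (0 : Pt a) = 0 := rfl
  rw [this, map_zero] at hR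
  linarith

/-- the estimate for `x (jR)`; `u = j² x(jR) / x(R)` -/
private theorem vd_mult (H : IsPAdic v p) (ha : v a ≤ 1) (R : Pt a)
    (hR : 1 < v (xc R)) (j : ℕ) (hj0 : 0 < j) (hjp : j < p) :
    j • R ≠ 0 ∧ v ((j : k) ^ 2 * xc (j • R) / xc R - 1) ≤ (v (xc R))⁻¹ := by
  have hv := H.nonarch
  have hR0 : R ≠ 0 := vd_ne_zero_of_lt R hR
  have hr0 : 0 < v (xc R) := one_pos.trans hR
  have hx0 : xc R ≠ 0 := by
    intro h
    rw [h, map_zero] at hr0
    exact lt_irrefl _ hr0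
  have hρ : (v (xc R))⁻¹ < 1 := inv_lt_one_of_one_lt₀ hR
  have hρ0 : 0 < (v (xc R))⁻¹ := inv_pos.2 hr0
  have hax : v (a / xc R) ≤ (v (xc R))⁻¹ := by
    rw [map_div₀, div_eq_mul_inv]
    calc v a * (v (xc R))⁻¹ ≤ 1 * (v (xc R))⁻¹ := mul_le_mul_of_nonneg_right ha hρ0.le
      _ = _ := one_mul _
  have h1x : v (1 / xc R) ≤ (v (xc R))⁻¹ := by
    rw [map_div₀, map_one, one_div]
  have hp3 := H.three
  induction j using Nat.strong_induction_on with
  | _ j ih =>
    obtain hj | hj | hj : j = 1 ∨ j = 2 ∨ 3 ≤ j := by omega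
    · subst hj
      rw [one_smul]
      refine ⟨hR0, ?_⟩
      have : ((1 : ℕ) : k) ^ 2 * xc R / xc R - 1 = 0 := by
        rw [Nat.cast_one]
        field_simp
        ring
      rw [this, map_zero]
      exact hρ0.le
    · subst hj
      have hc := vd_curve R hR0
      have hx1 : v (xc R - 1) = v (xc R) := vd_sub_of_lt hv (by rwa [map_one])
      have hxa : v (xc R - a) = v (xc R) := vd_sub_of_lt hv (ha.trans_lt hR)
      have hx10 : xc R - 1 ≠ 0 := by
        intro h
        rw [h, map_zero] at hx1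
        exact absurd hx1.symm hr0.ne'
      have hxa0 : xc R - a ≠ 0 := by
        intro h
        rw [h, map_zero] at hxa
        exact absurd hxa.symm hr0.ne'
      have hy0 : yc R ≠ 0 := by
        intro h
        rw [h] at hc
        exact (mul_ne_zero (mul_ne_zero hx0 hx10) hxa0) (by rw [← hc]; ring)
      obtain ⟨hd0, hd⟩ := vd_dbl R hR0 two_ne_zero hy0
      rw [two_nsmul]
      refine ⟨hd0, ?_⟩
      have e : ((2 : ℕ) : k) ^ 2 * xc (R + R) / xc R =
          ((1 - a / xc R * (1 / xc R)) * (1 - a / xc R * (1 / xc R))) *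
            ((1 - 1 / xc R) * (1 - a / xc R))⁻¹ := by
        rw [hd, hc]
        have e1 : 1 - 1 / xc R = (xc R - 1) / xc R := by field_simp
        have e2 : 1 - a / xc R = (xc R - a) / xc R := by field_simp
        rw [e1, e2]
        push_cast
        field_simp
        ring
      rw [e]
      have g1 : v ((1 - a / xc R * (1 / xc R)) - 1) ≤ (v (xc R))⁻¹ := by
        have : (1 - a / xc R * (1 / xc R)) - 1 = -(a / xc R * (1 / xc R)) := by ring
        rw [this, map_neg_eq_map, map_mul]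
        calc v (a / xc R) * v (1 / xc R) ≤ (v (xc R))⁻¹ * 1 :=
              mul_le_mul hax (h1x.trans hρ.le) (AbsoluteValue.nonneg _ _) hρ0.le
          _ = _ := mul_one _
      have g2 : v ((1 - 1 / xc R) - 1) ≤ (v (xc R))⁻¹ := by
        have : (1 - 1 / xc R) - 1 = -(1 / xc R) := by ring
        rw [this, map_neg_eq_map]
        exact h1x
      have g3 : v ((1 - a / xc R) - 1) ≤ (v (xc R))⁻¹ := by
        have : (1 - a / xc R) - 1 = -(a / xc R) := by ring
        rw [this, map_neg_eq_map]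
        exact hax
      exact vd_g_mul hv hρ.le (vd_g_mul hv hρ.le g1 g1) (vd_g_inv hv hρ (vd_g_mul hv hρ.le g2 g3))
    · obtain ⟨i, rfl⟩ : ∃ i, j = i + 2 := ⟨j - 2, by omega⟩
      obtain ⟨hA0, hA⟩ := ih (i + 1) (by omega) (by omega) (by omega)
      obtain ⟨hB0, hB⟩ := ih i (by omega) (by omega) (by omega)
      -- `u` for i+1, `w` for i
      have hi0 : (i : k) ≠ 0 := by
        have : i ≠ 0 := by omega
        exact_mod_cast this
      have hi1 : ((i + 1 : ℕ) : k) ≠ 0 := by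
        have : i + 1 ≠ 0 := by omega
        exact_mod_cast this
      have hi2 : ((i + 2 : ℕ) : k) ≠ 0 := by
        have : i + 2 ≠ 0 := by omega
        exact_mod_cast this
      have hvi : v (i : k) = 1 := vd_nat H i (fun h => by
        have := Nat.le_of_dvd (by omega) h
        omega)
      have hvi1 : v ((i + 1 : ℕ) : k) = 1 := vd_nat H (i + 1) (fun h => by
        have := Nat.le_of_dvd (by omega) h
        omega)
      have hvi2 : v ((i + 2 : ℕ) : k) = 1 := vd_nat H (i + 2) (fun h => by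
        have := Nat.le_of_dvd (by omega) h
        omega)
      set x1 := xc R with hx1def
      set X := xc ((i + 1) • R) with hX
      set Z := xc (i • R) with hZ
      set u : k := ((i + 1 : ℕ) : k) ^ 2 * X / x1 with hu
      set w : k := (i : k) ^ 2 * Z / x1 with hw
      have hvu : v u = 1 := vd_one hv (hA.trans_lt hρ)
      have hvw : v w = 1 := vd_one hv (hB.trans_lt hρ)
      have hu0 : u ≠ 0 := by
        intro h
        rw [h, map_zero] at hvu
        exact zero_ne_one hvu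
      have hw0 : w ≠ 0 := by
        intro h
        rw [h, map_zero] at hvw
        exact zero_ne_one hvw
      have hXu : X = x1 * u / ((i + 1 : ℕ) : k) ^ 2 := by
        rw [hu]
        field_simp
      have hZw : Z = x1 * w / (i : k) ^ 2 := by
        rw [hw]
        field_simp
      -- `c = (i+1)^2 - 1 = i (i+2)`
      have hc0 : (i : k) * ((i + 2 : ℕ) : k) ≠ 0 := mul_ne_zero hi0 hi2
      have hvc : v ((i : k) * ((i + 2 : ℕ) : k)) = 1 := by rw [map_mul, hvi, hvi2, mul_one]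
      set e2 : k := (u - 1) / ((i : k) * ((i + 2 : ℕ) : k)) with he2
      have hve2 : v e2 ≤ (v x1)⁻¹ := by
        rw [he2, map_div₀, hvc, div_one]
        exact hA
      have g2 : v ((1 - e2) - 1) ≤ (v x1)⁻¹ := by
        have : (1 - e2) - 1 = -e2 := by ring
        rw [this, map_neg_eq_map]
        exact hve2
      have hv2 : v (1 - e2) = 1 := vd_one hv (g2.trans_lt hρ)
      have h20 : 1 - e2 ≠ 0 := by
        intro h
        rw [h, map_zero] at hv2
        exact zero_ne_one hv2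
      have hdiff : x1 - X = x1 * ((i : k) * ((i + 2 : ℕ) : k)) * (1 - e2) / ((i + 1 : ℕ) : k) ^ 2 := by
        rw [hXu, he2]
        field_simp
        push_cast
        ring
      have hne : x1 ≠ X := by
        intro h
        have : x1 - X = 0 := sub_eq_zero.2 h
        rw [hdiff] at this
        exact (div_ne_zero (mul_ne_zero (mul_ne_zero hx0 hc0) h20) (pow_ne_zero 2 hi1)) this
      have hprod := vd_prod ((i + 1) • R) R hA0 hR0 (fun h => hne h.symm)
      have eplus : (i + 1) • R + R = (i + 2) • R := by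
        rw [← succ_nsmul]
      have eminus : (i + 1) • R - R = i • R := by
        rw [succ_nsmul, add_sub_cancel_right]
      rw [eplus, eminus] at hprod
      have hj0' : (i + 2) • R ≠ 0 := by
        intro h
        rw [← eplus] at h
        have h1 : (i + 1) • R = -R := eq_neg_of_add_eq_zero_left h
        apply hne
        rw [hX, h1, vd_xc_neg]
      refine ⟨hj0', ?_⟩
      rw [← hX, ← hZ, ← hx1def] at hprod
      set e1 : k := a / x1 * (1 / x1) * (((i + 1 : ℕ) : k) ^ 2 * u⁻¹) with he1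
      have hve1 : v e1 ≤ (v x1)⁻¹ := by
        rw [he1, map_mul, map_mul, map_mul, map_pow, map_inv₀, hvi1, hvu]
        calc v (a / x1) * v (1 / x1) * (1 ^ 2 * 1⁻¹) = v (a / x1) * v (1 / x1) := by norm_num
          _ ≤ (v x1)⁻¹ * 1 :=
              mul_le_mul hax (h1x.trans hρ.le) (AbsoluteValue.nonneg _ _) hρ0.le
          _ = _ := mul_one _
      have g1 : v ((1 - e1) - 1) ≤ (v x1)⁻¹ := by
        have : (1 - e1) - 1 = -e1 := by ring
        rw [this, map_neg_eq_map]
        exact hve1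
      have hnum : X * x1 - a = x1 ^ 2 * u / ((i + 1 : ℕ) : k) ^ 2 * (1 - e1) := by
        rw [hXu, he1]
        field_simp
      have hZ0 : Z ≠ 0 := by
        rw [hZw]
        exact div_ne_zero (mul_ne_zero hx0 hw0) (pow_ne_zero 2 hi0)
      have hval : ((i + 2 : ℕ) : k) ^ 2 * xc ((i + 2) • R) / x1 =
          ((u * u) * ((1 - e1) * (1 - e1))) * (((1 - e2) * (1 - e2)) * w)⁻¹ := by
        have h3 : xc ((i + 2) • R) = ((X * x1 - a) / (X - x1)) ^ 2 / Z := by
          rw [← hprod]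
          field_simp
        have h4 : X - x1 = -(x1 * ((i : k) * ((i + 2 : ℕ) : k)) * (1 - e2) / ((i + 1 : ℕ) : k) ^ 2) := by
          rw [← hdiff]
          ring
        rw [h3, h4, hnum, hZw]
        field_simp
      rw [hval]
      exact vd_g_mul hv hρ.le (vd_g_mul hv hρ.le (vd_g_mul hv hρ.le hA hA)
        (vd_g_mul hv hρ.le g1 g1)) (vd_g_inv hv hρ (vd_g_mul hv hρ.le (vd_g_mul hv hρ.le g2 g2) hB))

/-- the data of the last step: `x_{p-1}` and `x_{p-2}`. -/
private theorem vd_last (H : IsPAdic v p) (ha : v a ≤ 1) (R : Pt a) (hR : 1 < v (xc R)) :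
    (p - 1) • R ≠ 0 ∧ (p - 2) • R ≠ 0 ∧ v (xc ((p - 1) • R)) = v (xc R) ∧
      v (xc ((p - 2) • R)) = v (xc R) ∧
      ∃ u : k, v (u - 1) ≤ (v (xc R))⁻¹ ∧
        xc R - xc ((p - 1) • R) = xc R * ((p : k) * ((p - 2 : ℕ) : k) - (u - 1)) /
          ((p - 1 : ℕ) : k) ^ 2 := by
  have hv := H.nonarch
  have hp3 := H.three
  have hr0 : 0 < v (xc R) := one_pos.trans hR
  have hx0 : xc R ≠ 0 := by
    intro h
    rw [h, map_zero] at hr0
    exact lt_irrefl _ hr0
  have hρ : (v (xc R))⁻¹ < 1 := inv_lt_one_of_one_lt₀ hR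
  have key : ∀ j : ℕ, 0 < j → j < p → v (xc (j • R)) = v (xc R) := by
    intro j hj0 hjp
    have h1 := (vd_mult H ha R hR j hj0 hjp).2
    have h2 := vd_one hv (h1.trans_lt hρ)
    have h3 : v (j : k) = 1 := vd_nat H j (fun h => by
      have := Nat.le_of_dvd hj0 h
      omega)
    rw [map_div₀, map_mul, map_pow, h3, one_pow, one_mul, div_eq_one_iff_eq hr0.ne'] at h2
    exact h2
  refine ⟨(vd_mult H ha R hR (p - 1) (by omega) (by omega)).1,
    (vd_mult H ha R hR (p - 2) (by omega) (by omega)).1, key _ (by omega) (by omega),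
    key _ (by omega) (by omega),
    ((p - 1 : ℕ) : k) ^ 2 * xc ((p - 1) • R) / xc R,
    (vd_mult H ha R hR (p - 1) (by omega) (by omega)).2, ?_⟩
  have hp1 : ((p - 1 : ℕ) : k) ≠ 0 := by
    have : p - 1 ≠ 0 := by omega
    exact_mod_cast this
  have hpk : (p : k) = ((p - 2 : ℕ) : k) + 2 := by
    have : p = (p - 2) + 2 := by omega
    conv_lhs => rw [this]
    push_cast
    ring
  have hp1k : ((p - 1 : ℕ) : k) = ((p - 2 : ℕ) : k) + 1 := by
    have : p - 1 = (p - 2) + 1 := by omega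
    rw [this]
    push_cast
    ring
  field_simp
  rw [hpk, hp1k]
  ring

private theorem vd_final (H : IsPAdic v p) (ha : v a ≤ 1) (R : Pt a) (hR : 1 < v (xc R))
    (hne : xc R ≠ xc ((p - 1) • R)) :
    p • R ≠ 0 ∧ v (xc (p • R)) =
      v (xc R) * (v (xc R) / v (xc R - xc ((p - 1) • R))) ^ 2 := by
  have hv := H.nonarch
  have hp3 := H.three
  have hr0 : 0 < v (xc R) := one_pos.trans hR
  have hR0 : R ≠ 0 := vd_ne_zero_of_lt R hR
  obtain ⟨h1, h2, h3, h4, -⟩ := vd_last H ha R hR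
  have eplus : (p - 1) • R + R = p • R := by
    rw [← succ_nsmul]
    congr 1
    omega
  have eminus : (p - 1) • R - R = (p - 2) • R := by
    have : p - 1 = (p - 2) + 1 := by omega
    rw [this, succ_nsmul, add_sub_cancel_right]
  have hp0 : p • R ≠ 0 := by
    intro h
    rw [← eplus] at h
    have h1 : (p - 1) • R = -R := eq_neg_of_add_eq_zero_left h
    apply hne
    rw [h1, vd_xc_neg]
  refine ⟨hp0, ?_⟩
  have hprod := vd_prod ((p - 1) • R) R h1 hR0 (fun h => hne h.symm)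
  rw [eplus, eminus] at hprod
  have hval := congrArg v hprod
  rw [map_mul, map_pow, map_div₀, h4] at hval
  have hnum : v (xc ((p - 1) • R) * xc R - a) = v (xc R) ^ 2 := by
    rw [vd_sub_of_lt hv, map_mul, h3, sq]
    rw [map_mul, h3]
    nlinarith
  have hden : v (xc ((p - 1) • R) - xc R) = v (xc R - xc ((p - 1) • R)) := by
    rw [← map_neg_eq_map v (xc ((p - 1) • R) - xc R), neg_sub]
  rw [hnum, hden] at hval
  have hd0 : v (xc R - xc ((p - 1) • R)) ≠ 0 := by
    rw [Ne, AbsoluteValue.eq_zero, sub_eq_zero]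
    exact hne
  have : v (xc (p • R)) = (v (xc R) ^ 2 / v (xc R - xc ((p - 1) • R))) ^ 2 / v (xc R) := by
    rw [← hval]
    field_simp
  rw [this]
  field_simp

end main

theorem mult_estimate {k : Type} [Field k] [CharZero k] {v : AbsoluteValue k ℝ} {p : ℕ}
    (H : IsPAdic v p) {a : k} (ha0 : a ≠ 0) (ha1 : a ≠ 1) (ha : v a ≤ 1) (R : Pt a)
    (hR : 1 < v (xc R)) (j : ℕ) (hj0 : 0 < j) (hjp : j < p) :
    j • R ≠ 0 ∧ v ((j : k) ^ 2 * xc (j • R) / xc R - 1) ≤ (v (xc R))⁻¹ :=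
  vd_mult H ha R hR j hj0 hjp

theorem torsion_bound {k : Type} [Field k] [CharZero k] {v : AbsoluteValue k ℝ} {p : ℕ}
    (H : IsPAdic v p) {a : k} (ha0 : a ≠ 0) (ha1 : a ≠ 1) (ha : v a ≤ 1) (W : Pt a) {N : ℕ}
    (hN : 0 < N) (hW : N • W = 0) : v (xc W) * v (p : k) ≤ 1 := by
  by_contra hcon
  push Not at hcon
  have hv := H.nonarch
  have hp3 := H.three
  have hpk : (p : k) ≠ 0 := by
    have : p ≠ 0 := by omega
    exact_mod_cast this
  have hvp0 : 0 < v (p : k) := (AbsoluteValue.pos_iff v).2 hpk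
  have hvp1 := H.lt
  -- maximal value among the multiples
  have hfin : ∃ i ∈ Finset.range N, ∀ j ∈ Finset.range N, v (xc (j • W)) ≤ v (xc (i • W)) :=
    Finset.exists_max_image (Finset.range N) (fun i => v (xc (i • W))) ⟨0, Finset.mem_range.2 hN⟩
  obtain ⟨i, _, hmax⟩ := hfin
  have hmax' : ∀ j : ℕ, v (xc (j • W)) ≤ v (xc (i • W)) := by
    intro j
    have h1 : j • W = (j % N) • W := by
      conv_lhs => rw [← Nat.div_add_mod j N, add_smul, mul_comm, mul_smul, hW, smul_zero, zero_add]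
    rw [h1]
    exact hmax _ (Finset.mem_range.2 (Nat.mod_lt _ hN))
  set V : Pt a := i • W with hV
  have hM : v (xc W) ≤ v (xc V) := by
    have := hmax' 1
    rwa [one_smul] at this
  have hMp : 1 < v (xc V) * v (p : k) :=
    hcon.trans_le (mul_le_mul_of_nonneg_right hM hvp0.le)
  have hR : 1 < v (xc V) := by
    have hx : 0 ≤ v (xc V) := AbsoluteValue.nonneg _ _
    nlinarith
  have hr0 : 0 < v (xc V) := one_pos.trans hR
  obtain ⟨-, -, -, -, u, hu, hdiff⟩ := vd_last H ha V hR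
  have hu' : v (u - 1) < v (p : k) := by
    refine hu.trans_lt ?_
    rw [inv_lt_iff_one_lt_mul₀ hr0]
    linarith [mul_comm (v (xc V)) (v (p : k))]
  have hp2 : v ((p - 2 : ℕ) : k) = 1 := vd_nat H (p - 2) (fun h => by
    have := Nat.le_of_dvd (by omega) h
    omega)
  have hp1 : v ((p - 1 : ℕ) : k) = 1 := vd_nat H (p - 1) (fun h => by
    have := Nat.le_of_dvd (by omega) h
    omega)
  have hvd : v (xc V - xc ((p - 1) • V)) = v (xc V) * v (p : k) := by
    rw [hdiff, map_div₀, map_mul, map_pow, hp1, one_pow, div_one, vd_sub_of_lt hv, map_mul, hp2,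
      mul_one]
    rw [map_mul, hp2, mul_one]
    exact hu'
  have hne : xc V ≠ xc ((p - 1) • V) := by
    intro h
    rw [h, sub_self, map_zero] at hvd
    have : 0 < v (xc ((p - 1) • V)) * v (p : k) := by
      rw [← h]
      positivity
    linarith
  obtain ⟨_, hval⟩ := vd_final H ha V hR hne
  rw [hvd] at hval
  have h5 : p • V = (p * i) • W := by
    rw [hV, mul_smul]
  have h6 := hmax' (p * i)
  rw [← h5, hval] at h6
  have h7 : v (xc V) / (v (xc V) * v (p : k)) = (v (p : k))⁻¹ := by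
    field_simp
  rw [h7] at h6
  have h8 : 1 < (v (p : k))⁻¹ := (one_lt_inv₀ hvp0).2 hvp1
  have h9 : 1 < ((v (p : k))⁻¹) ^ 2 := by nlinarith
  nlinarith

theorem sub_large {k : Type} [Field k] [CharZero k] {v : AbsoluteValue k ℝ} {p : ℕ}
    (H : IsPAdic v p) {a : k} (ha0 : a ≠ 0) (ha1 : a ≠ 1) (ha : v a ≤ 1) (P Q : Pt a) (R : ℝ)
    (hR : 1 < R) (hP : v (xc P) = R) (hQ : v (xc Q) = R) (hPQ : v (xc P - xc Q) = R) :
    v (xc (P - Q)) = R := by
  have hv := H.nonarch
  have hP0 : P ≠ 0 := vd_ne_zero_of_lt P (by rw [hP]; exact hR)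
  have hQ0 : Q ≠ 0 := vd_ne_zero_of_lt Q (by rw [hQ]; exact hR)
  have hR0 : 0 < R := one_pos.trans hR
  have hne : xc P ≠ xc Q := by
    intro h
    rw [h, sub_self, map_zero] at hPQ
    linarith
  have hy : ∀ S : Pt a, S ≠ 0 → v (xc S) = R → v (yc S) ^ 2 = R ^ 3 := by
    intro S hS hSR
    have h1 := congrArg v (vd_curve S hS)
    rw [map_pow, map_mul, map_mul, vd_sub_of_lt hv (by rw [map_one, hSR]; exact hR),
      vd_sub_of_lt hv (by rw [hSR]; exact ha.trans_lt hR), hSR] at h1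
    rw [h1]
    ring
  have hyP := hy P hP0 hP
  have hyQ := hy Q hQ0 hQ
  have hyy : v (yc P) = v (yc Q) := by
    have h1 : v (yc P) ^ 2 = v (yc Q) ^ 2 := by rw [hyP, hyQ]
    exact (pow_left_inj₀ (AbsoluteValue.nonneg _ _) (AbsoluteValue.nonneg _ _) two_ne_zero).1 h1
  have h1a : v (1 + a) ≤ R := by
    refine (hv _ _).trans (max_le ?_ (ha.trans hR.le))
    rw [map_one]
    exact hR.le
  have bound : ∀ s : k, v s ≤ v (yc P) →
      v ((s / (xc P - xc Q)) ^ 2 + (1 + a) - xc P - xc Q) ≤ R := by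
    intro s hs
    refine (vd_sub_le hv _ _).trans (max_le ((vd_sub_le hv _ _).trans (max_le ?_ hP.le)) hQ.le)
    refine (hv _ _).trans (max_le ?_ h1a)
    rw [map_pow, map_div₀, hPQ, div_pow, div_le_iff₀ (by positivity)]
    calc v s ^ 2 ≤ v (yc P) ^ 2 := pow_le_pow_left₀ (AbsoluteValue.nonneg _ _) hs 2
      _ = R ^ 3 := hyP
      _ = R * R ^ 2 := by ring
  have hplus : v (xc (P + Q)) ≤ R := by
    rw [vd_add P Q hP0 hQ0 hne]
    exact bound _ ((vd_sub_le hv _ _).trans (max_le le_rfl hyy.ge))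
  have hminus : v (xc (P - Q)) ≤ R := by
    rw [vd_sub P Q hP0 hQ0 hne]
    exact bound _ ((hv _ _).trans (max_le le_rfl hyy.ge))
  have hprod := congrArg v (vd_prod P Q hP0 hQ0 hne)
  have hnum : v (xc P * xc Q - a) = R ^ 2 := by
    rw [vd_sub_of_lt hv, map_mul, hP, hQ, sq]
    rw [map_mul, hP, hQ]
    nlinarith
  rw [map_mul, map_pow, map_div₀, hnum, hPQ] at hprod
  have h5 : v (xc (P + Q)) * v (xc (P - Q)) = R ^ 2 := by
    rw [hprod]
    field_simp
  apply le_antisymm hminus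
  by_contra hlt
  push Not at hlt
  have h6 : v (xc (P + Q)) * v (xc (P - Q)) ≤ R * v (xc (P - Q)) :=
    mul_le_mul_of_nonneg_right hplus (AbsoluteValue.nonneg _ _)
  nlinarith

/-- needed in Growth -/
theorem p_step {k : Type} [Field k] [CharZero k] {v : AbsoluteValue k ℝ} {p : ℕ}
    (H : IsPAdic v p) {a : k} (ha0 : a ≠ 0) (ha1 : a ≠ 1) (ha : v a ≤ 1) (R : Pt a)
    (hR : 1 < v (xc R)) (hnt : ∀ N : ℕ, 0 < N → N • R ≠ 0) :
    v (xc R) * (min (v (p : k))⁻¹ (v (xc R))) ^ 2 ≤ v (xc (p • R)) := by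
  have hv := H.nonarch
  have hp3 := H.three
  have hR0 : R ≠ 0 := vd_ne_zero_of_lt R hR
  have hr0 : 0 < v (xc R) := one_pos.trans hR
  have hpk : (p : k) ≠ 0 := by
    have : p ≠ 0 := by omega
    exact_mod_cast this
  have hvp0 : 0 < v (p : k) := (AbsoluteValue.pos_iff v).2 hpk
  obtain ⟨h1, -, -, -, u, hu, hdiff⟩ := vd_last H ha R hR
  have hne : xc R ≠ xc ((p - 1) • R) := by
    intro h
    rcases vd_x_eq _ _ h1 hR0 h.symm with h2 | h2
    · apply hnt (p - 2) (by omega)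
      have e : p - 1 = (p - 2) + 1 := by omega
      rw [e, succ_nsmul] at h2
      exact add_eq_right.1 h2
    · apply hnt p (by omega)
      have e : p = (p - 1) + 1 := by omega
      rw [e, succ_nsmul, h2]
      exact neg_add_cancel R
  obtain ⟨_, hval⟩ := vd_final H ha R hR hne
  rw [hval]
  have hp2 : v ((p - 2 : ℕ) : k) ≤ 1 := vd_nat_le hv _
  have hp1 : v ((p - 1 : ℕ) : k) = 1 := vd_nat H (p - 1) (fun h => by
    have := Nat.le_of_dvd (by omega) h
    omega)
  set d : ℝ := v (xc R - xc ((p - 1) • R)) with hd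
  have hd0 : 0 < d := (AbsoluteValue.pos_iff v).2 (sub_ne_zero.2 hne)
  have hdle : d ≤ v (xc R) * max (v (p : k)) (v (xc R))⁻¹ := by
    rw [hd, hdiff, map_div₀, map_mul, map_pow, hp1, one_pow, div_one]
    refine mul_le_mul_of_nonneg_left ?_ hr0.le
    refine (vd_sub_le hv _ _).trans (max_le_max ?_ hu)
    rw [map_mul]
    calc v (p : k) * v ((p - 2 : ℕ) : k) ≤ v (p : k) * 1 :=
          mul_le_mul_of_nonneg_left hp2 hvp0.le
      _ = _ := mul_one _
  refine mul_le_mul_of_nonneg_left ?_ hr0.le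
  refine pow_le_pow_left₀ ?_ ?_ 2
  · exact le_min (inv_pos.2 hvp0).le hr0.le
  · rw [le_div_iff₀ hd0]
    rcases le_total (v (p : k)) (v (xc R))⁻¹ with h | h
    · rw [max_eq_right h] at hdle
      calc min (v (p : k))⁻¹ (v (xc R)) * d ≤ v (xc R) * d :=
            mul_le_mul_of_nonneg_right (min_le_right _ _) hd0.le
        _ ≤ v (xc R) * (v (xc R) * (v (xc R))⁻¹) := mul_le_mul_of_nonneg_left hdle hr0.le
        _ = v (xc R) := by field_simp
    · rw [max_eq_left h] at hdle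
      calc min (v (p : k))⁻¹ (v (xc R)) * d ≤ (v (p : k))⁻¹ * d :=
            mul_le_mul_of_nonneg_right (min_le_left _ _) hd0.le
        _ ≤ (v (p : k))⁻¹ * (v (xc R) * v (p : k)) :=
            mul_le_mul_of_nonneg_left hdle (inv_pos.2 hvp0).le
        _ = v (xc R) := by field_simp

end ZC
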