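import Pool.Agent.ZC.Vadic2

/-!
Module Vadic3 (project ZC, helper83): the filtration subgroups of the formal group.
PROOF.  P, Q are nonzero.  Let S = P - Q, S != 0, and suppose v(x S) < R.  P = Q + S, x Q != x S (values differ).
Let s = x(Q+S) + x(Q-S), m = x(Q+S) * x(Q-S).  Then (vd_prod, vd_add, vd_sub of Vadic2, copy them, they are private there)
 m = ((xQ xS - a)/(xQ - xS))^2,
 s = 2((xQ + xS)(xQ xS + a) - 2(1+a) xQ xS)/(xQ - xS)^2.
v(xQ - xS) = v(xQ) > 1, so with M = max (v xS) (1 / v xQ) < R one has v m <= M^2 and v s <= M (use v 2 <= 1, v(1+a) <= 1).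
x(P) = x(Q+S) is a root of X^2 - s X + m, so v(x P) <= M < R: contradiction.
-/

namespace ZC

open Polynomial WeierstrassCurve
open scoped Classical

section algebra

variable {k : Type} [Field k] {a : k}

private theorem v3_cases (P : Pt a) (h : P ≠ 0) :
    ∃ (x y : k) (hn : (leg a).toAffine.Nonsingular x y), P = Affine.Point.some x y hn := by
  rcases P with _ | ⟨x, y, hn⟩
  · exact absurd rfl h
  · exact ⟨x, y, hn, rfl⟩

private theorem v3_eq {x y : k} (hn : (leg a).toAffine.Nonsingular x y) :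
    y ^ 2 = x * (x - 1) * (x - a) := (leg_equation a x y).1 hn.1

private theorem v3_xc_neg (P : Pt a) : xc (-P) = xc P := by
  rcases P with _ | ⟨x, y, hn⟩
  · rfl
  · rfl

private theorem v3_yc_neg (P : Pt a) : yc (-P) = - yc P := by
  rcases P with _ | ⟨x, y, hn⟩
  · show (0 : k) = -0
    rw [neg_zero]
  · show (leg a).toAffine.negY x y = - y
    rw [Affine.negY]
    show -y - 0 * x - 0 = -y
    ring

private theorem v3_curve (P : Pt a) (h : P ≠ 0) :
    yc P ^ 2 = xc P * (xc P - 1) * (xc P - a) := by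
  obtain ⟨x, y, hn, rfl⟩ := v3_cases P h
  exact v3_eq hn

private theorem v3_add (P Q : Pt a) (hP : P ≠ 0) (hQ : Q ≠ 0) (h : xc P ≠ xc Q) :
    xc (P + Q) = ((yc P - yc Q) / (xc P - xc Q)) ^ 2 + (1 + a) - xc P - xc Q := by
  obtain ⟨x, y, hn, rfl⟩ := v3_cases P hP
  obtain ⟨x', y', hn', rfl⟩ := v3_cases Q hQ
  have h' : x ≠ x' := h
  rw [Affine.Point.add_of_X_ne h']
  show (leg a).toAffine.addX x x' ((leg a).toAffine.slope x x' y y') = _
  rw [Affine.slope_of_X_ne h', Affine.addX]
  show ((y - y') / (x - x')) ^ 2 + 0 * ((y - y') / (x - x')) - (-(1 + a)) - x - x' =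
    ((y - y') / (x - x')) ^ 2 + (1 + a) - x - x'
  ring

private theorem v3_sub (P Q : Pt a) (hP : P ≠ 0) (hQ : Q ≠ 0) (h : xc P ≠ xc Q) :
    xc (P - Q) = ((yc P + yc Q) / (xc P - xc Q)) ^ 2 + (1 + a) - xc P - xc Q := by
  rw [sub_eq_add_neg, v3_add P (-Q) hP (neg_ne_zero.2 hQ) (by rwa [v3_xc_neg]), v3_xc_neg,
    v3_yc_neg, sub_neg_eq_add]

/-- `x (P + Q)` is a root of an explicit quadratic polynomial -/
private theorem v3_root (P Q : Pt a) (hP : P ≠ 0) (hQ : Q ≠ 0) (h : xc P ≠ xc Q) :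
    xc (P + Q) ^ 2 =
      2 * ((xc P + xc Q) * (xc P * xc Q + a) - 2 * (1 + a) * (xc P * xc Q)) /
        (xc P - xc Q) ^ 2 * xc (P + Q) - ((xc P * xc Q - a) / (xc P - xc Q)) ^ 2 := by
  have e1 := v3_add P Q hP hQ h
  have e2 := v3_sub P Q hP hQ h
  have h1 := v3_curve P hP
  have h2 := v3_curve Q hQ
  have h3 : xc P - xc Q ≠ 0 := sub_ne_zero.2 h
  have hs : xc (P + Q) + xc (P - Q) =
      2 * ((xc P + xc Q) * (xc P * xc Q + a) - 2 * (1 + a) * (xc P * xc Q)) /
        (xc P - xc Q) ^ 2 := by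
    rw [e1, e2]
    generalize xc P = x at *
    generalize xc Q = x' at *
    generalize yc P = y at *
    generalize yc Q = y' at *
    rw [eq_div_iff (pow_ne_zero 2 h3)]
    have e3 : (((y - y') / (x - x')) ^ 2 + (1 + a) - x - x' +
        (((y + y') / (x - x')) ^ 2 + (1 + a) - x - x')) * (x - x') ^ 2 =
        2 * (y ^ 2 + y' ^ 2) + 2 * ((1 + a) - x - x') * (x - x') ^ 2 := by
      field_simp
      ring
    rw [e3, h1, h2]
    ring
  have hm : xc (P + Q) * xc (P - Q) = ((xc P * xc Q - a) / (xc P - xc Q)) ^ 2 := by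
    rw [e1, e2]
    generalize xc P = x at *
    generalize xc Q = x' at *
    generalize yc P = y at *
    generalize yc Q = y' at *
    field_simp
    have e3 : ∀ s : k, ((y - y') ^ 2 + s) * ((y + y') ^ 2 + s) =
        (y ^ 2 - y' ^ 2) ^ 2 + s * (2 * (y ^ 2 + y' ^ 2)) + s ^ 2 := by
      intro s
      ring
    have e4 := e3 ((x - x') ^ 2 * (1 + a) - (x - x') ^ 2 * x - (x - x') ^ 2 * x')
    rw [h1, h2] at e4
    have e5 : ((y - y') ^ 2 + (x - x') ^ 2 * (1 + a) - x * (x - x') ^ 2 - (x - x') ^ 2 * x') *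
        ((y + y') ^ 2 + (x - x') ^ 2 * (1 + a) - x * (x - x') ^ 2 - (x - x') ^ 2 * x') =
        (x * x' - a) ^ 2 * (x - x') ^ 2 := by
      linear_combination e4
    linear_combination e5
  rw [← hs, ← hm]
  ring

end algebra

section valuation

variable {k : Type} [Field k] {v : AbsoluteValue k ℝ}

private theorem v3_sub_le (hv : IsNonarchimedean v) (x y : k) : v (x - y) ≤ max (v x) (v y) := by
  have := hv x (-y)
  rwa [map_neg_eq_map, ← sub_eq_add_neg] at this

private theorem v3_sub_of_lt (hv : IsNonarchimedean v) {x y : k} (h : v y < v x) :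
    v (x - y) = v x := by
  apply le_antisymm
  · exact (v3_sub_le hv x y).trans (max_le le_rfl h.le)
  · by_contra hc
    push Not at hc
    have h1 := hv (x - y) y
    rw [sub_add_cancel] at h1
    exact absurd h1 (not_le.2 (max_lt hc h))

end valuation

theorem formal_sub {k : Type} [Field k] [CharZero k] {v : AbsoluteValue k ℝ} {p : ℕ}
    (H : IsPAdic v p) {a : k} (ha : v a ≤ 1) (P Q : Pt a) (R : ℝ) (hR : 1 < R)
    (hP : R ≤ v (xc P)) (hQ : R ≤ v (xc Q)) (hPQ : P ≠ Q) : R ≤ v (xc (P - Q)) := by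
  have hv := H.nonarch
  have nz : ∀ T : Pt a, R ≤ v (xc T) → T ≠ 0 := by
    rintro T hT rfl
    have h0 : xc (0 : Pt a) = 0 := rfl
    rw [h0, map_zero] at hT
    linarith
  have hP0 := nz P hP
  have hQ0 := nz Q hQ
  by_contra hcon
  push Not at hcon
  have hS0 : P - Q ≠ 0 := sub_ne_zero.2 hPQ
  have hsum : Q + (P - Q) = P := by abel
  have hne : xc Q ≠ xc (P - Q) := by
    intro h
    rw [← h] at hcon
    linarith
  have hroot := v3_root Q (P - Q) hQ0 hS0 hne
  rw [hsum] at hroot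
  have hd : v (xc Q - xc (P - Q)) = v (xc Q) := v3_sub_of_lt hv (hcon.trans_le hQ)
  generalize xc (P - Q) = z at *
  generalize xc Q = w at *
  generalize xc P = x at *
  have hV : 1 < v w := hR.trans_le hQ
  have hV0 : 0 < v w := one_pos.trans hV
  have hσ0 : 0 ≤ v z := AbsoluteValue.nonneg _ _
  have hx0 : 0 < v x := by linarith
  have hlt : v z < v x := hcon.trans_le hP
  -- bound of the norm
  have h2 : v (2 : k) ≤ 1 := by
    have h := hv (1 : k) 1
    rw [map_one, max_self] at h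
    have e : (1 : k) + 1 = 2 := by norm_num
    rwa [e] at h
  have h1a : v (1 + a) ≤ 1 := (hv 1 a).trans (max_le (by rw [map_one]) ha)
  have hwx : v w * v z < v w * v x := mul_lt_mul_of_pos_left hlt hV0
  have h1wx : 1 < v w * v x := by nlinarith
  have b1 : v (w * z - a) < v w * v x := by
    refine (v3_sub_le hv _ _).trans_lt (max_lt ?_ (ha.trans_lt h1wx))
    rw [map_mul]
    exact hwx
  have b2 : v (w * z + a) < v w * v x := by
    refine (hv _ _).trans_lt (max_lt ?_ (ha.trans_lt h1wx))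
    rw [map_mul]
    exact hwx
  have hm : v (((w * z - a) / (w - z)) ^ 2) < v x ^ 2 := by
    rw [map_pow, map_div₀, hd]
    have h3 : v (w * z - a) / v w < v x := by
      rw [div_lt_iff₀ hV0, mul_comm (v x) (v w)]
      exact b1
    exact pow_lt_pow_left₀ h3 (div_nonneg (AbsoluteValue.nonneg _ _) hV0.le) (by norm_num)
  have hnum : v ((w + z) * (w * z + a) - 2 * (1 + a) * (w * z)) < v w * (v w * v x) := by
    refine (v3_sub_le hv _ _).trans_lt (max_lt ?_ ?_)
    · rw [map_mul]
      have h4 : v (w + z) ≤ v w := (hv _ _).trans (max_le le_rfl (hcon.trans_le hQ).le)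
      calc v (w + z) * v (w * z + a) ≤ v w * v (w * z + a) :=
            mul_le_mul_of_nonneg_right h4 (AbsoluteValue.nonneg _ _)
        _ < v w * (v w * v x) := mul_lt_mul_of_pos_left b2 hV0
    · rw [map_mul, map_mul, map_mul]
      have h5 : v (2 : k) * v (1 + a) ≤ 1 :=
        mul_le_one₀ h2 (AbsoluteValue.nonneg _ _) h1a
      calc v (2 : k) * v (1 + a) * (v w * v z) ≤ 1 * (v w * v z) :=
            mul_le_mul_of_nonneg_right h5 (by positivity)
        _ = v w * v z := one_mul _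
        _ < v w * v x := hwx
        _ ≤ v w * (v w * v x) := by nlinarith [mul_pos hV0 hx0]
  have hs : v (2 * ((w + z) * (w * z + a) - 2 * (1 + a) * (w * z)) / (w - z) ^ 2) < v x := by
    rw [map_div₀, map_mul, map_pow, hd, div_lt_iff₀ (by positivity)]
    calc v (2 : k) * v ((w + z) * (w * z + a) - 2 * (1 + a) * (w * z))
        ≤ 1 * v ((w + z) * (w * z + a) - 2 * (1 + a) * (w * z)) :=
          mul_le_mul_of_nonneg_right h2 (AbsoluteValue.nonneg _ _)
      _ = v ((w + z) * (w * z + a) - 2 * (1 + a) * (w * z)) := one_mul _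
      _ < v w * (v w * v x) := hnum
      _ = v x * v w ^ 2 := by ring
  have hfin : v (x ^ 2) < v x ^ 2 := by
    rw [hroot]
    refine (v3_sub_le hv _ _).trans_lt (max_lt ?_ hm)
    rw [map_mul, sq (v x)]
    exact mul_lt_mul_of_pos_right hs hx0
  rw [map_pow] at hfin
  exact lt_irrefl _ hfin

end ZC
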