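import Pool.Agent.ZC.Tower2
import Pool.Agent.ZC.Vadic2
import Pool.Agent.ZC.Vadic3

/-!
Module RankU (project ZC, helper83): as module Rank, with the weaker hypothesis `v a = 1`.
Only v(mu_n) = v(1 + mu_n) = 1 is used, and the difference W = g P - P is nonzero and lies in the subgroup
v(x) >= v(t) of the formal group (formal_sub), so it is not a torsion point.
-/

namespace ZC

open Polynomial WeierstrassCurve
open scoped Classical

private theorem RankU_add_of_lt {k : Type} [Field k] {v : AbsoluteValue k ℝ} (hv : IsNonarchimedean v)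
    {x y : k} (h : v y < v x) : v (x + y) = v x := by
  apply le_antisymm
  · exact (hv x y).trans (by rw [max_eq_left h.le])
  · by_contra hcon
    push Not at hcon
    have h1 : v x ≤ max (v (x + y)) (v (-y)) := by
      have := hv (x + y) (-y)
      simpa using this
    rw [v.map_neg] at h1
    exact absurd (h1.trans_lt (max_lt hcon h)) (lt_irrefl _)

private theorem RankU_nat_le {k : Type} [Field k] {v : AbsoluteValue k ℝ} (hv : IsNonarchimedean v)
    (n : ℕ) : v (n : k) ≤ 1 := by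
  induction n with
  | zero => simp
  | succ n ih =>
    push_cast
    refine (hv _ _).trans (max_le ih ?_)
    simp

private theorem RankU_two {k : Type} [Field k] {v : AbsoluteValue k ℝ} {p : ℕ}
    (Hv : IsPAdic v p) : v (2 : k) = 1 := by
  have h1 : v ((2 : ℕ) : k) ≤ 1 := RankU_nat_le Hv.nonarch 2
  rcases h1.lt_or_eq with h | h
  · exfalso
    obtain ⟨m, hm⟩ : ∃ m, p = 2 * m + 1 := by
      rcases Hv.prime.eq_two_or_odd' with h2 | h2
      · have := Hv.three
        omega
      · obtain ⟨m, hm⟩ := h2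
        exact ⟨m, hm⟩
    have h3 : v ((p : k)) = 1 := by
      rw [hm]
      push_cast
      rw [add_comm, RankU_add_of_lt Hv.nonarch]
      · simp
      · rw [v.map_one, v.map_mul]
        have h4 : v (m : k) ≤ 1 := RankU_nat_le Hv.nonarch m
        have h5 : v (2 : k) < 1 := by simpa using h
        have h6 : 0 ≤ v (2 : k) := v.nonneg _
        nlinarith [v.nonneg (m : k)]
    have := Hv.lt
    linarith
  · simpa using h

/-- one step of the tower, v-adically -/
private theorem RankU_step {k : Type} [Field k] {v : AbsoluteValue k ℝ} {p : ℕ}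
    (Hv : IsPAdic v p) {α μ : k} (hr : α * (1 + μ) ^ 2 = 4 * μ) (h1 : v α = 1) :
    v μ = 1 ∧ v (1 + μ) = 1 := by
  have h4 : v (4 : k) = 1 := by
    have : (4 : k) = 2 * 2 := by norm_num
    rw [this, v.map_mul, RankU_two Hv, one_mul]
  have hv := congrArg v hr
  rw [v.map_mul, v.map_mul, v.map_pow, h1, h4, one_mul, one_mul] at hv
  have hμ : v μ = 1 := by
    rcases lt_trichotomy (v μ) 1 with h | h | h
    · exfalso
      have : v (1 + μ) = 1 := by
        rw [RankU_add_of_lt Hv.nonarch (by rw [v.map_one]; exact h), v.map_one]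
      rw [this] at hv
      linarith
    · exact h
    · exfalso
      have : v (1 + μ) = v μ := by
        rw [add_comm, RankU_add_of_lt Hv.nonarch (by rw [v.map_one]; exact h)]
      rw [this] at hv
      nlinarith
  have h5 : v (1 + μ) = 1 := by
    rw [hμ] at hv
    have := v.nonneg (1 + μ)
    nlinarith
  exact ⟨hμ, h5⟩

private theorem RankU_tower {ι : AlgebraicClosure ℚ →+* ℂ} {a : AlgebraicClosure ℚ}
    {α μ : ℕ → AlgebraicClosure ℚ} (H : IsTower ι a α μ)
    {v : AbsoluteValue (AlgebraicClosure ℚ) ℝ} {p : ℕ} (Hv : IsPAdic v p)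
    (ha : v a = 1) (n : ℕ) : v (α n) = 1 := by
  induction n with
  | zero => rw [H.zero]; exact ha
  | succ n ih =>
    obtain ⟨h1, h2⟩ := RankU_step Hv (H.rel n) ih
    rw [H.succ, v.map_pow, h1, one_pow]

/-- the Landen map on `x`-coordinates of large absolute value -/
private theorem RankU_X {k : Type} [Field k] {v : AbsoluteValue k ℝ} (hv : IsNonarchimedean v)
    {μ u : k} (h1 : v μ = 1) (h2 : v (1 + μ) = 1) (hu : 1 < v u) :
    v ((u + μ) ^ 2 / ((1 + μ) ^ 2 * u)) = v u := by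
  rw [map_div₀, v.map_pow, v.map_mul, v.map_pow, h2, RankU_add_of_lt hv (by rw [h1]; exact hu)]
  field_simp

private theorem RankU_Xsub {k : Type} [Field k] {v : AbsoluteValue k ℝ} (hv : IsNonarchimedean v)
    {μ u u' : k} (h1 : v μ = 1) (h2 : v (1 + μ) = 1) (hu : 1 < v u) (hu' : 1 < v u') :
    v ((u + μ) ^ 2 / ((1 + μ) ^ 2 * u) - (u' + μ) ^ 2 / ((1 + μ) ^ 2 * u')) = v (u - u') := by
  have hu0 : u ≠ 0 := by
    rintro rfl
    rw [v.map_zero] at hu
    linarith
  have hu0' : u' ≠ 0 := by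
    rintro rfl
    rw [v.map_zero] at hu'
    linarith
  have hm : 1 + μ ≠ 0 := by
    intro h
    rw [h, v.map_zero] at h2
    norm_num at h2
  have e : (u + μ) ^ 2 / ((1 + μ) ^ 2 * u) - (u' + μ) ^ 2 / ((1 + μ) ^ 2 * u') =
      (u - u') * (1 + -(μ ^ 2 / (u * u'))) / (1 + μ) ^ 2 := by
    field_simp
    ring
  have h3 : v (1 + -(μ ^ 2 / (u * u'))) = 1 := by
    rw [RankU_add_of_lt hv, v.map_one]
    rw [v.map_neg, v.map_one, map_div₀, v.map_pow, v.map_mul, h1, one_pow,
      div_lt_one (by positivity)]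
    nlinarith
  rw [e, map_div₀, v.map_mul, v.map_pow, h2, h3]
  simp

private theorem RankU_iter {k : Type} [Field k] {v : AbsoluteValue k ℝ} (hv : IsNonarchimedean v)
    {μ : ℕ → k} (h1 : ∀ n, v (μ n) = 1) (h2 : ∀ n, v (1 + μ n) = 1) (n : ℕ) :
    ∀ u : k, 1 < v u → v (iterX μ n u) = v u ∧
      ∀ u' : k, 1 < v u' → v (iterX μ n u - iterX μ n u') = v (u - u') := by
  induction n with
  | zero => exact fun u _ => ⟨rfl, fun u' _ => rfl⟩
  | succ n ih =>
    intro u hu
    have h3 := RankU_X hv (h1 n) (h2 n) hu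
    simp only [iterX]
    refine ⟨?_, fun u' hu' => ?_⟩
    · rw [(ih _ (by rw [h3]; exact hu)).1, h3]
    · have h3' := RankU_X hv (h1 n) (h2 n) hu'
      rw [(ih _ (by rw [h3]; exact hu)).2 _ (by rw [h3']; exact hu'),
        RankU_Xsub hv (h1 n) (h2 n) hu hu']

private theorem RankU_iter_map {k : Type} [Field k] {μ : ℕ → k} (σ : k →+* k) (n : ℕ)
    (h : ∀ i < n, σ (μ i) = μ i) (u : k) : σ (iterX μ n u) = iterX μ n (σ u) := by
  induction n generalizing u with
  | zero => rfl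
  | succ n ih =>
    simp only [iterX]
    rw [ih (fun i hi => h i (by omega))]
    congr 1
    simp [map_div₀, h n (Nat.lt_succ_self n)]

private theorem RankU_cast {F : Type} [Field F] {W W' : WeierstrassCurve F} (h : W = W') :
    ∃ e : W.toAffine.Point ≃+ W'.toAffine.Point, (∀ x y hxy, ∃ hxy',
      e (.some x y hxy) = .some x y hxy') ∧ (∀ x y hxy, ∃ hxy',
      e.symm (.some x y hxy) = .some x y hxy') := by
  subst h
  exact ⟨AddEquiv.refl _, fun x y hxy => ⟨hxy, rfl⟩, fun x y hxy => ⟨hxy, rfl⟩⟩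

/-- the action of a Galois automorphism on the points -/
private theorem RankU_gal {a : AlgebraicClosure ℚ} (L : IntermediateField ℚ (AlgebraicClosure ℚ))
    (ha : a ∈ L) (σ : AlgebraicClosure ℚ ≃ₐ[L] AlgebraicClosure ℚ) :
    ∃ g : Pt a →+ Pt a, ∀ x y (h : (leg a).toAffine.Nonsingular x y), ∃ h',
      g (.some x y h) = .some (σ x) (σ y) h' := by
  obtain ⟨e, he, he'⟩ := RankU_cast (F := AlgebraicClosure ℚ)
    (W := (leg (⟨a, ha⟩ : L)).baseChange (AlgebraicClosure ℚ)) (W' := leg a) (by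
      ext <;> simp [leg, WeierstrassCurve.baseChange])
  let m := Affine.Point.map (W' := (leg (⟨a, ha⟩ : L)).toAffine) (S := L)
    (σ : AlgebraicClosure ℚ →ₐ[L] AlgebraicClosure ℚ)
  refine ⟨(e : _ →+ _).comp (m.comp (e.symm : _ →+ _)), fun x y h => ?_⟩
  obtain ⟨h1, h2⟩ := he' x y h
  have h3 : m (.some x y h1) = .some _ _ _ := Affine.Point.map_some
    (W' := (leg (⟨a, ha⟩ : L)).toAffine) (S := L)
    (f := (σ : AlgebraicClosure ℚ →ₐ[L] AlgebraicClosure ℚ)) h1
  obtain ⟨h4, h5⟩ := he (σ x) (σ y) (by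
    exact ((leg (⟨a, ha⟩ : L)).toAffine.baseChange_nonsingular
      (f := (σ : AlgebraicClosure ℚ →ₐ[L] AlgebraicClosure ℚ)) σ.injective x y).mpr h1)
  refine ⟨h4, ?_⟩
  rw [← h5]
  change e (m (e.symm _)) = _
  rw [h2, h3]
  rfl

private theorem RankU_alg : Algebra.IsAlgebraic ℚ (AlgebraicClosure ℚ) := by
  have e : (DivisionRing.toRatAlgebra : Algebra ℚ (AlgebraicClosure ℚ)) =
    AlgebraicClosure.instAlgebra ℚ := Subsingleton.elim _ _
  have h := AlgebraicClosure.isAlgebraic ℚ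
  rw [← e] at h
  exact h

private theorem RankU_sigma (L : IntermediateField ℚ (AlgebraicClosure ℚ))
    (x : AlgebraicClosure ℚ) (hx : x ∉ L) :
    ∃ σ : AlgebraicClosure ℚ ≃ₐ[L] AlgebraicClosure ℚ, σ x ≠ x := by
  have := RankU_alg
  have : Algebra.IsAlgebraic L (AlgebraicClosure ℚ) := Algebra.IsAlgebraic.tower_top (K := ℚ) L
  have : IsAlgClosure L (AlgebraicClosure ℚ) := ⟨inferInstance, inferInstance⟩
  by_contra hcon
  push Not at hcon
  obtain ⟨y, hy⟩ := (InfiniteGalois.mem_range_algebraMap_iff_fixed (k := L) x).2 hcon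
  apply hx
  rw [← hy]
  exact y.2

private theorem RankU_finite {ι : AlgebraicClosure ℚ →+* ℂ} {a : AlgebraicClosure ℚ}
    {α μ : ℕ → AlgebraicClosure ℚ} (H : IsTower ι a α μ) (ha0 : a ≠ 0) (ha1 : a ≠ 1)
    {v : AbsoluteValue (AlgebraicClosure ℚ) ℝ} {p : ℕ} (Hv : IsPAdic v p)
    (ha : v a = 1) (t : AlgebraicClosure ℚ)
    (ht : 1 < v t * v (p : AlgebraicClosure ℚ)) (n₀ : ℕ) (P : ℕ → Pt a)
    (hP : ∀ n, n₀ ≤ n → P n ≠ 0 ∧ xc (P n) = iterX μ n t) (F : Set (Pt a)) (hF : F.Finite)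
    (hFc : ∀ m, n₀ ≤ m → ∃ c : ℤ, c ≠ 0 ∧ c • P m ∈ Submodule.span ℤ F) : False := by
  have hp1 := Hv.lt
  have hp0 : 0 < v (p : AlgebraicClosure ℚ) := by
    rcases (v.nonneg (p : AlgebraicClosure ℚ)).lt_or_eq with h | h
    · exact h
    · rw [← h, mul_zero] at ht
      linarith
  have ht1 : 1 < v t := by
    have := v.nonneg t
    nlinarith
  have hst := fun n => RankU_step Hv (H.rel n) (RankU_tower H Hv ha n)
  have hm1 : ∀ n, v (μ n) = 1 := fun n => (hst n).1
  have hm2 : ∀ n, v (1 + μ n) = 1 := fun n => (hst n).2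
  -- the number field
  set S : Set (AlgebraicClosure ℚ) := ({a, t} ∪ xc '' F) ∪ (yc '' F ∪ μ '' Set.Iic n₀) with hS
  have hSf : S.Finite := ((Set.toFinite _).union (hF.image _)).union
    ((hF.image _).union ((Set.finite_Iic n₀).image _))
  have : Finite S := hSf
  have := RankU_alg
  set L : IntermediateField ℚ (AlgebraicClosure ℚ) := IntermediateField.adjoin ℚ S with hL
  have : FiniteDimensional ℚ L := IntermediateField.finiteDimensional_adjoin
    (fun x _ => Algebra.IsIntegral.isIntegral x)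
  have hSL : ∀ x ∈ S, x ∈ L := fun x hx => IntermediateField.subset_adjoin ℚ S hx
  have haL : a ∈ L := hSL a (by simp [hS])
  have htL : t ∈ L := hSL t (by simp [hS])
  have hxL : ∀ Q ∈ F, xc Q ∈ L := fun Q hQ => hSL _ (Or.inl (Or.inr ⟨Q, hQ, rfl⟩))
  have hyL : ∀ Q ∈ F, yc Q ∈ L := fun Q hQ => hSL _ (Or.inr (Or.inl ⟨Q, hQ, rfl⟩))
  have hmL : ∀ i ≤ n₀, μ i ∈ L := fun i hi => hSL _ (Or.inr (Or.inr ⟨i, hi, rfl⟩))
  have hex := H.exists_not_mem ha0 ha1 L
  set n := Nat.find hex with hn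
  have hnL : μ n ∉ L := Nat.find_spec hex
  have hnmin : ∀ i < n, μ i ∈ L := fun i hi => by
    by_contra h
    exact Nat.find_min hex hi h
  have hn0 : n₀ < n := by
    by_contra h
    push Not at h
    exact hnL (hmL n h)
  have hαL : α n ∈ L := by
    obtain ⟨m, hm⟩ : ∃ m, n = m + 1 := ⟨n - 1, by omega⟩
    rw [hm, H.succ]
    exact pow_mem (hnmin m (by omega)) 2
  obtain ⟨σ, hσ⟩ := RankU_sigma L (μ n) hnL
  have hfix : ∀ x ∈ L, σ x = x := fun x hx => σ.commutes ⟨x, hx⟩
  have hα0 : α n ≠ 0 := by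
    intro h
    have := (RankU_tower H Hv ha n)
    rw [h, v.map_zero] at this
    norm_num at this
  have hμ0 : μ n ≠ 0 := by
    intro h
    have := hm1 n
    rw [h, v.map_zero] at this
    norm_num at this
  have hm10 : 1 + μ n ≠ 0 := by
    intro h
    have := hm2 n
    rw [h, v.map_zero] at this
    norm_num at this
  have ht0 : t ≠ 0 := by
    rintro rfl
    rw [v.map_zero] at ht1
    linarith
  have hinv : μ n * σ (μ n) = 1 := by
    have h1 := congrArg σ (H.rel n)
    simp only [map_mul, map_pow, map_add, map_one, hfix _ hαL, map_ofNat] at h1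
    have h2 := H.rel n
    have h3 : α n * ((σ (μ n) - μ n) * (1 - μ n * σ (μ n))) = 0 := by
      linear_combination (-(μ n)) * h1 + (σ (μ n)) * h2
    rcases mul_eq_zero.1 h3 with h | h
    · exact absurd h hα0
    · rcases mul_eq_zero.1 h with h | h
      · exact absurd (sub_eq_zero.1 h) hσ
      · linear_combination -h
  obtain ⟨g, hg⟩ := RankU_gal L haL σ
  have hgF : ∀ Q ∈ F, g Q = Q := by
    intro Q hQ
    match Q, hxL Q hQ, hyL Q hQ with
    | .zero, _, _ => exact g.map_zero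
    | .some x y h, hx, hy =>
      obtain ⟨h', h''⟩ := hg x y h
      rw [h'']
      congr 1
      · exact hfix x hx
      · exact hfix y hy
  have hspan : ∀ Q ∈ Submodule.span ℤ F, g Q = Q := by
    intro Q hQ
    induction hQ using Submodule.span_induction with
    | mem x hx => exact hgF x hx
    | zero => exact g.map_zero
    | add x y _ _ hx hy => rw [g.map_add, hx, hy]
    | smul c x _ hx => rw [map_zsmul, hx]
  obtain ⟨c, hc0, hc⟩ := hFc (n + 1) (by omega)
  obtain ⟨hPn0, hPx⟩ := hP (n + 1) (by omega)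
  have htor : c • (P (n + 1) - g (P (n + 1))) = 0 := by
    rw [smul_sub, ← map_zsmul, hspan _ hc, sub_self]
  have htor' : c.natAbs • (P (n + 1) - g (P (n + 1))) = 0 := by
    rcases Int.natAbs_eq c with h | h
    · rw [h] at htor
      simpa using htor
    · rw [h, neg_smul, neg_eq_zero] at htor
      simpa using htor
  have hb := torsion_bound Hv ha0 ha1 ha.le (P (n + 1) - g (P (n + 1)))
    (Int.natAbs_pos.2 hc0) htor'
  -- the x-coordinates
  have hgx : xc (g (P (n + 1))) = σ (xc (P (n + 1))) := by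
    match hQ : P (n + 1), hPn0 with
    | .zero, h0 => exact absurd rfl h0
    | .some x y h, _ =>
      obtain ⟨h', h''⟩ := hg x y h
      rw [h'']
      rfl
  set u : AlgebraicClosure ℚ := (t + μ n) ^ 2 / ((1 + μ n) ^ 2 * t) with hu
  have hx1 : xc (P (n + 1)) = iterX μ n u := by rw [hPx]; rfl
  have hx2 : xc (g (P (n + 1))) = iterX μ n (σ u) := by
    rw [hgx, hx1]
    exact RankU_iter_map (σ : AlgebraicClosure ℚ →+* AlgebraicClosure ℚ) n
      (fun i hi => hfix _ (hnmin i hi)) u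
  have hσu : σ u = (μ n * t + 1) ^ 2 / ((1 + μ n) ^ 2 * t) := by
    have hσμ : σ (μ n) = (μ n)⁻¹ := by
      field_simp
      linear_combination hinv
    have e1 : t + (μ n)⁻¹ = (μ n * t + 1) / μ n := by
      field_simp
    have e2 : 1 + (μ n)⁻¹ = (1 + μ n) / μ n := by
      field_simp
      ring
    rw [hu, map_div₀, map_pow, map_mul, map_pow, map_add, map_add, map_one, hfix t htL, hσμ,
      e1, e2]
    field_simp
  have hvu : v u = v t := RankU_X Hv.nonarch (hm1 n) (hm2 n) ht1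
  have hvσu : v (σ u) = v t := by
    have h1 : v (μ n * t + 1) = v t := by
      rw [RankU_add_of_lt Hv.nonarch, v.map_mul, hm1 n, one_mul]
      rw [v.map_mul, hm1 n, one_mul, v.map_one]
      exact ht1
    rw [hσu, map_div₀, v.map_pow, v.map_mul, v.map_pow, h1, hm2 n]
    field_simp
  have hvd : u - σ u ≠ 0 := by
    have h1 : u - σ u = (t ^ 2 + -1) * (1 - μ n) / ((1 + μ n) * t) := by
      rw [hσu, hu]
      field_simp
      ring
    have h2 : v (t ^ 2 + -1) = v t ^ 2 := by
      rw [RankU_add_of_lt Hv.nonarch, v.map_pow]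
      rw [v.map_neg, v.map_one, v.map_pow]
      nlinarith
    have h3 : t ^ 2 + -1 ≠ 0 := by
      intro h
      rw [h, v.map_zero] at h2
      nlinarith
    have h4 : 1 - μ n ≠ 0 := fun h => ((H.ne ha0 ha1).2 n).2.1 (by linear_combination -h)
    rw [h1]
    exact div_ne_zero (mul_ne_zero h3 h4) (mul_ne_zero hm10 ht0)
  have hit := RankU_iter Hv.nonarch hm1 hm2 n u (by rw [hvu]; exact ht1)
  have hit' := RankU_iter Hv.nonarch hm1 hm2 n (σ u) (by rw [hvσu]; exact ht1)
  have hne : P (n + 1) ≠ g (P (n + 1)) := by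
    intro h
    have h1 := hit.2 (σ u) (by rw [hvσu]; exact ht1)
    rw [← hx1, ← hx2, ← h, sub_self, v.map_zero] at h1
    exact hvd ((v.eq_zero).1 h1.symm)
  have hfin := formal_sub Hv ha.le (P (n + 1)) (g (P (n + 1))) (v t) ht1
    (by rw [hx1, hit.1, hvu]) (by rw [hx2, hit'.1, hvσu]) hne
  have := (mul_le_mul_of_nonneg_right hfin hp0.le).trans hb
  linarith

theorem infinite_rankU {ι : AlgebraicClosure ℚ →+* ℂ} {a : AlgebraicClosure ℚ}
    {α μ : ℕ → AlgebraicClosure ℚ} (H : IsTower ι a α μ) (ha0 : a ≠ 0) (ha1 : a ≠ 1)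
    {v : AbsoluteValue (AlgebraicClosure ℚ) ℝ} {p : ℕ} (Hv : IsPAdic v p)
    (ha : v a = 1) (t : AlgebraicClosure ℚ)
    (ht : 1 < v t * v (p : AlgebraicClosure ℚ)) (n₀ : ℕ) (P : ℕ → Pt a)
    (hP : ∀ n, n₀ ≤ n → P n ≠ 0 ∧ xc (P n) = iterX μ n t) :
    ∃ f : ℕ → Pt a, (∀ i, f i ∈ AddSubgroup.closure {Q | ∃ n, n₀ ≤ n ∧ Q = P n}) ∧
      LinearIndependent ℤ f := by
  obtain ⟨s, hs1, hs2⟩ := exists_maximal_linearIndepOn ℤ (fun n : {n : ℕ // n₀ ≤ n} => P n.1)
  by_cases hfin : s.Finite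
  · exfalso
    refine RankU_finite H ha0 ha1 Hv ha t ht n₀ P hP
      ((fun n : {n : ℕ // n₀ ≤ n} => P n.1) '' s) (hfin.image _) (fun m hm => ?_)
    by_cases hms : (⟨m, hm⟩ : {n : ℕ // n₀ ≤ n}) ∈ s
    · exact ⟨1, one_ne_zero, by
        rw [one_smul]
        exact Submodule.subset_span ⟨⟨m, hm⟩, hms, rfl⟩⟩
    · exact hs2 _ hms
  · have hinf : s.Infinite := hfin
    let e : ℕ ↪ s := hinf.natEmbedding s
    refine ⟨fun i => P (e i).1.1, fun i => ?_, ?_⟩
    · exact AddSubgroup.subset_closure ⟨(e i).1.1, (e i).1.2, rfl⟩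
    · exact LinearIndependent.comp hs1 e e.injective

end ZC
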