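import Pool.Agent.ZC.FinalN

/-!
Module Sat (project ZC, helper83): saturation of subgroups and bilinearity.
-/

namespace ZC

open Polynomial WeierstrassCurve
open scoped Classical

/-- the points with a nonzero multiple in the subgroup `A` -/
def sat {G : Type*} [AddCommGroup G] (A : AddSubgroup G) : AddSubgroup G where
  carrier := {R | ∃ m : ℕ, 0 < m ∧ m • R ∈ A}
  zero_mem' := ⟨1, one_pos, by rw [smul_zero]; exact zero_mem _⟩
  add_mem' := by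
    rintro x y ⟨m, hm, hx⟩ ⟨n, hn, hy⟩
    refine ⟨m * n, Nat.mul_pos hm hn, ?_⟩
    rw [smul_add]
    refine add_mem ?_ ?_
    · rw [mul_comm, mul_nsmul']
      exact nsmul_mem hx n
    · rw [mul_nsmul']
      exact nsmul_mem hy m
  neg_mem' := by
    rintro x ⟨m, hm, hx⟩
    exact ⟨m, hm, by rw [smul_neg]; exact neg_mem hx⟩

theorem le_sat {G : Type*} [AddCommGroup G] (A : AddSubgroup G) : A ≤ sat A :=
  fun x hx => ⟨1, one_pos, by rw [one_nsmul]; exact hx⟩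

theorem sat_sat {G : Type*} [AddCommGroup G] (A : AddSubgroup G) (R : G) (m : ℕ) (hm : 0 < m)
    (h : m • R ∈ sat A) : R ∈ sat A := by
  obtain ⟨n, hn, h'⟩ := h
  exact ⟨n * m, Nat.mul_pos hn hm, by rw [mul_nsmul']; exact h'⟩

variable {k : Type} [Field k] [IsAlgClosed k] [CharZero k]

theorem fn_zz_add_left {a b : k} (ha0 : a ≠ 0) (ha1 : a ≠ 1) (hb0 : b ≠ 0) (hb1 : b ≠ 1)
    (P P' : Pt a) (Q : Pt b) : zz (P + P') Q - zz P Q - zz P' Q ∈ ratZero a b := by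
  have h1 := add_left ha0 ha1 hb0 hb1 P P' Q
  have h2 := add_left ha0 ha1 hb0 hb1 P P' (0 : Pt b)
  have h3 := sub_mem h1 h2
  have e : zz (P + P') Q - zz P Q - zz P' Q =
      (Finsupp.single (P + P', Q) 1 + Finsupp.single ((0 : Pt a), Q) 1 - Finsupp.single (P, Q) 1
      - Finsupp.single (P', Q) 1) - (Finsupp.single (P + P', (0 : Pt b)) 1 +
      Finsupp.single ((0 : Pt a), (0 : Pt b)) 1 - Finsupp.single (P, (0 : Pt b)) 1
      - Finsupp.single (P', (0 : Pt b)) 1) := by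
    simp only [zz]
    abel
  rw [e]
  exact h3

theorem sat_tors {G : Type*} [AddCommGroup G] {H : AddSubgroup G} {x y z : G}
    (h : x - y - z ∈ H) (hy : ∃ N : ℕ, 0 < N ∧ N • y ∈ H) (hz : ∃ N : ℕ, 0 < N ∧ N • z ∈ H) :
    ∃ N : ℕ, 0 < N ∧ N • x ∈ H := by
  obtain ⟨m, hm, hy⟩ := hy
  obtain ⟨n, hn, hz⟩ := hz
  refine ⟨m * n, Nat.mul_pos hm hn, ?_⟩
  have e : (m * n) • x = (m * n) • (x - y - z) + n • (m • y) + m • (n • z) := by
    rw [← mul_nsmul', ← mul_nsmul', mul_comm n m]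
    rw [smul_sub, smul_sub]
    abel
  rw [e]
  exact add_mem (add_mem (nsmul_mem h _) (nsmul_mem hy _)) (nsmul_mem hz _)

/-- the annihilator of `P` -/
def annR {a b : k} (ha0 : a ≠ 0) (ha1 : a ≠ 1) (hb0 : b ≠ 0) (hb1 : b ≠ 1) (P : Pt a) :
    AddSubgroup (Pt b) where
  carrier := {Q | ∃ N : ℕ, 0 < N ∧ N • zz P Q ∈ ratZero a b}
  zero_mem' := ⟨1, one_pos, by rw [fn_zz_right_zero, smul_zero]; exact zero_mem _⟩
  add_mem' := fun {x y} hx hy => sat_tors (fn_zz_add_right ha0 ha1 hb0 hb1 P x y) hx hy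
  neg_mem' := by
    rintro x ⟨N, hN, hx⟩
    refine ⟨N, hN, ?_⟩
    have h := fn_zz_add_right ha0 ha1 hb0 hb1 P x (-x)
    rw [add_neg_cancel, fn_zz_right_zero, zero_sub] at h
    have h2 := add_mem (nsmul_mem h N) hx
    have e : N • (-zz P x - zz P (-x)) + N • zz P x = -(N • zz P (-x)) := by
      rw [smul_sub, smul_neg]; abel
    rw [e] at h2
    exact neg_mem_iff.1 h2

/-- the annihilator of `Q` -/
def annL {a b : k} (ha0 : a ≠ 0) (ha1 : a ≠ 1) (hb0 : b ≠ 0) (hb1 : b ≠ 1) (Q : Pt b) :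
    AddSubgroup (Pt a) where
  carrier := {P | ∃ N : ℕ, 0 < N ∧ N • zz P Q ∈ ratZero a b}
  zero_mem' := ⟨1, one_pos, by rw [fin_zz_zero, smul_zero]; exact zero_mem _⟩
  add_mem' := fun {x y} hx hy => sat_tors (fn_zz_add_left ha0 ha1 hb0 hb1 x y Q) hx hy
  neg_mem' := by
    rintro x ⟨N, hN, hx⟩
    refine ⟨N, hN, ?_⟩
    have h := fn_zz_add_left ha0 ha1 hb0 hb1 x (-x) Q
    rw [add_neg_cancel, fin_zz_zero, zero_sub] at h
    have h2 := add_mem (nsmul_mem h N) hx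
    have e : N • (-zz x Q - zz (-x) Q) + N • zz x Q = -(N • zz (-x) Q) := by
      rw [smul_sub, smul_neg]; abel
    rw [e] at h2
    exact neg_mem_iff.1 h2

/-- orthogonality of two sets passes to the saturations of the subgroups they generate -/
theorem sat_pair {a b : k} (ha0 : a ≠ 0) (ha1 : a ≠ 1) (hb0 : b ≠ 0) (hb1 : b ≠ 1)
    (S : Set (Pt a)) (T : Set (Pt b))
    (hST : ∀ P ∈ S, ∀ Q ∈ T, ∃ N : ℕ, 0 < N ∧ N • zz P Q ∈ ratZero a b)
    {P : Pt a} (hP : P ∈ sat (AddSubgroup.closure S)) {Q : Pt b}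
    (hQ : Q ∈ sat (AddSubgroup.closure T)) :
    ∃ N : ℕ, 0 < N ∧ N • zz P Q ∈ ratZero a b := by
  obtain ⟨m, hm, hP⟩ := hP
  obtain ⟨n, hn, hQ⟩ := hQ
  have h1 : ∀ y ∈ T, m • P ∈ annL ha0 ha1 hb0 hb1 y := fun y hy =>
    (AddSubgroup.closure_le _).2 (fun x hx => hST x hx y hy) hP
  have h2 : n • Q ∈ annR ha0 ha1 hb0 hb1 (m • P) :=
    (AddSubgroup.closure_le _).2 (fun y hy => h1 y hy) hQ
  obtain ⟨N, hN, h3⟩ := h2
  obtain ⟨N', hN', h4⟩ := zz_torsion ha0 ha1 hb0 hb1 _ _ hm hN h3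
  exact zz_torsion_right ha0 ha1 hb0 hb1 _ _ hn hN' h4

/-- `Good` is preserved by additive correspondences -/
theorem Good.map {t : k} {a b : k} (Θ : Corr a b)
    (hΘ : ∀ x y, Θ.base (x + y) = Θ.base x + Θ.base y) {P : Pt a} (hP : Good t P) :
    Good t (Θ.base P) := by
  let θ : Pt a →+ Pt b := AddMonoidHom.mk' Θ.base hΘ
  rcases hP with ⟨N, hN, hNP⟩ | ⟨c, Φ, p, p₁, m, M, hc0, hc1, htc, hm, hM, hp, hpt, hmP, hp₁,
    g0, g1, g2, hM'⟩
  · refine Or.inl ⟨N, hN, ?_⟩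
    change N • θ P = 0
    rw [← map_nsmul, hNP, map_zero]
  · refine Or.inr ⟨c, Θ.comp Φ, p, p₁, m, M, hc0, hc1, htc, hm, hM, hp, hpt, ?_, hp₁, g0, g1, g2,
      ?_⟩
    · change m • θ P = θ (Φ.base p)
      rw [← map_nsmul, hmP]
    · change M • θ (Φ.base p₁) = 0
      rw [← map_nsmul, hM', map_zero]

theorem sat_closure_map {a b : k} (Θ : Corr a b)
    (hΘ : ∀ x y, Θ.base (x + y) = Θ.base x + Θ.base y) (S : Set (Pt a)) (T : Set (Pt b))
    (hST : ∀ x ∈ S, Θ.base x ∈ T) {R : Pt a} (hR : R ∈ sat (AddSubgroup.closure S)) :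
    Θ.base R ∈ sat (AddSubgroup.closure T) := by
  let θ : Pt a →+ Pt b := AddMonoidHom.mk' Θ.base hΘ
  obtain ⟨m, hm, h⟩ := hR
  refine ⟨m, hm, ?_⟩
  change m • θ R ∈ _
  rw [← map_nsmul]
  have h1 : AddSubgroup.closure S ≤ (AddSubgroup.closure T).comap θ :=
    (AddSubgroup.closure_le _).2 fun x hx => AddSubgroup.subset_closure (hST x hx)
  exact h1 h

end ZC
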