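import Pool.Agent.ZC.FinalN
import Pool.Agent.ZC.RankU
import Pool.Agent.ZC.IsoU
import Pool.Agent.ZC.Sat

/-!
Module FinalU (project ZC, helper83): one system of infinite rank subgroups for all elliptic curves.
-/

namespace ZC

open Polynomial WeierstrassCurve
open scoped Classical

theorem fu_tower {ι : AlgebraicClosure ℚ →+* ℂ} {a : AlgebraicClosure ℚ}
    {α μ : ℕ → AlgebraicClosure ℚ} (H : IsTower ι a α μ)
    {v : AbsoluteValue (AlgebraicClosure ℚ) ℝ} {p : ℕ} (Hv : IsPAdic v p)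
    (ha : v a = 1) (n : ℕ) :
    v (α n) = 1 ∧ v (μ n) = 1 ∧ v (1 + μ n) = 1 := by
  have step : ∀ n, v (α n) = 1 → v (μ n) = 1 ∧ v (1 + μ n) = 1 := by
    intro n h1
    have hr := congrArg v (H.rel n)
    rw [v.map_mul, v.map_mul, v.map_pow, h1, fin_four Hv, one_mul, one_mul] at hr
    have hμ : v (μ n) = 1 := by
      rcases lt_trichotomy (v (μ n)) 1 with h | h | h
      · have h3 : v (1 + μ n) = 1 := by
          rw [add_comm, fin_add_lt Hv (by simpa using h), v.map_one]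
        rw [h3] at hr
        linarith
      · exact h
      · have h3 : v (1 + μ n) = v (μ n) := fin_add_lt Hv (by simpa using h)
        rw [h3] at hr
        nlinarith
    refine ⟨hμ, ?_⟩
    rw [hμ] at hr
    exact fin_sq_one (v.nonneg _) hr
  have main : ∀ n, v (α n) = 1 := by
    intro n
    induction n with
    | zero => rw [H.zero]; exact ha
    | succ n ih => rw [H.succ, v.map_pow, (step n ih).1, one_pow]
  exact ⟨main n, step n (main n)⟩

theorem fu_chain {ι : AlgebraicClosure ℚ →+* ℂ} {a : AlgebraicClosure ℚ}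
    {α μ : ℕ → AlgebraicClosure ℚ} (H : IsTower ι a α μ) (ha0 : a ≠ 0) (ha1 : a ≠ 1)
    {v : AbsoluteValue (AlgebraicClosure ℚ) ℝ} {p : ℕ} (Hv : IsPAdic v p)
    (ha : v a = 1) (n : ℕ) :
    ∃ Φ : Corr (α n) a, (∀ q : Pt (α n), 1 < v (xc q) →
      Φ.base q ≠ 0 ∧ xc (Φ.base q) = iterX μ n (xc q)) ∧
      ∃ (p₁ : Pt (α n)) (M : ℕ), 0 < M ∧ p₁ ≠ 0 ∧ xc p₁ ≠ 0 ∧ xc p₁ ≠ 1 ∧ xc p₁ ≠ α n ∧
        M • Φ.base p₁ = 0 := by
  have Hn := H.ne ha0 ha1
  induction n with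
  | zero =>
    have h0 := H.zero
    have key : ∀ (c : AlgebraicClosure ℚ) (_ : c = a), ∃ Φ : Corr c a, (∀ q : Pt c, 1 < v (xc q) →
        Φ.base q ≠ 0 ∧ xc (Φ.base q) = xc q) ∧
        ∃ (p₁ : Pt c) (M : ℕ), 0 < M ∧ p₁ ≠ 0 ∧ xc p₁ ≠ 0 ∧ xc p₁ ≠ 1 ∧ xc p₁ ≠ c ∧
        M • Φ.base p₁ = 0 := by
      intro c h
      subst h
      obtain ⟨p₁, h1, h2, h3, h4, h5⟩ := fn_four ha0 ha1
      refine ⟨Corr.idOf rfl, ?_, p₁, 4, by norm_num, h1, h2, h3, h4, by
        rw [Corr.idOf_base]; exact h5⟩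
      intro q hq
      rw [Corr.idOf_base]
      refine ⟨?_, rfl⟩
      rintro rfl
      have : v (xc (0 : Pt c)) = 0 := by
        change v (0 : AlgebraicClosure ℚ) = 0
        simp
      rw [this] at hq
      linarith
    exact key _ h0
  | succ n ih =>
    obtain ⟨Φ, hΦ, -⟩ := ih
    obtain ⟨L, hL⟩ := exists_landen (a := α n) (c := α (n + 1)) (μ := μ n) (Hn.1 n).1
      (Hn.1 n).2 (H.succ n) (H.rel n)
    obtain ⟨h1, h3, h4⟩ := fu_tower H Hv ha n
    obtain ⟨m0, m1, m2⟩ := Hn.2 n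
    refine ⟨Φ.comp L, ?_, ?_⟩
    · intro q hq
      have hq0 : q ≠ 0 := by
        rintro rfl
        have : v (xc (0 : Pt (α (n + 1)))) = 0 := by
          change v (0 : AlgebraicClosure ℚ) = 0
          simp
        rw [this] at hq
        linarith
      have hx0 : xc q ≠ 0 := by
        intro h
        rw [h, v.map_zero] at hq
        linarith
      obtain ⟨g1, g2⟩ := hL q hq0 hx0
      have hv : v (xc (L.base q)) = v (xc q) := by
        rw [g2, map_div₀, v.map_pow, v.map_mul, v.map_pow, h4]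
        have : v (xc q + μ n) = v (xc q) := by
          rw [add_comm]
          exact fin_add_lt Hv (by rw [h3]; exact hq)
        rw [this]
        field_simp
      obtain ⟨g3, g4⟩ := hΦ (L.base q) (by rw [hv]; exact hq)
      refine ⟨g3, ?_⟩
      change xc (Φ.base (L.base q)) = _
      rw [g4, g2]
      rfl
    · obtain ⟨p₁, hp₁, hx⟩ := fin_point (Hn.1 (n + 1)).1 (Hn.1 (n + 1)).2 (-μ n)
      have hx0 : xc p₁ ≠ 0 := by rw [hx]; exact neg_ne_zero.2 m0
      refine ⟨p₁, 2, two_pos, hp₁, hx0, ?_, ?_, ?_⟩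
      · rw [hx]
        intro h
        apply m2
        linear_combination -h
      · rw [hx, H.succ]
        intro h
        have h5 : μ n * (μ n + 1) = 0 := by linear_combination -h
        rcases mul_eq_zero.1 h5 with h6 | h6
        · exact m0 h6
        · exact m2 (by linear_combination h6)
      · obtain ⟨g1, g2⟩ := hL p₁ hp₁ hx0
        have g3 : xc (L.base p₁) = 0 := by
          rw [g2, hx, neg_add_cancel, zero_pow two_ne_zero, zero_div]
        have g4 := fn_four.fn_two_of_xc (L.base p₁) g3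
        have g5 : -L.base p₁ = L.base p₁ := by
          rw [neg_eq_iff_add_eq_zero, ← two_nsmul]
          exact g4
        change 2 • Φ.base (L.base p₁) = 0
        have g6 := Φ.odd (L.base p₁)
        rw [g5] at g6
        rw [two_nsmul]
        nth_rewrite 1 [g6]
        exact neg_add_cancel _

/-- Every elliptic curve has a Legendre model which is a unit at `v`. -/
theorem fu_model {v : AbsoluteValue (AlgebraicClosure ℚ) ℝ} {p : ℕ} (Hv : IsPAdic v p)
    {c : AlgebraicClosure ℚ} (hc0 : c ≠ 0) (hc1 : c ≠ 1) :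
    ∃ (d : AlgebraicClosure ℚ) (Θ : Corr d c), d ≠ 0 ∧ d ≠ 1 ∧ v d = 1 ∧
      (∀ P Q, Θ.base (P + Q) = Θ.base P + Θ.base Q) ∧ Function.Injective Θ.base := by
  have one : ∀ {c : AlgebraicClosure ℚ}, c ≠ 0 → c ≠ 1 → v c < 1 →
      ∃ (d : AlgebraicClosure ℚ) (Θ : Corr d c), d ≠ 0 ∧ d ≠ 1 ∧ v d = 1 ∧
      (∀ P Q, Θ.base (P + Q) = Θ.base P + Θ.base Q) ∧ Function.Injective Θ.base := by
    intro c hc0 hc1 hc
    obtain ⟨Θ, h1, h2⟩ := exists_iso_one hc0 hc1
    refine ⟨1 - c, Θ, sub_ne_zero.2 (Ne.symm hc1), ?_, ?_, h1, h2⟩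
    · intro h
      apply hc0
      linear_combination -h
    · rw [sub_eq_add_neg, add_comm, fin_add_lt Hv (by rw [v.map_neg, v.map_one]; exact hc),
        v.map_one]
  rcases lt_trichotomy (v c) 1 with h | h | h
  · exact one hc0 hc1 h
  · exact ⟨c, Corr.idOf rfl, hc0, hc1, h, fun _ _ => rfl, fun _ _ h => h⟩
  · obtain ⟨Θ, h1, h2⟩ := exists_iso_inv hc0 hc1
    have hi0 : c⁻¹ ≠ 0 := inv_ne_zero hc0
    have hi1 : c⁻¹ ≠ 1 := fun h => hc1 (inv_eq_one.1 h)
    obtain ⟨d, Ξ, g0, g1, g2, g3, g4⟩ := one hi0 hi1 (by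
      rw [map_inv₀]
      exact inv_lt_one_of_one_lt₀ h)
    refine ⟨d, Θ.comp Ξ, g0, g1, g2, ?_, ?_⟩
    · intro P Q
      change Θ.base (Ξ.base (P + Q)) = Θ.base (Ξ.base P) + Θ.base (Ξ.base Q)
      rw [g3, h1]
    · exact h2.comp g4

theorem mainU (b : AlgebraicClosure ℚ) (hb0 : b ≠ 0) (hb1 : b ≠ 1) (P : Pt b) :
    ∃ A : ∀ c : AlgebraicClosure ℚ, AddSubgroup (Pt c), P ∈ A b ∧
      (∀ c, c ≠ 0 → c ≠ 1 → ∃ f : ℕ → A c, LinearIndependent ℤ f) ∧
      (∀ c (R : Pt c) (m : ℕ), 0 < m → m • R ∈ A c → R ∈ A c) ∧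
      (∀ c d (Θ : Corr c d), (∀ x y, Θ.base (x + y) = Θ.base x + Θ.base y) →
        ∀ R ∈ A c, Θ.base R ∈ A d) ∧
      ∀ (n : ℕ) (_ : 2 ≤ n) (a : Fin n → AlgebraicClosure ℚ), (∀ i, a i ≠ 0 ∧ a i ≠ 1) →
        ∀ z : CyclesN a, (∀ x ∈ z.support, ∀ i, x i ∈ A (a i)) →
          (z.sum fun _ m => m) = 0 → (∀ i, (z.sum fun x m => m • x i) = 0) →
          ∃ N : ℕ, 0 < N ∧ N • z ∈ ratZeroN a := by
  have halg : Algebra.IsAlgebraic ℚ (AlgebraicClosure ℚ) := AlgebraicClosure.isAlgebraic ℚ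
  have ι : AlgebraicClosure ℚ →+* ℂ :=
    (IsAlgClosed.lift : AlgebraicClosure ℚ →ₐ[ℚ] ℂ).toRingHom
  obtain ⟨p, v, Hv, hSv, hC⟩ := exists_padic {b, 1 - b} (by
    intro x hx
    rw [Finset.mem_insert, Finset.mem_singleton] at hx
    rcases hx with rfl | rfl
    · exact hb0
    · exact sub_ne_zero.2 (Ne.symm hb1))
  have vb : v b = 1 := hSv _ (by simp)
  have vb' : v (1 - b) = 1 := hSv _ (by simp)
  have hp0 : (p : AlgebraicClosure ℚ) ≠ 0 := by
    exact_mod_cast Hv.prime.ne_zero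
  have vp0 : 0 < v (p : AlgebraicClosure ℚ) := v.pos hp0
  -- the parameter `t`
  obtain ⟨t, ht, htP⟩ : ∃ t : AlgebraicClosure ℚ, 1 < v t * v (p : AlgebraicClosure ℚ) ∧
      ((∃ N : ℕ, 0 < N ∧ N • P = 0) ∨ ∃ m : ℕ, 0 < m ∧ m • P ≠ 0 ∧ xc (m • P) = t) := by
    by_cases hP : ∃ N : ℕ, 0 < N ∧ N • P = 0
    · refine ⟨((p : AlgebraicClosure ℚ) ^ 2)⁻¹, ?_, Or.inl hP⟩
      rw [map_inv₀, v.map_pow]
      have : (v (p : AlgebraicClosure ℚ) ^ 2)⁻¹ * v (p : AlgebraicClosure ℚ) =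
          (v (p : AlgebraicClosure ℚ))⁻¹ := by field_simp
      rw [this]
      exact (one_lt_inv₀ vp0).2 Hv.lt
    · push Not at hP
      obtain ⟨m, hm, hm2⟩ := exists_multiple_large Hv hC hb0 hb1 vb vb' P hP
      exact ⟨_, hm2, Or.inr ⟨m, hm, hP m hm, rfl⟩⟩
  have vt : 1 < v t := by
    by_contra hcon
    push Not at hcon
    have : v t * v (p : AlgebraicClosure ℚ) ≤ 1 * 1 :=
      mul_le_mul hcon Hv.lt.le vp0.le zero_le_one
    linarith
  have ht0 : t ≠ 0 := by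
    rintro rfl
    rw [v.map_zero] at vt
    linarith
  have ht1 : t ≠ 1 := by
    rintro rfl
    rw [v.map_one] at vt
    linarith
  refine ⟨fun c => sat (AddSubgroup.closure {Q | Good t Q}), ?_, ?_, fun c R m hm h =>
    sat_sat _ R m hm h, fun c d Θ hΘ R hR =>
    sat_closure_map Θ hΘ _ _ (fun x hx => Good.map Θ hΘ hx) hR, ?_⟩
  · apply le_sat
    apply AddSubgroup.subset_closure
    rcases htP with h | ⟨m, hm, hmP, hmx⟩
    · exact Or.inl h
    · obtain ⟨p₁, h1, h2, h3, h4, h5⟩ := fn_four hb0 hb1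
      refine Or.inr ⟨b, Corr.idOf rfl, m • P, p₁, m, 4, hb0, hb1, ?_, hm,
        by norm_num, hmP, hmx, by rw [Corr.idOf_base], h1, h2, h3, h4,
        by rw [Corr.idOf_base]; exact h5⟩
      rintro rfl
      rw [vb] at vt
      linarith
  · intro c hc0 hc1
    obtain ⟨d, Θ, hd0, hd1, vd, hadd, hinj⟩ := fu_model Hv hc0 hc1
    obtain ⟨α, μ, Ha⟩ := exists_tower ι hd0 hd1
    have Hne := Ha.ne hd0 hd1
    choose Φ hΦ p₁ M hM hp₁ g0 g1 g2 g3 using
      fun n => fu_chain Ha hd0 hd1 Hv vd n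
    choose pp hpp0 hppx using fun n => fin_point (Hne.1 n).1 (Hne.1 n).2 t
    obtain ⟨f, hf, hl⟩ := infinite_rankU Ha hd0 hd1 Hv vd t ht 0
      (fun n => (Φ n).base (pp n)) (fun n _ => by
        have := hΦ n (pp n) (by rw [hppx]; exact vt)
        rw [hppx] at this
        exact this)
    let θ : Pt d →+ Pt c := AddMonoidHom.mk' Θ.base hadd
    have hl' : LinearIndependent ℤ (fun i => θ (f i)) :=
      hl.map' θ.toIntLinearMap (LinearMap.ker_eq_bot.2 hinj)
    refine fin_lin _ (fun i => θ (f i)) (fun i => ?_) hl'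
    have key : ∀ x ∈ AddSubgroup.closure {Q | ∃ n, 0 ≤ n ∧ Q = (Φ n).base (pp n)},
        θ x ∈ AddSubgroup.closure {Q : Pt c | Good t Q} := by
      intro x hx
      induction hx using AddSubgroup.closure_induction with
      | mem x hx =>
        obtain ⟨n, -, rfl⟩ := hx
        apply AddSubgroup.subset_closure
        refine Or.inr ⟨α n, Θ.comp (Φ n), pp n, p₁ n, 1, M n, (Hne.1 n).1, (Hne.1 n).2, ?_,
          one_pos, hM n, hpp0 n, hppx n, by rw [one_nsmul]; rfl, hp₁ n, g0 n, g1 n, g2 n, ?_⟩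
        · intro h
          have u1 := (fu_tower Ha Hv vd n).1
          rw [h, u1] at vt
          linarith
        · change M n • θ ((Φ n).base (p₁ n)) = 0
          rw [← map_nsmul, g3 n, map_zero]
      | zero => rw [map_zero]; exact zero_mem _
      | add x y _ _ hx hy => rw [map_add]; exact add_mem hx hy
      | neg x _ hx => rw [map_neg]; exact neg_mem hx
    exact le_sat _ (key _ (hf i))
  · intro n hn a ha z hz h0 h1
    have : Nontrivial (Fin n) := Fin.nontrivial_iff_two_le.2 hn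
    refine supportedN a ha (fun i => {R | R ∈ sat (AddSubgroup.closure {Q | Good t Q})}) ?_ z
      (fun x hx i => AddSubgroup.subset_closure (hz x hx i)) h0 h1
    intro i j _ P' hP' Q' hQ'
    exact sat_pair (ha i).1 (ha i).2 (ha j).1 (ha j).2 _ _ (fun P hP Q hQ =>
      good_pair (ha i).1 (ha i).2 (ha j).1 (ha j).2 ht0 ht1 hP hQ) hP' hQ'

end ZC
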