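import Pool.Agent.ZC.Vadic2

/-!
Module Growth (project ZC, helper83).
PROOF.  Step 1: some m > 0 with v(x(mP)) > 1.  Suppose not: all mP = (x_m,y_m), v x_m <= 1, so v y_m <= 1.  If some
v y_m < 1 then y_m^2 = x(x-1)(x-a) small, so v x_m < 1 or v(x_m-1) < 1 or v(x_m - a) < 1, and v(x_m^2-a) = 1 in each case
(v a = 1, v(1-a) = 1), y_m != 0 (else 2mP = 0), so v x(2mP) = 1/v(4 y_m^2) > 1, contradiction.  So v y_m = 1 for all m.
L = Q(a,x(P),y(P)) is finite over Q and all x_m,y_m lie in L (the multiples have coordinates in L: induct with the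
addition formulas, or use Point.map for L -> Qbar and uniqueness).  Pigeonhole hC: i < j (m = i+1, m' = j+1) with
v(x_m - x_m') < 1, v(y_m-y_m') < 1.  x_m != x_m' (else mP = +-m'P torsion).  v(y_m + y_m') = v(2 y_m' + ..) = 1, so
x((m'-m)P) = ((y_m+y_m')/(x_m-x_m'))^2 + (1+a) - x_m - x_m' has v > 1.
Step 2: iterate p_step: r -> >= r min(1/v p, r)^2 ; with r0 > 1 the value grows by a factor >= min(1/v p, r0)^2 > 1 each time, so
it exceeds 1/v p for some p^i m.
-/

namespace ZC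

open Polynomial WeierstrassCurve
open scoped Classical

section formulas

variable {k : Type} [Field k]

private theorem gr_negY (a x y : k) : (leg a).toAffine.negY x y = -y := by
  simp [Affine.negY, leg]

private theorem gr_xc_add (a : k) {x₁ y₁ x₂ y₂ : k} (h₁ : (leg a).toAffine.Nonsingular x₁ y₁)
    (h₂ : (leg a).toAffine.Nonsingular x₂ y₂) (hx : x₁ ≠ x₂) :
    xc (Affine.Point.some x₁ y₁ h₁ + Affine.Point.some x₂ y₂ h₂ : Pt a) =
      ((y₁ - y₂) / (x₁ - x₂)) ^ 2 + (1 + a) - x₁ - x₂ := by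
  rw [Affine.Point.add_of_X_ne hx]
  simp only [xc, Affine.addX, Affine.slope_of_X_ne hx]
  simp only [leg]
  ring

private theorem gr_neg_some (a : k) {x₁ y₁ : k} (h₁ : (leg a).toAffine.Nonsingular x₁ y₁) :
    ∃ h' : (leg a).toAffine.Nonsingular x₁ (-y₁),
      -(Affine.Point.some x₁ y₁ h₁ : Pt a) = Affine.Point.some x₁ (-y₁) h' := by
  have h : (leg a).toAffine.negY x₁ y₁ = -y₁ := gr_negY a x₁ y₁
  have h2 := (Affine.nonsingular_neg (W' := (leg a).toAffine) x₁ y₁).mpr h₁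
  refine ⟨by rw [← h]; exact h2, ?_⟩
  rw [Affine.Point.neg_some]
  congr 1

private theorem gr_xc_sub (a : k) {x₁ y₁ x₂ y₂ : k} (h₁ : (leg a).toAffine.Nonsingular x₁ y₁)
    (h₂ : (leg a).toAffine.Nonsingular x₂ y₂) (hx : x₁ ≠ x₂) :
    xc (Affine.Point.some x₁ y₁ h₁ - Affine.Point.some x₂ y₂ h₂ : Pt a) =
      ((y₁ + y₂) / (x₁ - x₂)) ^ 2 + (1 + a) - x₁ - x₂ := by
  obtain ⟨h', he⟩ := gr_neg_some a h₂
  rw [sub_eq_add_neg, he, gr_xc_add a h₁ h' hx, sub_neg_eq_add]

private theorem gr_xc_two [CharZero k] (a : k) {x y : k} (h : (leg a).toAffine.Nonsingular x y)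
    (hy : y ≠ 0) :
    xc ((2 : ℕ) • (Affine.Point.some x y h : Pt a)) = (x ^ 2 - a) ^ 2 / (4 * y ^ 2) := by
  have hn : y ≠ (leg a).toAffine.negY x y := by
    rw [gr_negY]
    intro h0
    apply hy
    have : (2 : k) * y = 0 := by linear_combination h0
    rcases mul_eq_zero.1 this with h1 | h1
    · exact absurd h1 two_ne_zero
    · exact h1
  have he : y ^ 2 = x * (x - 1) * (x - a) := (leg_equation a x y).1 h.1
  rw [two_nsmul, Affine.Point.add_self_of_Y_ne hn]
  simp only [xc, Affine.addX, Affine.slope_of_Y_ne rfl hn, gr_negY]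
  simp only [leg]
  have h2y : y - -y ≠ 0 := by
    intro h0
    apply hn
    rw [gr_negY]
    exact sub_eq_zero.1 h0
  have h4 : (4 : k) * y ^ 2 ≠ 0 := mul_ne_zero (by norm_num) (pow_ne_zero 2 hy)
  rw [eq_div_iff h4]
  have h5 : y - -y = 2 * y := by ring
  rw [h5]
  have h6 : (2 : k) * y ≠ 0 := by rw [← h5]; exact h2y
  have h8 : ((3 * x ^ 2 + 2 * -(1 + a) * x + a - 0 * y) / (2 * y)) ^ 2 * (4 * y ^ 2) =
      (3 * x ^ 2 + 2 * -(1 + a) * x + a - 0 * y) ^ 2 := by
    rw [div_pow, show (4 : k) * y ^ 2 = (2 * y) ^ 2 by ring]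
    exact div_mul_cancel₀ _ (pow_ne_zero 2 h6)
  have h7 : (3 * x ^ 2 + 2 * -(1 + a) * x + a - 0 * y) ^ 2 + (4 * y ^ 2) * (1 + a) -
      (4 * y ^ 2) * x - (4 * y ^ 2) * x = (x ^ 2 - a) ^ 2 := by
    rw [he]; ring
  linear_combination h8 + h7

/-- the coordinates of a point lie in a subfield -/
private def grIn (S : Subfield k) {a : k} (P : Pt a) : Prop := xc P ∈ S ∧ yc P ∈ S

private theorem gr_add_mem (S : Subfield k) {a : k} (ha : a ∈ S) (P Q : Pt a) (hP : grIn S P)
    (hQ : grIn S Q) : grIn S (P + Q) := by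
  rcases P with _ | ⟨x₁, y₁, h₁⟩
  · have : (Affine.Point.zero : Pt a) + Q = Q := zero_add Q
    rw [this]; exact hQ
  rcases Q with _ | ⟨x₂, y₂, h₂⟩
  · have : (Affine.Point.some x₁ y₁ h₁ : Pt a) + Affine.Point.zero = Affine.Point.some x₁ y₁ h₁ :=
      add_zero _
    rw [this]; exact hP
  by_cases hxy : x₁ = x₂ ∧ y₁ = (leg a).toAffine.negY x₂ y₂
  · rw [Affine.Point.add_of_Y_eq hxy.1 hxy.2]
    exact ⟨S.zero_mem, S.zero_mem⟩
  have hx1 : x₁ ∈ S := hP.1
  have hy1 : y₁ ∈ S := hP.2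
  have hx2 : x₂ ∈ S := hQ.1
  have hy2 : y₂ ∈ S := hQ.2
  have h2 : (2 : k) ∈ S := ofNat_mem S 2
  have h3 : (3 : k) ∈ S := ofNat_mem S 3
  have hsl : (leg a).toAffine.slope x₁ x₂ y₁ y₂ ∈ S := by
    unfold Affine.slope
    split_ifs with e1 e2
    · exact S.zero_mem
    · rw [gr_negY]
      refine S.div_mem ?_ (S.sub_mem hy1 (S.neg_mem hy1))
      simp only [leg]
      refine S.sub_mem (S.add_mem (S.add_mem (S.mul_mem h3 (S.pow_mem hx1 2)) ?_) ha) ?_
      · exact S.mul_mem (S.mul_mem h2 (S.neg_mem (S.add_mem S.one_mem ha))) hx1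
      · exact S.mul_mem S.zero_mem hy1
    · exact S.div_mem (S.sub_mem hy1 hy2) (S.sub_mem hx1 hx2)
  have hX : (leg a).toAffine.addX x₁ x₂ ((leg a).toAffine.slope x₁ x₂ y₁ y₂) ∈ S := by
    unfold Affine.addX
    simp only [leg] at hsl ⊢
    refine S.sub_mem (S.sub_mem (S.sub_mem (S.add_mem (S.pow_mem hsl 2) ?_) ?_) hx1) hx2
    · exact S.mul_mem S.zero_mem hsl
    · exact S.neg_mem (S.add_mem S.one_mem ha)
  rw [Affine.Point.add_some hxy]
  refine ⟨hX, ?_⟩
  change (leg a).toAffine.addY x₁ x₂ y₁ _ ∈ S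
  unfold Affine.addY
  rw [gr_negY]
  apply S.neg_mem
  unfold Affine.negAddY
  exact S.add_mem (S.mul_mem hsl (S.sub_mem hX hx1)) hy1

private theorem gr_nsmul_mem (S : Subfield k) {a : k} (ha : a ∈ S) (P : Pt a) (hP : grIn S P)
    (n : ℕ) : grIn S (n • P) := by
  induction n with
  | zero => rw [zero_nsmul]; exact ⟨S.zero_mem, S.zero_mem⟩
  | succ n ih => rw [succ_nsmul]; exact gr_add_mem S ha _ _ ih hP

private theorem gr_exists_some {a : k} (P : Pt a) (h : P ≠ 0) :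
    ∃ (x y : k) (h' : (leg a).toAffine.Nonsingular x y), P = Affine.Point.some x y h' := by
  rcases P with _ | ⟨x, y, h'⟩
  · exact absurd rfl h
  · exact ⟨x, y, h', rfl⟩

private theorem gr_v_int {v : AbsoluteValue k ℝ} (hv : IsNonarchimedean v) (n : ℕ) :
    v (n : k) ≤ 1 := hv.apply_natCast_le_one

private theorem gr_v_add {v : AbsoluteValue k ℝ} (hv : IsNonarchimedean v) {x y : k} {r : ℝ}
    (hx : v x ≤ r) (hy : v y ≤ r) : v (x + y) ≤ r :=
  (hv x y).trans (max_le hx hy)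

private theorem gr_v_sub {v : AbsoluteValue k ℝ} (hv : IsNonarchimedean v) {x y : k} {r : ℝ}
    (hx : v x ≤ r) (hy : v y ≤ r) : v (x - y) ≤ r := by
  rw [sub_eq_add_neg]
  exact gr_v_add hv hx (by rwa [v.map_neg])

private theorem gr_v_add_lt {v : AbsoluteValue k ℝ} (hv : IsNonarchimedean v) {x y : k} {r : ℝ}
    (hx : v x < r) (hy : v y < r) : v (x + y) < r :=
  (hv x y).trans_lt (max_lt hx hy)

/-- the larger summand dominates -/
private theorem gr_v_dom {v : AbsoluteValue k ℝ} (hv : IsNonarchimedean v) {x y : k}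
    (h : v y < v x) : v (x + y) = v x := by
  apply le_antisymm
  · exact gr_v_add hv le_rfl h.le
  · by_contra hcon
    push Not at hcon
    have h1 : v ((x + y) + -y) < v x := gr_v_add_lt hv hcon (by rwa [v.map_neg])
    rw [add_neg_cancel_right] at h1
    exact lt_irrefl _ h1

private theorem gr_v_two {v : AbsoluteValue k ℝ} {p : ℕ} (H : IsPAdic v p) : v (2 : k) = 1 := by
  have hle : v (2 : k) ≤ 1 := by
    have := gr_v_int H.nonarch 2
    simpa using this
  by_contra hne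
  have hlt : v (2 : k) < 1 := lt_of_le_of_ne hle hne
  obtain ⟨q, hq⟩ := H.prime.odd_of_ne_two (by have := H.three; omega)
  have h1 : (1 : k) = (p : k) + -(2 * (q : k)) := by
    rw [hq]; push_cast; ring
  have h2 : v ((p : k) + -(2 * (q : k))) < 1 := by
    apply gr_v_add_lt H.nonarch H.lt
    rw [v.map_neg, v.map_mul]
    calc v (2 : k) * v (q : k) ≤ v (2 : k) * 1 :=
          mul_le_mul_of_nonneg_left (gr_v_int H.nonarch q) (v.nonneg _)
      _ < 1 := by rw [mul_one]; exact hlt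
  rw [← h1, v.map_one] at h2
  exact lt_irrefl _ h2

/-- the multiples of a point have coordinates in every subfield containing those of the point -/
theorem coord_nsmul_mem (S : Subfield k) {a : k} (ha : a ∈ S) (P : Pt a)
    (hP : xc P ∈ S ∧ yc P ∈ S) (n : ℕ) : xc (n • P) ∈ S ∧ yc (n • P) ∈ S :=
  gr_nsmul_mem S ha P hP n

end formulas

section steps

variable {k : Type} [Field k] [CharZero k]

/-- if all multiples have small `x`-coordinate then all `y`-coordinates are units -/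
private theorem gr_y_unit {v : AbsoluteValue k ℝ} {p : ℕ} (H : IsPAdic v p) {a : k}
    (ha : v a = 1) (ha' : v (1 - a) = 1) (P : Pt a) (hP : ∀ N : ℕ, 0 < N → N • P ≠ 0)
    (hx : ∀ m : ℕ, 0 < m → v (xc (m • P)) ≤ 1) (m : ℕ) (hm : 0 < m) :
    v (yc (m • P)) = 1 := by
  obtain ⟨x, y, h, he⟩ := gr_exists_some (m • P) (hP m hm)
  have hx1 : v x ≤ 1 := by
    have := hx m hm
    rw [he] at this
    exact this
  rw [he]
  change v y = 1
  have hv := H.nonarch
  have heq : y ^ 2 = x * (x - 1) * (x - a) := (leg_equation a x y).1 h.1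
  have hA1 : v (x - 1) ≤ 1 := gr_v_sub hv hx1 (by rw [v.map_one])
  have hA2 : v (x - a) ≤ 1 := gr_v_sub hv hx1 ha.le
  have hsq : v y ^ 2 = v x * v (x - 1) * v (x - a) := by
    rw [← v.map_pow, heq, v.map_mul, v.map_mul]
  have hle2 : v y ^ 2 ≤ 1 := by
    rw [hsq]
    exact mul_le_one₀ (mul_le_one₀ hx1 (v.nonneg _) hA1) (v.nonneg _) hA2
  have hyle : v y ≤ 1 := by
    nlinarith [v.nonneg y]
  by_contra hne
  have hylt : v y < 1 := lt_of_le_of_ne hyle hne
  have hlt2 : v x * v (x - 1) * v (x - a) < 1 := by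
    rw [← hsq]
    nlinarith [v.nonneg y]
  -- `v (x ^ 2 - a) = 1`
  have hnum : v (x ^ 2 - a) = 1 := by
    by_cases h1 : v x < 1
    · have h2 : v (-a + x ^ 2) = v (-a) := by
        apply gr_v_dom hv
        rw [v.map_neg, ha, v.map_pow]
        nlinarith [v.nonneg x]
      rw [show x ^ 2 - a = -a + x ^ 2 by ring, h2, v.map_neg, ha]
    by_cases h3 : v (x - 1) < 1
    · have h2 : v ((1 - a) + (x - 1) * (x + 1)) = v (1 - a) := by
        apply gr_v_dom hv
        rw [ha', v.map_mul]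
        have h4 : v (x + 1) ≤ 1 := gr_v_add hv hx1 (by rw [v.map_one])
        calc v (x - 1) * v (x + 1) ≤ v (x - 1) * 1 :=
              mul_le_mul_of_nonneg_left h4 (v.nonneg _)
          _ < 1 := by rw [mul_one]; exact h3
      rw [show x ^ 2 - a = (1 - a) + (x - 1) * (x + 1) by ring, h2, ha']
    by_cases h5 : v (x - a) < 1
    · have h2 : v (-(a * (1 - a)) + (x - a) * (x + a)) = v (-(a * (1 - a))) := by
        apply gr_v_dom hv
        rw [v.map_neg, v.map_mul, v.map_mul, ha, ha', one_mul]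
        have h4 : v (x + a) ≤ 1 := gr_v_add hv hx1 ha.le
        calc v (x - a) * v (x + a) ≤ v (x - a) * 1 :=
              mul_le_mul_of_nonneg_left h4 (v.nonneg _)
          _ < 1 := by rw [mul_one]; exact h5
      rw [show x ^ 2 - a = -(a * (1 - a)) + (x - a) * (x + a) by ring, h2, v.map_neg, v.map_mul,
        ha, ha', one_mul]
    · exfalso
      have e1 : v x = 1 := le_antisymm hx1 (not_lt.1 h1)
      have e2 : v (x - 1) = 1 := le_antisymm hA1 (not_lt.1 h3)
      have e3 : v (x - a) = 1 := le_antisymm hA2 (not_lt.1 h5)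
      rw [e1, e2, e3] at hlt2
      norm_num at hlt2
  have hy0 : y ≠ 0 := by
    intro h0
    subst h0
    have h2 : (2 * m) • P = 0 := by
      rw [mul_nsmul', he, two_nsmul]
      apply Affine.Point.add_self_of_Y_eq
      rw [gr_negY, neg_zero]
    exact hP (2 * m) (by omega) h2
  have h2m : v (xc ((2 * m) • P)) ≤ 1 := hx (2 * m) (by omega)
  rw [mul_nsmul', he, gr_xc_two a h hy0, map_div₀, v.map_pow, hnum, one_pow, v.map_mul,
    v.map_pow] at h2m
  have h4 : v (4 : k) ≤ 1 := by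
    have := gr_v_int hv 4
    simpa using this
  have hypos : 0 < v y := v.pos hy0
  have h4pos : 0 < v (4 : k) := v.pos (by norm_num)
  have hden : v (4 : k) * v y ^ 2 < 1 := by
    have : v y ^ 2 < 1 := by nlinarith
    calc v (4 : k) * v y ^ 2 ≤ 1 * v y ^ 2 := mul_le_mul_of_nonneg_right h4 (by positivity)
      _ < 1 := by rw [one_mul]; exact this
  rw [div_le_one (by positivity)] at h2m
  linarith

/-- step 2 -/
private theorem gr_step2 {v : AbsoluteValue k ℝ} {p : ℕ} (H : IsPAdic v p) {a : k} (ha0 : a ≠ 0)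
    (ha1 : a ≠ 1) (ha : v a ≤ 1) (P : Pt a) (hP : ∀ N : ℕ, 0 < N → N • P ≠ 0) (m : ℕ)
    (hm : 0 < m) (h1 : 1 < v (xc (m • P))) :
    ∃ m : ℕ, 0 < m ∧ 1 < v (xc (m • P)) * v (p : k) := by
  by_contra hcon
  push Not at hcon
  have hppos : 0 < v (p : k) := v.pos (by exact_mod_cast H.prime.ne_zero)
  set r : ℕ → ℝ := fun i => v (xc ((p ^ i * m) • P)) with hr
  set r0 := v (xc (m • P)) with hr0
  set c : ℝ := min (v (p : k))⁻¹ r0 with hc
  have hc1 : 1 < c := by
    rw [hc]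
    apply lt_min _ h1
    exact (one_lt_inv₀ hppos).2 H.lt
  have hpi : ∀ i : ℕ, 0 < p ^ i * m := fun i =>
    Nat.mul_pos (Nat.pow_pos H.prime.pos) hm
  have hgrow : ∀ i : ℕ, r0 ≤ r i ∧ r0 * (c ^ 2) ^ i ≤ r i := by
    intro i
    induction i with
    | zero =>
      have : r 0 = r0 := by simp only [hr, pow_zero, one_mul, hr0]
      rw [this]; simp
    | succ i ih =>
      have hri : 1 < r i := lt_of_lt_of_le h1 ih.1
      have hs := p_step H ha0 ha1 ha ((p ^ i * m) • P) hri (fun N hN h0 => by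
        rw [← mul_nsmul'] at h0
        exact hP _ (Nat.mul_pos hN (hpi i)) h0)
      have he : p • ((p ^ i * m) • P) = (p ^ (i + 1) * m) • P := by
        rw [← mul_nsmul']
        congr 1
        ring
      rw [he] at hs
      have hs' : r i * (min (v (p : k))⁻¹ (r i)) ^ 2 ≤ r (i + 1) := hs
      have hmin : c ≤ min (v (p : k))⁻¹ (r i) := min_le_min le_rfl ih.1
      have hc0 : 0 < c := by linarith
      have hmul : r i * c ^ 2 ≤ r (i + 1) := by
        refine le_trans ?_ hs'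
        exact mul_le_mul_of_nonneg_left (pow_le_pow_left₀ hc0.le hmin 2) (by linarith)
      have hc2 : 1 ≤ c ^ 2 := by nlinarith
      constructor
      · calc r0 ≤ r i := ih.1
          _ = r i * 1 := (mul_one _).symm
          _ ≤ r i * c ^ 2 := mul_le_mul_of_nonneg_left hc2 (by linarith)
          _ ≤ r (i + 1) := hmul
      · calc r0 * (c ^ 2) ^ (i + 1) = (r0 * (c ^ 2) ^ i) * c ^ 2 := by ring
          _ ≤ r i * c ^ 2 := mul_le_mul_of_nonneg_right ih.2 (by positivity)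
          _ ≤ r (i + 1) := hmul
  have hc2 : 1 < c ^ 2 := by nlinarith
  obtain ⟨n, hn⟩ := pow_unbounded_of_one_lt (v (p : k))⁻¹ hc2
  have h2 := hcon (p ^ n * m) (hpi n)
  have h3 : r n ≤ (v (p : k))⁻¹ := by
    rw [le_inv_comm₀ (lt_of_lt_of_le (by linarith) (hgrow n).1) hppos] 
    rw [← one_div, le_div_iff₀ (lt_of_lt_of_le (by linarith) (hgrow n).1)]
    rw [mul_comm]
    exact h2
  have h4 := (hgrow n).2
  have h5 : (c ^ 2) ^ n ≤ r0 * (c ^ 2) ^ n := by
    have : 0 < (c ^ 2) ^ n := by positivity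
    nlinarith
  linarith

end steps

theorem exists_multiple_large {v : AbsoluteValue (AlgebraicClosure ℚ) ℝ} {p : ℕ}
    (H : IsPAdic v p)
    (hC : ∀ (L : IntermediateField ℚ (AlgebraicClosure ℚ)) [FiniteDimensional ℚ L]
      (x y : ℕ → L), (∀ n, v (x n) ≤ 1) → (∀ n, v (y n) ≤ 1) →
          ∃ i j, i < j ∧ v ((x i : AlgebraicClosure ℚ) - x j) < 1 ∧
            v ((y i : AlgebraicClosure ℚ) - y j) < 1)
    {a : AlgebraicClosure ℚ} (ha0 : a ≠ 0) (ha1 : a ≠ 1) (ha : v a = 1) (ha' : v (1 - a) = 1)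
    (P : Pt a) (hP : ∀ N : ℕ, 0 < N → N • P ≠ 0) :
    ∃ m : ℕ, 0 < m ∧ 1 < v (xc (m • P)) * v (p : AlgebraicClosure ℚ) := by
  have hv := H.nonarch
  by_cases hbig : ∃ m : ℕ, 0 < m ∧ 1 < v (xc (m • P))
  · obtain ⟨m, hm, h1⟩ := hbig
    exact gr_step2 H ha0 ha1 ha.le P hP m hm h1
  exfalso
  push Not at hbig
  have hy1 := gr_y_unit H ha ha' P hP hbig
  -- the field of definition
  let T : Set (AlgebraicClosure ℚ) := {a, xc P, yc P}
  let L : IntermediateField ℚ (AlgebraicClosure ℚ) := IntermediateField.adjoin ℚ T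
  have hTfin : T.Finite := by
    simp only [T]
    exact Set.toFinite _
  have : Finite T := hTfin
  have : FiniteDimensional ℚ L :=
    IntermediateField.finiteDimensional_adjoin (fun x _ => ((AlgebraicClosure.isAlgebraic ℚ).isAlgebraic x).isIntegral)
  have haL : a ∈ L := IntermediateField.subset_adjoin ℚ T (by simp [T])
  have hxL : xc P ∈ L := IntermediateField.subset_adjoin ℚ T (by simp [T])
  have hyL : yc P ∈ L := IntermediateField.subset_adjoin ℚ T (by simp [T])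
  have hmem : ∀ n : ℕ, grIn L.toSubfield (n • P) :=
    gr_nsmul_mem L.toSubfield haL P ⟨hxL, hyL⟩
  obtain ⟨i, j, hij, hxij, hyij⟩ := hC L (fun n => ⟨xc ((n + 1) • P), (hmem (n + 1)).1⟩)
    (fun n => ⟨yc ((n + 1) • P), (hmem (n + 1)).2⟩)
    (fun n => hbig (n + 1) (by omega)) (fun n => (hy1 (n + 1) (by omega)).le)
  simp only at hxij hyij
  obtain ⟨x₁, y₁, h₁, he₁⟩ := gr_exists_some ((i + 1) • P) (hP (i + 1) (by omega))
  obtain ⟨x₂, y₂, h₂, he₂⟩ := gr_exists_some ((j + 1) • P) (hP (j + 1) (by omega))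
  have hx1 : v x₁ ≤ 1 := by
    have := hbig (i + 1) (by omega)
    rw [he₁] at this; exact this
  have hx2 : v x₂ ≤ 1 := by
    have := hbig (j + 1) (by omega)
    rw [he₂] at this; exact this
  have hy2 : v y₂ = 1 := by
    have := hy1 (j + 1) (by omega)
    rw [he₂] at this; exact this
  rw [he₁, he₂] at hxij hyij
  change v (x₁ - x₂) < 1 at hxij
  change v (y₁ - y₂) < 1 at hyij
  have hji : (j + 1) • P - (i + 1) • P = (j - i) • P := by
    rw [sub_eq_iff_eq_add, ← add_nsmul]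
    congr 1
    omega
  have hij' : (i + 1 + (j + 1)) • P = (i + 1) • P + (j + 1) • P := add_nsmul _ _ _
  have hxne : x₂ ≠ x₁ := by
    intro h0
    have h3 := (Affine.Point.X_eq_iff (h₁ := h₂) (h₂ := h₁)).1 h0
    rw [← he₁, ← he₂] at h3
    rcases h3 with h3 | h3
    · apply hP (j - i) (by omega)
      rw [← hji, h3, sub_self]
    · apply hP (i + 1 + (j + 1)) (by omega)
      rw [hij', h3, add_neg_cancel]
  have hfin := hbig (j - i) (by omega)
  rw [← hji, he₁, he₂, gr_xc_sub a h₂ h₁ hxne] at hfin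
  have hsum : v (y₂ + y₁) = 1 := by
    have h3 : v (2 * y₂ + (y₁ - y₂)) = v (2 * y₂) := by
      apply gr_v_dom hv
      rw [v.map_mul, gr_v_two H, hy2, one_mul]
      exact hyij
    rw [show y₂ + y₁ = 2 * y₂ + (y₁ - y₂) by ring, h3, v.map_mul, gr_v_two H, hy2, one_mul]
  have hdpos : 0 < v (x₂ - x₁) := v.pos (sub_ne_zero.2 hxne)
  have hdlt : v (x₂ - x₁) < 1 := by rw [v.map_sub]; exact hxij
  have hsq : 1 < v (((y₂ + y₁) / (x₂ - x₁)) ^ 2) := by
    rw [v.map_pow, map_div₀, hsum, one_div]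
    have : 1 < (v (x₂ - x₁))⁻¹ := (one_lt_inv₀ hdpos).2 hdlt
    nlinarith
  have hrest : v ((1 + a) - x₂ - x₁) ≤ 1 := by
    apply gr_v_sub hv _ hx1
    apply gr_v_sub hv _ hx2
    exact gr_v_add hv (by rw [v.map_one]) ha.le
  have htot : v (((y₂ + y₁) / (x₂ - x₁)) ^ 2 + ((1 + a) - x₂ - x₁)) =
      v (((y₂ + y₁) / (x₂ - x₁)) ^ 2) := gr_v_dom hv (lt_of_le_of_lt hrest hsq)
  rw [show ((y₂ + y₁) / (x₂ - x₁)) ^ 2 + (1 + a) - x₂ - x₁ =
    ((y₂ + y₁) / (x₂ - x₁)) ^ 2 + ((1 + a) - x₂ - x₁) by ring, htot] at hfin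
  linarith

end ZC
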