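import Pool.Agent.ZC.Arith

/-!
Module Vadic1 (project ZC, helper83).
PROOF.  For every x in S there are nonzero integers n with n x integral over Z and n' with n'/x integral over Z
(IsAlgebraic.exists_integral_multiple or similar).  Choose an odd prime p not dividing any of them.  v x :=
norm of iota x, iota : AlgebraicClosure Q ->ₐ[Q] PadicAlgCl p (IsAlgClosed.lift), nonarchimedean norm
(PadicAlgCl is a NormedField with nonarchimedean (spectral) norm, norm of p = 1/p).  Integral elements have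
v <= 1, v(n) = 1 for p not dividing n, so v x <= 1 and v(1/x) <= 1.
Pigeonhole: for L finite over Q the values iota(x_n), iota(y_n) lie in F = IntermediateField.adjoin Q_p (iota '' L) (finite
over Q_p), a finite dimensional, hence proper (FiniteDimensional.proper), normed space over Q_p; a bounded sequence in
F x F has a convergent subsequence, so there are i < j with distance < 1.
-/

namespace ZC

open Polynomial WeierstrassCurve
open scoped Classical

private theorem exists_mul_integral (x : AlgebraicClosure ℚ) :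
    ∃ n : ℤ, n ≠ 0 ∧ IsIntegral ℤ ((n : AlgebraicClosure ℚ) * x) := by
  have : Algebra.IsAlgebraic ℚ (AlgebraicClosure ℚ) := AlgebraicClosure.isAlgebraic ℚ
  have h1 : IsAlgebraic ℚ x := Algebra.IsAlgebraic.isAlgebraic x
  have h2 : IsAlgebraic ℤ x := (IsFractionRing.isAlgebraic_iff ℤ ℚ (AlgebraicClosure ℚ)).2 h1
  obtain ⟨n, hn, h⟩ := h2.exists_integral_multiple
  refine ⟨n, hn, ?_⟩
  rwa [zsmul_eq_mul] at h

private theorem norm_le_one_of_integral {p : ℕ} [Fact p.Prime] (x : PadicAlgCl p)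
    (h : IsIntegral ℤ x) : ‖x‖ ≤ 1 := by
  have h1 : IsIntegral (Valued.v : Valuation (PadicAlgCl p) NNReal).integer x := h.tower_top
  have h2 := (Valuation.integer.integers
    (Valued.v : Valuation (PadicAlgCl p) NNReal)).mem_of_integral h1
  have h3 : Valued.v x ≤ (1 : NNReal) := h2
  rw [PadicAlgCl.valuation_def] at h3
  exact_mod_cast h3

private theorem norm_int_eq_one' {p : ℕ} [hp : Fact p.Prime] (n : ℤ) (h : ¬ (p : ℤ) ∣ n) :
    ‖(n : PadicAlgCl p)‖ = 1 := by
  have h1 : (n : PadicAlgCl p) = algebraMap ℚ_[p] (PadicAlgCl p) (n : ℚ_[p]) := by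
    rw [map_intCast]
  rw [h1, norm_algebraMap', Padic.norm_intCast_eq_one_iff]
  exact ((Nat.prime_iff_prime_int.1 hp.out).coprime_iff_not_dvd.2 h).symm

private noncomputable def padicV (p : ℕ) [Fact p.Prime]
    (ι : AlgebraicClosure ℚ →+* PadicAlgCl p) : AbsoluteValue (AlgebraicClosure ℚ) ℝ where
  toFun x := ‖ι x‖
  map_mul' x y := by rw [map_mul, norm_mul]
  nonneg' x := norm_nonneg _
  eq_zero' x := by rw [norm_eq_zero, map_eq_zero]
  add_le' x y := by rw [map_add]; exact norm_add_le _ _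

private theorem padicV_apply (p : ℕ) [Fact p.Prime]
    (ι : AlgebraicClosure ℚ →+* PadicAlgCl p) (x : AlgebraicClosure ℚ) :
    padicV p ι x = ‖ι x‖ := rfl

private theorem padicV_isPAdic (p : ℕ) [hp : Fact p.Prime] (h3 : 3 ≤ p)
    (ι : AlgebraicClosure ℚ →+* PadicAlgCl p) : IsPAdic (padicV p ι) p where
  prime := hp.out
  three := h3
  nonarch x y := by
    rw [padicV_apply, padicV_apply, padicV_apply, map_add]
    exact PadicAlgCl.isNonarchimedean p _ _
  lt := by
    rw [padicV_apply, map_natCast]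
    have h1 : (p : PadicAlgCl p) = algebraMap ℚ_[p] (PadicAlgCl p) (p : ℚ_[p]) := by
      rw [map_natCast]
    rw [h1, norm_algebraMap']
    exact Padic.norm_p_lt_one

private theorem padicV_le_one (p : ℕ) [hp : Fact p.Prime]
    (ι : AlgebraicClosure ℚ →+* PadicAlgCl p) (x : AlgebraicClosure ℚ) (n : ℤ)
    (hn : ¬ (p : ℤ) ∣ n) (h : IsIntegral ℤ ((n : AlgebraicClosure ℚ) * x)) :
    padicV p ι x ≤ 1 := by
  have h1 : IsIntegral ℤ (ι ((n : AlgebraicClosure ℚ) * x)) := h.map ι.toIntAlgHom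
  have h2 := norm_le_one_of_integral _ h1
  rw [map_mul, map_intCast, norm_mul, norm_int_eq_one' n hn, one_mul] at h2
  exact h2

private theorem pigeonhole (p : ℕ) [hp : Fact p.Prime]
    (ι : AlgebraicClosure ℚ →+* PadicAlgCl p)
    (L : IntermediateField ℚ (AlgebraicClosure ℚ)) [FiniteDimensional ℚ L] (x y : ℕ → L)
    (hx : ∀ n, padicV p ι (x n) ≤ 1) (hy : ∀ n, padicV p ι (y n) ≤ 1) :
    ∃ i j, i < j ∧ padicV p ι ((x i : AlgebraicClosure ℚ) - x j) < 1 ∧
      padicV p ι ((y i : AlgebraicClosure ℚ) - y j) < 1 := by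
  let b := Module.finBasis ℚ L
  let V : Submodule ℚ_[p] (PadicAlgCl p) :=
    Submodule.span ℚ_[p] (Set.range fun i => ι (b i : AlgebraicClosure ℚ))
  have : FiniteDimensional ℚ_[p] V := FiniteDimensional.span_of_finite _ (Set.finite_range _)
  have : ProperSpace V := FiniteDimensional.proper ℚ_[p] V
  have hmem : ∀ z : L, ι (z : AlgebraicClosure ℚ) ∈ V := by
    intro z
    have h1 := b.sum_repr z
    have h2 : (z : AlgebraicClosure ℚ) =
        ∑ i, (algebraMap ℚ (AlgebraicClosure ℚ) (b.repr z i)) * (b i : AlgebraicClosure ℚ) := by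
      conv_lhs => rw [← h1]
      rw [IntermediateField.coe_sum]
      refine Finset.sum_congr rfl fun i _ => ?_
      rw [Algebra.smul_def]
      rfl
    rw [h2, map_sum]
    refine Submodule.sum_mem _ fun i _ => ?_
    rw [map_mul]
    have h3 : ι (algebraMap ℚ (AlgebraicClosure ℚ) (b.repr z i)) =
        algebraMap ℚ_[p] (PadicAlgCl p) ((b.repr z i : ℚ) : ℚ_[p]) := by
      rw [eq_ratCast, map_ratCast, map_ratCast]
    rw [h3, ← Algebra.smul_def]
    exact Submodule.smul_mem _ _ (Submodule.subset_span ⟨i, rfl⟩)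
  let s : ℕ → V × V := fun n => (⟨ι (x n), hmem _⟩, ⟨ι (y n), hmem _⟩)
  have hs : ∀ n, s n ∈ Metric.closedBall (0 : V × V) 1 := by
    intro n
    rw [mem_closedBall_zero_iff, Prod.norm_def]
    exact max_le (hx n) (hy n)
  obtain ⟨a, -, φ, hφ, hlim⟩ := tendsto_subseq_of_bounded Metric.isBounded_closedBall hs
  have hc := hlim.cauchySeq
  rw [Metric.cauchySeq_iff'] at hc
  obtain ⟨N, hN⟩ := hc 1 one_pos
  have h1 := hN (N + 1) (Nat.le_succ N)
  refine ⟨φ N, φ (N + 1), hφ (Nat.lt_succ_self N), ?_, ?_⟩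
  · have h2 : dist (s (φ (N + 1))).1 (s (φ N)).1 < 1 :=
      lt_of_le_of_lt (le_max_left _ _) h1
    rw [padicV_apply, map_sub, ← norm_neg, neg_sub]
    exact h2
  · have h2 : dist (s (φ (N + 1))).2 (s (φ N)).2 < 1 :=
      lt_of_le_of_lt (le_max_right _ _) h1
    rw [padicV_apply, map_sub, ← norm_neg, neg_sub]
    exact h2

theorem exists_padic (S : Finset (AlgebraicClosure ℚ)) (hS : ∀ x ∈ S, x ≠ 0) :
    ∃ (p : ℕ) (v : AbsoluteValue (AlgebraicClosure ℚ) ℝ), IsPAdic v p ∧ (∀ x ∈ S, v x = 1) ∧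
      ∀ (L : IntermediateField ℚ (AlgebraicClosure ℚ)) [FiniteDimensional ℚ L] (x y : ℕ → L),
        (∀ n, v (x n) ≤ 1) → (∀ n, v (y n) ≤ 1) →
          ∃ i j, i < j ∧ v ((x i : AlgebraicClosure ℚ) - x j) < 1 ∧
            v ((y i : AlgebraicClosure ℚ) - y j) < 1 := by
  choose N hN0 hN using exists_mul_integral
  let D : ℕ := ∏ x ∈ S, (N x * N x⁻¹).natAbs
  have hD : D ≠ 0 := by
    refine Finset.prod_ne_zero_iff.2 fun x _ => ?_
    rw [Int.natAbs_ne_zero]
    exact mul_ne_zero (hN0 _) (hN0 _)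
  obtain ⟨p, hp, hprime⟩ := Nat.exists_infinite_primes (D + 3)
  have : Fact p.Prime := ⟨hprime⟩
  have hpD : ¬ p ∣ D := fun h => by
    have := Nat.le_of_dvd (Nat.pos_of_ne_zero hD) h
    omega
  have hpx : ∀ x ∈ S, ¬ (p : ℤ) ∣ N x * N x⁻¹ := by
    intro x hx h
    apply hpD
    exact (Int.natCast_dvd.1 h).trans (Finset.dvd_prod_of_mem _ hx)
  have : Algebra.IsAlgebraic ℚ (AlgebraicClosure ℚ) := AlgebraicClosure.isAlgebraic ℚ
  let ι : AlgebraicClosure ℚ →+* PadicAlgCl p :=
    (IsAlgClosed.lift : AlgebraicClosure ℚ →ₐ[ℚ] PadicAlgCl p).toRingHom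
  refine ⟨p, padicV p ι, padicV_isPAdic p (by omega) ι, ?_, ?_⟩
  · intro x hx
    have h1 : padicV p ι x ≤ 1 := padicV_le_one p ι x (N x)
      (fun h => hpx x hx (h.mul_right _)) (hN x)
    have h2 : padicV p ι x⁻¹ ≤ 1 := padicV_le_one p ι x⁻¹ (N x⁻¹)
      (fun h => hpx x hx (h.mul_left _)) (hN x⁻¹)
    have h3 : padicV p ι x * padicV p ι x⁻¹ = 1 := by
      rw [← map_mul, mul_inv_cancel₀ (hS x hx), map_one]
    have h4 : 0 ≤ padicV p ι x := (padicV p ι).nonneg _
    nlinarith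
  · intro L _ x y hx hy
    exact pigeonhole p ι L x y hx hy

end ZC
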