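import Pool.Agent.ZC.Basic

/-!
Module PlaceUniq (project ZC, helper83).
PROOF.  (i) For a place w with w.v(s-a)<1, w.v(y-c)<1 and polynomials A B: g = A(s)+B(s)y satisfies
w.v(g - (A(a)+B(a)c)) < 1 (A(s)-A(a) is divisible by s-a, w.v(s) <= 1 ...), so if
g(a,c) := A(a)+B(a)c != 0 then w.v g = 1 (triv).
(ii) Every f != 0 in K is (s-a)^n g1/g2 (n : Z) with g_i in k[s,y], g_i(a,c) != 0; n, g1, g2 do not depend
on w.  By gen it is enough to treat f = A(s)+B(s)y != 0, i.e. (A,B) != (0,0).  Induction on
natDegree A + natDegree B: if f(a,c) != 0 done.  If f(a,c) = 0 and f(a,-c) = 0 then A(a) = B(a) = 0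
(c != 0, char 0) so A,B are divisible by X-a, factor s-a out.  If f(a,c) = 0, f(a,-c) != 0:
f * fbar = A^2 - B^2 h =: N(s), N != 0 (indep), N = (X-a)^n N1 with N1(a) != 0, f = (s-a)^n N1(s)/fbar and
fbar(a,c) = f(a,-c) != 0.
(iii) So w.v f = w.v(s-a)^n.  As w.v is surjective onto WithZero (Multiplicative Z), w.v(s-a) generates, and it
is < 1, so w.v(s-a) = exp(-1), same for w'; hence w.v = w'.v on all f, w = w'.
-/

namespace ZC

open Polynomial WeierstrassCurve
open scoped Classical

variable {k : Type} [Field k] [IsAlgClosed k] [CharZero k]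

variable {K : Type} [Field K] [Algebra k K] {h : k[X]} {s y : K}

private theorem pu_val_aeval_le {w : Place k K} (hs : w.v s ≤ 1) (A : k[X]) :
    w.v (aeval s A) ≤ 1 := by
  induction A using Polynomial.induction_on with
  | C c =>
    rw [aeval_C]
    by_cases hc : c = 0
    · rw [hc, map_zero, map_zero]; exact zero_le_one
    · rw [w.triv c hc]
  | add p q hp hq =>
    rw [map_add]
    exact (w.v.map_add _ _).trans (max_le hp hq)
  | monomial n c hc =>
    rw [pow_succ, ← mul_assoc, map_mul, map_mul, aeval_X]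
    exact mul_le_one' hc hs

private theorem pu_val_const_le (w : Place k K) (c : k) : w.v (algebraMap k K c) ≤ 1 := by
  by_cases hc : c = 0
  · rw [hc, map_zero, map_zero]; exact zero_le_one
  · rw [w.triv c hc]

private theorem pu_val_le_of_sub {w : Place k K} {x : K} {c : k}
    (h1 : w.v (x - algebraMap k K c) < 1) : w.v x ≤ 1 := by
  have h : x = (x - algebraMap k K c) + algebraMap k K c := by ring
  rw [h]
  exact (w.v.map_add _ _).trans (max_le h1.le (pu_val_const_le w c))

private theorem pu_val_sub_eval {w : Place k K} {a : k}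
    (h1 : w.v (s - algebraMap k K a) < 1) (A : k[X]) :
    w.v (aeval s A - algebraMap k K (A.eval a)) < 1 := by
  obtain ⟨Q, hQ⟩ := X_sub_C_dvd_sub_C_eval (p := A) (a := a)
  have h2 : aeval s A - algebraMap k K (A.eval a) = (s - algebraMap k K a) * aeval s Q := by
    have := congrArg (aeval s) hQ
    simpa using this
  rw [h2, map_mul]
  calc w.v (s - algebraMap k K a) * w.v (aeval s Q)
      ≤ w.v (s - algebraMap k K a) * 1 :=
        mul_le_mul_right (pu_val_aeval_le (pu_val_le_of_sub h1) Q) _
    _ < 1 := by rw [mul_one]; exact h1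

private theorem pu_val_eq_one {w : Place k K} {x : K} {c : k} (hc : c ≠ 0)
    (h1 : w.v (x - algebraMap k K c) < 1) : w.v x = 1 := by
  have h2 : x = algebraMap k K c + (x - algebraMap k K c) := by ring
  have h3 : w.v (x - algebraMap k K c) < w.v (algebraMap k K c) := by rw [w.triv c hc]; exact h1
  rw [h2, Valuation.map_add_eq_of_lt_left _ h3, w.triv c hc]

/-- (i) -/
private theorem pu_val_unit {w : Place k K} {a c : k}
    (h1 : w.v (s - algebraMap k K a) < 1) (h2 : w.v (y - algebraMap k K c) < 1) (A B : k[X])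
    (hne : A.eval a + B.eval a * c ≠ 0) :
    w.v (aeval s A + aeval s B * y) = 1 := by
  apply pu_val_eq_one hne
  have h3 : aeval s A + aeval s B * y - algebraMap k K (A.eval a + B.eval a * c) =
      (aeval s A - algebraMap k K (A.eval a)) +
        ((aeval s B - algebraMap k K (B.eval a)) * y +
          algebraMap k K (B.eval a) * (y - algebraMap k K c)) := by
    rw [map_add, map_mul]; ring
  rw [h3]
  refine w.v.map_add_lt (pu_val_sub_eval h1 A) (w.v.map_add_lt ?_ ?_)
  · rw [map_mul]
    calc w.v (aeval s B - algebraMap k K (B.eval a)) * w.v y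
        ≤ w.v (aeval s B - algebraMap k K (B.eval a)) * 1 :=
          mul_le_mul_right (pu_val_le_of_sub h2) _
      _ < 1 := by rw [mul_one]; exact pu_val_sub_eval h1 B
  · rw [map_mul]
    calc w.v (algebraMap k K (B.eval a)) * w.v (y - algebraMap k K c)
        ≤ 1 * w.v (y - algebraMap k K c) :=
          mul_le_mul_left (pu_val_const_le w _) _
      _ < 1 := by rw [one_mul]; exact h2

/-- polynomials in `s` -/
private theorem pu_val_poly {a : k} (A : k[X]) (hA : A ≠ 0) :
    ∃ n : ℕ, ∀ w : Place k K, w.v (s - algebraMap k K a) < 1 →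
      w.v (aeval s A) = w.v (s - algebraMap k K a) ^ n := by
  obtain ⟨q, hq, hq2⟩ := exists_eq_pow_rootMultiplicity_mul_and_not_dvd A hA a
  refine ⟨rootMultiplicity a A, fun w h1 => ?_⟩
  have hqa : q.eval a ≠ 0 := fun h => hq2 (dvd_iff_isRoot.2 h)
  have h2 : aeval s A = (s - algebraMap k K a) ^ (rootMultiplicity a A) * aeval s q := by
    have := congrArg (aeval s) hq
    rw [this]; simp
  rw [h2, map_mul, map_pow, pu_val_eq_one hqa (pu_val_sub_eval h1 q), mul_one]

private theorem pu_natDegree_lt {a : k} {A A' : k[X]} (hA : A = (X - C a) * A') (h0 : A ≠ 0) :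
    A'.natDegree < A.natDegree := by
  have h1 : A' ≠ 0 := by rintro rfl; exact h0 (by rw [hA, mul_zero])
  rw [hA, natDegree_mul (X_sub_C_ne_zero a) h1, natDegree_X_sub_C]
  omega

private theorem pu_natDegree_le {a : k} {A A' : k[X]} (hA : A = (X - C a) * A') :
    A'.natDegree ≤ A.natDegree := by
  by_cases h0 : A = 0
  · have : A' = 0 := by
      rcases mul_eq_zero.1 (hA ▸ h0) with h | h
      · exact absurd h (X_sub_C_ne_zero a)
      · exact h
    rw [this, h0]
  · exact (pu_natDegree_lt hA h0).le

/-- (ii), the norm argument -/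
private theorem pu_val_lin_norm (H : IsQuad k K h s y) {a c : k} (hc0 : c ≠ 0) (A B : k[X])
    (hAB : A ≠ 0 ∨ B ≠ 0) (h2 : ¬ A.eval a - B.eval a * c = 0) :
      ∃ n : ℤ, ∀ w : Place k K, w.v (s - algebraMap k K a) < 1 →
        w.v (y - algebraMap k K c) < 1 →
        w.v (aeval s A + aeval s B * y) = w.v (s - algebraMap k K a) ^ n := by
  have hprod : (aeval s A + aeval s B * y) * (aeval s A + aeval s (-B) * y) =
      aeval s (A ^ 2 - B ^ 2 * h) := by
    have := H.sq
    simp only [map_sub, map_mul, map_pow, map_neg]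
    rw [← this]; ring
  have hN : A ^ 2 - B ^ 2 * h ≠ 0 := by
    intro h0
    rw [h0, map_zero] at hprod
    rcases mul_eq_zero.1 hprod with h3 | h3
    · obtain ⟨h4, h5⟩ := H.indep _ _ h3
      rcases hAB with h | h
      · exact h h4
      · exact h h5
    · obtain ⟨h4, h5⟩ := H.indep _ _ h3
      rcases hAB with h | h
      · exact h h4
      · exact h (neg_eq_zero.1 h5)
  obtain ⟨m, hm⟩ := pu_val_poly (K := K) (s := s) (a := a) _ hN
  refine ⟨m, fun w w1 w2 => ?_⟩
  have h3 : w.v (aeval s A + aeval s (-B) * y) = 1 := by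
    apply pu_val_unit w1 w2
    rw [eval_neg]
    intro h
    exact h2 (by linear_combination h)
  have h4 := congrArg w.v hprod
  rw [map_mul, h3, mul_one, hm w w1] at h4
  rw [h4, zpow_natCast]

/-- (ii) for `f = A(s) + B(s) y` -/
private theorem pu_val_lin (H : IsQuad k K h s y) {a c : k} (hc0 : c ≠ 0) :
    ∀ (N : ℕ) (A B : k[X]), A.natDegree + B.natDegree ≤ N → (A ≠ 0 ∨ B ≠ 0) →
      ∃ n : ℤ, ∀ w : Place k K, w.v (s - algebraMap k K a) < 1 →
        w.v (y - algebraMap k K c) < 1 →
        w.v (aeval s A + aeval s B * y) = w.v (s - algebraMap k K a) ^ n := by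
  have hsa : s - algebraMap k K a ≠ 0 := by
    intro h0
    have := (H.indep (X - C a) 0 (by simpa using h0)).1
    exact X_sub_C_ne_zero a this
  intro N
  induction N with
  | zero =>
    intro A B hN hAB
    have hA : A.natDegree = 0 := by omega
    have hB : B.natDegree = 0 := by omega
    by_cases h1 : A.eval a + B.eval a * c = 0
    · by_cases h2 : A.eval a - B.eval a * c = 0
      · exfalso
        have hA0 : A.eval a = 0 := by
          have : (2 : k) * A.eval a = 0 := by linear_combination h1 + h2
          rcases mul_eq_zero.1 this with h | h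
          · exact absurd h two_ne_zero
          · exact h
        have hB0 : B.eval a = 0 := by
          have : B.eval a * c = 0 := by linear_combination h1 - hA0
          rcases mul_eq_zero.1 this with h | h
          · exact h
          · exact absurd h hc0
        rw [eq_C_of_natDegree_eq_zero hA, eval_C] at hA0
        rw [eq_C_of_natDegree_eq_zero hB, eval_C] at hB0
        rcases hAB with h | h
        · exact h (by rw [eq_C_of_natDegree_eq_zero hA, hA0, C_0])
        · exact h (by rw [eq_C_of_natDegree_eq_zero hB, hB0, C_0])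
      · exact pu_val_lin_norm H hc0 A B hAB h2
    · exact ⟨0, fun w w1 w2 => by rw [zpow_zero]; exact pu_val_unit w1 w2 A B h1⟩
  | succ N ih =>
    intro A B hN hAB
    by_cases h1 : A.eval a + B.eval a * c = 0
    · by_cases h2 : A.eval a - B.eval a * c = 0
      · have hA0 : A.eval a = 0 := by
          have : (2 : k) * A.eval a = 0 := by linear_combination h1 + h2
          rcases mul_eq_zero.1 this with h | h
          · exact absurd h two_ne_zero
          · exact h
        have hB0 : B.eval a = 0 := by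
          have : B.eval a * c = 0 := by linear_combination h1 - hA0
          rcases mul_eq_zero.1 this with h | h
          · exact h
          · exact absurd h hc0
        obtain ⟨A', hA'⟩ := dvd_iff_isRoot.2 hA0
        obtain ⟨B', hB'⟩ := dvd_iff_isRoot.2 hB0
        have hAB' : A' ≠ 0 ∨ B' ≠ 0 := by
          by_contra hcon
          push Not at hcon
          rw [hcon.1, mul_zero] at hA'
          rw [hcon.2, mul_zero] at hB'
          rcases hAB with h | h
          · exact h hA'
          · exact h hB'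
        have hdeg : A'.natDegree + B'.natDegree ≤ N := by
          have l1 := pu_natDegree_le hA'
          have l2 := pu_natDegree_le hB'
          rcases hAB with h | h
          · have := pu_natDegree_lt hA' h; omega
          · have := pu_natDegree_lt hB' h; omega
        obtain ⟨n, hn⟩ := ih A' B' hdeg hAB'
        refine ⟨n + 1, fun w w1 w2 => ?_⟩
        have h3 : aeval s A + aeval s B * y =
            (aeval s A' + aeval s B' * y) * (s - algebraMap k K a) := by
          rw [hA', hB']; simp; ring
        have h4 : w.v (s - algebraMap k K a) ≠ 0 := (Valuation.ne_zero_iff _).2 hsa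
        rw [h3, map_mul, hn w w1 w2, zpow_add_one₀ h4]
      · exact pu_val_lin_norm H hc0 A B hAB h2
    · exact ⟨0, fun w w1 w2 => by rw [zpow_zero]; exact pu_val_unit w1 w2 A B h1⟩

/-- (ii) -/
private theorem pu_val_all (H : IsQuad k K h s y) {a c : k} (hc0 : c ≠ 0) (f : K) (hf : f ≠ 0) :
    ∃ n : ℤ, ∀ w : Place k K, w.v (s - algebraMap k K a) < 1 →
        w.v (y - algebraMap k K c) < 1 → w.v f = w.v (s - algebraMap k K a) ^ n := by
  have hsa : s - algebraMap k K a ≠ 0 := by
    intro h0
    have := (H.indep (X - C a) 0 (by simpa using h0)).1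
    exact X_sub_C_ne_zero a this
  obtain ⟨A, B, D, hD, hfD⟩ := H.gen f
  have hD0 : aeval s D ≠ 0 := fun h0 => hD (H.indep D 0 (by simpa using h0)).1
  have hAB : A ≠ 0 ∨ B ≠ 0 := by
    by_contra hcon
    push Not at hcon
    rw [hcon.1, hcon.2, map_zero, zero_mul, add_zero] at hfD
    exact (mul_ne_zero hf hD0) hfD
  obtain ⟨n, hn⟩ := pu_val_lin H (a := a) hc0 _ A B le_rfl hAB
  obtain ⟨m, hm⟩ := pu_val_poly (K := K) (s := s) (a := a) D hD
  refine ⟨n - m, fun w w1 w2 => ?_⟩
  have h4 : w.v (s - algebraMap k K a) ≠ 0 := (Valuation.ne_zero_iff _).2 hsa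
  have h5 : w.v f * w.v (aeval s D) = w.v (s - algebraMap k K a) ^ n := by
    rw [← map_mul, hfD, hn w w1 w2]
  rw [hm w w1] at h5
  rw [zpow_sub₀ h4, zpow_natCast, ← h5, mul_div_assoc, div_self (pow_ne_zero _ h4), mul_one]

private theorem pu_val_unif (H : IsQuad k K h s y) {a c : k} (hc0 : c ≠ 0) (w : Place k K)
    (h1 : w.v (s - algebraMap k K a) < 1) (h2 : w.v (y - algebraMap k K c) < 1) :
    w.v (s - algebraMap k K a) = WithZero.exp (-1) := by
  have hsa : s - algebraMap k K a ≠ 0 := by
    intro h0
    have := (H.indep (X - C a) 0 (by simpa using h0)).1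
    exact X_sub_C_ne_zero a this
  have h4 : w.v (s - algebraMap k K a) ≠ 0 := (Valuation.ne_zero_iff _).2 hsa
  obtain ⟨f, hf⟩ := w.surj (WithZero.exp (-1))
  have hf0 : f ≠ 0 := by
    rintro rfl
    rw [map_zero] at hf
    exact WithZero.exp_ne_zero hf.symm
  obtain ⟨n, hn⟩ := pu_val_all H (a := a) hc0 f hf0
  have h5 := hn w h1 h2
  rw [hf] at h5
  set d : ℤ := WithZero.log (w.v (s - algebraMap k K a)) with hd
  have h6 : w.v (s - algebraMap k K a) = WithZero.exp d := (WithZero.exp_log h4).symm
  rw [h6, ← WithZero.exp_zero, WithZero.exp_lt_exp] at h1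
  rw [h6, ← WithZero.exp_zsmul, WithZero.exp_inj] at h5
  have h7 : n * d = -1 := by rw [← smul_eq_mul]; exact h5.symm
  have h8 : d = -1 := by
    have h9 : d ∣ 1 := ⟨-n, by linarith⟩
    rcases Int.isUnit_iff.1 (isUnit_of_dvd_one h9) with h | h
    · omega
    · exact h
  rw [h6, h8]

theorem IsQuad.ord_eq_one (H : IsQuad k K h s y) {a c : k} (hc : c ^ 2 = h.eval a)
    (hc0 : c ≠ 0) (w : Place k K)
    (h1 : w.v (s - algebraMap k K a) < 1) (h2 : w.v (y - algebraMap k K c) < 1) :
    w.ord (s - algebraMap k K a) = 1 := by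
  rw [Place.ord, pu_val_unif H hc0 w h1 h2, WithZero.log_exp, neg_neg]

theorem IsQuad.place_unique (H : IsQuad k K h s y) {a c : k} (hc : c ^ 2 = h.eval a)
    (hc0 : c ≠ 0) (w w' : Place k K)
    (h1 : w.v (s - algebraMap k K a) < 1) (h2 : w.v (y - algebraMap k K c) < 1)
    (h1' : w'.v (s - algebraMap k K a) < 1) (h2' : w'.v (y - algebraMap k K c) < 1) :
    w = w' := by
  have hv : w.v = w'.v := by
    ext f
    by_cases hf : f = 0
    · rw [hf, map_zero, map_zero]
    · obtain ⟨n, hn⟩ := pu_val_all H (a := a) hc0 f hf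
      rw [hn w h1 h2, hn w' h1' h2', pu_val_unif H hc0 w h1 h2, pu_val_unif H hc0 w' h1' h2']
  cases w
  cases w'
  simp only at hv
  subst hv
  rfl

end ZC
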