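import Pool.Agent.ZC.PlaceEx
import Pool.Agent.ZC.PlaceUniq

/-!
Module Key (project ZC, helper83).  The fibre cycles over s = t and s = t' are rationally equivalent.
PROOF.  The cycle is principal (AddSubgroup.subset_closure) with f = (s-t)/(s-t').  By exists_place /
place_unique there are exactly four places w1,w2 (s=t, y=c / y=-c), w3,w4 (s=t', y=+-c'), pairwise
different (v(c-(-c)) = v(2c) = 1; v(t-t')=1).  For every other place ord f = 0: if w.v s > 1 then
w.v(s-t) = w.v s = w.v(s-t'); if w.v s <= 1 and w.v(s-t) < 1 then (y-c)(y+c) = h(s)-h(t) has v < 1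
(divisible by s-t), so w.v(y-c)<1 or w.v(y+c)<1 (w.v y <= 1 since y^2 = h(s)), so w = w1 or w2; same for t';
otherwise w.v(s-t) = 1 = w.v(s-t').  ord f at w1,w2 is 1 (ord_eq_one, v(t-t')=1), at w3,w4 it is -1.
Specialisation is unique: SpecializesTo w P p and SpecializesTo w P p' imply p = p' (v(x-x')<1 for
x x' in k forces x = x').  So the finsum at (p,q) is sum over i of ord_{w_i} f * [ (p,q) = (p_i,q_i) ].
(finsum over w, then over the proposition: rewrite as finsum of a function supported in {w1,..,w4}.)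
-/

namespace ZC

open Polynomial WeierstrassCurve
open scoped Classical

variable {k : Type} [Field k] [IsAlgClosed k] [CharZero k]

variable {K : Type} [Field K] [Algebra k K] {h : k[X]} {s y : K}

omit [IsAlgClosed k] [CharZero k] in
private theorem Key_le_one (w : Place k K) (c : k) : w.v (algebraMap k K c) ≤ 1 := by
  by_cases h : c = 0
  · subst h
    rw [map_zero, map_zero]
    exact zero_le'
  · exact (w.triv c h).le

omit [IsAlgClosed k] [CharZero k] in
private theorem Key_other (w : Place k K) {s : K} {t t' : k} (htt : t ≠ t')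
    (h : w.v (s - algebraMap k K t) < 1) : w.v (s - algebraMap k K t') = 1 := by
  have h1 : w.v (algebraMap k K (t - t')) = 1 := w.triv _ (sub_ne_zero.2 htt)
  have h2 : s - algebraMap k K t' = (s - algebraMap k K t) + algebraMap k K (t - t') := by
    rw [map_sub]; ring
  rw [h2, Valuation.map_add_eq_of_lt_right w.v (by rw [h1]; exact h), h1]

omit [IsAlgClosed k] [CharZero k] in
/-- the value at a place is unique -/
private theorem Key_val_unique (w : Place k K) {X : K} {t t' : k}
    (h : w.v (X - algebraMap k K t) < 1) (h' : w.v (X - algebraMap k K t') < 1) : t = t' := by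
  by_contra hne
  rw [Key_other w hne h] at h'
  exact lt_irrefl _ h'

omit [IsAlgClosed k] [CharZero k] in
private theorem Key_le_of (w : Place k K) {X : K} {t : k}
    (h : w.v (X - algebraMap k K t) < 1) : w.v X ≤ 1 := by
  have h1 : X = (X - algebraMap k K t) + algebraMap k K t := by ring
  rw [h1]
  exact (w.v.map_add _ _).trans (max_le h.le (Key_le_one w t))

omit [IsAlgClosed k] [CharZero k] in
private theorem Key_spec_unique (w : Place k K) {a : k} (P : Pt (algebraMap k K a)) (p p' : Pt a)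
    (h : SpecializesTo w P p) (h' : SpecializesTo w P p') : p = p' := by
  cases P with
  | zero =>
    cases p with
    | zero =>
      cases p' with
      | zero => rfl
      | some x y hxy => exact absurd h' (by simp [SpecializesTo])
    | some x y hxy => exact absurd h (by simp [SpecializesTo])
  | some X Y hXY =>
    cases p with
    | zero =>
      cases p' with
      | zero => rfl
      | some x y hxy =>
        have h1 : 1 < w.v X := h
        have h2 := Key_le_of w (show w.v (X - algebraMap k K x) < 1 from h'.1)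
        exact absurd h2 (not_le.2 h1)
    | some x y hxy =>
      cases p' with
      | zero =>
        have h1 : 1 < w.v X := h'
        have h2 := Key_le_of w (show w.v (X - algebraMap k K x) < 1 from h.1)
        exact absurd h2 (not_le.2 h1)
      | some x' y' hxy' =>
        have hx : x = x' := Key_val_unique w (show w.v (X - algebraMap k K x) < 1 from h.1) h'.1
        have hy : y = y' := Key_val_unique w (show w.v (Y - algebraMap k K y) < 1 from h.2) h'.2
        subst hx
        subst hy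
        rfl

omit [IsAlgClosed k] [CharZero k] in
private theorem Key_aeval_le (w : Place k K) {s : K} (hs : w.v s ≤ 1) (q : k[X]) :
    w.v (aeval s q) ≤ 1 := by
  induction q using Polynomial.induction_on' with
  | add p q hp hq =>
    rw [map_add]
    exact (w.v.map_add _ _).trans (max_le hp hq)
  | monomial n a =>
    rw [aeval_monomial, map_mul, map_pow]
    exact mul_le_one' (Key_le_one w a) (pow_le_one' hs n)

omit [IsAlgClosed k] [CharZero k] in
private theorem Key_branch (H : IsQuad k K h s y) (w : Place k K) {t c : k}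
    (hc : c ^ 2 = h.eval t) (h1 : w.v (s - algebraMap k K t) < 1) :
    w.v (y - algebraMap k K c) < 1 ∨ w.v (y + algebraMap k K c) < 1 := by
  by_contra hcon
  push Not at hcon
  obtain ⟨h2, h3⟩ := hcon
  obtain ⟨q, hq⟩ := X_sub_C_dvd_sub_C_eval (a := t) (p := h)
  have e1 : (y - algebraMap k K c) * (y + algebraMap k K c) =
      (s - algebraMap k K t) * aeval s q := by
    have e2 := congrArg (aeval s) hq
    rw [map_sub, map_mul, map_sub, aeval_X, aeval_C, aeval_C, ← hc, map_pow, ← H.sq] at e2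
    rw [← e2]
    ring
  have h4 : w.v ((y - algebraMap k K c) * (y + algebraMap k K c)) < 1 := by
    rw [e1, map_mul]
    exact mul_lt_one_of_lt_of_le h1 (Key_aeval_le w (Key_le_of w h1) q)
  rw [map_mul] at h4
  have h5 := mul_le_mul' h2 h3
  rw [one_mul] at h5
  exact absurd h5 (not_le.2 h4)

omit [IsAlgClosed k] [CharZero k] in
private theorem Key_ne (H : IsQuad k K h s y) (t : k) : s - algebraMap k K t ≠ 0 := by
  intro h0
  have h1 := (H.indep (X - C t) 0 (by
    rw [map_sub, aeval_X, aeval_C, map_zero, zero_mul, add_zero, h0])).1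
  exact X_sub_C_ne_zero t h1

omit [IsAlgClosed k] [CharZero k] in
private theorem Key_ord_div (w : Place k K) {f g : K} (hf : f ≠ 0) (hg : g ≠ 0) :
    w.ord (f / g) = w.ord f - w.ord g := by
  have hf' : w.v f ≠ 0 := (Valuation.ne_zero_iff _).2 hf
  have hg' : w.v g ≠ 0 := (Valuation.ne_zero_iff _).2 hg
  unfold Place.ord
  rw [map_div₀, WithZero.log_div hf' hg']
  ring

omit [IsAlgClosed k] [CharZero k] in
private theorem Key_ord_one (w : Place k K) {f : K} (hf : w.v f = 1) : w.ord f = 0 := by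
  unfold Place.ord
  rw [hf, WithZero.log_one, neg_zero]

omit [IsAlgClosed k] [CharZero k] in
private theorem Key_sub_large (w : Place k K) {s : K} (t : k) (hs : 1 < w.v s) :
    w.v (s - algebraMap k K t) = w.v s :=
  Valuation.map_sub_eq_of_lt_left w.v ((Key_le_one w t).trans_lt hs)

omit [IsAlgClosed k] [CharZero k] in
private theorem Key_sub_small (w : Place k K) {s : K} (t : k) (hs : w.v s ≤ 1)
    (h : ¬ w.v (s - algebraMap k K t) < 1) : w.v (s - algebraMap k K t) = 1 :=
  le_antisymm ((w.v.map_sub _ _).trans (max_le hs (Key_le_one w t))) (not_lt.1 h)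

theorem IsQuad.key (H : IsQuad k K h s y) {a b : k} (x₁ : Pt (algebraMap k K a))
    (x₂ : Pt (algebraMap k K b)) {t t' c c' : k} (htt : t ≠ t')
    (hc : c ^ 2 = h.eval t) (hc0 : c ≠ 0) (hc' : c' ^ 2 = h.eval t') (hc0' : c' ≠ 0)
    (p₁ p₂ p₃ p₄ : Pt a) (q₁ q₂ q₃ q₄ : Pt b)
    (H1 : ∀ w : Place k K, w.v (s - algebraMap k K t) < 1 → w.v (y - algebraMap k K c) < 1 →
      SpecializesTo w x₁ p₁ ∧ SpecializesTo w x₂ q₁)
    (H2 : ∀ w : Place k K, w.v (s - algebraMap k K t) < 1 → w.v (y + algebraMap k K c) < 1 →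
      SpecializesTo w x₁ p₂ ∧ SpecializesTo w x₂ q₂)
    (H3 : ∀ w : Place k K, w.v (s - algebraMap k K t') < 1 → w.v (y - algebraMap k K c') < 1 →
      SpecializesTo w x₁ p₃ ∧ SpecializesTo w x₂ q₃)
    (H4 : ∀ w : Place k K, w.v (s - algebraMap k K t') < 1 → w.v (y + algebraMap k K c') < 1 →
      SpecializesTo w x₁ p₄ ∧ SpecializesTo w x₂ q₄) :
    Finsupp.single (p₁, q₁) 1 + Finsupp.single (p₂, q₂) 1 - Finsupp.single (p₃, q₃) 1
      - Finsupp.single (p₄, q₄) 1 ∈ ratZero a b := by
  have h2 : (2 : k) ≠ 0 := two_ne_zero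
  have hmc : (-c) ^ 2 = h.eval t := by rw [neg_sq, hc]
  have hmc' : (-c') ^ 2 = h.eval t' := by rw [neg_sq, hc']
  obtain ⟨w₁, a₁, b₁⟩ := H.exists_place hc hc0
  obtain ⟨w₂, a₂, b₂⟩ := H.exists_place hmc (neg_ne_zero.2 hc0)
  obtain ⟨w₃, a₃, b₃⟩ := H.exists_place hc' hc0'
  obtain ⟨w₄, a₄, b₄⟩ := H.exists_place hmc' (neg_ne_zero.2 hc0')
  have hcc : c ≠ -c := fun e => by
    have : 2 * c = 0 := by linear_combination e
    rcases mul_eq_zero.1 this with h | h
    · exact h2 h
    · exact hc0 h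
  have hcc' : c' ≠ -c' := fun e => by
    have : 2 * c' = 0 := by linear_combination e
    rcases mul_eq_zero.1 this with h | h
    · exact h2 h
    · exact hc0' h
  have hadd : ∀ e : k, y + algebraMap k K e = y - algebraMap k K (-e) := by
    intro e
    rw [map_neg, sub_neg_eq_add]
  have n12 : w₁ ≠ w₂ := by
    rintro rfl
    exact hcc (Key_val_unique w₁ b₁ b₂)
  have n34 : w₃ ≠ w₄ := by
    rintro rfl
    exact hcc' (Key_val_unique w₃ b₃ b₄)
  have n13 : w₁ ≠ w₃ := by
    rintro rfl
    exact htt (Key_val_unique w₁ a₁ a₃)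
  have n14 : w₁ ≠ w₄ := by
    rintro rfl
    exact htt (Key_val_unique w₁ a₁ a₄)
  have n23 : w₂ ≠ w₃ := by
    rintro rfl
    exact htt (Key_val_unique w₂ a₂ a₃)
  have n24 : w₂ ≠ w₄ := by
    rintro rfl
    exact htt (Key_val_unique w₂ a₂ a₄)
  have hs := Key_ne H t
  have hs' := Key_ne H t'
  set f : K := (s - algebraMap k K t) / (s - algebraMap k K t') with hf
  have hf0 : f ≠ 0 := div_ne_zero hs hs'
  have o₁ : w₁.ord f = 1 := by
    rw [hf, Key_ord_div w₁ hs hs', H.ord_eq_one hc hc0 w₁ a₁ b₁,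
      Key_ord_one w₁ (Key_other w₁ htt a₁), sub_zero]
  have o₂ : w₂.ord f = 1 := by
    rw [hf, Key_ord_div w₂ hs hs', H.ord_eq_one hmc (neg_ne_zero.2 hc0) w₂ a₂ b₂,
      Key_ord_one w₂ (Key_other w₂ htt a₂), sub_zero]
  have o₃ : w₃.ord f = -1 := by
    rw [hf, Key_ord_div w₃ hs hs', H.ord_eq_one hc' hc0' w₃ a₃ b₃,
      Key_ord_one w₃ (Key_other w₃ htt.symm a₃), zero_sub]
  have o₄ : w₄.ord f = -1 := by
    rw [hf, Key_ord_div w₄ hs hs', H.ord_eq_one hmc' (neg_ne_zero.2 hc0') w₄ a₄ b₄,
      Key_ord_one w₄ (Key_other w₄ htt.symm a₄), zero_sub]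
  have o₀ : ∀ w : Place k K, w ≠ w₁ → w ≠ w₂ → w ≠ w₃ → w ≠ w₄ → w.ord f = 0 := by
    intro w m₁ m₂ m₃ m₄
    have g1 : ¬ w.v (s - algebraMap k K t) < 1 := by
      intro hlt
      rcases Key_branch H w hc hlt with hb | hb
      · exact m₁ (H.place_unique hc hc0 w w₁ hlt hb a₁ b₁)
      · rw [hadd] at hb
        exact m₂ (H.place_unique hmc (neg_ne_zero.2 hc0) w w₂ hlt hb a₂ b₂)
    have g2 : ¬ w.v (s - algebraMap k K t') < 1 := by
      intro hlt
      rcases Key_branch H w hc' hlt with hb | hb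
      · exact m₃ (H.place_unique hc' hc0' w w₃ hlt hb a₃ b₃)
      · rw [hadd] at hb
        exact m₄ (H.place_unique hmc' (neg_ne_zero.2 hc0') w w₄ hlt hb a₄ b₄)
    rw [hf, Key_ord_div w hs hs']
    rcases lt_or_ge 1 (w.v s) with hl | hl
    · unfold Place.ord
      rw [Key_sub_large w t hl, Key_sub_large w t' hl, sub_self]
    · rw [Key_ord_one w (Key_sub_small w t hl g1), Key_ord_one w (Key_sub_small w t' hl g2),
        sub_self]
  refine AddSubgroup.subset_closure ⟨K, inferInstance, inferInstance, H.ff, x₁, x₂, f, hf0, ?_⟩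
  intro p q
  have hP : ∀ (w : Place k K) (p₀ : Pt a) (q₀ : Pt b),
      SpecializesTo w x₁ p₀ ∧ SpecializesTo w x₂ q₀ →
      ((SpecializesTo w x₁ p ∧ SpecializesTo w x₂ q) ↔ (p₀, q₀) = (p, q)) := by
    intro w p₀ q₀ h0
    constructor
    · rintro ⟨h3, h4⟩
      rw [Key_spec_unique w x₁ p₀ p h0.1 h3, Key_spec_unique w x₂ q₀ q h0.2 h4]
    · intro h3
      rw [Prod.mk.injEq] at h3
      obtain ⟨rfl, rfl⟩ := h3
      exact h0
  have s₁ := hP w₁ p₁ q₁ (H1 w₁ a₁ b₁)
  have s₂ := hP w₂ p₂ q₂ (H2 w₂ a₂ (by rw [hadd]; exact b₂))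
  have s₃ := hP w₃ p₃ q₃ (H3 w₃ a₃ b₃)
  have s₄ := hP w₄ p₄ q₄ (H4 w₄ a₄ (by rw [hadd]; exact b₄))
  have hF : ∀ w : Place k K, (∑ᶠ (_ : SpecializesTo w x₁ p ∧ SpecializesTo w x₂ q), w.ord f) =
      if SpecializesTo w x₁ p ∧ SpecializesTo w x₂ q then w.ord f else 0 := fun w => finsum_eq_if
  rw [finsum_congr hF, finsum_eq_sum_of_support_subset (s := ({w₁, w₂, w₃, w₄} : Finset _))]
  · rw [Finset.sum_insert, Finset.sum_insert, Finset.sum_insert, Finset.sum_singleton]
    · simp only [s₁, s₂, s₃, s₄, o₁, o₂, o₃, o₄]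
      rw [Finsupp.sub_apply, Finsupp.sub_apply, Finsupp.add_apply, Finsupp.single_apply,
        Finsupp.single_apply, Finsupp.single_apply, Finsupp.single_apply]
      by_cases e₁ : (p₁, q₁) = (p, q) <;> by_cases e₂ : (p₂, q₂) = (p, q) <;>
        by_cases e₃ : (p₃, q₃) = (p, q) <;> by_cases e₄ : (p₄, q₄) = (p, q) <;>
        simp only [e₁, e₂, e₃, e₄, if_true, if_false] <;> norm_num
    · simpa using n34
    · simpa using ⟨n23, n24⟩
    · simpa using ⟨n12, n13, n14⟩
  · intro w hw
    rw [Function.mem_support] at hw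
    by_contra hn
    simp only [Finset.coe_insert, Finset.coe_singleton, Set.mem_insert_iff,
      Set.mem_singleton_iff, not_or] at hn
    apply hw
    rw [o₀ w hn.1 hn.2.1 hn.2.2.1 hn.2.2.2, ite_self]

end ZC
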