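import Pool.Agent.ZC.Quad
import Pool.Agent.ZC.Key
import Pool.Agent.ZC.ResAux

/-!
Module Line (project ZC, helper83).  Pencil of lines: [P+P'] + [0] ~ [P] + [P'] (times Q).
-/

namespace ZC

open Polynomial WeierstrassCurve
open scoped Classical

variable {k : Type} [Field k] [IsAlgClosed k] [CharZero k]

/-- the discriminant polynomial of the pencil of lines through `(x₀, y₀)` -/
noncomputable def lineDisc (A f₁ y₀ m : k) : k[X] :=
  (C A * X ^ 2 - (1 + C m * X) ^ 2) ^ 2 - 4 * X ^ 3 * (C f₁ * X - 2 * C y₀ * (1 + C m * X))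

omit [IsAlgClosed k] in
theorem lineDisc_not_square {A f₁ y₀ m : k} (h : y₀ ≠ 0 ∨ f₁ ≠ 0) :
    ¬ IsSquare (lineDisc A f₁ y₀ m) := by
  rintro ⟨g, hg⟩
  have hdeg : g.natDegree ≤ 2 := by
    by_contra hcon
    push Not at hcon
    have h1 : (g * g).natDegree = g.natDegree + g.natDegree := by
      rcases eq_or_ne g 0 with h0 | h0
      · subst h0; simp at hcon
      · exact natDegree_mul h0 h0
    have h2 : (lineDisc A f₁ y₀ m).natDegree ≤ 4 := by
      rw [lineDisc]
      compute_degree
    rw [hg, h1] at h2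
    omega
  obtain ⟨g0, g1, g2, hgg⟩ : ∃ g0 g1 g2 : k, g = C g2 * X ^ 2 + C g1 * X + C g0 := by
    refine ⟨g.coeff 0, g.coeff 1, g.coeff 2, ?_⟩
    have := g.as_sum_range_C_mul_X_pow' (n := 3) (by omega)
    rw [this]
    simp [Finset.sum_range_succ]
    ring
  have key : ∀ x : k, (A * x ^ 2 - (1 + m * x) ^ 2) ^ 2 -
      4 * x ^ 3 * (f₁ * x - 2 * y₀ * (1 + m * x)) = (g2 * x ^ 2 + g1 * x + g0) ^ 2 := by
    intro x
    have := congrArg (eval x) hg
    rw [hgg] at this
    simp only [lineDisc, eval_sub, eval_pow, eval_mul, eval_C, eval_X, eval_add, eval_one,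
      eval_ofNat] at this
    linear_combination this
  -- compare coefficients by evaluating at 0, ±1, ±2, 3
  have e0 := key 0
  have e1 := key 1
  have e2 := key (-1)
  have e3 := key 2
  have e4 := key (-2)
  have c0 : g0 ^ 2 = 1 := by linear_combination -e0
  have c4 : (A - m ^ 2) ^ 2 - 4 * f₁ + 8 * y₀ * m = g2 ^ 2 := by
    linear_combination (1 / 24) * (e3 + e4) - (1 / 6) * (e1 + e2) + (1 / 4) * e0
  have c3 : -4 * m * (A - m ^ 2) + 8 * y₀ = 2 * g2 * g1 := by
    linear_combination (1 / 12) * (e3 - e4) - (1 / 6) * (e1 - e2)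
  have c1 : 4 * m = 2 * g1 * g0 := by
    linear_combination (2 / 3) * (e1 - e2) - (1 / 12) * (e3 - e4)
  have c2 : 4 * m ^ 2 - 2 * (A - m ^ 2) = g1 ^ 2 + 2 * g2 * g0 := by
    linear_combination (2 / 3) * (e1 + e2) - (5 / 4) * e0 - (1 / 24) * (e3 + e4)
  have h1 : g1 = 2 * m * g0 := by
    linear_combination (-g0 / 2) * c1 - g1 * c0
  have h2 : g2 = -(A - m ^ 2) * g0 := by
    have : g1 ^ 2 = 4 * m ^ 2 := by rw [h1]; linear_combination 4 * m ^ 2 * c0
    linear_combination (-g0 / 2) * c2 + (g0 / 2) * this * (-1) - g2 * c0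
  have hy : y₀ = 0 := by
    rw [h1, h2] at c3
    linear_combination (1 / 8) * c3 - (A - m ^ 2) * m / 2 * c0
  have hf : f₁ = 0 := by
    rw [h2, hy] at c4
    linear_combination (-1 / 4) * c4 - (A - m ^ 2) ^ 2 / 4 * c0
  rcases h with h | h
  · exact h hy
  · exact h hf


/-- the constant point -/
theorem line_const (K : Type) [Field K] [Algebra k K] {b : k} (hb0 : b ≠ 0) (hb1 : b ≠ 1)
    (Q : Pt b) : ∃ Q' : Pt (algebraMap k K b), ∀ w : Place k K, SpecializesTo w Q' Q := by
  rcases Q with _ | ⟨x, y, hQ⟩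
  · exact ⟨0, fun _ => trivial⟩
  · have h2 : (2 : k) ≠ 0 := two_ne_zero
    have h2K : (2 : K) ≠ 0 := by
      intro h; apply h2; apply (algebraMap k K).injective; rw [map_ofNat, map_zero]; exact h
    have h0 : algebraMap k K b ≠ 0 := by simpa using hb0
    have h1 : algebraMap k K b ≠ 1 := by
      intro h; apply hb1; apply (algebraMap k K).injective; simpa using h
    have e := (leg_nonsingular b x y h2 hb0 hb1).1 hQ
    refine ⟨.some (algebraMap k K x) (algebraMap k K y)
      ((leg_nonsingular _ _ _ h2K h0 h1).2 ?_), fun w => ⟨Res.const w x, Res.const w y⟩⟩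
    have := congrArg (algebraMap k K) e
    simpa using this

theorem add_left_generic {a b : k} (ha0 : a ≠ 0) (ha1 : a ≠ 1) (hb0 : b ≠ 0) (hb1 : b ≠ 1)
    (P P' : Pt a) (Q : Pt b) (hP : P ≠ 0) (hP' : P' ≠ 0) (hne : P ≠ P') (hne' : P ≠ -P') :
    Finsupp.single (P + P', Q) 1 + Finsupp.single ((0 : Pt a), Q) 1 - Finsupp.single (P, Q) 1
      - Finsupp.single (P', Q) 1 ∈ ratZero a b := by
  have h2 : (2 : k) ≠ 0 := two_ne_zero
  rcases P with _ | ⟨x1, y1, n1⟩
  · exact absurd rfl hP
  rcases P' with _ | ⟨x2, y2, n2⟩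
  · exact absurd rfl hP'
  have hx : x1 ≠ x2 := by
    intro h
    rcases (Affine.Point.X_eq_iff (W := (leg a).toAffine) (h₁ := n1) (h₂ := n2)).1 h with h | h
    · exact hne h
    · exact hne' h
  have hd : x1 - x2 ≠ 0 := sub_ne_zero.2 hx
  have E1 := (leg_nonsingular a x1 y1 h2 ha0 ha1).1 n1
  have E2 := (leg_nonsingular a x2 y2 h2 ha0 ha1).1 n2
  obtain ⟨x3, y3, n3, hsum, hx3, hy3⟩ : ∃ x3 y3 n3,
      Affine.Point.some x1 y1 n1 + Affine.Point.some x2 y2 n2 =
        (Affine.Point.some x3 y3 n3 : Pt a) ∧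
      x3 = ((y1 - y2) / (x1 - x2)) ^ 2 + (1 + a) - x1 - x2 ∧
      y3 = -((y1 - y2) / (x1 - x2) * (x3 - x1) + y1) := by
    have hs : (leg a).toAffine.slope x1 x2 y1 y2 = (y1 - y2) / (x1 - x2) :=
      Affine.slope_of_X_ne hx
    refine ⟨_, _, _, Affine.Point.add_of_X_ne hx, ?_, ?_⟩
    · rw [hs, Affine.addX]
      simp only [leg]
      ring
    · rw [hs, Affine.addY, Affine.negAddY, Affine.negY, Affine.addX]
      simp only [leg]
      ring
  rw [hsum]
  have E3 := (leg_nonsingular a x3 y3 h2 ha0 ha1).1 n3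
  set l : k := (y1 - y2) / (x1 - x2) with hl
  have hld : l * (x1 - x2) = y1 - y2 := by rw [hl]; field_simp
  clear_value l
  have hprod : (3 * x3 ^ 2 - 2 * (1 + a) * x3 + a) - 2 * (-y3) * l = (x1 - x3) * (x2 - x3) := by
    have hy1 : y1 = l * (x1 - x3) - y3 := by linear_combination hy3
    have hy2 : y2 = l * (x2 - x3) - y3 := by linear_combination hy3 + hld
    have q1 : (x1 - x3) * ((3 * x3 ^ 2 - 2 * (1 + a) * x3 + a) - 2 * (-y3) * l -
        (x1 - x3) * (x2 - x3)) = 0 := by
      rw [hy1] at E1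
      linear_combination (-1) * E1 + E3 + (x1 - x3) ^ 2 * (-1) * hx3
    have q2 : (x2 - x3) * ((3 * x3 ^ 2 - 2 * (1 + a) * x3 + a) - 2 * (-y3) * l -
        (x1 - x3) * (x2 - x3)) = 0 := by
      rw [hy2] at E2
      linear_combination (-1) * E2 + E3 + (x2 - x3) ^ 2 * (-1) * hx3
    have q3 : (x1 - x2) * ((3 * x3 ^ 2 - 2 * (1 + a) * x3 + a) - 2 * (-y3) * l -
        (x1 - x3) * (x2 - x3)) = 0 := by linear_combination q1 - q2
    rcases mul_eq_zero.1 q3 with h | h
    · exact absurd h hd
    · linear_combination h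
  have hns : -y3 ≠ 0 ∨ (3 * x3 ^ 2 - 2 * (1 + a) * x3 + a) ≠ 0 := by
    by_contra hcon
    push Not at hcon
    obtain ⟨c1, c2⟩ := hcon
    have c1' : y3 = 0 := by linear_combination -c1
    rw [Affine.nonsingular_iff] at n3
    simp only [leg] at n3
    rcases n3.2 with h | h
    · apply h; linear_combination (-1) * c2
    · apply h; rw [c1']; ring
  obtain ⟨K, _, _, s, y, H⟩ := exists_quad _ (lineDisc_not_square (A := 3 * x3 - (1 + a))
    (m := l - 1) hns)
  obtain ⟨Q', hQ'⟩ := line_const K hb0 hb1 Q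
  have h2K : (2 : K) ≠ 0 := by
    intro h; apply h2; apply (algebraMap k K).injective; rw [map_ofNat, map_zero]; exact h
  have ha0K : algebraMap k K a ≠ 0 := by simpa using ha0
  have ha1K : algebraMap k K a ≠ 1 := by
    intro h; apply ha1; apply (algebraMap k K).injective; simpa using h
  have hs0 : s ≠ 0 := by
    intro h0
    have := (H.indep X 0 (by simp [h0])).1
    exact X_ne_zero this
  have Hsq := H.sq
  simp only [lineDisc, map_sub, map_pow, map_mul, aeval_C, aeval_X, map_add, map_one,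
    map_ofNat, map_neg] at Hsq
  have E3K : (algebraMap k K y3) ^ 2 = algebraMap k K x3 * (algebraMap k K x3 - 1) *
      (algebraMap k K x3 - algebraMap k K a) := by
    have := congrArg (algebraMap k K) E3
    simpa using this
  generalize hMa : algebraMap k K a = Ma at *
  generalize hMx : algebraMap k K x3 = Mx at *
  generalize hMy : algebraMap k K y3 = My at *
  generalize hMl : algebraMap k K l = Ml at *
  obtain ⟨U, hU⟩ : ∃ U : K, U = ((1 + (Ml - 1) * s) ^ 2 - (3 * Mx - (1 + Ma)) * s ^ 2 + y) /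
    (2 * s ^ 3) := ⟨_, rfl⟩
  have hUq : s ^ 3 * U ^ 2 + ((3 * Mx - (1 + Ma)) * s ^ 2 - (1 + (Ml - 1) * s) ^ 2) * U +
      ((3 * Mx ^ 2 - 2 * (1 + Ma) * Mx + Ma) * s - 2 * (-My) * (1 + (Ml - 1) * s)) = 0 := by
    rw [hU]; field_simp; linear_combination Hsq
  have hcurve : (-My + (1 + (Ml - 1) * s) * U) ^ 2 = (Mx + s * U) * (Mx + s * U - 1) *
      (Mx + s * U - Ma) := by
    linear_combination (-U) * hUq + E3K
  have hconj : ((1 + (Ml - 1) * s) ^ 2 - (3 * Mx - (1 + Ma)) * s ^ 2 - y) * U =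
      2 * ((3 * Mx ^ 2 - 2 * (1 + Ma) * Mx + Ma) * s - 2 * (-My) * (1 + (Ml - 1) * s)) := by
    rw [hU]; field_simp; linear_combination (-1) * Hsq
  subst hMa hMx hMy hMl
  have key := H.key (a := a) (b := b)
    (.some (algebraMap k K x3 + s * U) (-algebraMap k K y3 + (1 + (algebraMap k K l - 1) * s) * U)
      ((leg_nonsingular _ _ _ h2K ha0K ha1K).2 hcurve)) Q' (t := 1) (t' := 0)
    (c := x1 - x2) (c' := 1) one_ne_zero ?_ hd ?_ one_ne_zero
    (.some x1 y1 n1) (.some x2 y2 n2) 0 (.some x3 y3 n3) Q Q Q Q ?_ ?_ ?_ ?_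
  · have := neg_mem key
    convert this using 1
    abel
  · simp only [lineDisc, eval_sub, eval_pow, eval_mul, eval_C, eval_X, eval_add, eval_one,
      eval_ofNat]
    have hx3' : l ^ 2 = x3 - (1 + a) + x1 + x2 := by linear_combination -hx3
    linear_combination 4 * hprod + ((3 * x3 - (1 + a)) - l ^ 2 - (x1 + x2 - 2 * x3)) * hx3'
  · simp only [lineDisc, eval_sub, eval_pow, eval_mul, eval_C, eval_X, eval_add, eval_one,
      eval_ofNat]
    ring
  · intro w hw1 hw2
    refine ⟨?_, hQ' w⟩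
    have r1 : Res w s 1 := hw1
    have r2 : Res w y (x1 - x2) := hw2
    have rU : Res w U (x1 - x3) := by
      rw [hU]
      refine (Res.div (((((Res.one w).add (((Res.const w l).sub (Res.one w)).mul r1)).pow 2).sub
        ((((Res.ofNat w 3).mul (Res.const w x3)).sub ((Res.one w).add (Res.const w a))).mul
        (r1.pow 2))).add r2) ((Res.ofNat w 2).mul (r1.pow 3)) (by simp)).congr ?_
      rw [div_eq_iff (by simp)]
      linear_combination (-1) * hx3
    exact ⟨((Res.const w x3).add (r1.mul rU)).congr (by ring),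
      ((Res.const w y3).neg.add (((Res.one w).add (((Res.const w l).sub (Res.one w)).mul
        r1)).mul rU)).congr (by linear_combination (-1) * hy3)⟩
  · intro w hw1 hw2
    refine ⟨?_, hQ' w⟩
    have r1 : Res w s 1 := hw1
    have r2 : Res w y (-(x1 - x2)) := by
      rw [Res, map_neg, sub_neg_eq_add]; exact hw2
    have rU : Res w U (x2 - x3) := by
      rw [hU]
      refine (Res.div (((((Res.one w).add (((Res.const w l).sub (Res.one w)).mul r1)).pow 2).sub
        ((((Res.ofNat w 3).mul (Res.const w x3)).sub ((Res.one w).add (Res.const w a))).mul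
        (r1.pow 2))).add r2) ((Res.ofNat w 2).mul (r1.pow 3)) (by simp)).congr ?_
      rw [div_eq_iff (by simp)]
      linear_combination (-1) * hx3
    exact ⟨((Res.const w x3).add (r1.mul rU)).congr (by ring),
      ((Res.const w y3).neg.add (((Res.one w).add (((Res.const w l).sub (Res.one w)).mul
        r1)).mul rU)).congr (by linear_combination (-1) * hy3 - hld)⟩
  · intro w hw1 hw2
    refine ⟨?_, hQ' w⟩
    have r1 : Res w s 0 := hw1
    have r2 : Res w y 1 := hw2
    have rN : Res w ((1 + (algebraMap k K l - 1) * s) ^ 2 - (3 * algebraMap k K x3 -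
        (1 + algebraMap k K a)) * s ^ 2 + y) 2 := by
      refine (((((Res.one w).add (((Res.const w l).sub (Res.one w)).mul r1)).pow 2).sub
        ((((Res.ofNat w 3).mul (Res.const w x3)).sub ((Res.one w).add (Res.const w a))).mul
        (r1.pow 2))).add r2).congr ?_
      ring
    have hs1 : w.v s < 1 := by simpa [Res] using r1
    have hsne : w.v s ≠ 0 := by simpa using hs0
    have hsU : w.v (s * U) = (w.v s)⁻¹ ^ 2 := by
      rw [hU, map_mul, map_div₀, rN.v_eq_one h2, map_mul, map_pow,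
        (Res.ofNat w 2).v_eq_one h2]
      field_simp
    show 1 < w.v (algebraMap k K x3 + s * U)
    have h1 : 1 < w.v (s * U) := by
      rw [hsU]
      apply one_lt_pow₀ _ two_ne_zero
      exact (one_lt_inv₀ (zero_lt_iff.2 hsne)).2 hs1
    rw [Place.v_add_pole h1 (w.v_const_le x3)]
    exact h1
  · intro w hw1 hw2
    refine ⟨?_, hQ' w⟩
    have r1 : Res w s 0 := hw1
    have r2 : Res w y (-1) := by
      rw [Res, map_neg, sub_neg_eq_add]; exact hw2
    have rD : Res w ((1 + (algebraMap k K l - 1) * s) ^ 2 - (3 * algebraMap k K x3 -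
        (1 + algebraMap k K a)) * s ^ 2 - y) 2 := by
      refine (((((Res.one w).add (((Res.const w l).sub (Res.one w)).mul r1)).pow 2).sub
        ((((Res.ofNat w 3).mul (Res.const w x3)).sub ((Res.one w).add (Res.const w a))).mul
        (r1.pow 2))).sub r2).congr ?_
      ring
    have hDne : ((1 + (algebraMap k K l - 1) * s) ^ 2 - (3 * algebraMap k K x3 -
        (1 + algebraMap k K a)) * s ^ 2 - y) ≠ 0 := by
      intro h0
      have := rD.v_eq_one h2
      rw [h0, map_zero] at this
      exact zero_ne_one this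
    have rN : Res w (2 * ((3 * algebraMap k K x3 ^ 2 - 2 * (1 + algebraMap k K a) *
        algebraMap k K x3 + algebraMap k K a) * s - 2 * (-algebraMap k K y3) *
        (1 + (algebraMap k K l - 1) * s))) (2 * (2 * y3)) := by
      refine ((Res.ofNat w 2).mul (((((((Res.ofNat w 3).mul ((Res.const w x3).pow 2)).sub
        (((Res.ofNat w 2).mul ((Res.one w).add (Res.const w a))).mul (Res.const w x3))).add
        (Res.const w a)).mul r1)).sub (((Res.ofNat w 2).mul (Res.const w y3).neg).mul
        ((Res.one w).add (((Res.const w l).sub (Res.one w)).mul r1))))).congr ?_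
      ring
    have rU : Res w U (2 * y3) := by
      have : U = (2 * ((3 * algebraMap k K x3 ^ 2 - 2 * (1 + algebraMap k K a) *
        algebraMap k K x3 + algebraMap k K a) * s - 2 * (-algebraMap k K y3) *
        (1 + (algebraMap k K l - 1) * s))) / ((1 + (algebraMap k K l - 1) * s) ^ 2 -
        (3 * algebraMap k K x3 - (1 + algebraMap k K a)) * s ^ 2 - y) := by
        rw [eq_div_iff hDne, ← hconj]; ring
      rw [this]
      refine (rN.div rD h2).congr ?_
      field_simp
    exact ⟨((Res.const w x3).add (r1.mul rU)).congr (by ring),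
      ((Res.const w y3).neg.add (((Res.one w).add (((Res.const w l).sub (Res.one w)).mul
        r1)).mul rU)).congr (by ring)⟩

end ZC
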