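import Pool.Agent.ZC.Swap

/-!
Module Alg (project ZC, helper83).  Pure algebra from add_left, add_right.
PROOF.  In the quotient M = Cycles a b / ratZero a b: P -> zz P Q and Q -> zz P Q are additive (add_left for Q
and for 0, add_right for P and 0), e1(P) = [P,0]-[0,0], e2(Q) = [0,Q]-[0,0] additive (add_left with Q=0 ...).
[P,Q] = zz P Q + e1 P + e2 Q + [0,0].  supported: the set of P with N zz(P,Q) in ratZero for some N > 0 is a
subgroup, same for Q, so zz(P,Q) is torsion in M for P in closure S, Q in closure T (two closure inductions).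
Then the class of c is sum n_z zz(z) + e1(sum n_z z.1) + e2(sum n_z z.2) + (sum n_z)[0,0] = sum n_z zz(z), a
finite sum of torsion elements.  zz_torsion: N m zz P Q = N zz (mP) Q mod ratZero.
-/

namespace ZC

open Polynomial WeierstrassCurve
open scoped Classical

variable {k : Type} [Field k] [IsAlgClosed k] [CharZero k]

/-- the class of a point in the quotient -/
private noncomputable def alg_s {a b : k} (P : Pt a) (Q : Pt b) : Cycles a b ⧸ ratZero a b :=
  QuotientAddGroup.mk' (ratZero a b) (Finsupp.single (P, Q) 1)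

/-- the class of `zz` in the quotient -/
private noncomputable def alg_z {a b : k} (P : Pt a) (Q : Pt b) : Cycles a b ⧸ ratZero a b :=
  QuotientAddGroup.mk' (ratZero a b) (zz P Q)

private theorem alg_z_eq {a b : k} (P : Pt a) (Q : Pt b) :
    alg_z P Q = alg_s P Q - alg_s P 0 - alg_s 0 Q + alg_s 0 0 := by
  unfold alg_z alg_s zz
  simp only [map_add, map_sub]

private theorem alg_left {a b : k} (ha0 : a ≠ 0) (ha1 : a ≠ 1) (hb0 : b ≠ 0) (hb1 : b ≠ 1)
    (P P' : Pt a) (Q : Pt b) :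
    alg_s (P + P') Q = alg_s P Q + alg_s P' Q - alg_s 0 Q := by
  have h := add_left ha0 ha1 hb0 hb1 P P' Q
  have h1 : QuotientAddGroup.mk' (ratZero a b) (Finsupp.single (P + P', Q) 1 +
      Finsupp.single ((0 : Pt a), Q) 1 - Finsupp.single (P, Q) 1 - Finsupp.single (P', Q) 1) = 0 :=
    (QuotientAddGroup.eq_zero_iff _).mpr h
  simp only [map_add, map_sub] at h1
  change alg_s (P + P') Q + alg_s 0 Q - alg_s P Q - alg_s P' Q = 0 at h1
  rw [sub_eq_zero, sub_eq_iff_eq_add] at h1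
  rw [eq_sub_iff_add_eq, h1]
  abel

private theorem alg_right {a b : k} (ha0 : a ≠ 0) (ha1 : a ≠ 1) (hb0 : b ≠ 0) (hb1 : b ≠ 1)
    (P : Pt a) (Q Q' : Pt b) :
    alg_s P (Q + Q') = alg_s P Q + alg_s P Q' - alg_s P 0 := by
  have h := add_right ha0 ha1 hb0 hb1 P Q Q'
  have h1 : QuotientAddGroup.mk' (ratZero a b) (Finsupp.single (P, Q + Q') 1 +
      Finsupp.single (P, (0 : Pt b)) 1 - Finsupp.single (P, Q) 1 - Finsupp.single (P, Q') 1) = 0 :=
    (QuotientAddGroup.eq_zero_iff _).mpr h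
  simp only [map_add, map_sub] at h1
  change alg_s P (Q + Q') + alg_s P 0 - alg_s P Q - alg_s P Q' = 0 at h1
  rw [sub_eq_zero, sub_eq_iff_eq_add] at h1
  rw [eq_sub_iff_add_eq, h1]
  abel

private theorem alg_z_left {a b : k} (ha0 : a ≠ 0) (ha1 : a ≠ 1) (hb0 : b ≠ 0) (hb1 : b ≠ 1)
    (P P' : Pt a) (Q : Pt b) : alg_z (P + P') Q = alg_z P Q + alg_z P' Q := by
  simp only [alg_z_eq, alg_left ha0 ha1 hb0 hb1]
  abel

private theorem alg_z_right {a b : k} (ha0 : a ≠ 0) (ha1 : a ≠ 1) (hb0 : b ≠ 0) (hb1 : b ≠ 1)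
    (P : Pt a) (Q Q' : Pt b) : alg_z P (Q + Q') = alg_z P Q + alg_z P Q' := by
  simp only [alg_z_eq, alg_right ha0 ha1 hb0 hb1]
  abel

private theorem alg_tor {a b : k} (c : Cycles a b) :
    (∃ N : ℕ, 0 < N ∧ N • c ∈ ratZero a b) ↔
      QuotientAddGroup.mk' (ratZero a b) c ∈ AddCommGroup.torsion (Cycles a b ⧸ ratZero a b) := by
  have h : QuotientAddGroup.mk' (ratZero a b) c ∈
      AddCommGroup.torsion (Cycles a b ⧸ ratZero a b) ↔
      IsOfFinAddOrder (QuotientAddGroup.mk' (ratZero a b) c) := Iff.rfl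
  rw [h, isOfFinAddOrder_iff_nsmul_eq_zero]
  constructor
  · rintro ⟨N, hN, h1⟩
    refine ⟨N, hN, ?_⟩
    rw [← map_nsmul]
    exact (QuotientAddGroup.eq_zero_iff _).mpr h1
  · rintro ⟨N, hN, h1⟩
    refine ⟨N, hN, ?_⟩
    rw [← map_nsmul] at h1
    exact (QuotientAddGroup.eq_zero_iff _).mp h1

theorem supported {a b : k} (ha0 : a ≠ 0) (ha1 : a ≠ 1) (hb0 : b ≠ 0) (hb1 : b ≠ 1)
    (S : Set (Pt a)) (T : Set (Pt b))
    (hST : ∀ P ∈ S, ∀ Q ∈ T, ∃ N : ℕ, 0 < N ∧ N • zz P Q ∈ ratZero a b)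
    (c : Cycles a b)
    (hc : ∀ z ∈ c.support, z.1 ∈ AddSubgroup.closure S ∧ z.2 ∈ AddSubgroup.closure T)
    (h0 : (c.sum fun _ n => n) = 0) (h1 : (c.sum fun z n => n • z.1) = 0)
    (h2 : (c.sum fun z n => n • z.2) = 0) :
    ∃ N : ℕ, 0 < N ∧ N • c ∈ ratZero a b := by
  rw [alg_tor]
  -- additivity as homomorphisms
  let F : Pt b → (Pt a →+ Cycles a b ⧸ ratZero a b) := fun Q =>
    AddMonoidHom.mk' (fun P => alg_z P Q) (fun P P' => alg_z_left ha0 ha1 hb0 hb1 P P' Q)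
  let G : Pt a → (Pt b →+ Cycles a b ⧸ ratZero a b) := fun P =>
    AddMonoidHom.mk' (fun Q => alg_z P Q) (fun Q Q' => alg_z_right ha0 ha1 hb0 hb1 P Q Q')
  let e1 : Pt a →+ Cycles a b ⧸ ratZero a b :=
    AddMonoidHom.mk' (fun P => alg_s P 0 - alg_s 0 0) (fun P P' => by
      change alg_s (P + P') 0 - alg_s 0 0 = (alg_s P 0 - alg_s 0 0) + (alg_s P' 0 - alg_s 0 0)
      rw [alg_left ha0 ha1 hb0 hb1]
      abel)
  let e2 : Pt b →+ Cycles a b ⧸ ratZero a b :=
    AddMonoidHom.mk' (fun Q => alg_s 0 Q - alg_s 0 0) (fun Q Q' => by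
      change alg_s 0 (Q + Q') - alg_s 0 0 = (alg_s 0 Q - alg_s 0 0) + (alg_s 0 Q' - alg_s 0 0)
      rw [alg_right ha0 ha1 hb0 hb1]
      abel)
  -- torsion on the closures
  have hz : ∀ P ∈ AddSubgroup.closure S, ∀ Q ∈ AddSubgroup.closure T,
      alg_z P Q ∈ AddCommGroup.torsion (Cycles a b ⧸ ratZero a b) := by
    intro P hP
    have hP' : ∀ Q ∈ T, alg_z P Q ∈ AddCommGroup.torsion (Cycles a b ⧸ ratZero a b) := by
      intro Q hQ
      have h3 : AddSubgroup.closure S ≤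
          (AddCommGroup.torsion (Cycles a b ⧸ ratZero a b)).comap (F Q) := by
        rw [AddSubgroup.closure_le]
        intro P' hP'
        exact (alg_tor _).mp (hST P' hP' Q hQ)
      exact h3 hP
    have h4 : AddSubgroup.closure T ≤
        (AddCommGroup.torsion (Cycles a b ⧸ ratZero a b)).comap (G P) := by
      rw [AddSubgroup.closure_le]
      intro Q hQ
      exact hP' Q hQ
    intro Q hQ
    exact h4 hQ
  -- the class of `c`
  have hclass : QuotientAddGroup.mk' (ratZero a b) c = c.sum fun z n => n • alg_z z.1 z.2 := by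
    have h5 : QuotientAddGroup.mk' (ratZero a b) c = c.sum fun z n => n • alg_s z.1 z.2 := by
      conv_lhs => rw [← Finsupp.sum_single c]
      rw [map_finsuppSum]
      apply Finsupp.sum_congr
      intro z _
      rw [alg_s, ← map_zsmul, Finsupp.smul_single, smul_eq_mul, mul_one]
    have h6 : ∀ z : Pt a × Pt b, alg_s z.1 z.2 =
        alg_z z.1 z.2 + e1 z.1 + e2 z.2 + alg_s 0 0 := by
      intro z
      change alg_s z.1 z.2 = alg_z z.1 z.2 + (alg_s z.1 0 - alg_s 0 0) +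
        (alg_s 0 z.2 - alg_s 0 0) + alg_s 0 0
      rw [alg_z_eq]
      abel
    rw [h5]
    have h7 : (c.sum fun z n => n • alg_s z.1 z.2) =
        (c.sum fun z n => n • alg_z z.1 z.2) + e1 (c.sum fun z n => n • z.1) +
          e2 (c.sum fun z n => n • z.2) +
          (zmultiplesHom (Cycles a b ⧸ ratZero a b) (alg_s 0 0)) (c.sum fun _ n => n) := by
      rw [map_finsuppSum, map_finsuppSum, map_finsuppSum]
      unfold Finsupp.sum
      rw [← Finset.sum_add_distrib, ← Finset.sum_add_distrib, ← Finset.sum_add_distrib]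
      apply Finset.sum_congr rfl
      intro z _
      change c z • alg_s z.1 z.2 = c z • alg_z z.1 z.2 + e1 (c z • z.1) + e2 (c z • z.2) +
        c z • alg_s 0 0
      rw [map_zsmul, map_zsmul]
      conv_lhs => rw [h6 z]
      rw [zsmul_add, zsmul_add, zsmul_add]
    rw [h7, h0, h1, h2, map_zero, map_zero, map_zero, add_zero, add_zero, add_zero]
  rw [hclass]
  apply AddSubgroup.sum_mem
  intro z hz'
  exact AddSubgroup.zsmul_mem _ (hz _ (hc z hz').1 _ (hc z hz').2) _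

theorem zz_torsion {a b : k} (ha0 : a ≠ 0) (ha1 : a ≠ 1) (hb0 : b ≠ 0) (hb1 : b ≠ 1)
    (P : Pt a) (Q : Pt b) {m N : ℕ} (hm : 0 < m) (hN : 0 < N)
    (h : N • zz (m • P) Q ∈ ratZero a b) :
    ∃ N : ℕ, 0 < N ∧ N • zz P Q ∈ ratZero a b := by
  refine ⟨N * m, Nat.mul_pos hN hm, ?_⟩
  let F : Pt a →+ Cycles a b ⧸ ratZero a b :=
    AddMonoidHom.mk' (fun P => alg_z P Q) (fun P P' => alg_z_left ha0 ha1 hb0 hb1 P P' Q)
  have h1 : N • F (m • P) = 0 := by
    change N • QuotientAddGroup.mk' (ratZero a b) (zz (m • P) Q) = 0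
    rw [← map_nsmul]
    exact (QuotientAddGroup.eq_zero_iff _).mpr h
  rw [map_nsmul, ← mul_nsmul'] at h1
  have h2 : (N * m) • QuotientAddGroup.mk' (ratZero a b) (zz P Q) = 0 := h1
  rw [← map_nsmul] at h2
  exact (QuotientAddGroup.eq_zero_iff _).mp h2

end ZC
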