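import Pool.Agent.ZC.Group

/-!
Module Swap (project ZC, helper83).
PROOF.  The swap Cycles a b -> Cycles b a (Finsupp.mapDomain Prod.swap / domLCongr) maps IsPrincipal a b to
IsPrincipal b a (same K, f, swap x_1 and x_2), so ratZero a b to ratZero b a.  Apply add_left for (b,a).
-/

namespace ZC

open Polynomial WeierstrassCurve
open scoped Classical

variable {k : Type} [Field k] [IsAlgClosed k] [CharZero k]

/-- the swap of the two factors -/
private noncomputable def swapC {k : Type} [Field k] (a b : k) : Cycles a b ≃+ Cycles b a :=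
  Finsupp.domCongr (Equiv.prodComm (Pt a) (Pt b))

private theorem swapC_apply {k : Type} [Field k] (a b : k) (c : Cycles a b) (p : Pt a) (q : Pt b) :
    swapC a b c (q, p) = c (p, q) := by
  simp [swapC, Finsupp.domCongr_apply, Finsupp.equivMapDomain_apply]

private theorem swapC_single {k : Type} [Field k] (a b : k) (p : Pt a) (q : Pt b) (n : ℤ) :
    swapC a b (Finsupp.single (p, q) n) = Finsupp.single (q, p) n := by
  simp [swapC, Finsupp.domCongr_apply]

private theorem swapC_principal {k : Type} [Field k] (a b : k) (c : Cycles a b)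
    (h : IsPrincipal a b c) : IsPrincipal b a (swapC a b c) := by
  obtain ⟨K, i1, i2, hK, x₁, x₂, f, hf, hc⟩ := h
  refine ⟨K, i1, i2, hK, x₂, x₁, f, hf, fun q p => ?_⟩
  rw [swapC_apply, hc p q]
  refine finsum_congr fun w => ?_
  by_cases h1 : SpecializesTo w x₁ p
  · by_cases h2 : SpecializesTo w x₂ q
    · simp [h1, h2]
    · simp [h1, h2]
  · simp [h1]

private theorem swapC_ratZero {k : Type} [Field k] (a b : k) (c : Cycles a b)
    (h : c ∈ ratZero a b) : swapC a b c ∈ ratZero b a := by
  have h1 : ratZero a b ≤ (ratZero b a).comap (swapC a b).toAddMonoidHom := by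
    unfold ratZero
    rw [AddSubgroup.closure_le]
    intro c hc
    exact AddSubgroup.subset_closure (swapC_principal a b c hc)
  exact h1 h

theorem add_right {a b : k} (ha0 : a ≠ 0) (ha1 : a ≠ 1) (hb0 : b ≠ 0) (hb1 : b ≠ 1)
    (P : Pt a) (Q Q' : Pt b) :
    Finsupp.single (P, Q + Q') 1 + Finsupp.single (P, (0 : Pt b)) 1 - Finsupp.single (P, Q) 1
      - Finsupp.single (P, Q') 1 ∈ ratZero a b := by
  have h1 := swapC_ratZero b a _ (add_left hb0 hb1 ha0 ha1 Q Q' P)
  rw [map_sub, map_sub, map_add, swapC_single, swapC_single, swapC_single, swapC_single] at h1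
  exact h1

end ZC
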