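import Pool.Agent.ZC.PushN
import Pool.Agent.ZC.Swap
import Pool.Agent.ZC.Alg

/-!
Module AlgN (project ZC, helper83).
PROOF.  By the push forward (pushPt i j R) the relations add_left, add_right and hST hold in ratZeroN a for every pair i != j and
every R (ι has at least two elements).
Let Q = quotient of CyclesN a / ratZeroN a by its torsion (or argue with exists N > 0), phi(x) = class of single x 1 for x in prod A_i
(A_i = closure (S i)).
(1) phi(x with x_i = P+P') + phi(x with x_i = 0) = phi(x_i = P) + phi(x_i = P').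
(2) zz_{ij}: phi(x_i=P,x_j=Q) - phi(x_i=P,x_j=0) - phi(x_i=0,x_j=Q) + phi(x_i=x_j=0) torsion for P in A_i, Q in A_j (all R):
 closure induction from S i, S j as in Alg.lean (supported).
(3) So phi(x) = phi(0) + sum_i (phi(0 with x_i) - phi(0)) mod torsion (induction on the number of nonzero coordinates /
 Finset induction on the set of coordinates that are switched on), each summand additive in x_i by (1).
(4) Sum with the coefficients of c: (sum n) phi(0) + sum_i psi_i(sum n x_i) = 0 mod torsion; finitely many torsion terms.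
-/

namespace ZC

open Polynomial WeierstrassCurve
open scoped Classical

variable {k : Type} [Field k] [IsAlgClosed k] [CharZero k]

section

variable {ι : Type} {A : ι → Type} [∀ i, AddCommGroup (A i)] {M : Type} [AddCommGroup M]

/-- the coordinates in `t` switched on -/
private noncomputable def AlgN_on (y : ∀ i, A i) (t : Finset ι) : ∀ i, A i :=
  fun j => if j ∈ t then y j else 0

private theorem AlgN_on_empty (y : ∀ i, A i) : AlgN_on y ∅ = 0 := by
  funext j
  simp [AlgN_on]

private theorem AlgN_on_univ [Fintype ι] (y : ∀ i, A i) : AlgN_on y Finset.univ = y := by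
  funext j
  simp [AlgN_on]

private theorem AlgN_on_insert (y : ∀ i, A i) (t : Finset ι) (j : ι) :
    AlgN_on y (insert j t) = Function.update (AlgN_on y t) j (y j) := by
  funext l
  by_cases h : l = j
  · subst h
    rw [Function.update_self]
    simp [AlgN_on]
  · rw [Function.update_of_ne h]
    simp [AlgN_on, h]

private theorem AlgN_on_notMem (y : ∀ i, A i) {t : Finset ι} {j : ι} (h : j ∉ t) :
    AlgN_on y t j = 0 := by
  simp [AlgN_on, h]

private theorem AlgN_upd_zero {z : ∀ i, A i} {i : ι} (h : z i = 0) :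
    Function.update z i 0 = z := by
  rw [← h]
  exact Function.update_eq_self i z

private theorem AlgN_stepA (T : AddSubgroup M) (B : ∀ i, AddSubgroup (A i))
    (φ : (∀ i, A i) → M)
    (h2 : ∀ (x : ∀ i, A i) i j, i ≠ j → ∀ P ∈ B i, ∀ Q ∈ B j,
      φ (Function.update (Function.update x i P) j Q) -
      φ (Function.update (Function.update x i P) j 0) -
      φ (Function.update (Function.update x i 0) j Q) +
      φ (Function.update (Function.update x i 0) j 0) ∈ T)
    (y : ∀ i, A i) (hy : ∀ j, y j ∈ B j) (i : ι) (P : A i) (hP : P ∈ B i) (t : Finset ι) :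
    i ∉ t → (φ (Function.update (AlgN_on y t) i P) - φ (AlgN_on y t)) -
      (φ (Function.update 0 i P) - φ 0) ∈ T := by
  induction t using Finset.induction_on with
  | empty =>
    intro _
    rw [AlgN_on_empty, sub_self]
    exact T.zero_mem
  | insert j t hj ih =>
    intro hi
    rw [Finset.mem_insert, not_or] at hi
    obtain ⟨hij, hit⟩ := hi
    have ih' := ih hit
    rw [AlgN_on_insert]
    set z := AlgN_on y t with hz
    have hzi : z i = 0 := AlgN_on_notMem y hit
    have hzj : z j = 0 := AlgN_on_notMem y hj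
    have h3 := h2 z i j hij P hP (y j) (hy j)
    have e1 : Function.update (Function.update z i P) j 0 = Function.update z i P := by
      refine AlgN_upd_zero ?_
      rw [Function.update_of_ne (Ne.symm hij), hzj]
    rw [e1, AlgN_upd_zero hzi, AlgN_upd_zero hzj, Function.update_comm hij] at h3
    have h4 := T.add_mem h3 ih'
    convert h4 using 1
    abel

private theorem AlgN_stepB (T : AddSubgroup M) (B : ∀ i, AddSubgroup (A i))
    (φ : (∀ i, A i) → M)
    (h2 : ∀ (x : ∀ i, A i) i j, i ≠ j → ∀ P ∈ B i, ∀ Q ∈ B j,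
      φ (Function.update (Function.update x i P) j Q) -
      φ (Function.update (Function.update x i P) j 0) -
      φ (Function.update (Function.update x i 0) j Q) +
      φ (Function.update (Function.update x i 0) j 0) ∈ T)
    (y : ∀ i, A i) (hy : ∀ j, y j ∈ B j) (t : Finset ι) :
    φ (AlgN_on y t) - φ 0 - ∑ i ∈ t, (φ (Function.update 0 i (y i)) - φ 0) ∈ T := by
  induction t using Finset.induction_on with
  | empty =>
    rw [AlgN_on_empty, sub_self, Finset.sum_empty, sub_self]
    exact T.zero_mem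
  | insert j t hj ih =>
    rw [AlgN_on_insert, Finset.sum_insert hj]
    have h3 := AlgN_stepA T B φ h2 y hy j (y j) (hy j) t hj
    have h4 := T.add_mem h3 ih
    convert h4 using 1
    abel

private theorem AlgN_abs [Fintype ι] (T : AddSubgroup M) (B : ∀ i, AddSubgroup (A i))
    (φ : (∀ i, A i) → M)
    (h1 : ∀ (i : ι) (P P' : A i), φ (Function.update 0 i (P + P')) + φ 0 =
      φ (Function.update 0 i P) + φ (Function.update 0 i P'))
    (h2 : ∀ (x : ∀ i, A i) i j, i ≠ j → ∀ P ∈ B i, ∀ Q ∈ B j,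
      φ (Function.update (Function.update x i P) j Q) -
      φ (Function.update (Function.update x i P) j 0) -
      φ (Function.update (Function.update x i 0) j Q) +
      φ (Function.update (Function.update x i 0) j 0) ∈ T)
    (c : (∀ i, A i) →₀ ℤ) (hc : ∀ z ∈ c.support, ∀ i, z i ∈ B i)
    (h0 : (c.sum fun _ n => n) = 0) (h3 : ∀ i, (c.sum fun z n => n • z i) = 0) :
    (c.sum fun z n => n • φ z) ∈ T := by
  let ψ : ∀ i, A i →+ M := fun i =>
    AddMonoidHom.mk' (fun P => φ (Function.update 0 i P) - φ 0) (fun P P' => by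
      have h4 := h1 i P P'
      rw [← eq_sub_iff_add_eq] at h4
      rw [h4]
      abel)
  have hsplit : (c.sum fun z n => n • φ z) =
      (∑ z ∈ c.support, c z • (φ z - φ 0 - ∑ i, ψ i (z i))) +
      (∑ z ∈ c.support, c z) • φ 0 + ∑ i, ψ i (∑ z ∈ c.support, c z • z i) := by
    have h5 : ∑ i, ψ i (∑ z ∈ c.support, c z • z i) =
        ∑ z ∈ c.support, c z • ∑ i, ψ i (z i) := by
      simp only [map_sum, map_zsmul]
      rw [Finset.sum_comm]
      refine Finset.sum_congr rfl fun z _ => ?_
      rw [Finset.smul_sum]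
    rw [h5, Finset.sum_smul, ← Finset.sum_add_distrib, ← Finset.sum_add_distrib]
    unfold Finsupp.sum
    refine Finset.sum_congr rfl fun z _ => ?_
    have e : φ z = (φ z - φ 0 - ∑ i, ψ i (z i)) + φ 0 + ∑ i, ψ i (z i) := by
      rw [sub_add_eq_add_sub, sub_add_cancel, sub_add_cancel]
    change c z • φ z = _
    conv_lhs => rw [e, smul_add, smul_add]
  have e0 : ∑ z ∈ c.support, c z = 0 := h0
  have e1 : ∀ i, ∑ z ∈ c.support, c z • z i = 0 := fun i => h3 i
  rw [hsplit, e0, zero_smul, add_zero]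
  have e2 : ∑ i, ψ i (∑ z ∈ c.support, c z • z i) = 0 := by
    refine Finset.sum_eq_zero fun i _ => ?_
    rw [e1 i, map_zero]
  rw [e2, add_zero]
  refine T.sum_mem fun z hz => T.zsmul_mem ?_ _
  have h6 := AlgN_stepB T B φ h2 z (hc z hz) Finset.univ
  rw [AlgN_on_univ] at h6
  exact h6

end

private theorem AlgN_zz {a b : k} (ha0 : a ≠ 0) (ha1 : a ≠ 1) (hb0 : b ≠ 0) (hb1 : b ≠ 1)
    (S : Set (Pt a)) (T : Set (Pt b))
    (hST : ∀ P ∈ S, ∀ Q ∈ T, ∃ N : ℕ, 0 < N ∧ N • zz P Q ∈ ratZero a b)
    (P : Pt a) (hP : P ∈ AddSubgroup.closure S) (Q : Pt b) (hQ : Q ∈ AddSubgroup.closure T) :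
    ∃ N : ℕ, 0 < N ∧ N • zz P Q ∈ ratZero a b := by
  have hsum : ∀ (G : Type) [AddCommGroup G] (g : Pt a × Pt b → G),
      ((zz P Q).sum fun z n => n • g z) = g (P, Q) - g (P, 0) - g (0, Q) + g (0, 0) := by
    intro G _ g
    have h1 : ∀ z : Pt a × Pt b, (0 : ℤ) • g z = 0 := fun z => zero_smul _ _
    have h2 : ∀ (z : Pt a × Pt b) (m n : ℤ), (m + n) • g z = m • g z + n • g z :=
      fun z m n => add_smul _ _ _
    have h3 : ∀ (z : Pt a × Pt b) (m n : ℤ), (m - n) • g z = m • g z - n • g z :=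
      fun z m n => sub_smul _ _ _
    unfold zz
    rw [Finsupp.sum_add_index' h1 h2, Finsupp.sum_sub_index h3, Finsupp.sum_sub_index h3,
      Finsupp.sum_single_index (h1 _), Finsupp.sum_single_index (h1 _),
      Finsupp.sum_single_index (h1 _), Finsupp.sum_single_index (h1 _)]
    simp only [one_smul]
  refine supported ha0 ha1 hb0 hb1 S T hST (zz P Q) ?_ ?_ ?_ ?_
  · intro z hz
    rw [Finsupp.mem_support_iff] at hz
    have h4 : z = (P, Q) ∨ z = (P, 0) ∨ z = (0, Q) ∨ z = (0, 0) := by
      by_contra hcon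
      rw [not_or, not_or, not_or] at hcon
      obtain ⟨n1, n2, n3, n4⟩ := hcon
      apply hz
      unfold zz
      rw [Finsupp.add_apply, Finsupp.sub_apply, Finsupp.sub_apply,
        Finsupp.single_eq_of_ne n1, Finsupp.single_eq_of_ne n2, Finsupp.single_eq_of_ne n3,
        Finsupp.single_eq_of_ne n4]
      norm_num
    rcases h4 with rfl | rfl | rfl | rfl
    · exact ⟨hP, hQ⟩
    · exact ⟨hP, AddSubgroup.zero_mem _⟩
    · exact ⟨AddSubgroup.zero_mem _, hQ⟩
    · exact ⟨AddSubgroup.zero_mem _, AddSubgroup.zero_mem _⟩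
  · have h5 := hsum ℤ fun _ => 1
    simp only [smul_eq_mul, mul_one] at h5
    rw [h5]
    norm_num
  · rw [hsum (Pt a) fun z => z.1]
    abel
  · rw [hsum (Pt b) fun z => z.2]
    abel

/-- the class of a point -/
private noncomputable def AlgN_s {ι : Type} (a : ι → k) (x : ∀ i, Pt (a i)) :
    CyclesN a ⧸ ratZeroN a :=
  QuotientAddGroup.mk' (ratZeroN a) (Finsupp.single x 1)

omit [IsAlgClosed k] [CharZero k] in
private theorem AlgN_tor {ι : Type} (a : ι → k) (c : CyclesN a) :
    (∃ N : ℕ, 0 < N ∧ N • c ∈ ratZeroN a) ↔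
      QuotientAddGroup.mk' (ratZeroN a) c ∈
        AddCommGroup.torsion (CyclesN a ⧸ ratZeroN a) := by
  have h : QuotientAddGroup.mk' (ratZeroN a) c ∈
      AddCommGroup.torsion (CyclesN a ⧸ ratZeroN a) ↔
      IsOfFinAddOrder (QuotientAddGroup.mk' (ratZeroN a) c) := Iff.rfl
  rw [h, isOfFinAddOrder_iff_nsmul_eq_zero]
  constructor
  · rintro ⟨N, hN, h1⟩
    refine ⟨N, hN, ?_⟩
    rw [← map_nsmul]
    exact (QuotientAddGroup.eq_zero_iff _).mpr h1
  · rintro ⟨N, hN, h1⟩
    refine ⟨N, hN, ?_⟩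
    rw [← map_nsmul] at h1
    exact (QuotientAddGroup.eq_zero_iff _).mp h1

omit [IsAlgClosed k] [CharZero k] in
private theorem AlgN_push_single {ι : Type} (a : ι → k) (i j : ι) (R : ∀ l, Pt (a l))
    (z : Pt (a i) × Pt (a j)) :
    Finsupp.mapDomain (pushPt i j R) (Finsupp.single z (1 : ℤ)) =
      Finsupp.single (Function.update (Function.update R i z.1) j z.2) 1 := by
  rw [Finsupp.mapDomain_single]
  rfl

private theorem AlgN_add {ι : Type} [Nontrivial ι] (a : ι → k) (ha : ∀ i, a i ≠ 0 ∧ a i ≠ 1)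
    (i : ι) (P P' : Pt (a i)) :
    AlgN_s a (Function.update (0 : ∀ l, Pt (a l)) i (P + P')) + AlgN_s a 0 =
      AlgN_s a (Function.update (0 : ∀ l, Pt (a l)) i P) +
      AlgN_s a (Function.update (0 : ∀ l, Pt (a l)) i P') := by
  obtain ⟨j, hj⟩ := exists_ne i
  have hij : i ≠ j := Ne.symm hj
  have h1 := push_ratZero a ha hij 0 _
    (add_left (ha i).1 (ha i).2 (ha j).1 (ha j).2 P P' (0 : Pt (a j)))
  have h2 : ∀ U : Pt (a i),
      (Function.update (Function.update (0 : ∀ l, Pt (a l)) i U) j 0 : ∀ l, Pt (a l)) =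
      Function.update (0 : ∀ l, Pt (a l)) i U := by
    intro U
    refine AlgN_upd_zero ?_
    rw [Function.update_of_ne hj]
    rfl
  have h3 : Finsupp.mapDomain (pushPt i j (0 : ∀ l, Pt (a l)))
      (Finsupp.single (P + P', (0 : Pt (a j))) 1 + Finsupp.single ((0 : Pt (a i)), 0) 1 -
        Finsupp.single (P, 0) 1 - Finsupp.single (P', 0) 1) =
      Finsupp.single (Function.update (0 : ∀ l, Pt (a l)) i (P + P')) (1 : ℤ) +
        Finsupp.single 0 1 -
        Finsupp.single (Function.update (0 : ∀ l, Pt (a l)) i P) 1 -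
        Finsupp.single (Function.update (0 : ∀ l, Pt (a l)) i P') 1 := by
    have h4 : ∀ c d : Cycles (a i) (a j), Finsupp.mapDomain (pushPt i j (0 : ∀ l, Pt (a l)))
        (c - d) = Finsupp.mapDomain (pushPt i j 0) c - Finsupp.mapDomain (pushPt i j 0) d :=
      fun c d => map_sub (Finsupp.mapDomain.addMonoidHom (pushPt i j (0 : ∀ l, Pt (a l)))) c d
    rw [h4, h4, Finsupp.mapDomain_add, AlgN_push_single, AlgN_push_single, AlgN_push_single,
      AlgN_push_single, h2, h2, h2, h2]
    have h5 : (Function.update (0 : ∀ l, Pt (a l)) i 0 : ∀ l, Pt (a l)) = 0 :=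
      AlgN_upd_zero rfl
    rw [h5]
  rw [h3] at h1
  have h6 : QuotientAddGroup.mk' (ratZeroN a)
      (Finsupp.single (Function.update (0 : ∀ l, Pt (a l)) i (P + P')) (1 : ℤ)
      + Finsupp.single 0 1 - Finsupp.single (Function.update (0 : ∀ l, Pt (a l)) i P) 1 -
      Finsupp.single (Function.update (0 : ∀ l, Pt (a l)) i P') 1) = 0 :=
    (QuotientAddGroup.eq_zero_iff _).mpr h1
  simp only [map_add, map_sub] at h6
  change AlgN_s a (Function.update (0 : ∀ l, Pt (a l)) i (P + P')) + AlgN_s a 0 -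
    AlgN_s a (Function.update (0 : ∀ l, Pt (a l)) i P) -
    AlgN_s a (Function.update (0 : ∀ l, Pt (a l)) i P') = 0 at h6
  rw [sub_eq_zero, sub_eq_iff_eq_add] at h6
  rw [h6, add_comm]

theorem supportedN {ι : Type} [Fintype ι] [Nontrivial ι] (a : ι → k) (ha : ∀ i, a i ≠ 0 ∧ a i ≠ 1)
    (S : ∀ i, Set (Pt (a i)))
    (hS : ∀ i j, i ≠ j → ∀ P ∈ S i, ∀ Q ∈ S j,
      ∃ N : ℕ, 0 < N ∧ N • zz P Q ∈ ratZero (a i) (a j))
    (c : CyclesN a) (hc : ∀ z ∈ c.support, ∀ i, z i ∈ AddSubgroup.closure (S i))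
    (h0 : (c.sum fun _ n => n) = 0) (h1 : ∀ i, (c.sum fun z n => n • z i) = 0) :
    ∃ N : ℕ, 0 < N ∧ N • c ∈ ratZeroN a := by
  rw [AlgN_tor]
  have hclass : QuotientAddGroup.mk' (ratZeroN a) c = c.sum fun z n => n • AlgN_s a z := by
    conv_lhs => rw [← Finsupp.sum_single c]
    rw [map_finsuppSum]
    apply Finsupp.sum_congr
    intro z _
    rw [AlgN_s, ← map_zsmul, Finsupp.smul_single, smul_eq_mul, mul_one]
  rw [hclass]
  refine AlgN_abs (AddCommGroup.torsion (CyclesN a ⧸ ratZeroN a))
    (fun i => AddSubgroup.closure (S i)) (AlgN_s a) (AlgN_add a ha) ?_ c hc h0 h1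
  intro x i j hij P hP Q hQ
  obtain ⟨N, hN, h2⟩ := AlgN_zz (ha i).1 (ha i).2 (ha j).1 (ha j).2 (S i) (S j) (hS i j hij)
    P hP Q hQ
  have h3 := push_ratZero a ha hij x _ h2
  have h4 : ∀ c d : Cycles (a i) (a j), Finsupp.mapDomain (pushPt i j x)
      (c - d) = Finsupp.mapDomain (pushPt i j x) c - Finsupp.mapDomain (pushPt i j x) d :=
    fun c d => map_sub (Finsupp.mapDomain.addMonoidHom (pushPt i j x)) c d
  have h5 : Finsupp.mapDomain (pushPt i j x) (N • zz P Q) =
      N • (Finsupp.single (Function.update (Function.update x i P) j Q) (1 : ℤ) -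
        Finsupp.single (Function.update (Function.update x i P) j 0) 1 -
        Finsupp.single (Function.update (Function.update x i 0) j Q) 1 +
        Finsupp.single (Function.update (Function.update x i 0) j 0) 1) := by
    have h6 : Finsupp.mapDomain (pushPt i j x) (N • zz P Q) =
        N • Finsupp.mapDomain (pushPt i j x) (zz P Q) :=
      map_nsmul (Finsupp.mapDomain.addMonoidHom (pushPt i j x)) N (zz P Q)
    rw [h6]
    unfold zz
    rw [Finsupp.mapDomain_add, h4, h4, AlgN_push_single, AlgN_push_single, AlgN_push_single,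
      AlgN_push_single]
  rw [h5] at h3
  have h7 := (AlgN_tor a _).1 ⟨N, hN, h3⟩
  rw [map_add, map_sub, map_sub] at h7
  exact h7

end ZC
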