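import Pool.Agent.ZC.Basic

/-!
Definitions for the arithmetic modules (project ZC, helper83).  Do not change.
-/

namespace ZC

open Polynomial WeierstrassCurve
open scoped Classical

/-- the `x`-coordinate after a chain of Landen isogenies -/
def iterX {F : Type*} [Field F] (μ : ℕ → F) : ℕ → F → F
  | 0, t => t
  | n + 1, t => iterX μ n ((t + μ n) ^ 2 / ((1 + μ n) ^ 2 * t))

/-- A Landen tower starting at `a`, with respect to a complex embedding. -/
structure IsTower (ι : AlgebraicClosure ℚ →+* ℂ) (a : AlgebraicClosure ℚ)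
    (α μ : ℕ → AlgebraicClosure ℚ) : Prop where
  zero : α 0 = a
  succ : ∀ n, α (n + 1) = μ n ^ 2
  rel : ∀ n, α n * (1 + μ n) ^ 2 = 4 * μ n
  le : ∀ n, ‖ι (μ n)‖ ≤ 1

/-- A nonarchimedean absolute value above an odd prime `p`. -/
structure IsPAdic {k : Type} [Field k] (v : AbsoluteValue k ℝ) (p : ℕ) : Prop where
  prime : p.Prime
  three : 3 ≤ p
  nonarch : IsNonarchimedean v
  lt : v (p : k) < 1

end ZC
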