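import Pool.Agent.ZC.Defs

/-!
Interfaces used by all modules (helper83).
-/

namespace ZC

open Polynomial WeierstrassCurve
open scoped Classical

variable {k : Type} [Field k]

/-- `K = k(s)(y)`, `y ^ 2 = h(s)`, `h` not a square. -/
structure IsQuad (k K : Type) [Field k] [Field K] [Algebra k K] (h : k[X]) (s y : K) : Prop where
  ff : IsFunctionField k K
  sq : y ^ 2 = aeval s h
  gen : ∀ f : K, ∃ A B C : k[X], C ≠ 0 ∧ f * aeval s C = aeval s A + aeval s B * y
  indep : ∀ A B : k[X], aeval s A + aeval s B * y = 0 → A = 0 ∧ B = 0

/-- `(P,Q) - (P,0) - (0,Q) + (0,0)` -/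
noncomputable def zz {a b : k} (P : Pt a) (Q : Pt b) : Cycles a b :=
  Finsupp.single (P, Q) 1 - Finsupp.single (P, 0) 1 - Finsupp.single (0, Q) 1 +
    Finsupp.single (0, 0) 1

/-- A correspondence (in practice: an isogeny) `E_c → E_a`, given on points over all fields. -/
structure Corr (c a : k) where
  map : ∀ (K : Type) [Field K] [Algebra k K], Pt (algebraMap k K c) → Pt (algebraMap k K a)
  base : Pt c → Pt a
  odd : ∀ p, base (-p) = - base p
  spec : ∀ (K : Type) [Field K] [Algebra k K] (w : Place k K) (P : Pt (algebraMap k K c))
    (p : Pt c), SpecializesTo w P p → SpecializesTo w (map K P) (base p)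

/-- the `x`-coordinate of a point (`0` for the point at infinity) -/
def xc {F : Type*} [Field F] {a : F} : Pt a → F
  | .zero => 0
  | .some x _ _ => x

/-- the `y`-coordinate of a point (`0` for the point at infinity) -/
def yc {F : Type*} [Field F] {a : F} : Pt a → F
  | .zero => 0
  | .some _ y _ => y

theorem leg_equation {F : Type*} [Field F] (a x y : F) :
    (leg a).toAffine.Equation x y ↔ y ^ 2 = x * (x - 1) * (x - a) := by
  rw [Affine.equation_iff]
  simp only [leg]
  constructor <;> intro h <;> linear_combination h

theorem leg_nonsingular {F : Type*} [Field F] (a x y : F) (h2 : (2 : F) ≠ 0) (h0 : a ≠ 0)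
    (h1 : a ≠ 1) :
    (leg a).toAffine.Nonsingular x y ↔ y ^ 2 = x * (x - 1) * (x - a) := by
  rw [Affine.nonsingular_iff, leg_equation]
  constructor
  · exact fun h => h.1
  · intro h
    refine ⟨h, ?_⟩
    simp only [leg]
    by_contra hcon
    push Not at hcon
    obtain ⟨h3, h4⟩ := hcon
    have hy : y = 0 := by
      have : (2 : F) * y = 0 := by linear_combination h4
      rcases mul_eq_zero.1 this with h | h
      · exact absurd h h2
      · exact h
    subst hy
    have h5 : x * (x - 1) * (x - a) = 0 := by rw [← h]; ring
    have h6 : 3 * x ^ 2 - 2 * (1 + a) * x + a = 0 := by linear_combination -h3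
    rcases mul_eq_zero.1 h5 with h7 | h7
    · rcases mul_eq_zero.1 h7 with h8 | h8
      · subst h8
        apply h0; linear_combination h6
      · have : x = 1 := by linear_combination h8
        subst this
        apply h1; linear_combination -h6
    · have : x = a := by linear_combination h7
      subst this
      have : x * (x - 1) = 0 := by linear_combination h6
      rcases mul_eq_zero.1 this with h | h
      · exact h0 h
      · exact h1 (by linear_combination h)

end ZC
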