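import Mathlib

/-!
# Zero-cycles on a product of two elliptic curves

`k` is an algebraically closed field of characteristic zero.  Every elliptic curve over `k` is
isomorphic to a Legendre curve `E_a : y ^ 2 = x (x - 1) (x - a)`, `a ≠ 0, 1`.  We define the group
of zero-cycles on `E_a × E_b` modulo rational equivalence.

A morphism from a smooth projective curve `C` over `k` to `E_a × E_b` is the same thing as a pair of
points of `E_a` and `E_b` over the function field `K` of `C`, and the closed points of `C` are the
discrete valuations of `K` that are trivial on `k`.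
-/

namespace ZC

open WeierstrassCurve
open scoped Classical

/-- The Legendre curve `y ^ 2 = x (x - 1) (x - a)`. -/
def leg {F : Type*} [CommRing F] (a : F) : WeierstrassCurve F where
  a₁ := 0
  a₂ := -(1 + a)
  a₃ := 0
  a₄ := a
  a₆ := 0

/-- The group of points of the Legendre curve `E_a` over the field `F`. -/
abbrev Pt {F : Type*} [Field F] (a : F) : Type _ := (leg a).toAffine.Point

/-- A place of the field `K` over `k`: a normalised discrete valuation of `K`, trivial on `k`. -/
structure Place (k K : Type) [Field k] [Field K] [Algebra k K] where
  /-- the valuation -/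
  v : Valuation K (WithZero (Multiplicative ℤ))
  surj : Function.Surjective v
  triv : ∀ c : k, c ≠ 0 → v (algebraMap k K c) = 1

/-- The order of vanishing of `f` at the place `w`. -/
noncomputable def Place.ord {k K : Type} [Field k] [Field K] [Algebra k K] (w : Place k K)
    (f : K) : ℤ := - WithZero.log (w.v f)

/-- `SpecializesTo w P p`: the point `P` of `E_a` over `K` has the value `p` at the place `w`. -/
def SpecializesTo {k K : Type} [Field k] [Field K] [Algebra k K] (w : Place k K) {a : k} :
    Pt (algebraMap k K a) → Pt a → Prop
  | .zero, .zero => True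
  | .zero, .some _ _ _ => False
  | .some X _ _, .zero => 1 < w.v X
  | .some X Y _, .some x y _ =>
      w.v (X - algebraMap k K x) < 1 ∧ w.v (Y - algebraMap k K y) < 1

/-- `K` is the function field of a curve over `k`. -/
def IsFunctionField (k K : Type) [Field k] [Field K] [Algebra k K] : Prop :=
  ∃ t : K, Transcendental k t ∧ FiniteDimensional (IntermediateField.adjoin k {t}) K

/-- The zero-cycles on `E_a × E_b`. -/
abbrev Cycles {k : Type} [Field k] (a b : k) : Type := (Pt a × Pt b) →₀ ℤ

/-- The zero-cycle `c` on `E_a × E_b` is the image of the divisor of a function `f ≠ 0` on a curve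
`C` under a morphism `(x₁, x₂) : C → E_a × E_b`. -/
def IsPrincipal {k : Type} [Field k] (a b : k) (c : Cycles a b) : Prop :=
  ∃ (K : Type) (_ : Field K) (_ : Algebra k K), IsFunctionField k K ∧
    ∃ (x₁ : Pt (algebraMap k K a)) (x₂ : Pt (algebraMap k K b)) (f : K), f ≠ 0 ∧
      ∀ (p : Pt a) (q : Pt b), c (p, q) =
        ∑ᶠ (w : Place k K) (_ : SpecializesTo w x₁ p ∧ SpecializesTo w x₂ q), w.ord f

/-- The zero-cycles on `E_a × E_b` rationally equivalent to zero. -/
noncomputable def ratZero {k : Type} [Field k] (a b : k) : AddSubgroup (Cycles a b) :=
  AddSubgroup.closure {c | IsPrincipal a b c}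

end ZC
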