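import Pool.Agent.ZC.Basic
import Pool.Agent.ZC.ResAux

/-!
Module Landen (project ZC, helper83; proof helper26).  The isogeny E_{mu^2} -> E_{4 mu/(1+mu)^2}.
PROOF.  mu != 0, 1+mu != 0 (else 4 mu = 0), mu != 1 (else a = 1).  On points over a field F containing k
(write m, a, c for the images):  0 -> 0, (x,y) -> 0 if x = 0, else
(x,y) -> ( (x+m)^2/((1+m)^2 x), (x^2-m^2)/((1+m)^3 x^2) * y ).
Equation: with X = (x+m)^2/((1+m)^2 x): X - 1 = (x-1)(x-m^2)/((1+m)^2 x), X - a = (x-m)^2/((1+m)^2 x)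
(a = 4m/(1+m)^2), so X(X-1)(X-a) = (x^2-m^2)^2 x(x-1)(x-m^2)/((1+m)^6 x^4) (use leg_nonsingular).
odd: y -> -y (negY x y = -y on leg).  spec: P = 0: trivial.  P=(X,Y), p = 0: v X > 1: X != 0,
v((X+m)^2/((1+m)^2X)) = v X > 1 (v m <= 1, v(1+m) = 1).  p=(x,y) with x != 0: v X = 1, continuity of the
rational functions at (x,y) (differences have v < 1).  p=(0,0) (x=0 forces y=0): v X < 1: if X = 0 then
image 0, base p -> 0 fine; X != 0: v((X+m)^2/((1+m)^2 X)) = v(X)^(-1) > 1, image specialises to 0.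
-/

namespace ZC

open Polynomial WeierstrassCurve
open scoped Classical

variable {k : Type} [Field k] [IsAlgClosed k] [CharZero k]

private noncomputable def ldX {F : Type*} [Field F] (m x : F) : F := (x + m) ^ 2 / ((1 + m) ^ 2 * x)

private noncomputable def ldY {F : Type*} [Field F] (m x y : F) : F :=
  (x ^ 2 - m ^ 2) / ((1 + m) ^ 3 * x ^ 2) * y

private noncomputable def ldMap {F : Type*} [Field F] (a c m : F) : Pt c → Pt a
  | .zero => .zero
  | .some x y _ =>
    if h : x ≠ 0 ∧ (leg a).toAffine.Nonsingular (ldX m x) (ldY m x y) then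
      .some (ldX m x) (ldY m x y) h.2
    else .zero

private theorem ld_nonsing {F : Type*} [Field F] {a c m x y : F} (h2 : (2 : F) ≠ 0) (ha0 : a ≠ 0)
    (ha1 : a ≠ 1) (hc : c = m ^ 2) (ha : a * (1 + m) ^ 2 = 4 * m) (hx : x ≠ 0)
    (h : (leg c).toAffine.Nonsingular x y) :
    (leg a).toAffine.Nonsingular (ldX m x) (ldY m x y) := by
  have hm0 : m ≠ 0 := by
    rintro rfl
    apply ha0
    simpa using ha
  have hm1 : 1 + m ≠ 0 := by
    intro h0
    rw [h0] at ha
    have h4 : (2 : F) * 2 * m = 0 := by linear_combination -ha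
    rcases mul_eq_zero.1 h4 with h5 | h5
    · rcases mul_eq_zero.1 h5 with h6 | h6 <;> exact h2 h6
    · exact hm0 h5
  rw [leg_nonsingular a _ _ h2 ha0 ha1]
  have he : y ^ 2 = x * (x - 1) * (x - c) := (leg_equation c x y).1 h.1
  have ha' : a = 4 * m / (1 + m) ^ 2 := by
    rw [eq_div_iff (pow_ne_zero _ hm1)]; exact ha
  have e1 : ldX m x - 1 = (x - 1) * (x - m ^ 2) / ((1 + m) ^ 2 * x) := by
    unfold ldX; field_simp; ring
  have e2 : ldX m x - a = (x - m) ^ 2 / ((1 + m) ^ 2 * x) := by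
    rw [ha']; unfold ldX; field_simp; ring
  rw [e1, e2]
  have e3 : ldY m x y ^ 2 = (x ^ 2 - m ^ 2) ^ 2 / ((1 + m) ^ 6 * x ^ 4) * y ^ 2 := by
    unfold ldY; field_simp
  rw [e3, he, hc]
  unfold ldX
  field_simp
  ring

private theorem ldMap_some {F : Type*} [Field F] {a c m x y : F} (h2 : (2 : F) ≠ 0) (ha0 : a ≠ 0)
    (ha1 : a ≠ 1) (hc : c = m ^ 2) (ha : a * (1 + m) ^ 2 = 4 * m) (hx : x ≠ 0)
    (h : (leg c).toAffine.Nonsingular x y) :
    ldMap a c m (.some x y h) =
      .some (ldX m x) (ldY m x y) (ld_nonsing h2 ha0 ha1 hc ha hx h) := by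
  unfold ldMap
  simp only
  rw [dif_pos ⟨hx, ld_nonsing h2 ha0 ha1 hc ha hx h⟩]

private theorem ldMap_zero' {F : Type*} [Field F] {a c m x y : F} (hx : x = 0)
    (h : (leg c).toAffine.Nonsingular x y) :
    ldMap a c m (.some x y h) = .zero := by
  unfold ldMap
  simp only
  rw [dif_neg (fun h => h.1 hx)]

private theorem leg_negY {F : Type*} [Field F] (c x y : F) :
    (leg c).toAffine.negY x y = -y := by
  simp [Affine.negY, leg]

private theorem ldMap_odd {F : Type*} [Field F] {a c m : F} (h2 : (2 : F) ≠ 0) (ha0 : a ≠ 0)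
    (ha1 : a ≠ 1) (hc : c = m ^ 2) (ha : a * (1 + m) ^ 2 = 4 * m) (p : Pt c) :
    ldMap a c m (-p) = - ldMap a c m p := by
  rcases p with _ | ⟨x, y, h⟩
  · rfl
  · rw [Affine.Point.neg_some]
    by_cases hx : x = 0
    · rw [ldMap_zero' hx, ldMap_zero' hx]; rfl
    · rw [ldMap_some h2 ha0 ha1 hc ha hx, ldMap_some h2 ha0 ha1 hc ha hx, Affine.Point.neg_some,
        Affine.Point.some.injEq]
      refine ⟨rfl, ?_⟩
      rw [leg_negY, leg_negY]
      unfold ldY
      ring

omit [IsAlgClosed k] in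
private theorem ldMap_spec {K : Type} [Field K] [Algebra k K] {a c m : k} (ha0 : a ≠ 0)
    (ha1 : a ≠ 1) (hc : c = m ^ 2) (ha : a * (1 + m) ^ 2 = 4 * m) (w : Place k K)
    (P : Pt (algebraMap k K c)) (p : Pt c) (h : SpecializesTo w P p) :
    SpecializesTo w (ldMap (algebraMap k K a) (algebraMap k K c) (algebraMap k K m) P)
      (ldMap a c m p) := by
  have h2k : (2 : k) ≠ 0 := two_ne_zero
  have h2 : (2 : K) ≠ 0 := by
    rw [← map_ofNat (algebraMap k K) 2]
    simp
  have hA0 : algebraMap k K a ≠ 0 := by simpa using ha0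
  have hA1 : algebraMap k K a ≠ 1 := by
    intro h1
    exact ha1 ((algebraMap k K).injective (by rw [h1, map_one]))
  have hC : algebraMap k K c = (algebraMap k K m) ^ 2 := by rw [hc, map_pow]
  have hA : algebraMap k K a * (1 + algebraMap k K m) ^ 2 = 4 * algebraMap k K m := by
    have := congrArg (algebraMap k K) ha
    rw [map_mul, map_mul, map_pow, map_add, map_one, map_ofNat] at this
    exact this
  have hm0 : m ≠ 0 := by
    rintro rfl
    apply ha0
    simpa using ha
  have hm1 : 1 + m ≠ 0 := by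
    intro h0
    rw [h0] at ha
    have h4 : (2 : k) * 2 * m = 0 := by linear_combination -ha
    rcases mul_eq_zero.1 h4 with h5 | h5
    · rcases mul_eq_zero.1 h5 with h6 | h6 <;> exact h2k h6
    · exact hm0 h5
  have hv1 : w.v (1 + algebraMap k K m) = 1 := by
    have : Res w (1 + algebraMap k K m) (1 + m) := (Res.one w).add (Res.const w m)
    exact this.v_eq_one hm1
  rcases P with _ | ⟨X, Y, hP⟩ <;> rcases p with _ | ⟨x, y, hp⟩
  · exact trivial
  · exact h.elim
  · -- pole
    have hX1 : 1 < w.v X := h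
    have hX0 : X ≠ 0 := by
      rintro rfl
      rw [map_zero] at hX1
      exact absurd hX1 (by simp)
    rw [ldMap_some h2 hA0 hA1 hC hA hX0]
    change 1 < w.v (ldX (algebraMap k K m) X)
    have e1 : w.v (X + algebraMap k K m) = w.v X := by
      rw [add_comm]
      exact Place.v_add_pole hX1 (w.v_const_le m)
    have hvX : w.v X ≠ 0 := (Valuation.ne_zero_iff _).2 hX0
    have e2 : w.v (ldX (algebraMap k K m) X) = w.v X := by
      unfold ldX
      rw [map_div₀, map_mul, map_pow, map_pow, e1, hv1, one_pow, one_mul, pow_two,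
        mul_div_assoc, div_self hvX, mul_one]
    rw [e2]
    exact hX1
  · have hXx : Res w X x := h.1
    have hYy : Res w Y y := h.2
    by_cases hx : x = 0
    · subst hx
      rw [ldMap_zero' rfl]
      by_cases hX : X = 0
      · rw [ldMap_zero' hX]; exact trivial
      · rw [ldMap_some h2 hA0 hA1 hC hA hX]
        change 1 < w.v (ldX (algebraMap k K m) X)
        have hvX : w.v X ≠ 0 := (Valuation.ne_zero_iff _).2 hX
        have hvX1 : w.v X < 1 := by
          have : w.v (X - algebraMap k K 0) < 1 := hXx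
          simpa using this
        have e1 : w.v (X + algebraMap k K m) = 1 := by
          have : Res w (X + algebraMap k K m) (0 + m) := hXx.add (Res.const w m)
          exact this.v_eq_one (by simpa using hm0)
        unfold ldX
        rw [map_div₀, map_mul, map_pow, map_pow, e1, hv1, one_pow, one_mul, one_div]
        exact (one_lt_inv₀ (zero_lt_iff.2 hvX)).2 hvX1
    · have hX : X ≠ 0 := by
        intro h0
        have := hXx.v_eq_one hx
        rw [h0, map_zero] at this
        exact zero_ne_one this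
      rw [ldMap_some h2 hA0 hA1 hC hA hX, ldMap_some h2k ha0 ha1 hc ha hx]
      have hM : Res w (algebraMap k K m) m := Res.const w m
      have hM1 : Res w (1 + algebraMap k K m) (1 + m) := (Res.one w).add hM
      refine ⟨?_, ?_⟩
      · change Res w (ldX (algebraMap k K m) X) (ldX m x)
        unfold ldX
        exact ((hXx.add hM).pow 2).div ((hM1.pow 2).mul hXx)
          (mul_ne_zero (pow_ne_zero _ hm1) hx)
      · change Res w (ldY (algebraMap k K m) X Y) (ldY m x y)
        unfold ldY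
        exact (((hXx.pow 2).sub (hM.pow 2)).div ((hM1.pow 3).mul (hXx.pow 2))
          (mul_ne_zero (pow_ne_zero _ hm1) (pow_ne_zero _ hx))).mul hYy

theorem exists_landen {a c μ : k} (ha0 : a ≠ 0) (ha1 : a ≠ 1) (hc : c = μ ^ 2)
    (ha : a * (1 + μ) ^ 2 = 4 * μ) :
    ∃ Φ : Corr c a, ∀ p : Pt c, p ≠ 0 → xc p ≠ 0 →
      Φ.base p ≠ 0 ∧ xc (Φ.base p) = (xc p + μ) ^ 2 / ((1 + μ) ^ 2 * xc p) := by
  have h2k : (2 : k) ≠ 0 := two_ne_zero
  refine ⟨⟨fun K _ _ => ldMap (algebraMap k K a) (algebraMap k K c) (algebraMap k K μ),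
    ldMap a c μ, ldMap_odd h2k ha0 ha1 hc ha,
    fun K _ _ w P p h => ldMap_spec ha0 ha1 hc ha w P p h⟩, ?_⟩
  intro p hp hx
  rcases p with _ | ⟨x, y, h⟩
  · exact absurd rfl hp
  · have hx' : x ≠ 0 := hx
    change ldMap a c μ (.some x y h) ≠ 0 ∧ xc (ldMap a c μ (.some x y h)) = _
    rw [ldMap_some h2k ha0 ha1 hc ha hx']
    refine ⟨fun h0 => ?_, rfl⟩
    exact Affine.Point.some_ne_zero _ h0

end ZC
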