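import Pool.Agent.ZC.Tower1

/-!
Module Tower2 (project ZC, helper83).  The tower does not live in a number field.
PROOF.  Suppose all mu_n in L (then alpha_n in L for n >= 1; drop n = 0).  L is a number field; Mathlib has logHeight₁
on L (Mathlib/NumberTheory/Height).  kappa_n := (1-mu_n)/(1+mu_n) satisfies kappa_n^2 = 1 - alpha_n, so
2 h(kappa_n) = h(1-alpha_n) <= h(alpha_n) + C; mu_n = (1-kappa_n)/(1+kappa_n), so h(mu_n) <= h(kappa_n) + C' (C' depends only
on L: heights of sums and of inverses), h(alpha_{n+1}) = 2 h(mu_n) <= h(alpha_n) + C''.  So h(alpha_n) <= h(alpha_1) + C'' n.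
But h(x) = h(1/x) >= log max(1,|1/x|_w) >= - log |iota x| for the archimedean place w of L given by iota
restricted to L (with its multiplicity >= 1), so by IsTower.small h(alpha_{N+n}) >= 2^n log(1/delta): contradiction.
-/

namespace ZC

open Polynomial WeierstrassCurve
open scoped Classical

section heights

open Height NumberField

/-- the inductive step for the heights -/
private lemma tower2_height_step {L : Type*} [Field L] [NumberField L] {α μ : L}
    (hrel : α * (1 + μ) ^ 2 = 4 * μ) (h1 : μ ≠ -1) :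
    logHeight₁ (μ ^ 2) ≤ logHeight₁ α +
      (totalWeight L * Real.log 2 + 2 * (totalWeight L * Real.log 2 + logHeight₁ (2 : L) +
        totalWeight L * Real.log 2)) := by
  have hm : (1 : L) + μ ≠ 0 := by
    intro h
    apply h1
    linear_combination h
  set κ : L := (1 - μ) / (1 + μ) with hκ
  have h2 : κ ^ 2 = 1 - α := by
    rw [hκ, div_pow, div_eq_iff (pow_ne_zero 2 hm)]
    linear_combination hrel
  have h3 : (2 : ℕ) * logHeight₁ κ ≤ logHeight₁ α + totalWeight L * Real.log 2 := by
    rw [← logHeight₁_pow, h2]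
    have := logHeight₁_sub_le (1 : L) α
    rw [logHeight₁_one] at this
    linarith
  have h4 : (1 : L) + κ = 2 / (1 + μ) := by
    rw [hκ]; field_simp; ring
  have h20 : (2 : L) ≠ 0 := two_ne_zero
  have h5 : μ = 2 * (1 + κ)⁻¹ - 1 := by
    rw [h4, inv_div]; field_simp; ring
  have h6 : logHeight₁ μ ≤ totalWeight L * Real.log 2 + logHeight₁ (2 : L) +
      totalWeight L * Real.log 2 + logHeight₁ κ := by
    have e1 := logHeight₁_sub_le (2 * (1 + κ)⁻¹) (1 : L)
    rw [← h5, logHeight₁_one] at e1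
    have e2 := logHeight₁_mul_le (2 : L) (1 + κ)⁻¹
    rw [logHeight₁_inv] at e2
    have e3 := logHeight₁_add_le (1 : L) κ
    rw [logHeight₁_one] at e3
    linarith
  rw [logHeight₁_pow]
  push_cast at h3 ⊢
  linarith

/-- the lower bound for the height -/
private lemma tower2_height_ge {L : Type*} [Field L] [NumberField L] (φ : L →+* ℂ) {x : L}
    (hx : x ≠ 0) : - Real.log ‖φ x‖ ≤ logHeight₁ x := by
  rw [← logHeight₁_inv, NumberField.logHeight₁_eq]
  have h1 : 0 ≤ ∑ᶠ v : FinitePlace L, Real.posLog (v x⁻¹) :=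
    finsum_nonneg fun v => Real.posLog_nonneg
  have h2 : ((InfinitePlace.mk φ).mult : ℝ) * Real.posLog ((InfinitePlace.mk φ) x⁻¹) ≤
      ∑ v : InfinitePlace L, (v.mult : ℝ) * Real.posLog (v x⁻¹) :=
    Finset.single_le_sum (f := fun v : InfinitePlace L => (v.mult : ℝ) * Real.posLog (v x⁻¹))
      (fun v _ => mul_nonneg (Nat.cast_nonneg _) Real.posLog_nonneg) (Finset.mem_univ _)
  have h3 : (1 : ℝ) ≤ ((InfinitePlace.mk φ).mult : ℝ) := by
    exact_mod_cast InfinitePlace.one_le_mult
  have h4 : (InfinitePlace.mk φ) x⁻¹ = ‖φ x‖⁻¹ := by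
    rw [InfinitePlace.apply, map_inv₀, norm_inv]
  have h5 : - Real.log ‖φ x‖ ≤ Real.posLog ((InfinitePlace.mk φ) x⁻¹) := by
    rw [h4, ← Real.log_inv]
    exact le_max_right _ _
  have h6 : Real.posLog ((InfinitePlace.mk φ) x⁻¹) ≤
      ((InfinitePlace.mk φ).mult : ℝ) * Real.posLog ((InfinitePlace.mk φ) x⁻¹) :=
    le_mul_of_one_le_left Real.posLog_nonneg h3
  linarith

end heights

theorem IsTower.exists_not_mem {ι : AlgebraicClosure ℚ →+* ℂ} {a : AlgebraicClosure ℚ}
    {α μ : ℕ → AlgebraicClosure ℚ} (H : IsTower ι a α μ) (ha0 : a ≠ 0) (ha1 : a ≠ 1)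
    (L : IntermediateField ℚ (AlgebraicClosure ℚ)) [FiniteDimensional ℚ L] :
    ∃ n, μ n ∉ L := by
  by_contra hcon
  push Not at hcon
  have : NumberField L := {}
  obtain ⟨N, δ, hδ0, hδ1, hsm⟩ := H.small ha0 ha1
  obtain ⟨hα, hμ⟩ := H.ne ha0 ha1
  let m : ℕ → L := fun n => ⟨μ n, hcon n⟩
  set C : ℝ := Height.totalWeight L * Real.log 2 + 2 * (Height.totalWeight L * Real.log 2 +
    Height.logHeight₁ (2 : L) + Height.totalWeight L * Real.log 2) with hC
  -- α (n+1) = μ n ^ 2
  have hstep : ∀ n, Height.logHeight₁ (m (n + 1) ^ 2) ≤ Height.logHeight₁ (m n ^ 2) + C := by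
    intro n
    apply tower2_height_step (α := m n ^ 2) (μ := m (n + 1))
    · apply Subtype.ext
      have h1 := H.rel (n + 1)
      rw [H.succ n] at h1
      push_cast
      exact h1
    · intro h
      have h1 : μ (n + 1) = -1 := by
        have := congrArg Subtype.val h
        simpa [m] using this
      exact (hμ (n + 1)).2.2 h1
  have hup : ∀ n, Height.logHeight₁ (m n ^ 2) ≤ Height.logHeight₁ (m 0 ^ 2) + C * n := by
    intro n
    induction n with
    | zero => simp
    | succ n ih =>
      have := hstep n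
      push_cast
      linarith
  have hlow : ∀ n, - Real.log (δ ^ (2 ^ (n + 1))) ≤ Height.logHeight₁ (m (N + n) ^ 2) := by
    intro n
    have h1 := hsm (n + 1)
    have h2 : N + (n + 1) = (N + n) + 1 := by ring
    rw [h2, H.succ] at h1
    have hne : m (N + n) ^ 2 ≠ 0 := by
      apply pow_ne_zero
      intro h
      apply (hμ (N + n)).1
      have := congrArg Subtype.val h
      simpa [m] using this
    have h3 := tower2_height_ge (ι.comp L.val.toRingHom) hne
    have h4 : (ι.comp L.val.toRingHom) (m (N + n) ^ 2) = ι (μ (N + n) ^ 2) := by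
      simp [m]
    rw [h4] at h3
    refine le_trans ?_ h3
    apply neg_le_neg
    apply Real.log_le_log
    · rw [norm_pos_iff]
      intro h
      apply (hμ (N + n)).1
      have : μ (N + n) ^ 2 = 0 := (map_eq_zero ι).1 h
      exact pow_eq_zero_iff (two_ne_zero) |>.1 this
    · exact h1
  -- contradiction
  have hlog : 0 < - Real.log δ := by
    have := Real.log_neg hδ0 hδ1
    linarith
  have hall : ∀ n : ℕ, (2 : ℝ) ^ (n + 1) * (- Real.log δ) ≤
      Height.logHeight₁ (m 0 ^ 2) + C * (N + n) := by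
    intro n
    have h1 := (hlow n).trans (hup (N + n))
    rw [Real.log_pow] at h1
    push_cast at h1
    linarith
  have hC0 : 0 ≤ C := by
    have : (0 : ℝ) ≤ Height.totalWeight L * Real.log 2 :=
      mul_nonneg (Nat.cast_nonneg _) (Real.log_nonneg (by norm_num))
    have h2 := Height.zero_le_logHeight₁ (2 : L)
    rw [hC]; linarith
  -- 2 ^ n / (n+1) unbounded
  have hlim : Filter.Tendsto (fun n : ℕ => (n : ℝ) / 2 ^ n) Filter.atTop (nhds 0) := by
    simpa using tendsto_pow_const_div_const_pow_of_one_lt 1 (r := (2 : ℝ)) (by norm_num)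
  have hlim2 : Filter.Tendsto (fun n : ℕ => (1 : ℝ) / 2 ^ n) Filter.atTop (nhds 0) := by
    simpa using tendsto_pow_const_div_const_pow_of_one_lt 0 (r := (2 : ℝ)) (by norm_num)
  set D : ℝ := Height.logHeight₁ (m 0 ^ 2) + C * N with hD
  have hlim3 : Filter.Tendsto (fun n : ℕ => D * ((1 : ℝ) / 2 ^ n) + C * ((n : ℝ) / 2 ^ n))
      Filter.atTop (nhds 0) := by
    simpa using (hlim2.const_mul D).add (hlim.const_mul C)
  have hev := hlim3.eventually_lt_const (u := 2 * (- Real.log δ)) (by linarith)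
  obtain ⟨n, hn⟩ := hev.exists
  have h1 := hall n
  have h2 : D * ((1 : ℝ) / 2 ^ n) + C * ((n : ℝ) / 2 ^ n) = (D + C * n) / 2 ^ n := by
    field_simp
  rw [h2, div_lt_iff₀ (by positivity)] at hn
  have h3 : (2 : ℝ) ^ (n + 1) = 2 * 2 ^ n := by ring
  rw [h3] at h1
  rw [hD] at hn
  nlinarith

end ZC
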