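import Pool.Agent.ZC.Orth
import Pool.Agent.ZC.Alg
import Pool.Agent.ZC.Landen
import Pool.Agent.ZC.Tower2
import Pool.Agent.ZC.Vadic1
import Pool.Agent.ZC.Vadic2
import Pool.Agent.ZC.Growth
import Pool.Agent.ZC.Rank

/-!
Module Final (project ZC, helper83).
PROOF.  iota : Qbar -> C any embedding.  exists_padic for S = {a,1-a,b,1-b}.  Towers (alpha,mu) of a, (beta,nu) of b.
n0 with |iota alpha_n| < 1/2 for n >= n0, m0 with |iota beta_m| < min(1/2, |iota(1-a)|) for m >= m0.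
Chains Phi_n : Corr (alpha n) a, Phi_0 = id, Phi_{n+1} = Phi_n o landen(mu_n) with: if v(xc p) > 1 then Phi_n.base p != 0 and
xc = iterX mu n (xc p) (needs the v-adic facts (A) of Rank: export them from Rank as lemmas or reprove).
t: if P has infinite order, t = xc(mP) with v t v p > 1 (exists_multiple_large); otherwise t = 1/p^2.
P_n = Phi_n.base p_n, p_n = (t, sqrt) in E_{alpha_n}; Q_m = Psi_m.base q_m, q_m = (1-t, sqrt) in E_{beta_m}, v(1-t) = v t.
A = closure ({P} u {P_n, n >= n0}), B = closure {Q_m, m >= m0}: infinite rank by infinite_rank (with t resp. 1-t).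
orth for (c,d) = (alpha_n,beta_m) and (a,beta_m) [Phi = id, p = mP]; zz_torsion for P; supported.
-/

namespace ZC

open Polynomial WeierstrassCurve
open scoped Classical


/-- transport of the identity correspondence -/
noncomputable def Corr.idOf {k : Type} [Field k] {c a : k} (h : c = a) : Corr c a := by
  subst h
  exact ⟨fun _ _ _ P => P, fun p => p, fun _ => rfl, fun _ _ _ _ _ _ h => h⟩

theorem Corr.idOf_base {k : Type} [Field k] (a : k) (p : Pt a) :
    (Corr.idOf (rfl : a = a)).base p = p := rfl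

/-- composition -/
def Corr.comp {k : Type} [Field k] {c b a : k} (Φ : Corr b a) (Ψ : Corr c b) : Corr c a where
  map K _ _ P := Φ.map K (Ψ.map K P)
  base p := Φ.base (Ψ.base p)
  odd p := by rw [Ψ.odd, Φ.odd]
  spec K _ _ w P p h := Φ.spec K w _ _ (Ψ.spec K w P p h)

section vadic

variable {k : Type} [Field k] {v : AbsoluteValue k ℝ} {p : ℕ}

theorem fin_add_le (H : IsPAdic v p) (x y : k) : v (x + y) ≤ max (v x) (v y) := H.nonarch x y

theorem fin_add_lt (H : IsPAdic v p) {x y : k} (h : v x < v y) : v (x + y) = v y := by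
  apply le_antisymm
  · exact (fin_add_le H x y).trans (max_le h.le le_rfl)
  · by_contra hcon
    push Not at hcon
    have h1 : y = (x + y) + (-x) := by ring
    have h2 := fin_add_le H (x + y) (-x)
    rw [← h1, v.map_neg] at h2
    exact absurd h2 (not_le.2 (max_lt hcon h))

theorem fin_nat_le (H : IsPAdic v p) (n : ℕ) : v (n : k) ≤ 1 := by
  induction n with
  | zero => simp
  | succ n ih =>
    rw [Nat.cast_succ]
    exact (fin_add_le H _ _).trans (max_le ih (by simp))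

theorem fin_two (H : IsPAdic v p) : v (2 : k) = 1 := by
  have h1 : v (2 : k) ≤ 1 := by exact_mod_cast fin_nat_le H 2
  by_contra hne
  have hlt : v (2 : k) < 1 := lt_of_le_of_ne h1 hne
  have hodd : p % 2 = 1 := by
    rcases H.prime.eq_two_or_odd with h | h
    · have := H.three; omega
    · exact h
  obtain ⟨q, hq⟩ : ∃ q, p = 2 * q + 1 := ⟨p / 2, by omega⟩
  have h3 : (1 : k) = (p : k) + -(2 * (q : k)) := by rw [hq]; push_cast; ring
  have h4 := fin_add_le H (p : k) (-(2 * (q : k)))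
  rw [← h3, v.map_one, v.map_neg, v.map_mul] at h4
  have h5 : v (2 : k) * v (q : k) < 1 := by
    calc v (2 : k) * v (q : k) ≤ v (2 : k) * 1 :=
          mul_le_mul_of_nonneg_left (fin_nat_le H q) (v.nonneg _)
      _ < 1 := by simpa using hlt
  exact absurd h4 (not_le.2 (max_lt H.lt h5))

theorem fin_four (H : IsPAdic v p) : v (4 : k) = 1 := by
  have : (4 : k) = 2 * 2 := by norm_num
  rw [this, v.map_mul, fin_two H, one_mul]

end vadic

theorem fin_sq_one {x : ℝ} (hx : 0 ≤ x) (h : x ^ 2 = 1) : x = 1 := by nlinarith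

theorem fin_tower {ι : AlgebraicClosure ℚ →+* ℂ} {a : AlgebraicClosure ℚ}
    {α μ : ℕ → AlgebraicClosure ℚ} (H : IsTower ι a α μ)
    {v : AbsoluteValue (AlgebraicClosure ℚ) ℝ} {p : ℕ} (Hv : IsPAdic v p)
    (ha : v a = 1) (ha' : v (1 - a) = 1) (n : ℕ) :
    v (α n) = 1 ∧ v (1 - α n) = 1 ∧ v (μ n) = 1 ∧ v (1 + μ n) = 1 := by
  have step : ∀ n, v (α n) = 1 → v (1 - α n) = 1 →
      v (μ n) = 1 ∧ v (1 + μ n) = 1 ∧ v (1 - μ n) = 1 := by
    intro n h1 h2
    have hr := congrArg v (H.rel n)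
    rw [v.map_mul, v.map_mul, v.map_pow, h1, fin_four Hv, one_mul, one_mul] at hr
    have hμ : v (μ n) = 1 := by
      rcases lt_trichotomy (v (μ n)) 1 with h | h | h
      · have h3 : v (1 + μ n) = 1 := by
          rw [add_comm, fin_add_lt Hv (by simpa using h), v.map_one]
        rw [h3] at hr
        linarith
      · exact h
      · have h3 : v (1 + μ n) = v (μ n) := fin_add_lt Hv (by simpa using h)
        rw [h3] at hr
        nlinarith
    have h3 : v (1 + μ n) = 1 := by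
      rw [hμ] at hr
      exact fin_sq_one (v.nonneg _) hr
    refine ⟨hμ, h3, ?_⟩
    have e : (1 - μ n) ^ 2 = (1 + μ n) ^ 2 * (1 - α n) := by
      linear_combination (1 : AlgebraicClosure ℚ) * H.rel n
    have e2 := congrArg v e
    rw [v.map_pow, v.map_mul, v.map_pow, h3, h2] at e2
    apply fin_sq_one (v.nonneg _)
    rw [e2]; norm_num
  have main : ∀ n, v (α n) = 1 ∧ v (1 - α n) = 1 := by
    intro n
    induction n with
    | zero => rw [H.zero]; exact ⟨ha, ha'⟩
    | succ n ih =>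
      obtain ⟨h1, h2, h3⟩ := step n ih.1 ih.2
      rw [H.succ]
      refine ⟨by rw [v.map_pow, h1]; norm_num, ?_⟩
      have : 1 - μ n ^ 2 = (1 + μ n) * (1 - μ n) := by ring
      rw [this, v.map_mul, h2, h3, one_mul]
  exact ⟨(main n).1, (main n).2, (step n (main n).1 (main n).2).1,
    (step n (main n).1 (main n).2).2.1⟩

theorem fin_chain {ι : AlgebraicClosure ℚ →+* ℂ} {a : AlgebraicClosure ℚ}
    {α μ : ℕ → AlgebraicClosure ℚ} (H : IsTower ι a α μ) (ha0 : a ≠ 0) (ha1 : a ≠ 1)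
    {v : AbsoluteValue (AlgebraicClosure ℚ) ℝ} {p : ℕ} (Hv : IsPAdic v p)
    (ha : v a = 1) (ha' : v (1 - a) = 1) (n : ℕ) :
    ∃ Φ : Corr (α n) a, ∀ q : Pt (α n), 1 < v (xc q) →
      Φ.base q ≠ 0 ∧ xc (Φ.base q) = iterX μ n (xc q) := by
  have Hn := H.ne ha0 ha1
  induction n with
  | zero =>
    have h0 := H.zero
    have key : ∀ (c : AlgebraicClosure ℚ) (h : c = a), ∀ q : Pt c, 1 < v (xc q) →
        (Corr.idOf h).base q ≠ 0 ∧ xc ((Corr.idOf h).base q) = xc q := by
      intro c h q hq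
      subst h
      rw [Corr.idOf_base]
      refine ⟨?_, rfl⟩
      rintro rfl
      have : v (xc (0 : Pt c)) = 0 := by
        change v (0 : AlgebraicClosure ℚ) = 0
        simp
      rw [this] at hq
      linarith
    exact ⟨Corr.idOf h0, key _ h0⟩
  | succ n ih =>
    obtain ⟨Φ, hΦ⟩ := ih
    obtain ⟨L, hL⟩ := exists_landen (a := α n) (c := α (n + 1)) (μ := μ n) (Hn.1 n).1
      (Hn.1 n).2 (H.succ n) (H.rel n)
    obtain ⟨h1, h2, h3, h4⟩ := fin_tower H Hv ha ha' n
    refine ⟨Φ.comp L, ?_⟩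
    intro q hq
    have hq0 : q ≠ 0 := by
      rintro rfl
      have : v (xc (0 : Pt (α (n + 1)))) = 0 := by
        change v (0 : AlgebraicClosure ℚ) = 0
        simp
      rw [this] at hq
      linarith
    have hx0 : xc q ≠ 0 := by
      intro h
      rw [h, v.map_zero] at hq
      linarith
    obtain ⟨g1, g2⟩ := hL q hq0 hx0
    have hv : v (xc (L.base q)) = v (xc q) := by
      rw [g2, map_div₀, v.map_pow, v.map_mul, v.map_pow, h4]
      have : v (xc q + μ n) = v (xc q) := by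
        rw [add_comm]
        exact fin_add_lt Hv (by rw [h3]; exact hq)
      rw [this]
      field_simp
    obtain ⟨g3, g4⟩ := hΦ (L.base q) (by rw [hv]; exact hq)
    refine ⟨g3, ?_⟩
    change xc (Φ.base (L.base q)) = _
    rw [g4, g2]
    rfl

theorem fin_point {a : AlgebraicClosure ℚ} (ha0 : a ≠ 0) (ha1 : a ≠ 1) (t : AlgebraicClosure ℚ) :
    ∃ q : Pt a, q ≠ 0 ∧ xc q = t := by
  obtain ⟨y, hy⟩ := IsAlgClosed.exists_pow_nat_eq (t * (t - 1) * (t - a)) (n := 2) (by norm_num)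
  exact ⟨.some t y ((leg_nonsingular a t y two_ne_zero ha0 ha1).2 hy),
    Affine.Point.some_ne_zero _, rfl⟩

theorem fin_small {ι : AlgebraicClosure ℚ →+* ℂ} {a : AlgebraicClosure ℚ}
    {α μ : ℕ → AlgebraicClosure ℚ} (H : IsTower ι a α μ) (ha0 : a ≠ 0) (ha1 : a ≠ 1)
    (ε : ℝ) (hε : 0 < ε) : ∃ n₀, ∀ n, n₀ ≤ n → ‖ι (α n)‖ < ε := by
  obtain ⟨N, δ, hδ0, hδ1, h⟩ := H.small ha0 ha1
  obtain ⟨M, hM⟩ := exists_pow_lt_of_lt_one hε hδ1
  refine ⟨N + M, fun n hn => ?_⟩
  obtain ⟨r, rfl⟩ : ∃ r, n = N + (M + r) := ⟨n - N - M, by omega⟩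
  refine (h _).trans_lt (lt_of_le_of_lt ?_ hM)
  apply pow_le_pow_of_le_one hδ0.le hδ1.le
  exact (Nat.le_add_right M r).trans (Nat.lt_two_pow_self).le

theorem fin_zz_zero {k : Type} [Field k] {a b : k} (Q : Pt b) : zz (0 : Pt a) Q = 0 := by
  simp only [zz]
  abel

theorem fin_lin {a : AlgebraicClosure ℚ} (A : AddSubgroup (Pt a)) (f : ℕ → Pt a)
    (hf : ∀ i, f i ∈ A) (hl : LinearIndependent ℤ f) : ∃ g : ℕ → A, LinearIndependent ℤ g := by
  refine ⟨fun i => ⟨f i, hf i⟩, ?_⟩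
  exact LinearIndependent.of_comp A.subtype.toIntLinearMap (by exact hl)

theorem main (a b : AlgebraicClosure ℚ) (ha0 : a ≠ 0) (ha1 : a ≠ 1) (hb0 : b ≠ 0) (hb1 : b ≠ 1)
    (P : Pt a) :
    ∃ (A : AddSubgroup (Pt a)) (B : AddSubgroup (Pt b)), P ∈ A ∧
      (∃ f : ℕ → A, LinearIndependent ℤ f) ∧ (∃ g : ℕ → B, LinearIndependent ℤ g) ∧
      ∀ c : Cycles a b, (∀ z ∈ c.support, z.1 ∈ A ∧ z.2 ∈ B) →
        (c.sum fun _ n => n) = 0 → (c.sum fun z n => n • z.1) = 0 →
        (c.sum fun z n => n • z.2) = 0 → ∃ N : ℕ, 0 < N ∧ N • c ∈ ratZero a b := by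
  have halg : Algebra.IsAlgebraic ℚ (AlgebraicClosure ℚ) := AlgebraicClosure.isAlgebraic ℚ
  have ι : AlgebraicClosure ℚ →+* ℂ :=
    (IsAlgClosed.lift : AlgebraicClosure ℚ →ₐ[ℚ] ℂ).toRingHom
  have ha1' : (1 : AlgebraicClosure ℚ) - a ≠ 0 := fun h => ha1 (by linear_combination -h)
  have hb1' : (1 : AlgebraicClosure ℚ) - b ≠ 0 := fun h => hb1 (by linear_combination -h)
  obtain ⟨p, v, Hv, hS, hC⟩ := exists_padic {a, 1 - a, b, 1 - b} (by
    intro x hx
    simp only [Finset.mem_insert, Finset.mem_singleton] at hx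
    rcases hx with rfl | rfl | rfl | rfl
    · exact ha0
    · exact ha1'
    · exact hb0
    · exact hb1')
  have va : v a = 1 := hS _ (by simp)
  have va' : v (1 - a) = 1 := hS _ (by simp)
  have vb : v b = 1 := hS _ (by simp)
  have vb' : v (1 - b) = 1 := hS _ (by simp)
  obtain ⟨α, μ, Ha⟩ := exists_tower ι ha0 ha1
  obtain ⟨β, ν, Hb⟩ := exists_tower ι hb0 hb1
  have Hane := Ha.ne ha0 ha1
  have Hbne := Hb.ne hb0 hb1
  have hp0 : (p : AlgebraicClosure ℚ) ≠ 0 := by
    exact_mod_cast Hv.prime.ne_zero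
  have vp0 : 0 < v (p : AlgebraicClosure ℚ) := v.pos hp0
  -- the parameter `t`
  obtain ⟨t, ht, htP⟩ : ∃ t : AlgebraicClosure ℚ, 1 < v t * v (p : AlgebraicClosure ℚ) ∧
      ((∃ N : ℕ, 0 < N ∧ N • P = 0) ∨ ∃ m : ℕ, 0 < m ∧ m • P ≠ 0 ∧ xc (m • P) = t) := by
    by_cases hP : ∃ N : ℕ, 0 < N ∧ N • P = 0
    · refine ⟨((p : AlgebraicClosure ℚ) ^ 2)⁻¹, ?_, Or.inl hP⟩
      rw [map_inv₀, v.map_pow]
      have : (v (p : AlgebraicClosure ℚ) ^ 2)⁻¹ * v (p : AlgebraicClosure ℚ) =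
          (v (p : AlgebraicClosure ℚ))⁻¹ := by field_simp
      rw [this]
      exact (one_lt_inv₀ vp0).2 Hv.lt
    · push Not at hP
      obtain ⟨m, hm, hm2⟩ := exists_multiple_large Hv hC ha0 ha1 va va' P hP
      exact ⟨_, hm2, Or.inr ⟨m, hm, hP m hm, rfl⟩⟩
  have vt : 1 < v t := by
    by_contra hcon
    push Not at hcon
    have : v t * v (p : AlgebraicClosure ℚ) ≤ 1 * 1 :=
      mul_le_mul hcon Hv.lt.le vp0.le zero_le_one
    linarith
  have vt' : v (1 - t) = v t := by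
    rw [sub_eq_add_neg, ← v.map_neg t]
    exact fin_add_lt Hv (by rw [v.map_one, v.map_neg]; exact vt)
  have ht' : 1 < v (1 - t) * v (p : AlgebraicClosure ℚ) := by rw [vt']; exact ht
  -- chains
  choose Φ hΦ using fun n => fin_chain Ha ha0 ha1 Hv va va' n
  choose Ψ hΨ using fun n => fin_chain Hb hb0 hb1 Hv vb vb' n
  choose pp hpp0 hppx using fun n => fin_point (Hane.1 n).1 (Hane.1 n).2 t
  choose qq hqq0 hqqx using fun n => fin_point (Hbne.1 n).1 (Hbne.1 n).2 (1 - t)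
  obtain ⟨n₀, hn₀⟩ := fin_small Ha ha0 ha1 (1 / 2) (by norm_num)
  have hε : 0 < min (1 / 2 : ℝ) ‖ι (1 - a)‖ := by
    apply lt_min (by norm_num)
    rw [norm_pos_iff]
    exact (map_ne_zero ι).2 ha1'
  obtain ⟨m₀, hm₀⟩ := fin_small Hb hb0 hb1 _ hε
  set S : Set (Pt a) := {P} ∪ {Q | ∃ n, n₀ ≤ n ∧ Q = (Φ n).base (pp n)} with hSdef
  set T : Set (Pt b) := {Q | ∃ n, m₀ ≤ n ∧ Q = (Ψ n).base (qq n)} with hTdef
  refine ⟨AddSubgroup.closure S, AddSubgroup.closure T,
    AddSubgroup.subset_closure (Or.inl rfl), ?_, ?_, ?_⟩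
  · obtain ⟨f, hf, hl⟩ := infinite_rank Ha ha0 ha1 Hv va va' t ht n₀
      (fun n => (Φ n).base (pp n)) (fun n _ => by
        have := hΦ n (pp n) (by rw [hppx]; exact vt)
        rw [hppx] at this
        exact this)
    refine fin_lin _ f (fun i => ?_) hl
    exact AddSubgroup.closure_mono (fun x hx => Or.inr hx) (hf i)
  · obtain ⟨f, hf, hl⟩ := infinite_rank Hb hb0 hb1 Hv vb vb' (1 - t) ht' m₀
      (fun n => (Ψ n).base (qq n)) (fun n _ => by
        have := hΨ n (qq n) (by rw [hqqx, vt']; exact vt)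
        rw [hqqx] at this
        exact this)
    exact fin_lin _ f hf hl
  · intro c hc h0 h1 h2
    refine supported ha0 ha1 hb0 hb1 S T ?_ c hc h0 h1 h2
    intro x hx y hy
    obtain ⟨m, hm, rfl⟩ := hy
    have hβ := hm₀ m hm
    obtain ⟨w1, w2, -, -⟩ := fin_tower Hb Hv vb vb' m
    have ht0 : t ≠ 0 := by
      rintro rfl
      rw [v.map_zero] at vt
      linarith
    have ht1 : t ≠ 1 := by
      rintro rfl
      rw [v.map_one] at vt
      linarith
    have ht2 : t ≠ 1 - β m := by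
      intro h
      rw [h, w2] at vt
      linarith
    rcases hx with hx | ⟨n, hn, rfl⟩
    · rw [Set.mem_singleton_iff] at hx
      subst hx
      rcases htP with ⟨N, hN, hNP⟩ | ⟨N, hN, hNP, hNx⟩
      · refine zz_torsion ha0 ha1 hb0 hb1 _ _ hN one_pos ?_
        rw [hNP, fin_zz_zero, smul_zero]
        exact zero_mem _
      · refine zz_torsion ha0 ha1 hb0 hb1 _ _ hN two_pos ?_
        have := orth ha0 ha1 hb0 hb1 ha0 ha1 (Hbne.1 m).1 (Hbne.1 m).2 ?_
          (Corr.idOf (rfl : a = a)) (Ψ m) (N • x) (qq m) hNP (hqq0 m) (by rw [hqqx, hNx])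
          (by rw [hNx]; exact ht0) (by rw [hNx]; exact ht1) ?_ (by rw [hNx]; exact ht2)
        · rw [Corr.idOf_base] at this
          exact this
        · intro h
          have h3 : β m = 1 - a := by rw [h]; ring
          rw [h3] at hβ
          exact absurd (hβ.trans_le (min_le_right _ _)) (lt_irrefl _)
        · rw [hNx]
          rintro rfl
          rw [va] at vt
          linarith
    · obtain ⟨u1, u2, -, -⟩ := fin_tower Ha Hv va va' n
      refine ⟨2, two_pos, ?_⟩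
      refine orth ha0 ha1 hb0 hb1 (Hane.1 n).1 (Hane.1 n).2 (Hbne.1 m).1 (Hbne.1 m).2 ?_
        (Φ n) (Ψ m) (pp n) (qq m) (hpp0 n) (hqq0 m) (by rw [hqqx, hppx])
        (by rw [hppx]; exact ht0) (by rw [hppx]; exact ht1) ?_ (by rw [hppx]; exact ht2)
      · intro h
        have h3 : ι (α n) + ι (β m) = 1 := by rw [← map_add, h]; simp
        have h4 : (1 : ℝ) ≤ ‖ι (α n)‖ + ‖ι (β m)‖ := by
          calc (1 : ℝ) = ‖ι (α n) + ι (β m)‖ := by rw [h3]; simp
            _ ≤ _ := norm_add_le _ _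
        have h5 := hn₀ n hn
        have h6 := hβ.trans_le (min_le_left _ _)
        linarith
      · rw [hppx]
        intro h
        rw [h, u1] at vt
        linarith

end ZC
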