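import Pool.Agent.ZC.Quad
import Pool.Agent.ZC.Swap
import Pool.Agent.ZC.ResAux

/-!
Module OrthDiag (project ZC, helper83).  Equal labels.
PROOF.  h = X(X-1)(X-c) is not a square (odd degree); K = k(s)(y), xi = (s,y) in E_c(K), x_1 = Phi.map K xi,
x_2 = Psi.map K xi.  For t not in {0,1,c}, p_t = (t,y_t): place (t,y_t) -> (Phi p_t, Psi p_t), place (t,-y_t) -> negatives.
Key with t and t1 = xc p1 (if t = t1 nothing to compare: p = +-p1): D_t - D_{t1} in ratZero with D_t = [Phi p_t,Psi p_t] +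
[-Phi p_t,-Psi p_t] = 2 zz(Phi p_t,Psi p_t) + 2[0,0] mod ratZero (algebra as in Orth.lean), so
2 zz(Phi p_t,Psi p_t) = 2 zz(Phi p1, Psi p1) mod ratZero, and M times the right side is 2 zz(M Phi p1, ..) = 0.
q = p or q = -p (same x): zz(P,-Q) = - zz(P,Q) mod ratZero.
-/

namespace ZC

open Polynomial WeierstrassCurve
open scoped Classical

section OrthDiagAux

variable {G H Q : Type*} [AddCommGroup G] [AddCommGroup H] [AddCommGroup Q]

private def od_z (f : G → H → Q) (P : G) (R : H) : Q := f P R - f P 0 - f 0 R + f 0 0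

private theorem od_add_left (f : G → H → Q)
    (hl : ∀ P P' R, f (P + P') R + f 0 R - f P R - f P' R = 0) (P P' : G) (R : H) :
    od_z f (P + P') R = od_z f P R + od_z f P' R := by
  have h1 := hl P P' R
  have h2 := hl P P' 0
  have e1 : f (P + P') R = f P R + f P' R - f 0 R := by
    have : f (P + P') R = (f (P + P') R + f 0 R - f P R - f P' R) + (f P R + f P' R - f 0 R) := by
      abel
    rw [this, h1, zero_add]
  have e2 : f (P + P') 0 = f P 0 + f P' 0 - f 0 0 := by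
    have : f (P + P') 0 = (f (P + P') 0 + f 0 0 - f P 0 - f P' 0) + (f P 0 + f P' 0 - f 0 0) := by
      abel
    rw [this, h2, zero_add]
  simp only [od_z, e1, e2]
  abel

private theorem od_add_right (f : G → H → Q)
    (hr : ∀ P R R', f P (R + R') + f P 0 - f P R - f P R' = 0) (P : G) (R R' : H) :
    od_z f P (R + R') = od_z f P R + od_z f P R' := by
  have h1 := hr P R R'
  have h2 := hr 0 R R'
  have e1 : f P (R + R') = f P R + f P R' - f P 0 := by
    have : f P (R + R') = (f P (R + R') + f P 0 - f P R - f P R') + (f P R + f P R' - f P 0) := by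
      abel
    rw [this, h1, zero_add]
  have e2 : f 0 (R + R') = f 0 R + f 0 R' - f 0 0 := by
    have : f 0 (R + R') = (f 0 (R + R') + f 0 0 - f 0 R - f 0 R') + (f 0 R + f 0 R' - f 0 0) := by
      abel
    rw [this, h2, zero_add]
  simp only [od_z, e1, e2]
  abel

private theorem od_torsion (f : G → H → Q)
    (hl : ∀ P P' R, f (P + P') R + f 0 R - f P R - f P' R = 0) (P : G) (R : H) (M : ℕ)
    (hM : M • P = 0) : M • od_z f P R = 0 := by
  let g : G →+ Q := AddMonoidHom.mk' (fun P => od_z f P R) (fun a b => od_add_left f hl a b R)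
  have h1 : M • g P = g (M • P) := (map_nsmul g M P).symm
  rw [hM, map_zero] at h1
  exact h1

private theorem od_neg_right (f : G → H → Q)
    (hr : ∀ P R R', f P (R + R') + f P 0 - f P R - f P R' = 0) (P : G) (R : H) :
    od_z f P (-R) = - od_z f P R := by
  let g : H →+ Q := AddMonoidHom.mk' (fun R => od_z f P R) (fun a b => od_add_right f hr P a b)
  exact map_neg g R

private theorem od_two (f : G → H → Q)
    (hl : ∀ P P' R, f (P + P') R + f 0 R - f P R - f P' R = 0)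
    (hr : ∀ P R R', f P (R + R') + f P 0 - f P R - f P R' = 0) (P : G) (R : H) :
    (2 : ℕ) • od_z f P R = f P R + f (-P) (-R) - (f 0 0 + f 0 0) := by
  have h1 := hl P (-P) (-R)
  have h2 := hr P R (-R)
  have h3 := hr 0 R (-R)
  rw [add_neg_cancel] at h1 h2 h3
  rw [two_nsmul, od_z]
  have h6 : (f P R - f P 0 - f 0 R + f 0 0) + (f P R - f P 0 - f 0 R + f 0 0)
      = (f P R + f (-P) (-R) - (f 0 0 + f 0 0))
        + (f 0 (-R) + f 0 (-R) - f P (-R) - f (-P) (-R))
        - (f P 0 + f P 0 - f P R - f P (-R))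
        + (f 0 0 + f 0 0 - f 0 R - f 0 (-R))
        + (f 0 0 + f 0 0 - f 0 R - f 0 (-R)) := by
    abel
  rw [h6, h1, h2, h3]
  simp

private theorem od_alg (f : G → H → Q)
    (hl : ∀ P P' R, f (P + P') R + f 0 R - f P R - f P' R = 0)
    (hr : ∀ P R R', f P (R + R') + f P 0 - f P R - f P R' = 0)
    (P P₁ : G) (R R₁ : H) (M : ℕ) (hM : M • P₁ = 0)
    (h : f P R + f (-P) (-R) - f P₁ R₁ - f (-P₁) (-R₁) = 0) :
    (2 * M) • od_z f P R = 0 := by
  have e1 := od_two f hl hr P R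
  have e2 := od_two f hl hr P₁ R₁
  have e3 : (2 : ℕ) • od_z f P R = (2 : ℕ) • od_z f P₁ R₁ := by
    rw [e1, e2, ← sub_eq_zero]
    rw [← h]
    abel
  rw [mul_comm, mul_smul, e3, smul_comm, od_torsion f hl P₁ R₁ M hM, smul_zero]

private theorem od_negY {F : Type*} [Field F] (a x y : F) :
    (leg a).toAffine.negY x y = -y := by
  simp [Affine.negY, leg]

end OrthDiagAux

variable {k : Type} [Field k] [IsAlgClosed k] [CharZero k]

/-- points with the same first coordinate -/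
private theorem od_same {c : k} (hc0 : c ≠ 0) (hc1 : c ≠ 1) (p q : Pt c) (hp : p ≠ 0) (hq : q ≠ 0)
    (ht : xc q = xc p) : q = p ∨ q = -p := by
  rcases p with _ | ⟨t, y, hpn⟩
  · exact absurd rfl hp
  rcases q with _ | ⟨t', y', hqn⟩
  · exact absurd rfl hq
  have ht' : t' = t := ht
  subst ht'
  have e1 := (leg_nonsingular c t' y two_ne_zero hc0 hc1).1 hpn
  have e2 := (leg_nonsingular c t' y' two_ne_zero hc0 hc1).1 hqn
  rcases sq_eq_sq_iff_eq_or_eq_neg.1 (e2.trans e1.symm) with h | h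
  · left
    subst h
    rfl
  · right
    subst h
    rw [Affine.Point.neg_some]
    simp only [od_negY]

private theorem od_not_sq (c : k) : ¬ IsSquare (X * (X - 1) * (X - C c) : k[X]) := by
  rintro ⟨g, hg⟩
  have h1 : (X - 1 : k[X]) = X - C 1 := by simp
  have hd : (X * (X - 1) * (X - C c) : k[X]).natDegree = 3 := by
    rw [h1, natDegree_mul (mul_ne_zero X_ne_zero (X_sub_C_ne_zero 1)) (X_sub_C_ne_zero c),
      natDegree_mul X_ne_zero (X_sub_C_ne_zero 1), natDegree_X, natDegree_X_sub_C,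
      natDegree_X_sub_C]
  have h0 : (X * (X - 1) * (X - C c) : k[X]) ≠ 0 := by
    intro h0; rw [h0] at hd; simp at hd
  have hg0 : g ≠ 0 := by
    rintro rfl; rw [mul_zero] at hg; exact h0 hg
  rw [hg, natDegree_mul hg0 hg0] at hd
  omega

/-- the relation given by `key` -/
private theorem od_key {a b c : k} (hc0 : c ≠ 0) (hc1 : c ≠ 1)
    (Φ : Corr c a) (Ψ : Corr c b) (p p₁ : Pt c) (hp : p ≠ 0) (hp₁ : p₁ ≠ 0)
    (ht0 : xc p ≠ 0) (ht1 : xc p ≠ 1) (htc : xc p ≠ c)
    (h0 : xc p₁ ≠ 0) (h1 : xc p₁ ≠ 1) (h2 : xc p₁ ≠ c) (hne : xc p ≠ xc p₁) :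
    Finsupp.single (Φ.base p, Ψ.base p) (1 : ℤ) + Finsupp.single (Φ.base (-p), Ψ.base (-p)) 1
      - Finsupp.single (Φ.base p₁, Ψ.base p₁) 1
      - Finsupp.single (Φ.base (-p₁), Ψ.base (-p₁)) 1 ∈ ratZero a b := by
  have h2k : (2 : k) ≠ 0 := two_ne_zero
  rcases p with _ | ⟨t, y1, hpn⟩
  · exact absurd rfl hp
  rcases p₁ with _ | ⟨t', y2, hqn⟩
  · exact absurd rfl hp₁
  change t ≠ 0 at ht0
  change t ≠ 1 at ht1
  change t ≠ c at htc
  change t' ≠ 0 at h0
  change t' ≠ 1 at h1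
  change t' ≠ c at h2
  change t ≠ t' at hne
  have e1 : y1 ^ 2 = t * (t - 1) * (t - c) := (leg_nonsingular c t y1 h2k hc0 hc1).1 hpn
  have e2 : y2 ^ 2 = t' * (t' - 1) * (t' - c) := (leg_nonsingular c t' y2 h2k hc0 hc1).1 hqn
  have hy1 : y1 ≠ 0 := by
    intro h
    rw [h] at e1
    have h3 : t * (t - 1) * (t - c) ≠ 0 :=
      mul_ne_zero (mul_ne_zero ht0 (sub_ne_zero.2 ht1)) (sub_ne_zero.2 htc)
    exact h3 (by rw [← e1]; ring)
  have hy2 : y2 ≠ 0 := by
    intro h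
    rw [h] at e2
    have h3 : t' * (t' - 1) * (t' - c) ≠ 0 :=
      mul_ne_zero (mul_ne_zero h0 (sub_ne_zero.2 h1)) (sub_ne_zero.2 h2)
    exact h3 (by rw [← e2]; ring)
  obtain ⟨K, fK, aK, s, y, H⟩ := exists_quad _ (od_not_sq c)
  have h2K : (2 : K) ≠ 0 := by
    have : algebraMap k K 2 ≠ 0 := by rw [Ne, map_eq_zero]; exact h2k
    rwa [map_ofNat] at this
  have hc0K : algebraMap k K c ≠ 0 := by rw [Ne, map_eq_zero]; exact hc0
  have hc1K : algebraMap k K c ≠ 1 := by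
    intro h0
    exact hc1 ((algebraMap k K).injective (by rw [h0, map_one]))
  have hsq : y ^ 2 = s * (s - 1) * (s - algebraMap k K c) := by
    rw [H.sq]
    simp
  have nX : (leg (algebraMap k K c)).toAffine.Nonsingular s y :=
    (leg_nonsingular _ _ _ h2K hc0K hc1K).2 hsq
  have hv : ∀ z : k, (X * (X - 1) * (X - C c) : k[X]).eval z = z * (z - 1) * (z - c) := by
    intro z; simp
  have hneg : ∀ (w : Place k K) (u : k), w.v (y + algebraMap k K u) < 1 →
      w.v (y - algebraMap k K (-u)) < 1 := by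
    intro w u hu
    rw [map_neg, sub_neg_eq_add]; exact hu
  refine H.key (Φ.map K (Affine.Point.some s y nX)) (Ψ.map K (Affine.Point.some s y nX))
    hne (e1.trans (hv t).symm) hy1 (e2.trans (hv t').symm) hy2 _ _ _ _ _ _ _ _ ?_ ?_ ?_ ?_
  · intro w hw1 hw2
    exact ⟨Φ.spec K w _ _ ⟨hw1, hw2⟩, Ψ.spec K w _ _ ⟨hw1, hw2⟩⟩
  · intro w hw1 hw2
    have hw2' := hneg w _ hw2
    have hs : SpecializesTo w (Affine.Point.some s y nX) (-(Affine.Point.some t y1 hpn)) := by
      rw [Affine.Point.neg_some]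
      refine ⟨hw1, ?_⟩
      rw [od_negY]
      exact hw2'
    exact ⟨Φ.spec K w _ _ hs, Ψ.spec K w _ _ hs⟩
  · intro w hw1 hw2
    exact ⟨Φ.spec K w _ _ ⟨hw1, hw2⟩, Ψ.spec K w _ _ ⟨hw1, hw2⟩⟩
  · intro w hw1 hw2
    have hw2' := hneg w _ hw2
    have hs : SpecializesTo w (Affine.Point.some s y nX) (-(Affine.Point.some t' y2 hqn)) := by
      rw [Affine.Point.neg_some]
      refine ⟨hw1, ?_⟩
      rw [od_negY]
      exact hw2'
    exact ⟨Φ.spec K w _ _ hs, Ψ.spec K w _ _ hs⟩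

theorem orth_diag {a b c : k} (ha0 : a ≠ 0) (ha1 : a ≠ 1) (hb0 : b ≠ 0) (hb1 : b ≠ 1)
    (hc0 : c ≠ 0) (hc1 : c ≠ 1)
    (Φ : Corr c a) (Ψ : Corr c b)
    (p₁ : Pt c) (hp₁ : p₁ ≠ 0) (h0 : xc p₁ ≠ 0) (h1 : xc p₁ ≠ 1) (h2 : xc p₁ ≠ c) (M : ℕ)
    (hM : 0 < M) (hM' : M • Φ.base p₁ = 0)
    (p q : Pt c) (hp : p ≠ 0) (hq : q ≠ 0)
    (ht : xc q = xc p) (ht0 : xc p ≠ 0) (ht1 : xc p ≠ 1) (htc : xc p ≠ c) :
    ∃ N : ℕ, 0 < N ∧ N • zz (Φ.base p) (Ψ.base q) ∈ ratZero a b := by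
  refine ⟨2 * M, by omega, ?_⟩
  let f : Pt a → Pt b → (Cycles a b ⧸ ratZero a b) := fun P Q =>
    QuotientAddGroup.mk' (ratZero a b) (Finsupp.single (P, Q) 1)
  have hker : ∀ z : Cycles a b, z ∈ ratZero a b →
      QuotientAddGroup.mk' (ratZero a b) z = 0 := by
    intro z hz
    rwa [← AddMonoidHom.mem_ker, QuotientAddGroup.ker_mk']
  have hl : ∀ P P' R, f (P + P') R + f 0 R - f P R - f P' R = 0 := fun P P' R => by
    have := hker _ (add_left ha0 ha1 hb0 hb1 P P' R)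
    simpa only [map_sub, map_add] using this
  have hr : ∀ P R R', f P (R + R') + f P 0 - f P R - f P R' = 0 := fun P R R' => by
    have := hker _ (add_right ha0 ha1 hb0 hb1 P R R')
    simpa only [map_sub, map_add] using this
  have main : (2 * M) • od_z f (Φ.base p) (Ψ.base q) = 0 := by
    by_cases hne : xc p = xc p₁
    · -- `p = ± p₁`
      have htor : M • Φ.base p = 0 := by
        rcases od_same hc0 hc1 p₁ p hp₁ hp hne with h | h
        · rw [h, hM']
        · rw [h, Φ.odd, smul_neg, hM', neg_zero]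
      rw [mul_smul, od_torsion f hl _ _ M htor, smul_zero]
    · have hk := hker _ (od_key hc0 hc1 Φ Ψ p p₁ hp hp₁ ht0 ht1 htc h0 h1 h2 hne)
      rw [Φ.odd, Ψ.odd, Φ.odd, Ψ.odd] at hk
      have h3 := od_alg f hl hr (Φ.base p) (Φ.base p₁) (Ψ.base p) (Ψ.base p₁) M hM'
        (by simpa only [map_sub, map_add] using hk)
      rcases od_same hc0 hc1 p q hp hq ht with h | h
      · rw [h]; exact h3
      · rw [h, Ψ.odd, od_neg_right f hr, neg_nsmul, h3, neg_zero]
  have hfin : QuotientAddGroup.mk' (ratZero a b) ((2 * M) • zz (Φ.base p) (Ψ.base q)) = 0 := by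
    rw [map_nsmul, zz, map_add, map_sub, map_sub]
    exact main
  rwa [← AddMonoidHom.mem_ker, QuotientAddGroup.ker_mk'] at hfin

end ZC
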