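import Pool.Agent.ZC.OrthSame
import Pool.Agent.ZC.OrthDiag
import Pool.Agent.ZC.AlgN
import Pool.Agent.ZC.Final

/-!
Module FinalN (project ZC, helper83): the theorem for products of `n` elliptic curves.
-/

namespace ZC

open Polynomial WeierstrassCurve
open scoped Classical

section geom

variable {k : Type} [Field k] [IsAlgClosed k] [CharZero k]

theorem fn_zz_right_zero {a b : k} (P : Pt a) : zz P (0 : Pt b) = 0 := by
  simp only [zz]
  abel

theorem fn_zz_add_right {a b : k} (ha0 : a ≠ 0) (ha1 : a ≠ 1) (hb0 : b ≠ 0) (hb1 : b ≠ 1)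
    (P : Pt a) (Q Q' : Pt b) : zz P (Q + Q') - zz P Q - zz P Q' ∈ ratZero a b := by
  have h1 := add_right ha0 ha1 hb0 hb1 P Q Q'
  have h2 := add_right ha0 ha1 hb0 hb1 (0 : Pt a) Q Q'
  have h3 := sub_mem h1 h2
  have e : zz P (Q + Q') - zz P Q - zz P Q' =
      (Finsupp.single (P, Q + Q') 1 + Finsupp.single (P, (0 : Pt b)) 1 - Finsupp.single (P, Q) 1
      - Finsupp.single (P, Q') 1) - (Finsupp.single ((0 : Pt a), Q + Q') 1 +
      Finsupp.single ((0 : Pt a), (0 : Pt b)) 1 - Finsupp.single ((0 : Pt a), Q) 1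
      - Finsupp.single ((0 : Pt a), Q') 1) := by
    simp only [zz]
    abel
  rw [e]
  exact h3

theorem fn_zz_nsmul_right {a b : k} (ha0 : a ≠ 0) (ha1 : a ≠ 1) (hb0 : b ≠ 0) (hb1 : b ≠ 1)
    (P : Pt a) (Q : Pt b) (m : ℕ) : zz P (m • Q) - m • zz P Q ∈ ratZero a b := by
  induction m with
  | zero =>
    rw [zero_nsmul, zero_nsmul, fn_zz_right_zero, sub_zero]
    exact zero_mem _
  | succ m ih =>
    have h1 := fn_zz_add_right ha0 ha1 hb0 hb1 P (m • Q) Q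
    have e : zz P ((m + 1) • Q) - (m + 1) • zz P Q =
        (zz P (m • Q + Q) - zz P (m • Q) - zz P Q) + (zz P (m • Q) - m • zz P Q) := by
      rw [succ_nsmul, succ_nsmul]
      abel
    rw [e]
    exact add_mem h1 ih

theorem zz_torsion_right {a b : k} (ha0 : a ≠ 0) (ha1 : a ≠ 1) (hb0 : b ≠ 0) (hb1 : b ≠ 1)
    (P : Pt a) (Q : Pt b) {m N : ℕ} (hm : 0 < m) (hN : 0 < N)
    (h : N • zz P (m • Q) ∈ ratZero a b) :
    ∃ N : ℕ, 0 < N ∧ N • zz P Q ∈ ratZero a b := by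
  refine ⟨N * m, Nat.mul_pos hN hm, ?_⟩
  have h1 := fn_zz_nsmul_right ha0 ha1 hb0 hb1 P Q m
  have h2 := sub_mem h (nsmul_mem h1 N)
  have e : N • zz P (m • Q) - N • (zz P (m • Q) - m • zz P Q) = (N * m) • zz P Q := by
    rw [nsmul_sub, ← mul_nsmul', sub_sub_cancel]
  rwa [e] at h2

/-- The point `P` of `E_a` is a torsion point or a multiple of it is the image of a point with
`x`-coordinate `t` under a correspondence which maps some nontrivial point to a torsion point. -/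
def Good (t : k) {a : k} (P : Pt a) : Prop :=
  (∃ N : ℕ, 0 < N ∧ N • P = 0) ∨
    ∃ (c : k) (Φ : Corr c a) (p p₁ : Pt c) (m M : ℕ), c ≠ 0 ∧ c ≠ 1 ∧ t ≠ c ∧ 0 < m ∧ 0 < M ∧
      p ≠ 0 ∧ xc p = t ∧ m • P = Φ.base p ∧ p₁ ≠ 0 ∧ xc p₁ ≠ 0 ∧ xc p₁ ≠ 1 ∧ xc p₁ ≠ c ∧
      M • Φ.base p₁ = 0

theorem good_pair {a b : k} (ha0 : a ≠ 0) (ha1 : a ≠ 1) (hb0 : b ≠ 0) (hb1 : b ≠ 1) {t : k}
    (ht0 : t ≠ 0) (ht1 : t ≠ 1) {P : Pt a} {Q : Pt b} (hP : Good t P) (hQ : Good t Q) :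
    ∃ N : ℕ, 0 < N ∧ N • zz P Q ∈ ratZero a b := by
  rcases hP with ⟨N, hN, hNP⟩ | ⟨c, Φ, p, p₁, m, M, hc0, hc1, htc, hm, hM, hp, hpt, hmP, hp₁,
    g0, g1, g2, hM'⟩
  · refine zz_torsion ha0 ha1 hb0 hb1 _ _ hN one_pos ?_
    rw [hNP, fin_zz_zero, smul_zero]
    exact zero_mem _
  rcases hQ with ⟨N, hN, hNQ⟩ | ⟨d, Ψ, q, q₁, m', M', hd0, hd1, htd, hm', -, hq, hqt, hmQ, -⟩
  · refine zz_torsion_right ha0 ha1 hb0 hb1 _ _ hN one_pos ?_
    rw [hNQ, fn_zz_right_zero, smul_zero]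
    exact zero_mem _
  obtain ⟨N, hN, h⟩ : ∃ N : ℕ, 0 < N ∧ N • zz (Φ.base p) (Ψ.base q) ∈ ratZero a b := by
    by_cases hcd : c = d
    · subst hcd
      exact orth_diag ha0 ha1 hb0 hb1 hc0 hc1 Φ Ψ p₁ hp₁ g0 g1 g2 M hM hM' p q hp hq
        (by rw [hqt, hpt]) (by rwa [hpt]) (by rwa [hpt]) (by rwa [hpt])
    · exact ⟨2, two_pos, orth_same ha0 ha1 hb0 hb1 hc0 hc1 hd0 hd1 hcd Φ Ψ p q hp hq
        (by rw [hqt, hpt]) (by rwa [hpt]) (by rwa [hpt]) (by rwa [hpt]) (by rwa [hpt])⟩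
  rw [← hmP, ← hmQ] at h
  obtain ⟨N', hN', h'⟩ := zz_torsion ha0 ha1 hb0 hb1 _ _ hm hN h
  exact zz_torsion_right ha0 ha1 hb0 hb1 _ _ hm' hN' h'

theorem fn_negY {F : Type*} [Field F] (a x y : F) : (leg a).toAffine.negY x y = -y := by
  simp [leg, Affine.negY]

theorem fn_xc_two {a x y : k} (h : (leg a).toAffine.Nonsingular x y) (hy : y ≠ 0)
    (hx : x ^ 2 = a) : xc ((2 : ℕ) • (Affine.Point.some x y h : Pt a)) = 0 := by
  have hn : y ≠ (leg a).toAffine.negY x y := by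
    rw [fn_negY]
    intro h0
    apply hy
    have : (2 : k) * y = 0 := by linear_combination h0
    rcases mul_eq_zero.1 this with h1 | h1
    · exact absurd h1 two_ne_zero
    · exact h1
  have he : y ^ 2 = x * (x - 1) * (x - a) := (leg_equation a x y).1 h.1
  rw [two_nsmul, Affine.Point.add_self_of_Y_ne hn]
  simp only [xc, Affine.addX, Affine.slope_of_Y_ne rfl hn, fn_negY]
  simp only [leg]
  have h5 : y - -y = 2 * y := by ring
  rw [h5]
  field_simp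
  subst hx
  linear_combination (-8 * x + 4 + 4 * x ^ 2) * he

/-- a torsion point with nontrivial `x`-coordinate -/
theorem fn_four {a : k} (ha0 : a ≠ 0) (ha1 : a ≠ 1) : ∃ p₁ : Pt a, p₁ ≠ 0 ∧ xc p₁ ≠ 0 ∧
    xc p₁ ≠ 1 ∧ xc p₁ ≠ a ∧ 4 • p₁ = 0 := by
  obtain ⟨s, hs⟩ := IsAlgClosed.exists_pow_nat_eq a (n := 2) (by norm_num)
  have hs0 : s ≠ 0 := by
    rintro rfl
    apply ha0; rw [← hs]; ring
  have hs1 : s ≠ 1 := by
    rintro rfl
    apply ha1; rw [← hs]; ring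
  have hsa : s ≠ a := by
    intro h
    have h1 : s * (s - 1) = 0 := by linear_combination hs - h
    rcases mul_eq_zero.1 h1 with h2 | h2
    · exact hs0 h2
    · exact hs1 (by linear_combination h2)
  obtain ⟨y, hy⟩ := IsAlgClosed.exists_pow_nat_eq (s * (s - 1) * (s - a)) (n := 2) (by norm_num)
  have hy0 : y ≠ 0 := by
    rintro rfl
    rw [zero_pow two_ne_zero] at hy
    exact mul_ne_zero (mul_ne_zero hs0 (sub_ne_zero.2 hs1)) (sub_ne_zero.2 hsa) hy.symm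
  have hn := (leg_nonsingular a s y two_ne_zero ha0 ha1).2 hy
  refine ⟨.some s y hn, Affine.Point.some_ne_zero _, hs0, hs1, hsa, ?_⟩
  have h2 := fn_xc_two hn hy0 hs
  have h4 : (4 : ℕ) • (Affine.Point.some s y hn : Pt a) = 2 • (2 • Affine.Point.some s y hn) := by
    rw [← mul_nsmul']
  rw [h4]
  generalize (2 • (Affine.Point.some s y hn : Pt a)) = R at h2 ⊢
  exact fn_two_of_xc R h2
where
  fn_two_of_xc {a : k} (R : Pt a) (h : xc R = 0) : 2 • R = 0 := by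
    rcases R with _ | ⟨x, y, hn⟩
    · exact smul_zero _
    · have hx : x = 0 := h
      subst hx
      have he : y ^ 2 = 0 * (0 - 1) * (0 - a) := (leg_equation a 0 y).1 hn.1
      have hy : y = 0 := by
        have : y ^ 2 = 0 := by rw [he]; ring
        exact pow_eq_zero_iff two_ne_zero |>.1 this
      subst hy
      rw [two_nsmul, Affine.Point.add_self_of_Y_eq]
      rw [fn_negY, neg_zero]

end geom

theorem fn_chain {ι : AlgebraicClosure ℚ →+* ℂ} {a : AlgebraicClosure ℚ}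
    {α μ : ℕ → AlgebraicClosure ℚ} (H : IsTower ι a α μ) (ha0 : a ≠ 0) (ha1 : a ≠ 1)
    {v : AbsoluteValue (AlgebraicClosure ℚ) ℝ} {p : ℕ} (Hv : IsPAdic v p)
    (ha : v a = 1) (ha' : v (1 - a) = 1) (n : ℕ) :
    ∃ Φ : Corr (α n) a, (∀ q : Pt (α n), 1 < v (xc q) →
      Φ.base q ≠ 0 ∧ xc (Φ.base q) = iterX μ n (xc q)) ∧
      ∃ (p₁ : Pt (α n)) (M : ℕ), 0 < M ∧ p₁ ≠ 0 ∧ xc p₁ ≠ 0 ∧ xc p₁ ≠ 1 ∧ xc p₁ ≠ α n ∧
        M • Φ.base p₁ = 0 := by
  have Hn := H.ne ha0 ha1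
  cases n with
  | zero =>
    have h0 := H.zero
    have key : ∀ (c : AlgebraicClosure ℚ) (_ : c = a), ∃ Φ : Corr c a, (∀ q : Pt c, 1 < v (xc q) →
        Φ.base q ≠ 0 ∧ xc (Φ.base q) = xc q) ∧
        ∃ (p₁ : Pt c) (M : ℕ), 0 < M ∧ p₁ ≠ 0 ∧ xc p₁ ≠ 0 ∧ xc p₁ ≠ 1 ∧ xc p₁ ≠ c ∧
        M • Φ.base p₁ = 0 := by
      intro c h
      subst h
      obtain ⟨p₁, h1, h2, h3, h4, h5⟩ := fn_four ha0 ha1
      refine ⟨Corr.idOf rfl, ?_, p₁, 4, by norm_num, h1, h2, h3, h4, by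
        rw [Corr.idOf_base]; exact h5⟩
      intro q hq
      rw [Corr.idOf_base]
      refine ⟨?_, rfl⟩
      rintro rfl
      have : v (xc (0 : Pt c)) = 0 := by
        change v (0 : AlgebraicClosure ℚ) = 0
        simp
      rw [this] at hq
      linarith
    exact key _ h0
  | succ n =>
    obtain ⟨Φ, hΦ⟩ := fin_chain H ha0 ha1 Hv ha ha' n
    obtain ⟨L, hL⟩ := exists_landen (a := α n) (c := α (n + 1)) (μ := μ n) (Hn.1 n).1
      (Hn.1 n).2 (H.succ n) (H.rel n)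
    obtain ⟨h1, h2, h3, h4⟩ := fin_tower H Hv ha ha' n
    obtain ⟨m0, m1, m2⟩ := Hn.2 n
    refine ⟨Φ.comp L, ?_, ?_⟩
    · intro q hq
      have hq0 : q ≠ 0 := by
        rintro rfl
        have : v (xc (0 : Pt (α (n + 1)))) = 0 := by
          change v (0 : AlgebraicClosure ℚ) = 0
          simp
        rw [this] at hq
        linarith
      have hx0 : xc q ≠ 0 := by
        intro h
        rw [h, v.map_zero] at hq
        linarith
      obtain ⟨g1, g2⟩ := hL q hq0 hx0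
      have hv : v (xc (L.base q)) = v (xc q) := by
        rw [g2, map_div₀, v.map_pow, v.map_mul, v.map_pow, h4]
        have : v (xc q + μ n) = v (xc q) := by
          rw [add_comm]
          exact fin_add_lt Hv (by rw [h3]; exact hq)
        rw [this]
        field_simp
      obtain ⟨g3, g4⟩ := hΦ (L.base q) (by rw [hv]; exact hq)
      refine ⟨g3, ?_⟩
      change xc (Φ.base (L.base q)) = _
      rw [g4, g2]
      rfl
    · obtain ⟨p₁, hp₁, hx⟩ := fin_point (Hn.1 (n + 1)).1 (Hn.1 (n + 1)).2 (-μ n)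
      have hx0 : xc p₁ ≠ 0 := by rw [hx]; exact neg_ne_zero.2 m0
      refine ⟨p₁, 2, two_pos, hp₁, hx0, ?_, ?_, ?_⟩
      · rw [hx]
        intro h
        apply m2
        linear_combination -h
      · rw [hx, H.succ]
        intro h
        have h5 : μ n * (μ n + 1) = 0 := by linear_combination -h
        rcases mul_eq_zero.1 h5 with h6 | h6
        · exact m0 h6
        · exact m2 (by linear_combination h6)
      · obtain ⟨g1, g2⟩ := hL p₁ hp₁ hx0
        have g3 : xc (L.base p₁) = 0 := by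
          rw [g2, hx, neg_add_cancel, zero_pow two_ne_zero, zero_div]
        have g4 := fn_four.fn_two_of_xc (L.base p₁) g3
        have g5 : -L.base p₁ = L.base p₁ := by
          rw [neg_eq_iff_add_eq_zero, ← two_nsmul]
          exact g4
        change 2 • Φ.base (L.base p₁) = 0
        have g6 := Φ.odd (L.base p₁)
        rw [g5] at g6
        rw [two_nsmul]
        nth_rewrite 1 [g6]
        exact neg_add_cancel _

theorem mainN (S : Finset (AlgebraicClosure ℚ)) (hS : ∀ c ∈ S, c ≠ 0 ∧ c ≠ 1)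
    (b : AlgebraicClosure ℚ) (hb : b ∈ S) (P : Pt b) :
    ∃ A : ∀ c : AlgebraicClosure ℚ, AddSubgroup (Pt c), P ∈ A b ∧
      (∀ c ∈ S, ∃ f : ℕ → A c, LinearIndependent ℤ f) ∧
      ∀ (n : ℕ) (_ : 2 ≤ n) (a : Fin n → AlgebraicClosure ℚ), (∀ i, a i ∈ S) →
        ∀ z : CyclesN a, (∀ x ∈ z.support, ∀ i, x i ∈ A (a i)) →
          (z.sum fun _ m => m) = 0 → (∀ i, (z.sum fun x m => m • x i) = 0) →
          ∃ N : ℕ, 0 < N ∧ N • z ∈ ratZeroN a := by
  have halg : Algebra.IsAlgebraic ℚ (AlgebraicClosure ℚ) := AlgebraicClosure.isAlgebraic ℚ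
  have ι : AlgebraicClosure ℚ →+* ℂ :=
    (IsAlgClosed.lift : AlgebraicClosure ℚ →ₐ[ℚ] ℂ).toRingHom
  obtain ⟨p, v, Hv, hSv, hC⟩ := exists_padic (S ∪ S.image (fun c => 1 - c)) (by
    intro x hx
    rw [Finset.mem_union, Finset.mem_image] at hx
    rcases hx with hx | ⟨c, hc, rfl⟩
    · exact (hS x hx).1
    · intro h
      exact (hS c hc).2 (by linear_combination -h))
  have va : ∀ c ∈ S, v c = 1 := fun c hc => hSv _ (by simp [hc])
  have va' : ∀ c ∈ S, v (1 - c) = 1 := fun c hc =>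
    hSv _ (Finset.mem_union_right _ (Finset.mem_image_of_mem _ hc))
  have hp0 : (p : AlgebraicClosure ℚ) ≠ 0 := by
    exact_mod_cast Hv.prime.ne_zero
  have vp0 : 0 < v (p : AlgebraicClosure ℚ) := v.pos hp0
  -- the parameter `t`
  obtain ⟨t, ht, htP⟩ : ∃ t : AlgebraicClosure ℚ, 1 < v t * v (p : AlgebraicClosure ℚ) ∧
      ((∃ N : ℕ, 0 < N ∧ N • P = 0) ∨ ∃ m : ℕ, 0 < m ∧ m • P ≠ 0 ∧ xc (m • P) = t) := by
    by_cases hP : ∃ N : ℕ, 0 < N ∧ N • P = 0
    · refine ⟨((p : AlgebraicClosure ℚ) ^ 2)⁻¹, ?_, Or.inl hP⟩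
      rw [map_inv₀, v.map_pow]
      have : (v (p : AlgebraicClosure ℚ) ^ 2)⁻¹ * v (p : AlgebraicClosure ℚ) =
          (v (p : AlgebraicClosure ℚ))⁻¹ := by field_simp
      rw [this]
      exact (one_lt_inv₀ vp0).2 Hv.lt
    · push Not at hP
      obtain ⟨m, hm, hm2⟩ := exists_multiple_large Hv hC (hS b hb).1 (hS b hb).2 (va b hb)
        (va' b hb) P hP
      exact ⟨_, hm2, Or.inr ⟨m, hm, hP m hm, rfl⟩⟩
  have vt : 1 < v t := by
    by_contra hcon
    push Not at hcon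
    have : v t * v (p : AlgebraicClosure ℚ) ≤ 1 * 1 :=
      mul_le_mul hcon Hv.lt.le vp0.le zero_le_one
    linarith
  have ht0 : t ≠ 0 := by
    rintro rfl
    rw [v.map_zero] at vt
    linarith
  have ht1 : t ≠ 1 := by
    rintro rfl
    rw [v.map_one] at vt
    linarith
  refine ⟨fun c => AddSubgroup.closure {Q | Good t Q}, ?_, ?_, ?_⟩
  · apply AddSubgroup.subset_closure
    rcases htP with h | ⟨m, hm, hmP, hmx⟩
    · exact Or.inl h
    · obtain ⟨p₁, h1, h2, h3, h4, h5⟩ := fn_four (hS b hb).1 (hS b hb).2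
      refine Or.inr ⟨b, Corr.idOf rfl, m • P, p₁, m, 4, (hS b hb).1, (hS b hb).2, ?_, hm,
        by norm_num, hmP, hmx, by rw [Corr.idOf_base], h1, h2, h3, h4,
        by rw [Corr.idOf_base]; exact h5⟩
      rintro rfl
      rw [va _ hb] at vt
      linarith
  · intro c hc
    obtain ⟨hc0, hc1⟩ := hS c hc
    obtain ⟨α, μ, Ha⟩ := exists_tower ι hc0 hc1
    have Hne := Ha.ne hc0 hc1
    choose Φ hΦ p₁ M hM hp₁ g0 g1 g2 g3 using
      fun n => fn_chain Ha hc0 hc1 Hv (va c hc) (va' c hc) n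
    choose pp hpp0 hppx using fun n => fin_point (Hne.1 n).1 (Hne.1 n).2 t
    obtain ⟨f, hf, hl⟩ := infinite_rank Ha hc0 hc1 Hv (va c hc) (va' c hc) t ht 0
      (fun n => (Φ n).base (pp n)) (fun n _ => by
        have := hΦ n (pp n) (by rw [hppx]; exact vt)
        rw [hppx] at this
        exact this)
    refine fin_lin _ f (fun i => ?_) hl
    refine AddSubgroup.closure_mono ?_ (hf i)
    rintro x ⟨n, -, rfl⟩
    refine Or.inr ⟨α n, Φ n, pp n, p₁ n, 1, M n, (Hne.1 n).1, (Hne.1 n).2, ?_, one_pos, hM n,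
      hpp0 n, hppx n, by rw [one_nsmul], hp₁ n, g0 n, g1 n, g2 n, g3 n⟩
    intro h
    have u1 := (fin_tower Ha Hv (va c hc) (va' c hc) n).1
    rw [h, u1] at vt
    linarith
  · intro n hn a ha z hz h0 h1
    have : Nontrivial (Fin n) := Fin.nontrivial_iff_two_le.2 hn
    refine supportedN a (fun i => hS _ (ha i)) (fun i => {Q | Good t Q}) ?_ z hz h0 h1
    intro i j _ P' hP' Q' hQ'
    exact good_pair (hS _ (ha i)).1 (hS _ (ha i)).2 (hS _ (ha j)).1 (hS _ (ha j)).2 ht0 ht1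
      hP' hQ'

end ZC
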