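import Pool.Agent.ZC.Quad
import Pool.Agent.ZC.Swap

/-!
Module OrthSame (project ZC, helper83).  As module Orth, with x(p) = x(q) and labels c != d.
PROOF.  Copy Orth.lean (team-store zc_Orth.lean): p=(t,y1) in E_c, q=(t,y2) in E_d, s0 = y1/y2,
s^2 = (T-c)/(T-d), T = (c - d s^2)/(1-s^2), h(s) = (c-d)(c-d s^2)((c-1)-(d-1)s^2)(1-s^2), Y2 = y/(1-s^2)^2, Y1 = s Y2,
Y2^2 = T(T-1)(T-d), Y1^2 = T(T-1)(T-c).  Base fibre s=0: T = c, xi -> (c,0), eta -> (c, +-e).
-/

namespace ZC

open Polynomial WeierstrassCurve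
open scoped Classical

section OrthSameAux

/-- abstract algebra: `f` biaffine -/
private theorem os_alg {G H Q : Type*} [AddCommGroup G] [AddCommGroup H] [AddCommGroup Q]
    (f : G → H → Q)
    (hl : ∀ P P' R, f (P + P') R + f 0 R - f P R - f P' R = 0)
    (hr : ∀ P R R', f P (R + R') + f P 0 - f P R - f P R' = 0)
    (P S : G) (R U : H) (hS : -S = S)
    (h : f P R + f (-P) (-R) - f S U - f S (-U) = 0) :
    (2 : ℕ) • (f P R - f P 0 - f 0 R + f 0 0) = 0 := by
  have h1 := hl P (-P) (-R)
  have h2 := hr P R (-R)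
  have h3 := hr 0 R (-R)
  have h4 := hr S U (-U)
  have h5 := hl S (-S) 0
  rw [add_neg_cancel] at h1 h2 h3 h4 h5
  rw [hS] at h5
  rw [two_nsmul]
  have h6 : (f P R - f P 0 - f 0 R + f 0 0) + (f P R - f P 0 - f 0 R + f 0 0)
      = (f P R + f (-P) (-R) - f S U - f S (-U))
        + (f 0 (-R) + f 0 (-R) - f P (-R) - f (-P) (-R))
        - (f P 0 + f P 0 - f P R - f P (-R))
        + (f 0 0 + f 0 0 - f 0 R - f 0 (-R))
        + (f 0 0 + f 0 0 - f 0 R - f 0 (-R))
        - (f S 0 + f S 0 - f S U - f S (-U))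
        - (f 0 0 + f 0 0 - f S 0 - f S 0) := by
    abel
  rw [h6, h, h1, h2, h3, h4, h5]
  simp

variable {k : Type} [Field k] {K : Type} [Field K] [Algebra k K]

private theorem os_const_le (w : Place k K) (x : k) : w.v (algebraMap k K x) ≤ 1 := by
  by_cases hx : x = 0
  · subst hx; simp
  · rw [w.triv x hx]

private theorem os_le (w : Place k K) {X : K} {x : k} (h : w.v (X - algebraMap k K x) < 1) :
    w.v X ≤ 1 := by
  have : X = (X - algebraMap k K x) + algebraMap k K x := by ring
  rw [this]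
  exact (Valuation.map_add _ _ _).trans (max_le h.le (os_const_le w x))

private theorem os_const (w : Place k K) (x : k) :
    w.v (algebraMap k K x - algebraMap k K x) < 1 := by
  simp

private theorem os_add (w : Place k K) {X Y : K} {x y : k}
    (hX : w.v (X - algebraMap k K x) < 1) (hY : w.v (Y - algebraMap k K y) < 1) :
    w.v ((X + Y) - algebraMap k K (x + y)) < 1 := by
  have : (X + Y) - algebraMap k K (x + y)
      = (X - algebraMap k K x) + (Y - algebraMap k K y) := by
    rw [map_add]; ring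
  rw [this]
  exact (Valuation.map_add _ _ _).trans_lt (max_lt hX hY)

private theorem os_neg (w : Place k K) {X : K} {x : k}
    (hX : w.v (X - algebraMap k K x) < 1) :
    w.v ((-X) - algebraMap k K (-x)) < 1 := by
  have : (-X) - algebraMap k K (-x) = -(X - algebraMap k K x) := by
    rw [map_neg]; ring
  rw [this, Valuation.map_neg]
  exact hX

private theorem os_sub (w : Place k K) {X Y : K} {x y : k}
    (hX : w.v (X - algebraMap k K x) < 1) (hY : w.v (Y - algebraMap k K y) < 1) :
    w.v ((X - Y) - algebraMap k K (x - y)) < 1 := by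
  have := os_add w hX (os_neg w hY)
  rwa [← sub_eq_add_neg, ← sub_eq_add_neg] at this

private theorem os_mul (w : Place k K) {X Y : K} {x y : k}
    (hX : w.v (X - algebraMap k K x) < 1) (hY : w.v (Y - algebraMap k K y) < 1) :
    w.v ((X * Y) - algebraMap k K (x * y)) < 1 := by
  have : (X * Y) - algebraMap k K (x * y)
      = (X - algebraMap k K x) * Y + algebraMap k K x * (Y - algebraMap k K y) := by
    rw [map_mul]; ring
  rw [this]
  refine (Valuation.map_add _ _ _).trans_lt (max_lt ?_ ?_)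
  · rw [map_mul]
    exact (mul_le_mul' le_rfl (os_le w hY)).trans_lt (by rw [mul_one]; exact hX)
  · rw [map_mul]
    exact (mul_le_mul' (os_const_le w x) le_rfl).trans_lt (by rw [one_mul]; exact hY)

private theorem os_val_eq (w : Place k K) {X : K} {x : k} (hx : x ≠ 0)
    (hX : w.v (X - algebraMap k K x) < 1) : w.v X = 1 := by
  have h2 : w.v (X - algebraMap k K x) < w.v (algebraMap k K x) := by
    rw [w.triv x hx]; exact hX
  have h3 := Valuation.map_add_eq_of_lt_right _ h2
  rw [sub_add_cancel, w.triv x hx] at h3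
  exact h3

private theorem os_inv (w : Place k K) {X : K} {x : k} (hx : x ≠ 0)
    (hX : w.v (X - algebraMap k K x) < 1) :
    w.v (X⁻¹ - algebraMap k K x⁻¹) < 1 := by
  have hv : w.v X = 1 := os_val_eq w hx hX
  have hX0 : X ≠ 0 := by
    intro h0; rw [h0] at hv; simp at hv
  have hx0 : algebraMap k K x ≠ 0 := by
    rw [Ne, map_eq_zero]; exact hx
  have : X⁻¹ - algebraMap k K x⁻¹ = -(X - algebraMap k K x) * (X⁻¹ * (algebraMap k K x)⁻¹) := by
    rw [map_inv₀]; field_simp; ring
  rw [this, map_mul, Valuation.map_neg, map_mul, map_inv₀, map_inv₀, hv, w.triv x hx]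
  simpa using hX

private theorem os_div (w : Place k K) {X Y : K} {x y : k} (hy : y ≠ 0)
    (hX : w.v (X - algebraMap k K x) < 1) (hY : w.v (Y - algebraMap k K y) < 1) :
    w.v ((X / Y) - algebraMap k K (x / y)) < 1 := by
  rw [div_eq_mul_inv, div_eq_mul_inv]
  exact os_mul w hX (os_inv w hy hY)

private theorem os_pow2 (w : Place k K) {X : K} {x : k}
    (hX : w.v (X - algebraMap k K x) < 1) :
    w.v (X ^ 2 - algebraMap k K (x ^ 2)) < 1 := by
  rw [pow_two, pow_two]; exact os_mul w hX hX

private theorem os_negY {F : Type*} [Field F] (a x y : F) :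
    (leg a).toAffine.negY x y = -y := by
  simp [Affine.negY, leg]

end OrthSameAux

variable {k : Type} [Field k] [IsAlgClosed k] [CharZero k]

theorem orth_same {a b c d : k} (ha0 : a ≠ 0) (ha1 : a ≠ 1) (hb0 : b ≠ 0) (hb1 : b ≠ 1)
    (hc0 : c ≠ 0) (hc1 : c ≠ 1) (hd0 : d ≠ 0) (hd1 : d ≠ 1) (hcd : c ≠ d)
    (Φ : Corr c a) (Ψ : Corr d b) (p : Pt c) (q : Pt d) (hp : p ≠ 0) (hq : q ≠ 0)
    (ht : xc q = xc p) (ht0 : xc p ≠ 0) (ht1 : xc p ≠ 1) (htc : xc p ≠ c)
    (htd : xc p ≠ d) :
    2 • zz (Φ.base p) (Ψ.base q) ∈ ratZero a b := by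
  -- the reduction to the statement of `key`
  have main : ∃ (T : Pt c) (q0 : Pt d), -T = T ∧
      Finsupp.single (Φ.base p, Ψ.base q) (1 : ℤ) +
        Finsupp.single (Φ.base (-p), Ψ.base (-q)) 1
        - Finsupp.single (Φ.base T, Ψ.base q0) 1
        - Finsupp.single (Φ.base T, Ψ.base (-q0)) 1 ∈ ratZero a b := by
    have h2k : (2 : k) ≠ 0 := two_ne_zero
    rcases p with _ | ⟨t, y1, hpn⟩
    · exact absurd rfl hp
    rcases q with _ | ⟨t', y2, hqn⟩
    · exact absurd rfl hq
    have ht' : t = t' := ht.symm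
    subst ht'
    change t ≠ 0 at ht0
    change t ≠ 1 at ht1
    change t ≠ c at htc
    change t ≠ d at htd
    have e1 : y1 ^ 2 = t * (t - 1) * (t - c) := (leg_nonsingular c t y1 h2k hc0 hc1).1 hpn
    have e2' : y2 ^ 2 = t * (t - 1) * (t - d) :=
      (leg_nonsingular d t y2 h2k hd0 hd1).1 hqn
    have hcc : c - d ≠ 0 := sub_ne_zero.2 hcd
    have htd : t - d ≠ 0 := sub_ne_zero.2 htd
    have hy1 : y1 ≠ 0 := by
      intro h0
      rw [h0] at e1
      have : t * (t - 1) * (t - c) = 0 := by rw [← e1]; ring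
      rcases mul_eq_zero.1 this with h | h
      · rcases mul_eq_zero.1 h with h | h
        · exact ht0 h
        · exact ht1 (sub_eq_zero.1 h)
      · exact htc (sub_eq_zero.1 h)
    have hy2 : y2 ≠ 0 := by
      intro h0
      rw [h0] at e2'
      have : t * (t - 1) * (t - d) = 0 := by rw [← e2']; ring
      rcases mul_eq_zero.1 this with h | h
      · rcases mul_eq_zero.1 h with h | h
        · exact ht0 h
        · exact ht1 (sub_eq_zero.1 h)
      · exact htd h
    -- the polynomial
    set h : k[X] := C (c - d) * (C c - C d * X ^ 2) * (C (c - 1) - C (d - 1) * X ^ 2) *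
      (1 - X ^ 2) with hh
    have heval : ∀ z : k, h.eval z = (c - d) * (c - d * z ^ 2) *
        ((c - 1) - (d - 1) * z ^ 2) * (1 - z ^ 2) := by
      intro z
      simp [hh]
    have hns : ¬ IsSquare h := by
      rintro ⟨g, hg⟩
      have h1 : h.eval 1 = 0 := by rw [heval]; ring
      have h2 : g.eval 1 = 0 := by
        rw [hg, eval_mul] at h1
        exact mul_self_eq_zero.1 h1
      have h3 : (derivative h).eval 1 = 0 := by
        rw [hg, derivative_mul, eval_add, eval_mul, eval_mul, h2]; ring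
      have h4 : (derivative h).eval 1 = -2 * (c - d) ^ 3 := by
        rw [hh]
        simp only [derivative_mul, derivative_sub, derivative_C, derivative_one, derivative_X_pow,
          eval_add, eval_mul, eval_sub, eval_C, eval_pow, eval_X, eval_one, eval_zero]
        simp
        ring
      rw [h4] at h3
      rcases mul_eq_zero.1 h3 with h5 | h5
      · exact h2k (neg_eq_zero.1 h5)
      · exact hcc (pow_eq_zero_iff (by norm_num) |>.1 h5)
    obtain ⟨K, fK, aK, s, y, H⟩ := exists_quad h hns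
    have h2K : (2 : K) ≠ 0 := by
      have : algebraMap k K 2 ≠ 0 := by rw [Ne, map_eq_zero]; exact h2k
      rwa [map_ofNat] at this
    have hc0K : algebraMap k K c ≠ 0 := by rw [Ne, map_eq_zero]; exact hc0
    have hc1K : algebraMap k K c ≠ 1 := by
      intro h0
      exact hc1 ((algebraMap k K).injective (by rw [h0, map_one]))
    have hd0K : algebraMap k K d ≠ 0 := by rw [Ne, map_eq_zero]; exact hd0
    have hd1K : algebraMap k K d ≠ 1 := by
      intro h0
      exact hd1 ((algebraMap k K).injective (by rw [h0, map_one]))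
    have hD : (1 : K) - s ^ 2 ≠ 0 := by
      intro h0
      have h1 := H.indep (1 - X ^ 2) 0 (by simpa using h0)
      have h2 : ((1 - X ^ 2 : k[X])).eval 0 = 0 := by rw [h1.1]; simp
      simp at h2
    have hsq : y ^ 2 = (algebraMap k K c - algebraMap k K d) *
        (algebraMap k K c - algebraMap k K d * s ^ 2) *
        ((algebraMap k K c - 1) - (algebraMap k K d - 1) * s ^ 2) * (1 - s ^ 2) := by
      rw [H.sq, hh]
      simp
    set Tt : K := (algebraMap k K c - algebraMap k K d * s ^ 2) / (1 - s ^ 2) with hTt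
    set Y2 : K := y / (1 - s ^ 2) ^ 2 with hY2
    set Y1 : K := s * Y2 with hY1
    have eT1 : Tt - 1 = ((algebraMap k K c - 1) - (algebraMap k K d - 1) * s ^ 2) / (1 - s ^ 2) := by
      rw [hTt]; field_simp; ring
    have eTd : Tt - algebraMap k K d = (algebraMap k K c - algebraMap k K d) / (1 - s ^ 2) := by
      rw [hTt]; field_simp; ring
    have eTc : Tt - algebraMap k K c = s ^ 2 * (Tt - algebraMap k K d) := by
      rw [eTd, hTt]; field_simp; ring
    have eY2 : Y2 ^ 2 = Tt * (Tt - 1) * (Tt - algebraMap k K d) := by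
      rw [eT1, eTd, hTt, hY2, div_pow, hsq]
      field_simp
    have eqY1 : Y1 ^ 2 = Tt * (Tt - 1) * (Tt - algebraMap k K c) := by
      rw [eTc, hY1]
      have : (s * Y2) ^ 2 = s ^ 2 * Y2 ^ 2 := by ring
      rw [this, eY2]; ring
    have nX : (leg (algebraMap k K c)).toAffine.Nonsingular Tt Y1 :=
      (leg_nonsingular _ _ _ h2K hc0K hc1K).2 eqY1
    have nE : (leg (algebraMap k K d)).toAffine.Nonsingular Tt Y2 :=
      (leg_nonsingular _ _ _ h2K hd0K hd1K).2 eY2
    -- the special points
    obtain ⟨e, he⟩ := IsAlgClosed.exists_pow_nat_eq (h.eval 0) (n := 2) (by norm_num)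
    have he' : e ^ 2 = (c - d) * c * (c - 1) := by rw [he, heval]; ring
    have he0 : e ≠ 0 := by
      intro h0
      rw [h0] at he'
      have h1 : (c - d) * c * (c - 1) = 0 := by linear_combination -he'
      rcases mul_eq_zero.1 h1 with h1 | h1
      · rcases mul_eq_zero.1 h1 with h1 | h1
        · exact hcc h1
        · exact hc0 h1
      · exact hc1 (sub_eq_zero.1 h1)
    have nT : (leg c).toAffine.Nonsingular c 0 :=
      (leg_nonsingular _ _ _ h2k hc0 hc1).2 (by ring)
    have nq : (leg d).toAffine.Nonsingular c e :=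
      (leg_nonsingular _ _ _ h2k hd0 hd1).2 (by rw [he']; ring)
    have hs0' : ∃ s0 : k, s0 = y1 / y2 := ⟨_, rfl⟩
    obtain ⟨s0, hs0⟩ := hs0'
    have hs0ne : s0 ≠ 0 := by
      rw [hs0]
      exact div_ne_zero hy1 hy2
    have hs0sq : s0 ^ 2 * (t - d) = t - c := by
      have hA : s0 * y2 = y1 := by rw [hs0]; field_simp
      have hB : s0 ^ 2 * y2 ^ 2 = y1 ^ 2 := by
        have : (s0 * y2) ^ 2 = y1 ^ 2 := by rw [hA]
        rw [mul_pow] at this
        rw [this]
      rw [e1, e2'] at hB
      have hC : t * (t - 1) ≠ 0 := mul_ne_zero ht0 (sub_ne_zero.2 ht1)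
      have : t * (t - 1) * (s0 ^ 2 * (t - d)) = t * (t - 1) * (t - c) := by
        linear_combination hB
      exact mul_left_cancel₀ hC this
    have hone : (1 - s0 ^ 2) * (t - d) = c - d := by linear_combination -hs0sq
    have hone0 : 1 - s0 ^ 2 ≠ 0 := by
      intro h0; rw [h0, zero_mul] at hone; exact hcc hone.symm
    have hTs0 : (c - d * s0 ^ 2) = t * (1 - s0 ^ 2) := by
      have : (t - d) * (c - d * s0 ^ 2) = (t - d) * (t * (1 - s0 ^ 2)) := by
        linear_combination (t - d) * hs0sq
      exact mul_left_cancel₀ htd this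
    have hc0sq : (y2 * (1 - s0 ^ 2) ^ 2) ^ 2 = h.eval s0 := by
      rw [heval, mul_pow, e2', ← hone]
      have h7 : (c - 1 - (d - 1) * s0 ^ 2) = (t - 1) * (1 - s0 ^ 2) := by
        linear_combination hTs0
      rw [h7, hTs0]; ring
    have hc0ne : y2 * (1 - s0 ^ 2) ^ 2 ≠ 0 := mul_ne_zero hy2 (pow_ne_zero _ hone0)
    refine ⟨Affine.Point.some c 0 nT, Affine.Point.some c e nq, ?_, ?_⟩
    · rw [Affine.Point.neg_some]
      have h9 : (leg c).toAffine.negY c 0 = 0 := by rw [os_negY, neg_zero]
      simp only [h9]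
    -- specialisation of the coordinates
    have spD : ∀ (w : Place k K) (z : k), w.v (s - algebraMap k K z) < 1 →
        w.v ((1 - s ^ 2) - algebraMap k K (1 - z ^ 2)) < 1 := by
      intro w z hz
      exact os_sub w (x := 1) (X := 1) (by simp) (os_pow2 w hz)
    have spT : ∀ (w : Place k K) (z : k), 1 - z ^ 2 ≠ 0 → w.v (s - algebraMap k K z) < 1 →
        w.v (Tt - algebraMap k K ((c - d * z ^ 2) / (1 - z ^ 2))) < 1 := by
      intro w z hz0 hz
      exact os_div w hz0 (os_sub w (os_const w c) (os_mul w (os_const w d) (os_pow2 w hz)))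
        (spD w z hz)
    have spY2 : ∀ (w : Place k K) (z u : k), 1 - z ^ 2 ≠ 0 → w.v (s - algebraMap k K z) < 1 →
        w.v (y - algebraMap k K u) < 1 →
        w.v (Y2 - algebraMap k K (u / (1 - z ^ 2) ^ 2)) < 1 := by
      intro w z u hz0 hz hu
      exact os_div w (pow_ne_zero _ hz0) hu (os_pow2 w (spD w z hz))
    have spY1 : ∀ (w : Place k K) (z u : k), 1 - z ^ 2 ≠ 0 → w.v (s - algebraMap k K z) < 1 →
        w.v (y - algebraMap k K u) < 1 →
        w.v (Y1 - algebraMap k K (z * (u / (1 - z ^ 2) ^ 2))) < 1 := by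
      intro w z u hz0 hz hu
      exact os_mul w hz (spY2 w z u hz0 hz hu)
    have vT : (c - d * s0 ^ 2) / (1 - s0 ^ 2) = t := by
      rw [hTs0]; field_simp
    have vY2 : y2 * (1 - s0 ^ 2) ^ 2 / (1 - s0 ^ 2) ^ 2 = y2 := by
      field_simp
    have vY1 : s0 * y2 = y1 := by
      rw [hs0]
      field_simp
    have h00 : (1 : k) - 0 ^ 2 ≠ 0 := by norm_num
    have hneg : ∀ (w : Place k K) (u : k), w.v (y + algebraMap k K u) < 1 →
        w.v (y - algebraMap k K (-u)) < 1 := by
      intro w u hu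
      rw [map_neg, sub_neg_eq_add]; exact hu
    refine H.key (Φ.map K (Affine.Point.some Tt Y1 nX)) (Ψ.map K (Affine.Point.some Tt Y2 nE))
      hs0ne hc0sq hc0ne he he0 _ _ _ _ _ _ _ _ ?_ ?_ ?_ ?_
    · intro w hw1 hw2
      refine ⟨Φ.spec K w _ _ ?_, Ψ.spec K w _ _ ?_⟩
      · refine ⟨?_, ?_⟩
        · have := spT w s0 hone0 hw1
          rwa [vT] at this
        · have := spY1 w s0 _ hone0 hw1 hw2
          rwa [vY2, vY1] at this
      · refine ⟨?_, ?_⟩
        · have := spT w s0 hone0 hw1
          rwa [vT] at this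
        · have := spY2 w s0 _ hone0 hw1 hw2
          rwa [vY2] at this
    · intro w hw1 hw2
      have hw2' := hneg w _ hw2
      refine ⟨Φ.spec K w _ _ ?_, Ψ.spec K w _ _ ?_⟩
      · rw [Affine.Point.neg_some]
        refine ⟨?_, ?_⟩
        · have := spT w s0 hone0 hw1
          rwa [vT] at this
        · have := spY1 w s0 _ hone0 hw1 hw2'
          rw [os_negY]
          rwa [neg_div, vY2, mul_neg, vY1] at this
      · rw [Affine.Point.neg_some]
        refine ⟨?_, ?_⟩
        · have := spT w s0 hone0 hw1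
          rwa [vT] at this
        · have := spY2 w s0 _ hone0 hw1 hw2'
          rw [os_negY]
          rwa [neg_div, vY2] at this
    · intro w hw1 hw2
      refine ⟨Φ.spec K w _ _ ?_, Ψ.spec K w _ _ ?_⟩
      · refine ⟨?_, ?_⟩
        · have := spT w 0 h00 hw1
          have h9 : (c - d * (0 : k) ^ 2) / (1 - 0 ^ 2) = c := by simp
          rwa [h9] at this
        · have := spY1 w 0 _ h00 hw1 hw2
          have h9 : (0 : k) * (e / (1 - 0 ^ 2) ^ 2) = 0 := by simp
          rwa [h9] at this
      · refine ⟨?_, ?_⟩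
        · have := spT w 0 h00 hw1
          have h9 : (c - d * (0 : k) ^ 2) / (1 - 0 ^ 2) = c := by simp
          rwa [h9] at this
        · have := spY2 w 0 _ h00 hw1 hw2
          have h9 : (e / (1 - (0 : k) ^ 2) ^ 2) = e := by simp
          rwa [h9] at this
    · intro w hw1 hw2
      have hw2' := hneg w _ hw2
      refine ⟨Φ.spec K w _ _ ?_, Ψ.spec K w _ _ ?_⟩
      · refine ⟨?_, ?_⟩
        · have := spT w 0 h00 hw1
          have h9 : (c - d * (0 : k) ^ 2) / (1 - 0 ^ 2) = c := by simp
          rwa [h9] at this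
        · have := spY1 w 0 _ h00 hw1 hw2'
          have h9 : (0 : k) * (-e / (1 - 0 ^ 2) ^ 2) = 0 := by simp
          rwa [h9] at this
      · rw [Affine.Point.neg_some]
        refine ⟨?_, ?_⟩
        · have := spT w 0 h00 hw1
          have h9 : (c - d * (0 : k) ^ 2) / (1 - 0 ^ 2) = c := by simp
          rwa [h9] at this
        · have := spY2 w 0 _ h00 hw1 hw2'
          have h9 : (-e / (1 - (0 : k) ^ 2) ^ 2) = -e := by simp
          rw [os_negY]
          rwa [h9] at this
  obtain ⟨T, q0, hT, hmain⟩ := main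
  rw [Φ.odd, Ψ.odd, Ψ.odd] at hmain
  have hST : -(Φ.base T) = Φ.base T := by rw [← Φ.odd, hT]
  let f : Pt a → Pt b → (Cycles a b ⧸ ratZero a b) := fun P Q =>
    QuotientAddGroup.mk' (ratZero a b) (Finsupp.single (P, Q) 1)
  have hker : ∀ z : Cycles a b, z ∈ ratZero a b →
      QuotientAddGroup.mk' (ratZero a b) z = 0 := by
    intro z hz
    rwa [← AddMonoidHom.mem_ker, QuotientAddGroup.ker_mk']
  have hf := os_alg f
    (fun P P' R => by
      have := hker _ (add_left ha0 ha1 hb0 hb1 P P' R)
      simpa only [map_sub, map_add] using this)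
    (fun P R R' => by
      have := hker _ (add_right ha0 ha1 hb0 hb1 P R R')
      simpa only [map_sub, map_add] using this)
    (Φ.base p) (Φ.base T) (Ψ.base q) (Ψ.base q0) hST
    (by
      have := hker _ hmain
      simpa only [map_sub, map_add] using this)
  have hfin : QuotientAddGroup.mk' (ratZero a b) (2 • zz (Φ.base p) (Ψ.base q)) = 0 := by
    rw [map_nsmul, zz]
    simpa only [map_sub, map_add] using hf
  rwa [← AddMonoidHom.mem_ker, QuotientAddGroup.ker_mk'] at hfin

end ZC
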