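import Pool.Agent.ZC.DefsN
import Pool.Agent.ZC.Basic
import Pool.Agent.ZC.ResAux
import Pool.Agent.ZC.Line

/-!
Module PushN (project ZC, helper83).  Push forward along (P,Q) -> (R with i := P, j := Q).
PROOF.  A principal cycle (K,x_1,x_2,f) goes to the principal cycle (K, x, f) with x i = x_1, x j = x_2,
x l = constant point R l (line_const in Line.lean: exists Q' with SpecializesTo w Q' Q for all w; uniqueness
SpecializesTo.unique in ResAux).  mapDomain along the injective map pushPt: the coefficient at p is
0 unless p l = R l for all l != i, j, and then it is c (p i, p j).  Then AddSubgroup.closure_induction.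
-/

namespace ZC

open Polynomial WeierstrassCurve
open scoped Classical

variable {k : Type} [Field k] [IsAlgClosed k] [CharZero k]

/-- replace the coordinates `i` and `j` of `R` -/
noncomputable def pushPt {k : Type} [Field k] {ι : Type} {a : ι → k} (i j : ι)
    (R : ∀ l, Pt (a l)) (z : Pt (a i) × Pt (a j)) : ∀ l, Pt (a l) :=
  Function.update (Function.update R i z.1) j z.2

omit [IsAlgClosed k] [CharZero k] in
private theorem pushPt_i {ι : Type} {a : ι → k} {i j : ι} (hij : i ≠ j)
    (R : ∀ l, Pt (a l)) (z : Pt (a i) × Pt (a j)) : pushPt i j R z i = z.1 := by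
  unfold pushPt
  rw [Function.update_of_ne hij, Function.update_self]

omit [IsAlgClosed k] [CharZero k] in
private theorem pushPt_j {ι : Type} {a : ι → k} {i j : ι}
    (R : ∀ l, Pt (a l)) (z : Pt (a i) × Pt (a j)) : pushPt i j R z j = z.2 := by
  unfold pushPt
  rw [Function.update_self]

omit [IsAlgClosed k] [CharZero k] in
private theorem pushPt_ne {ι : Type} {a : ι → k} {i j l : ι} (hi : l ≠ i) (hj : l ≠ j)
    (R : ∀ l, Pt (a l)) (z : Pt (a i) × Pt (a j)) : pushPt i j R z l = R l := by
  unfold pushPt
  rw [Function.update_of_ne hj, Function.update_of_ne hi]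

omit [IsAlgClosed k] [CharZero k] in
private theorem pushPt_inj {ι : Type} {a : ι → k} {i j : ι} (hij : i ≠ j)
    (R : ∀ l, Pt (a l)) : Function.Injective (pushPt (a := a) i j R) := by
  intro z z' h
  have h1 := congrFun h i
  have h2 := congrFun h j
  rw [pushPt_i hij, pushPt_i hij] at h1
  rw [pushPt_j, pushPt_j] at h2
  exact Prod.ext h1 h2

private theorem push_principal {ι : Type} (a : ι → k) (ha : ∀ i, a i ≠ 0 ∧ a i ≠ 1) {i j : ι}
    (hij : i ≠ j) (R : ∀ l, Pt (a l)) (c : Cycles (a i) (a j)) (hc : IsPrincipal (a i) (a j) c) :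
    IsPrincipalN a (Finsupp.mapDomain (pushPt i j R) c) := by
  obtain ⟨K, iK, iA, hK, x1, x2, f, hf, h⟩ := hc
  choose C hC using fun l => line_const K (ha l).1 (ha l).2 (R l)
  let x : ∀ l, Pt (algebraMap k K (a l)) := Function.update (Function.update C i x1) j x2
  have hxi : x i = x1 := by
    show Function.update (Function.update C i x1) j x2 i = x1
    rw [Function.update_of_ne hij, Function.update_self]
  have hxj : x j = x2 := by
    show Function.update (Function.update C i x1) j x2 j = x2
    rw [Function.update_self]
  have hxl : ∀ l, l ≠ i → l ≠ j → x l = C l := by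
    intro l hi hj
    show Function.update (Function.update C i x1) j x2 l = C l
    rw [Function.update_of_ne hj, Function.update_of_ne hi]
  refine ⟨K, iK, iA, hK, x, f, hf, fun p => ?_⟩
  by_cases hp : ∀ l, l ≠ i → l ≠ j → p l = R l
  · have hp' : p = pushPt i j R (p i, p j) := by
      funext l
      by_cases hi : l = i
      · subst hi
        rw [pushPt_i hij]
      · by_cases hj : l = j
        · subst hj
          rw [pushPt_j]
        · rw [pushPt_ne hi hj, hp l hi hj]
    have e : ∀ w : Place k K, (∀ l, SpecializesTo w (x l) (p l)) ↔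
        (SpecializesTo w x1 (p i) ∧ SpecializesTo w x2 (p j)) := by
      intro w
      constructor
      · intro hw
        have h1 := hw i
        have h2 := hw j
        rw [hxi] at h1
        rw [hxj] at h2
        exact ⟨h1, h2⟩
      · rintro ⟨h1, h2⟩ l
        by_cases hi : l = i
        · subst hi
          rw [hxi]
          exact h1
        · by_cases hj : l = j
          · subst hj
            rw [hxj]
            exact h2
          · rw [hxl l hi hj, hp l hi hj]
            exact hC l w
    have h1 : Finsupp.mapDomain (pushPt i j R) c p = c (p i, p j) := by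
      conv_lhs => rw [hp']
      rw [Finsupp.mapDomain_apply (pushPt_inj hij R)]
    rw [h1, h (p i) (p j)]
    apply finsum_congr
    intro w
    rw [show (∀ l, SpecializesTo w (x l) (p l)) =
      (SpecializesTo w x1 (p i) ∧ SpecializesTo w x2 (p j)) from propext (e w)]
  · have h1 : Finsupp.mapDomain (pushPt i j R) c p = 0 := by
      apply Finsupp.mapDomain_of_notMem_range
      rintro ⟨z, rfl⟩
      apply hp
      intro l hi hj
      exact pushPt_ne hi hj R z
    rw [h1]
    push Not at hp
    obtain ⟨l, hi, hj, hl⟩ := hp
    symm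
    apply finsum_eq_zero_of_forall_eq_zero
    intro w
    have hw : ¬ ∀ l, SpecializesTo w (x l) (p l) := by
      intro hw
      have h2 := hw l
      rw [hxl l hi hj] at h2
      exact hl (SpecializesTo.unique h2 (hC l w))
    rw [finsum_eq_if, if_neg hw]

theorem push_ratZero {ι : Type} (a : ι → k) (ha : ∀ i, a i ≠ 0 ∧ a i ≠ 1) {i j : ι} (hij : i ≠ j)
    (R : ∀ l, Pt (a l)) (c : Cycles (a i) (a j)) (hc : c ∈ ratZero (a i) (a j)) :
    Finsupp.mapDomain (pushPt i j R) c ∈ ratZeroN a := by
  have h : ratZero (a i) (a j) ≤ (ratZeroN a).comap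
      (Finsupp.mapDomain.addMonoidHom (M := ℤ) (pushPt (a := a) i j R)) := by
    unfold ratZero
    rw [AddSubgroup.closure_le]
    intro c hc
    exact AddSubgroup.subset_closure (push_principal a ha hij R c hc)
  exact h hc

end ZC
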