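import Pool.Agent.ZC.Basic

/-!
Module Quad (project ZC, helper83).  Existence of the quadratic function field k(s)(sqrt h).
PROOF. Let F = RatFunc k, q = X^2 - C (algebraMap h) in F[X].  q is irreducible: degree 2, monic, and a
root r in F would satisfy r^2 = h, so r is integral over k[X] (integrally closed in its fraction field
F), hence r = algebraMap g with g^2 = h, contradiction to hns.  K = AdjoinRoot q (field, Fact
irreducible), s = algebraMap F K RatFunc.X, y = AdjoinRoot.root q.  For a polynomial A,
aeval s A = algebraMap F K (algebraMap k[X] F A).  gen: every element of K is u + v*y with u v in F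
(power basis of degree 2 / AdjoinRoot.mk surjective and modByMonic of degree < 2), clear the common
denominator.  indep: u + v*y = 0 with u v in F forces u = v = 0 (minpoly has degree 2), and
algebraMap k[X] F is injective.  ff: t = s is transcendental (F -> K injective, RatFunc.X transcendental)
and K is finite over adjoin k {s}: the image of F in K is contained in adjoin k {s} and K is spanned by
1, y over it.
-/

namespace ZC

open Polynomial WeierstrassCurve
open scoped Classical

variable {k : Type} [Field k] [IsAlgClosed k] [CharZero k]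

private theorem quad_irred {k : Type} [Field k] (h : k[X]) (hns : ¬ IsSquare h) :
    Irreducible (X ^ 2 - C (algebraMap k[X] (RatFunc k) h) : (RatFunc k)[X]) := by
  have hm : (X ^ 2 - C (algebraMap k[X] (RatFunc k) h) : (RatFunc k)[X]).Monic :=
    monic_X_pow_sub_C _ (by norm_num)
  have hd : (X ^ 2 - C (algebraMap k[X] (RatFunc k) h) : (RatFunc k)[X]).natDegree = 2 :=
    natDegree_X_pow_sub_C
  rw [hm.irreducible_iff_roots_eq_zero_of_degree_le_three (by rw [hd]) (by rw [hd]; norm_num)]
  by_contra hne
  obtain ⟨r, hr⟩ := Multiset.exists_mem_of_ne_zero hne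
  rw [mem_roots hm.ne_zero, IsRoot.def] at hr
  simp only [eval_sub, eval_pow, eval_X, eval_C] at hr
  have hr2 : r ^ 2 = algebraMap k[X] (RatFunc k) h := by linear_combination hr
  have hint : IsIntegral k[X] r := by
    apply IsIntegral.of_pow (n := 2) (by norm_num)
    rw [hr2]
    exact isIntegral_algebraMap
  obtain ⟨g, hg⟩ := IsIntegrallyClosed.isIntegral_iff.mp hint
  apply hns
  refine ⟨g, ?_⟩
  apply RatFunc.algebraMap_injective k
  rw [_root_.map_mul, hg, ← hr2, sq]

theorem exists_quad (h : k[X]) (hns : ¬ IsSquare h) :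
    ∃ (K : Type) (_ : Field K) (_ : Algebra k K) (s y : K), IsQuad k K h s y := by
  set q : (RatFunc k)[X] := X ^ 2 - C (algebraMap k[X] (RatFunc k) h) with hq
  have : Fact (Irreducible q) := ⟨quad_irred h hns⟩
  have hm : q.Monic := monic_X_pow_sub_C _ (by norm_num)
  have hd : q.natDegree = 2 := natDegree_X_pow_sub_C
  set s : AdjoinRoot q := algebraMap (RatFunc k) (AdjoinRoot q) RatFunc.X with hs
  have hae : ∀ A : k[X], aeval s A =
      algebraMap (RatFunc k) (AdjoinRoot q) (algebraMap k[X] (RatFunc k) A) := by
    intro A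
    rw [hs, aeval_algebraMap_apply, RatFunc.aeval_X_left_eq_algebraMap]
  have hinj : Function.Injective (algebraMap (RatFunc k) (AdjoinRoot q)) :=
    (algebraMap (RatFunc k) (AdjoinRoot q)).injective
  have hne : ∀ A : k[X], A ≠ 0 → aeval s A ≠ 0 := by
    intro A hA h0
    rw [hae] at h0
    apply hA
    apply RatFunc.algebraMap_injective k
    apply hinj
    rw [h0, _root_.map_zero, _root_.map_zero]
  have hsq : (AdjoinRoot.root q) ^ 2 = aeval s h := by
    rw [hae]
    have h1 := AdjoinRoot.eval₂_root q
    rw [hq] at h1
    simp only [eval₂_sub, eval₂_X_pow, eval₂_C] at h1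
    rw [AdjoinRoot.algebraMap_eq]
    exact sub_eq_zero.mp h1
  have hgen : ∀ f : AdjoinRoot q, ∃ A B C : k[X], C ≠ 0 ∧
      f * aeval s C = aeval s A + aeval s B * AdjoinRoot.root q := by
    intro f
    obtain ⟨p, rfl⟩ := AdjoinRoot.mk_surjective f
    have h1 : (p %ₘ q).natDegree < 2 := by
      rw [← hd]
      exact natDegree_modByMonic_lt p hm (by rw [← C_1]; intro h2; rw [h2, natDegree_C] at hd; omega)
    obtain ⟨v, u, h2⟩ := exists_eq_X_add_C_of_natDegree_le_one (by omega : (p %ₘ q).natDegree ≤ 1)
    have h3 : AdjoinRoot.mk q p = algebraMap (RatFunc k) (AdjoinRoot q) u +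
        algebraMap (RatFunc k) (AdjoinRoot q) v * AdjoinRoot.root q := by
      conv_lhs => rw [← modByMonic_add_div p q]
      rw [_root_.map_add, _root_.map_mul, AdjoinRoot.mk_self, zero_mul, add_zero, h2,
        _root_.map_add, _root_.map_mul, AdjoinRoot.mk_X, AdjoinRoot.mk_C, AdjoinRoot.mk_C,
        AdjoinRoot.algebraMap_eq]
      ring
    refine ⟨u.num * v.denom, v.num * u.denom, u.denom * v.denom,
      mul_ne_zero (RatFunc.denom_ne_zero u) (RatFunc.denom_ne_zero v), ?_⟩
    have hud : ∀ u : RatFunc k,
        u * algebraMap k[X] (RatFunc k) u.denom = algebraMap k[X] (RatFunc k) u.num := by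
      intro u
      rw [eq_comm, ← div_eq_iff (RatFunc.algebraMap_ne_zero (RatFunc.denom_ne_zero u))]
      exact RatFunc.num_div_denom u
    have hu := hud u
    have hv := hud v
    rw [h3]
    simp only [hae, _root_.map_mul]
    rw [← hu, ← hv]
    simp only [_root_.map_mul]
    ring
  refine ⟨AdjoinRoot q, inferInstance, inferInstance, s, AdjoinRoot.root q, ?_, hsq, hgen, ?_⟩
  · -- function field
    refine ⟨s, ?_, ?_⟩
    · rw [hs, transcendental_algebraMap_iff hinj]
      exact RatFunc.transcendental_X
    · have hmem : ∀ A : k[X], aeval s A ∈ IntermediateField.adjoin k {s} := by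
        intro A
        exact IntermediateField.algebra_adjoin_le_adjoin k {s}
          (aeval_mem_adjoin_singleton k s)
      refine ⟨⟨{1, AdjoinRoot.root q}, ?_⟩⟩
      rw [eq_top_iff]
      rintro f -
      obtain ⟨A, B, C', hC, hf⟩ := hgen f
      have hC' := hne C' hC
      rw [Finset.coe_insert, Finset.coe_singleton, Submodule.mem_span_pair]
      refine ⟨⟨aeval s A / aeval s C', div_mem (hmem A) (hmem C')⟩,
        ⟨aeval s B / aeval s C', div_mem (hmem B) (hmem C')⟩, ?_⟩
      rw [IntermediateField.smul_def, IntermediateField.smul_def, smul_eq_mul, smul_eq_mul]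
      simp only
      field_simp
      linear_combination -hf
  · -- independence
    intro A B hAB
    rw [hae, hae] at hAB
    have h1 : AdjoinRoot.mk q (C (algebraMap k[X] (RatFunc k) A) +
        C (algebraMap k[X] (RatFunc k) B) * X) = 0 := by
      rw [_root_.map_add, _root_.map_mul, AdjoinRoot.mk_X, AdjoinRoot.mk_C, AdjoinRoot.mk_C]
      exact hAB
    rw [AdjoinRoot.mk_eq_zero] at h1
    have h2 : C (algebraMap k[X] (RatFunc k) A) + C (algebraMap k[X] (RatFunc k) B) * X = 0 := by
      apply eq_zero_of_dvd_of_natDegree_lt h1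
      rw [hd]
      have : (C (algebraMap k[X] (RatFunc k) A) +
          C (algebraMap k[X] (RatFunc k) B) * X).natDegree ≤ 1 := by
        rw [add_comm]
        exact natDegree_linear_le
      omega
    have h3 := congrArg (fun p => coeff p 0) h2
    have h4 := congrArg (fun p => coeff p 1) h2
    simp at h3 h4
    exact ⟨h3, h4⟩

end ZC
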