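import Pool.Agent.ZC.Arith

/-!
Module Tower1 (project ZC, helper83; proofs by helper59).
PROOF.  exists_tower: given alpha_n != 0,1 the equation alpha (1+X)^2 = 4X, i.e. alpha X^2 + (2 alpha - 4) X + alpha = 0, has a
root mu in Qbar, mu != 0 (alpha != 0), 1/mu is also a root; choose the one with |iota mu| <= 1.
mu != 1 (4 alpha = 4), mu != -1 (0 = -4).  alpha_{n+1} = mu^2 != 0,1.  (Recursion on a subtype.)
The facts about alpha, mu also hold for every tower (prove them as a separate lemma: IsTower.ne).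
small: 4|mu_n| = |alpha_n||1+mu_n|^2 <= 4|alpha_n|, so |mu_n| <= |alpha_n| and
|alpha_{n+1}| = |mu_n|^2 <= |alpha_n|^2.  Some |alpha_N| < 1: if |mu_0| < 1 take N = 1.  If |mu_0| = 1 then |alpha_1| = 1;
if also |mu_1| = 1, then |1 + mu_1|^2 = 4, so mu_1 = 1, contradiction; so |mu_1| < 1, N = 2.
delta = |alpha_N| > 0.  (work with iota of everything)
-/

namespace ZC

open Polynomial WeierstrassCurve
open scoped Classical

theorem IsTower.ne {ι : AlgebraicClosure ℚ →+* ℂ} {a : AlgebraicClosure ℚ}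
    {α μ : ℕ → AlgebraicClosure ℚ} (H : IsTower ι a α μ) (ha0 : a ≠ 0) (ha1 : a ≠ 1) :
    (∀ n, α n ≠ 0 ∧ α n ≠ 1) ∧ (∀ n, μ n ≠ 0 ∧ μ n ≠ 1 ∧ μ n ≠ -1) := by
  have key : ∀ n, α n ≠ 0 → α n ≠ 1 → μ n ≠ 0 ∧ μ n ≠ 1 ∧ μ n ≠ -1 := by
    intro n h0 h1
    have hr := H.rel n
    refine ⟨fun h => ?_, fun h => ?_, fun h => ?_⟩
    · rw [h] at hr
      apply h0
      linear_combination hr
    · rw [h] at hr
      apply h1
      linear_combination hr / 4
    · rw [h] at hr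
      have : (4 : AlgebraicClosure ℚ) = 0 := by linear_combination hr
      norm_num at this
  have hα : ∀ n, α n ≠ 0 ∧ α n ≠ 1 := by
    intro n
    induction n with
    | zero => rw [H.zero]; exact ⟨ha0, ha1⟩
    | succ n ih =>
      obtain ⟨k0, k1, k2⟩ := key n ih.1 ih.2
      rw [H.succ]
      refine ⟨pow_ne_zero 2 k0, fun h => ?_⟩
      rcases sq_eq_sq_iff_eq_or_eq_neg.1 (h.trans (one_pow 2).symm) with h | h
      · exact k1 h
      · exact k2 h
  exact ⟨hα, fun n => key n (hα n).1 (hα n).2⟩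

private theorem tower1_step (ι : AlgebraicClosure ℚ →+* ℂ) (a : AlgebraicClosure ℚ) :
    ∃ m : AlgebraicClosure ℚ, a * (1 + m) ^ 2 = 4 * m ∧ ‖ι m‖ ≤ 1 := by
  by_cases ha : a = 0
  · exact ⟨0, by rw [ha]; ring, by rw [map_zero, norm_zero]; norm_num⟩
  obtain ⟨κ, hκ⟩ := IsAlgClosed.exists_pow_nat_eq (1 - a) (n := 2) (by norm_num)
  have h1 : 1 + κ ≠ 0 := by
    intro h
    apply ha
    have : κ = -1 := by linear_combination h
    rw [this] at hκ
    linear_combination hκ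
  have h2 : 1 - κ ≠ 0 := by
    intro h
    apply ha
    have : κ = 1 := by linear_combination -h
    rw [this] at hκ
    linear_combination hκ
  have ha' : a = 1 - κ ^ 2 := by linear_combination hκ
  by_cases hle : ‖ι ((1 - κ) / (1 + κ))‖ ≤ 1
  · refine ⟨(1 - κ) / (1 + κ), ?_, hle⟩
    rw [ha']
    field_simp
    ring
  · refine ⟨(1 + κ) / (1 - κ), ?_, ?_⟩
    · rw [ha']
      field_simp
      ring
    · have h3 : (1 + κ) / (1 - κ) = ((1 - κ) / (1 + κ))⁻¹ := by rw [inv_div]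
      rw [h3, map_inv₀, norm_inv]
      push Not at hle
      exact inv_le_one_of_one_le₀ hle.le

theorem exists_tower (ι : AlgebraicClosure ℚ →+* ℂ) {a : AlgebraicClosure ℚ} (ha0 : a ≠ 0)
    (ha1 : a ≠ 1) : ∃ α μ, IsTower ι a α μ := by
  choose f hf1 hf2 using tower1_step ι
  refine ⟨fun n => (fun x => f x ^ 2)^[n] a, fun n => f ((fun x => f x ^ 2)^[n] a), ?_, ?_, ?_, ?_⟩
  · rfl
  · intro n
    simp only [Function.iterate_succ_apply']
  · intro n
    exact hf1 _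
  · intro n
    exact hf2 _

private theorem tower1_norm {z w : ℂ} (hz : ‖z‖ ≤ 1) (h : w * (1 + z) ^ 2 = 4 * z) :
    ‖z‖ ≤ ‖w‖ := by
  have h1 : ‖w‖ * ‖1 + z‖ ^ 2 = 4 * ‖z‖ := by
    have := congrArg norm h
    rw [norm_mul, norm_pow, norm_mul] at this
    simpa using this
  have h2 : ‖1 + z‖ ≤ 2 := by
    have := norm_add_le (1 : ℂ) z
    rw [norm_one] at this
    linarith
  have h3 : ‖1 + z‖ ^ 2 ≤ 4 := by nlinarith [norm_nonneg (1 + z)]
  nlinarith [norm_nonneg w]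

private theorem tower1_one {z w : ℂ} (hz : ‖z‖ = 1) (hw : ‖w‖ = 1)
    (h : w * (1 + z) ^ 2 = 4 * z) : z = 1 := by
  have h1 : ‖1 + z‖ ^ 2 = 4 := by
    have := congrArg norm h
    rw [norm_mul, norm_pow, norm_mul, hz, hw] at this
    simpa using this
  have h2 : z.re * z.re + z.im * z.im = 1 := by
    rw [← Complex.normSq_apply, Complex.normSq_eq_norm_sq, hz]
    norm_num
  have h3 : (1 + z.re) * (1 + z.re) + z.im * z.im = 4 := by
    have := Complex.normSq_apply (1 + z)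
    rw [Complex.normSq_eq_norm_sq, h1] at this
    simpa using this.symm
  have h4 : z.re = 1 := by nlinarith
  have h5 : z.im = 0 := by
    rw [h4] at h2
    have : z.im * z.im = 0 := by linarith
    exact mul_self_eq_zero.1 this
  exact Complex.ext (by simpa using h4) (by simpa using h5)

theorem IsTower.small {ι : AlgebraicClosure ℚ →+* ℂ} {a : AlgebraicClosure ℚ}
    {α μ : ℕ → AlgebraicClosure ℚ} (H : IsTower ι a α μ) (ha0 : a ≠ 0) (ha1 : a ≠ 1) :
    ∃ (N : ℕ) (δ : ℝ), 0 < δ ∧ δ < 1 ∧ ∀ n, ‖ι (α (N + n))‖ ≤ δ ^ (2 ^ n) := by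
  obtain ⟨hα, hμ⟩ := H.ne ha0 ha1
  have hrel : ∀ n, ι (α n) * (1 + ι (μ n)) ^ 2 = 4 * ι (μ n) := by
    intro n
    have := congrArg ι (H.rel n)
    rw [map_mul, map_pow, map_add, map_one, map_mul, map_ofNat] at this
    exact this
  have hsucc : ∀ n, ‖ι (α (n + 1))‖ = ‖ι (μ n)‖ ^ 2 := by
    intro n
    rw [H.succ, map_pow, norm_pow]
  have hle : ∀ n, ‖ι (μ n)‖ ≤ ‖ι (α n)‖ := fun n => tower1_norm (H.le n) (hrel n)
  have hN : ∃ N, ‖ι (α N)‖ < 1 := by
    by_cases h0 : ‖ι (μ 0)‖ < 1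
    · refine ⟨0 + 1, ?_⟩
      rw [hsucc]
      exact pow_lt_one₀ (norm_nonneg _) h0 (by norm_num)
    · have h0' : ‖ι (μ 0)‖ = 1 := le_antisymm (H.le 0) (not_lt.1 h0)
      have h1 : ‖ι (α 1)‖ = 1 := by
        have := hsucc 0
        rw [h0', one_pow] at this
        exact this
      by_cases h2 : ‖ι (μ 1)‖ < 1
      · refine ⟨1 + 1, ?_⟩
        rw [hsucc]
        exact pow_lt_one₀ (norm_nonneg _) h2 (by norm_num)
      · exfalso
        have h2' : ‖ι (μ 1)‖ = 1 := le_antisymm (H.le 1) (not_lt.1 h2)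
        have h3 := tower1_one h2' h1 (hrel 1)
        apply (hμ 1).2.1
        apply ι.injective
        rw [h3, map_one]
  obtain ⟨N, hN⟩ := hN
  refine ⟨N, ‖ι (α N)‖, ?_, hN, fun n => ?_⟩
  · rw [norm_pos_iff]
    exact (map_ne_zero ι).2 (hα N).1
  · induction n with
    | zero => simp
    | succ n ih =>
      rw [← add_assoc, hsucc, pow_succ 2 n, pow_mul]
      exact pow_le_pow_left₀ (norm_nonneg _) ((hle _).trans ih) 2

end ZC
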