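import Pool.Agent.ZC.FinalU

/-!
Module TwoPoints (project ZC, helper83): an arbitrary pair of points of `E_a` is orthogonal to points of
infinite order on infinitely many elliptic curves.
-/

namespace ZC

open Polynomial WeierstrassCurve
open scoped Classical

theorem tp_pow_large {x : ℝ} (hx0 : 0 < x) (hx1 : x < 1) (M : ℝ) : ∃ k : ℕ, M < (x⁻¹) ^ k :=
  pow_unbounded_of_one_lt M ((one_lt_inv₀ hx0).2 hx1)

/-- a multiple of a point of infinite order has arbitrarily large `x`-coordinate -/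
theorem tp_large {v : AbsoluteValue (AlgebraicClosure ℚ) ℝ} {p : ℕ} (Hv : IsPAdic v p)
    (hC : ∀ (L : IntermediateField ℚ (AlgebraicClosure ℚ)) [FiniteDimensional ℚ L]
      (x y : ℕ → L), (∀ n, v (x n) ≤ 1) → (∀ n, v (y n) ≤ 1) →
          ∃ i j, i < j ∧ v ((x i : AlgebraicClosure ℚ) - x j) < 1 ∧
            v ((y i : AlgebraicClosure ℚ) - y j) < 1)
    {a : AlgebraicClosure ℚ} (ha0 : a ≠ 0) (ha1 : a ≠ 1) (ha : v a = 1) (ha' : v (1 - a) = 1)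
    (P : Pt a) (hP : ∀ N : ℕ, 0 < N → N • P ≠ 0) (M : ℝ) :
    ∃ m : ℕ, 0 < m ∧ M < v (xc (m • P)) := by
  obtain ⟨m₀, hm₀, h₀⟩ := exists_multiple_large Hv hC ha0 ha1 ha ha' P hP
  have hp0 : (p : AlgebraicClosure ℚ) ≠ 0 := by exact_mod_cast Hv.prime.ne_zero
  have vp0 : 0 < v (p : AlgebraicClosure ℚ) := v.pos hp0
  have vp1 := Hv.lt
  have hinv : 1 < (v (p : AlgebraicClosure ℚ))⁻¹ := (one_lt_inv₀ vp0).2 vp1
  have step : ∀ k : ℕ, (v (p : AlgebraicClosure ℚ))⁻¹ ^ k < v (xc ((p ^ k * m₀) • P)) ∧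
      (v (p : AlgebraicClosure ℚ))⁻¹ < v (xc ((p ^ k * m₀) • P)) := by
    intro k
    have hbase : (v (p : AlgebraicClosure ℚ))⁻¹ < v (xc (m₀ • P)) := by
      rw [inv_lt_iff_one_lt_mul₀ vp0]
      linarith [mul_comm (v (p : AlgebraicClosure ℚ)) (v (xc (m₀ • P)))]
    induction k with
    | zero =>
      rw [pow_zero, pow_zero, one_mul]
      exact ⟨hinv.trans hbase, hbase⟩
    | succ k ih =>
      set R : Pt a := (p ^ k * m₀) • P with hR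
      have hR1 : 1 < v (xc R) := hinv.trans ih.2
      have hnt : ∀ N : ℕ, 0 < N → N • R ≠ 0 := by
        intro N hN h
        rw [hR, ← mul_nsmul'] at h
        exact hP _ (Nat.mul_pos hN (Nat.mul_pos (pow_pos Hv.prime.pos _) hm₀)) h
      have h1 := p_step Hv ha0 ha1 ha.le R hR1 hnt
      have hmin : min (v (p : AlgebraicClosure ℚ))⁻¹ (v (xc R)) = (v (p : AlgebraicClosure ℚ))⁻¹ :=
        min_eq_left ih.2.le
      rw [hmin] at h1
      have e : (p ^ (k + 1) * m₀) • P = p • R := by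
        rw [hR, ← mul_nsmul', pow_succ]
        congr 1
        ring
      rw [e]
      have h2 : (v (p : AlgebraicClosure ℚ))⁻¹ ≤ ((v (p : AlgebraicClosure ℚ))⁻¹) ^ 2 := by
        nlinarith
      have h3 : v (xc R) * (v (p : AlgebraicClosure ℚ))⁻¹ ≤ v (xc (p • R)) :=
        (mul_le_mul_of_nonneg_left h2 (by linarith)).trans h1
      constructor
      · rw [pow_succ]
        exact (mul_lt_mul_of_pos_right ih.1 (by linarith)).trans_le h3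
      · refine lt_of_lt_of_le ?_ h3
        nlinarith
  obtain ⟨k, hk⟩ := tp_pow_large vp0 vp1 M
  exact ⟨p ^ k * m₀, Nat.mul_pos (pow_pos Hv.prime.pos _) hm₀, hk.trans (step k).1⟩

/-- every point is `Good t` for a suitable `t` of large absolute value -/
theorem tp_good {v : AbsoluteValue (AlgebraicClosure ℚ) ℝ} {p : ℕ} (Hv : IsPAdic v p)
    (hC : ∀ (L : IntermediateField ℚ (AlgebraicClosure ℚ)) [FiniteDimensional ℚ L]
      (x y : ℕ → L), (∀ n, v (x n) ≤ 1) → (∀ n, v (y n) ≤ 1) →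
          ∃ i j, i < j ∧ v ((x i : AlgebraicClosure ℚ) - x j) < 1 ∧
            v ((y i : AlgebraicClosure ℚ) - y j) < 1)
    (L : Subfield (AlgebraicClosure ℚ))
    {a : AlgebraicClosure ℚ} (ha0 : a ≠ 0) (ha1 : a ≠ 1) (ha : v a = 1) (ha' : v (1 - a) = 1)
    (haL : a ∈ L) (P : Pt a) (hP : xc P ∈ L ∧ yc P ∈ L) (M : ℝ) :
    ∃ t : AlgebraicClosure ℚ, M < v t ∧ t ∈ L ∧ Good t P := by
  have hp0 : (p : AlgebraicClosure ℚ) ≠ 0 := by exact_mod_cast Hv.prime.ne_zero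
  have vp0 : 0 < v (p : AlgebraicClosure ℚ) := v.pos hp0
  by_cases hP' : ∃ N : ℕ, 0 < N ∧ N • P = 0
  · obtain ⟨k, hk⟩ := tp_pow_large vp0 Hv.lt M
    refine ⟨((p : AlgebraicClosure ℚ)⁻¹) ^ k, ?_, L.pow_mem (L.inv_mem (natCast_mem L p)) k,
      Or.inl hP'⟩
    rw [v.map_pow, map_inv₀]
    exact hk
  · push Not at hP'
    obtain ⟨m, hm, hm2⟩ := tp_large Hv hC ha0 ha1 ha ha' P hP' (max M 1)
    have hM := (le_max_left M 1).trans_lt hm2
    have h1 := (le_max_right M 1).trans_lt hm2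
    obtain ⟨p₁, g1, g2, g3, g4, g5⟩ := fn_four ha0 ha1
    refine ⟨xc (m • P), hM, (coord_nsmul_mem L haL P hP m).1,
      Or.inr ⟨a, Corr.idOf rfl, m • P, p₁, m, 4, ha0, ha1, ?_, hm,
      by norm_num, hP' m hm, rfl, by rw [Corr.idOf_base], g1, g2, g3, g4,
      by rw [Corr.idOf_base]; exact g5⟩⟩
    intro h
    rw [h, ha] at h1
    exact lt_irrefl _ h1

/-- the common point: `Q ∈ E_d`, `d = t₁ / t₂`, `x = t₁`, is also the point with `x = t₂` of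
`E_{1/d}` -/
theorem tp_point {v : AbsoluteValue (AlgebraicClosure ℚ) ℝ} {p : ℕ} (Hv : IsPAdic v p)
    {t₁ t₂ : AlgebraicClosure ℚ} (h1 : 1 < v t₁ * v (p : AlgebraicClosure ℚ))
    (h12 : v t₁ < v t₂) :
    t₁ / t₂ ≠ 0 ∧ t₁ / t₂ ≠ 1 ∧ ∃ Q : Pt (t₁ / t₂), xc Q = t₁ ∧
      Good t₁ Q ∧ Good t₂ Q ∧ ∀ N : ℕ, 0 < N → N • Q ≠ 0 := by
  have hp0 : (p : AlgebraicClosure ℚ) ≠ 0 := by exact_mod_cast Hv.prime.ne_zero
  have vp0 : 0 < v (p : AlgebraicClosure ℚ) := v.pos hp0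
  have vp1 := Hv.lt
  have vt1 : 1 < v t₁ := by
    by_contra hcon
    push Not at hcon
    have : v t₁ * v (p : AlgebraicClosure ℚ) ≤ 1 * 1 :=
      mul_le_mul hcon vp1.le vp0.le zero_le_one
    linarith
  have vt2 : 1 < v t₂ := vt1.trans h12
  have ht1 : t₁ ≠ 0 := by rintro rfl; rw [v.map_zero] at vt1; linarith
  have ht2 : t₂ ≠ 0 := by rintro rfl; rw [v.map_zero] at vt2; linarith
  set d : AlgebraicClosure ℚ := t₁ / t₂ with hd
  have vd : v d = v t₁ / v t₂ := by rw [hd, map_div₀]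
  have vd1 : v d < 1 := by
    rw [vd, div_lt_one (by linarith)]
    exact h12
  have hd0 : d ≠ 0 := div_ne_zero ht1 ht2
  have hd1 : d ≠ 1 := by rintro h; rw [h, v.map_one] at vd1; exact lt_irrefl _ vd1
  have hi0 : d⁻¹ ≠ 0 := inv_ne_zero hd0
  have hi1 : d⁻¹ ≠ 1 := fun h => hd1 (inv_eq_one.1 h)
  obtain ⟨Θ, hadd, -, hx⟩ := exists_iso_inv_x hd0 hd1
  obtain ⟨q, hq0, hqx⟩ := fin_point hi0 hi1 t₂
  obtain ⟨g1, g2⟩ := hx q hq0
  have hQx : xc (Θ.base q) = t₁ := by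
    rw [g2, hqx, hd]
    field_simp
  refine ⟨hd0, hd1, Θ.base q, hQx, ?_, ?_, ?_⟩
  · obtain ⟨p₁, k1, k2, k3, k4, k5⟩ := fn_four hd0 hd1
    refine Or.inr ⟨d, Corr.idOf rfl, Θ.base q, p₁, 1, 4, hd0, hd1, ?_, one_pos,
      by norm_num, g1, hQx, by rw [Corr.idOf_base, one_nsmul], k1, k2, k3, k4,
      by rw [Corr.idOf_base]; exact k5⟩
    intro h
    rw [h] at vt1
    linarith
  · obtain ⟨p₁, k1, k2, k3, k4, k5⟩ := fn_four hi0 hi1
    refine Or.inr ⟨d⁻¹, Θ, q, p₁, 1, 4, hi0, hi1, ?_, one_pos,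
      by norm_num, hq0, hqx, by rw [one_nsmul], k1, k2, k3, k4, ?_⟩
    · intro h
      rw [hd, inv_div] at h
      have h3 : t₁ = 1 := by
        rw [eq_div_iff ht1] at h
        have : t₂ * (t₁ - 1) = 0 := by linear_combination h
        rcases mul_eq_zero.1 this with h4 | h4
        · exact absurd h4 ht2
        · linear_combination h4
      rw [h3, v.map_one] at vt1
      exact lt_irrefl _ vt1
    · let θ : Pt d⁻¹ →+ Pt d := AddMonoidHom.mk' Θ.base hadd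
      change 4 • θ p₁ = 0
      rw [← map_nsmul, k5, map_zero]
  · intro N hN hNQ
    have := torsion_bound Hv hd0 hd1 vd1.le (Θ.base q) hN hNQ
    rw [hQx] at this
    linarith

theorem two_points (L : Subfield (AlgebraicClosure ℚ)) (a : AlgebraicClosure ℚ) (haL : a ∈ L)
    (ha0 : a ≠ 0) (ha1 : a ≠ 1) (P₁ P₂ : Pt a) (h₁ : xc P₁ ∈ L ∧ yc P₁ ∈ L)
    (h₂ : xc P₂ ∈ L ∧ yc P₂ ∈ L) :
    {d : AlgebraicClosure ℚ | d ∈ L ∧ d ≠ 0 ∧ d ≠ 1 ∧
      ∃ (A : AddSubgroup (Pt a)) (B : AddSubgroup (Pt d)), P₁ ∈ A ∧ P₂ ∈ A ∧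
      (∃ f : ℕ → A, LinearIndependent ℤ f) ∧
      (∃ Q ∈ B, xc Q ∈ L ∧ ∀ N : ℕ, 0 < N → N • Q ≠ 0) ∧
      (∀ (R : Pt a) (m : ℕ), 0 < m → m • R ∈ A → R ∈ A) ∧
      (∀ (R : Pt d) (m : ℕ), 0 < m → m • R ∈ B → R ∈ B) ∧
      (∀ Θ : Corr a a, (∀ x y, Θ.base (x + y) = Θ.base x + Θ.base y) →
        ∀ R ∈ A, Θ.base R ∈ A) ∧
      (∀ Θ : Corr d d, (∀ x y, Θ.base (x + y) = Θ.base x + Θ.base y) →
        ∀ R ∈ B, Θ.base R ∈ B) ∧
      ∀ c : Cycles a d, (∀ z ∈ c.support, z.1 ∈ A ∧ z.2 ∈ B) →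
        (c.sum fun _ n => n) = 0 → (c.sum fun z n => n • z.1) = 0 →
        (c.sum fun z n => n • z.2) = 0 → ∃ N : ℕ, 0 < N ∧ N • c ∈ ratZero a d}.Infinite := by
  have halg : Algebra.IsAlgebraic ℚ (AlgebraicClosure ℚ) := AlgebraicClosure.isAlgebraic ℚ
  have ι : AlgebraicClosure ℚ →+* ℂ :=
    (IsAlgClosed.lift : AlgebraicClosure ℚ →ₐ[ℚ] ℂ).toRingHom
  obtain ⟨p, v, Hv, hSv, hC⟩ := exists_padic {a, 1 - a} (by
    intro x hx
    rw [Finset.mem_insert, Finset.mem_singleton] at hx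
    rcases hx with rfl | rfl
    · exact ha0
    · exact sub_ne_zero.2 (Ne.symm ha1))
  have va : v a = 1 := hSv _ (by simp)
  have va' : v (1 - a) = 1 := hSv _ (by simp)
  have hp0 : (p : AlgebraicClosure ℚ) ≠ 0 := by exact_mod_cast Hv.prime.ne_zero
  have vp0 : 0 < v (p : AlgebraicClosure ℚ) := v.pos hp0
  obtain ⟨t₁, ht₁, htL₁, hG₁⟩ := tp_good Hv hC L ha0 ha1 va va' haL P₁ h₁
    (v (p : AlgebraicClosure ℚ))⁻¹
  have h1 : 1 < v t₁ * v (p : AlgebraicClosure ℚ) := by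
    rw [inv_lt_iff_one_lt_mul₀ vp0] at ht₁
    linarith [mul_comm (v t₁) (v (p : AlgebraicClosure ℚ))]
  have vt1 : 1 < v t₁ := ((one_lt_inv₀ vp0).2 Hv.lt).trans ht₁
  -- the group `A`
  obtain ⟨α, μ, Ha⟩ := exists_tower ι ha0 ha1
  have Hne := Ha.ne ha0 ha1
  choose Φ hΦ p₁ M hM hp₁ g0 g1 g2 g3 using fun n => fu_chain Ha ha0 ha1 Hv va n
  choose pp hpp0 hppx using fun n => fin_point (Hne.1 n).1 (Hne.1 n).2 t₁
  obtain ⟨f, hf, hl⟩ := infinite_rankU Ha ha0 ha1 Hv va t₁ h1 0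
    (fun n => (Φ n).base (pp n)) (fun n _ => by
      have := hΦ n (pp n) (by rw [hppx]; exact vt1)
      rw [hppx] at this
      exact this)
  have key : ∀ x ∈ {Q | ∃ n, 0 ≤ n ∧ Q = (Φ n).base (pp n)}, Good t₁ x := by
    rintro x ⟨n, -, rfl⟩
    refine Or.inr ⟨α n, Φ n, pp n, p₁ n, 1, M n, (Hne.1 n).1, (Hne.1 n).2, ?_, one_pos, hM n,
      hpp0 n, hppx n, by rw [one_nsmul], hp₁ n, g0 n, g1 n, g2 n, g3 n⟩
    intro h
    have u1 := (fu_tower Ha Hv va n).1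
    rw [h, u1] at vt1
    linarith
  have main : ∀ ε : ℝ, 0 < ε → ∃ d, v d < ε ∧ (d ∈ L ∧ d ≠ 0 ∧ d ≠ 1 ∧
      ∃ (A : AddSubgroup (Pt a)) (B : AddSubgroup (Pt d)), P₁ ∈ A ∧ P₂ ∈ A ∧
      (∃ f : ℕ → A, LinearIndependent ℤ f) ∧
      (∃ Q ∈ B, xc Q ∈ L ∧ ∀ N : ℕ, 0 < N → N • Q ≠ 0) ∧
      (∀ (R : Pt a) (m : ℕ), 0 < m → m • R ∈ A → R ∈ A) ∧
      (∀ (R : Pt d) (m : ℕ), 0 < m → m • R ∈ B → R ∈ B) ∧
      (∀ Θ : Corr a a, (∀ x y, Θ.base (x + y) = Θ.base x + Θ.base y) →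
        ∀ R ∈ A, Θ.base R ∈ A) ∧
      (∀ Θ : Corr d d, (∀ x y, Θ.base (x + y) = Θ.base x + Θ.base y) →
        ∀ R ∈ B, Θ.base R ∈ B) ∧
      ∀ c : Cycles a d, (∀ z ∈ c.support, z.1 ∈ A ∧ z.2 ∈ B) →
        (c.sum fun _ n => n) = 0 → (c.sum fun z n => n • z.1) = 0 →
        (c.sum fun z n => n • z.2) = 0 → ∃ N : ℕ, 0 < N ∧ N • c ∈ ratZero a d) := by
    intro ε hε
    obtain ⟨t₂, ht₂, htL₂, hG₂⟩ := tp_good Hv hC L ha0 ha1 va va' haL P₂ h₂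
      (max (v t₁) (v t₁ / ε))
    have h12 : v t₁ < v t₂ := (le_max_left _ _).trans_lt ht₂
    have h12' : v t₁ / ε < v t₂ := (le_max_right _ _).trans_lt ht₂
    obtain ⟨hd0, hd1, Q, kx, k1, k2, k3⟩ := tp_point Hv h1 h12
    refine ⟨t₁ / t₂, ?_, L.div_mem htL₁ htL₂, hd0, hd1, sat (AddSubgroup.closure {R | Good t₁ R ∨ Good t₂ R}),
      sat (AddSubgroup.closure {R | Good t₁ R ∧ Good t₂ R}),
      le_sat _ (AddSubgroup.subset_closure (Or.inl hG₁)),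
      le_sat _ (AddSubgroup.subset_closure (Or.inr hG₂)), ?_,
      ⟨Q, le_sat _ (AddSubgroup.subset_closure ⟨k1, k2⟩), by rw [kx]; exact htL₁, k3⟩,
      fun R m hm h => sat_sat _ R m hm h, fun R m hm h => sat_sat _ R m hm h,
      fun Θ hΘ R hR => sat_closure_map Θ hΘ {R | Good t₁ R ∨ Good t₂ R} {R | Good t₁ R ∨ Good t₂ R}
        (fun x hx => hx.imp (Good.map Θ hΘ) (Good.map Θ hΘ)) hR,
      fun Θ hΘ R hR => sat_closure_map Θ hΘ {R | Good t₁ R ∧ Good t₂ R} {R | Good t₁ R ∧ Good t₂ R}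
        (fun x hx => ⟨Good.map Θ hΘ hx.1, Good.map Θ hΘ hx.2⟩) hR, ?_⟩
    · rw [map_div₀, div_lt_iff₀ (by linarith)]
      rw [div_lt_iff₀ hε] at h12'
      linarith [mul_comm (v t₂) ε]
    · refine fin_lin _ f (fun i => ?_) hl
      exact le_sat _ (AddSubgroup.closure_mono (fun x hx => Or.inl (key x hx)) (hf i))
    · intro c hc c0 c1 c2
      refine supported ha0 ha1 hd0 hd1
        {R | R ∈ sat (AddSubgroup.closure {R | Good t₁ R ∨ Good t₂ R})}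
        {R | R ∈ sat (AddSubgroup.closure {R | Good t₁ R ∧ Good t₂ R})} ?_ c
        (fun z hz => ⟨AddSubgroup.subset_closure (hc z hz).1,
          AddSubgroup.subset_closure (hc z hz).2⟩) c0 c1 c2
      intro x hx y hy
      refine sat_pair ha0 ha1 hd0 hd1 _ _ ?_ hx hy
      rintro x hx y hy
      have ht10 : t₁ ≠ 0 := by rintro rfl; rw [v.map_zero] at vt1; linarith
      have ht11 : t₁ ≠ 1 := by rintro rfl; rw [v.map_one] at vt1; linarith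
      have vt2 : 1 < v t₂ := vt1.trans h12
      have ht20 : t₂ ≠ 0 := by rintro rfl; rw [v.map_zero] at vt2; linarith
      have ht21 : t₂ ≠ 1 := by rintro rfl; rw [v.map_one] at vt2; linarith
      rcases hx with hx | hx
      · exact good_pair ha0 ha1 hd0 hd1 ht10 ht11 hx hy.1
      · exact good_pair ha0 ha1 hd0 hd1 ht20 ht21 hx hy.2
  intro hfin
  -- the minimum of the values
  obtain ⟨d₁, -, hd₁⟩ := main 1 one_pos
  obtain ⟨d₀, hd₀, hmin⟩ := Set.exists_min_image _ (fun d => v d) hfin ⟨d₁, hd₁⟩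
  obtain ⟨d, hlt, hd⟩ := main (v d₀) (v.pos hd₀.2.1)
  exact absurd (hmin d hd) (not_le.2 hlt)

end ZC
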